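import Pool.Agent.AMO75.Nrm

/-!
# [AMO75-AGMON] decay in a barrier

Proof. Induction on `K`; `K = 0` clear. Step: put `a' = a + K ℓ`, `b' = b - K ℓ`. If `b' - ℓ < a' + ℓ` the left side is `0`. Otherwise let
`θ n = clamp of min ((n - a') / ℓ) ((b' - n) / ℓ) to [0, 1]`: `θ = 1` on `[a' + ℓ, b' - ℓ]`, `θ = 0` outside of `(a', b')`,
`|θ (n+1) - θ n| ≤ 1 / ℓ`. The function `θ ψ` is supported in `[a, b]`, so by `hlow`
`(η / 2) nm (θ ψ) ≤ nm (Rs v E (θ ψ))`, and by `Rs_mul` `Rs v E (θ ψ) n = θ n f n + (θ (n+1) - θ n) ψ (n+1) + (θ (n-1) - θ n) ψ (n-1)`,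
`f = Rs v E ψ`. If `θ (n+1) ≠ θ n` then `a' ≤ n < b'`, so `a' ≤ n+1 ≤ b'`; similarly for `n-1`. So
`nm (Rs v E (θ ψ)) ≤ nm (on a b f) + (2 / ℓ) nm (on a' b' ψ)` (triangle inequality, `nm_mono`, `nm_shift`), and
`nm (on (a'+ℓ) (b'-ℓ) ψ) ≤ nm (θ ψ) ≤ (2 / η) nm (on a b f) + (4 / (η ℓ)) nm (on a' b' ψ)`, `4 / (η ℓ) ≤ 1/4`. Insert the induction hypothesis.
-/

set_option autoImplicit false

open Real

namespace AMO75

theorem agmon_step (v : ℤ → ℝ) (a b a' b' : ℤ) (η E : ℝ) (hη : 0 < η) (l : ℕ) (hl : 16 / η ≤ l)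
    (hlow : ∀ u : ℤ → ℂ, (∀ n, u n ≠ 0 → a ≤ n ∧ n ≤ b) → η / 2 * nm u ≤ nm (Rs v E u)) (ψ : ℤ → ℂ)
    (ha : a ≤ a') (hb : b' ≤ b) :
    nm (on (a' + l) (b' - l) ψ) ≤ 2 / η * nm (on a b (Rs v E ψ)) + 1 / 4 * nm (on a' b' ψ) := by
  have hl0 : (0 : ℝ) < l := lt_of_lt_of_le (by positivity) hl
  set θ : ℤ → ℝ := fun n => max 0 (min 1 (min (((n : ℝ) - a') / l) ((b' - (n : ℝ)) / l))) with hθ
  have h0 : ∀ n, 0 ≤ θ n := fun n => le_max_left _ _
  have h1 : ∀ n, θ n ≤ 1 := fun n => max_le zero_le_one (min_le_left _ _)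
  have hza : ∀ n : ℤ, n ≤ a' → θ n = 0 := by
    intro n hn
    have : ((n : ℝ) - a') / l ≤ 0 := by
      apply div_nonpos_of_nonpos_of_nonneg _ hl0.le
      have : (n : ℝ) ≤ a' := by exact_mod_cast hn
      linarith
    exact max_eq_left ((min_le_right _ _).trans ((min_le_left _ _).trans this))
  have hzb : ∀ n : ℤ, b' ≤ n → θ n = 0 := by
    intro n hn
    have : (b' - (n : ℝ)) / l ≤ 0 := by
      apply div_nonpos_of_nonpos_of_nonneg _ hl0.le
      have : (b' : ℝ) ≤ n := by exact_mod_cast hn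
      linarith
    exact max_eq_left ((min_le_right _ _).trans ((min_le_right _ _).trans this))
  have hone : ∀ n : ℤ, a' + l ≤ n → n ≤ b' - l → θ n = 1 := by
    intro n hn hn'
    have e1 : (1 : ℝ) ≤ ((n : ℝ) - a') / l := by
      rw [le_div_iff₀ hl0]
      have : ((a' + l : ℤ) : ℝ) ≤ n := by exact_mod_cast hn
      push_cast at this
      linarith
    have e2 : (1 : ℝ) ≤ (b' - (n : ℝ)) / l := by
      rw [le_div_iff₀ hl0]
      have : (n : ℝ) ≤ ((b' - l : ℤ) : ℝ) := by exact_mod_cast hn'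
      push_cast at this
      linarith
    have e3 : min (1 : ℝ) (min (((n : ℝ) - a') / l) ((b' - (n : ℝ)) / l)) = 1 := min_eq_left (le_min e1 e2)
    simp only [hθ]
    rw [e3]
    exact max_eq_right zero_le_one
  have hlip : ∀ n : ℤ, |θ (n + 1) - θ n| ≤ 1 / l := by
    intro n
    simp only [hθ]
    refine (abs_max_sub_max_le_max _ _ _ _).trans (max_le (by simp) ?_)
    refine (abs_min_sub_min_le_max _ _ _ _).trans (max_le (by simp) ?_)
    refine (abs_min_sub_min_le_max _ _ _ _).trans (max_le ?_ ?_)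
    · rw [← sub_div]
      push_cast
      rw [show (n : ℝ) + 1 - a' - (n - a') = 1 by ring, abs_of_pos (by positivity)]
    · rw [← sub_div]
      push_cast
      rw [show (b' : ℝ) - (n + 1) - (b' - n) = -1 by ring, abs_div, abs_neg, abs_one, abs_of_pos hl0]
  have hlip' : ∀ n : ℤ, |θ (n - 1) - θ n| ≤ 1 / l := by
    intro n
    have := hlip (n - 1)
    rw [sub_add_cancel, abs_sub_comm] at this
    exact this
  -- the cut-off function
  have hsupp : ∀ n, ((θ n : ℂ) * ψ n) ≠ 0 → a ≤ n ∧ n ≤ b := by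
    intro n hn
    have hθn : θ n ≠ 0 := by
      intro h
      apply hn
      rw [h]
      simp
    constructor
    · by_contra hc
      exact hθn (hza n (by omega))
    · by_contra hc
      exact hθn (hzb n (by omega))
  have hFS : FS (fun n => (θ n : ℂ) * ψ n) := FS_of_Icc a b hsupp
  have hmain := hlow _ hsupp
  have hle1 : nm (on (a' + l) (b' - l) ψ) ≤ nm (fun n => (θ n : ℂ) * ψ n) := by
    apply nm_mono hFS
    intro n
    unfold on
    split_ifs with h
    · rw [hone n h.1 h.2]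
      simp
    · rw [norm_zero]
      exact norm_nonneg _
  -- the three pieces
  have hA : nm (fun n => (θ n : ℂ) * Rs v E ψ n) ≤ nm (on a b (Rs v E ψ)) := by
    apply nm_mono (FS_on _ _ _)
    intro n
    unfold on
    split_ifs with h
    · rw [norm_mul, Complex.norm_real, Real.norm_eq_abs, abs_of_nonneg (h0 n)]
      exact mul_le_of_le_one_left (norm_nonneg _) (h1 n)
    · have : θ n = 0 := by
        rcases not_and_or.1 h with h | h
        · exact hza n (by omega)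
        · exact hzb n (by omega)
      rw [this]
      simp
  have hFA : FS (fun n => (θ n : ℂ) * Rs v E ψ n) := by
    apply (FS_on a b (Rs v E ψ)).of_le
    intro n hn
    by_cases h : a ≤ n ∧ n ≤ b
    · unfold on at hn
      rw [if_pos h] at hn
      rw [hn, mul_zero]
    · have : θ n = 0 := by
        rcases not_and_or.1 h with h | h
        · exact hza n (by omega)
        · exact hzb n (by omega)
      rw [this]
      simp
  have hgen : ∀ (c : ℤ → ℝ) (k : ℤ), (∀ n, |c n| ≤ 1 / l) → (∀ n, ¬ (a' ≤ n + k ∧ n + k ≤ b') → c n = 0) →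
      FS (fun n => (c n : ℂ) * ψ (n + k)) ∧ nm (fun n => (c n : ℂ) * ψ (n + k)) ≤ 1 / l * nm (on a' b' ψ) := by
    intro c k hc hc0
    have hF : FS (fun n => on a' b' ψ (n + k)) := (FS_on a' b' ψ).shift k
    have heq : (fun n => (c n : ℂ) * ψ (n + k)) = fun n => (c n : ℂ) * on a' b' ψ (n + k) := by
      funext n
      unfold on
      split_ifs with h
      · rfl
      · rw [hc0 n h]
        simp
    rw [heq]
    refine ⟨hF.mul _, ?_⟩
    refine (nm_mul_le hF (C := 1 / l) (fun n _ => ?_) (by positivity)).trans ?_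
    · rw [Complex.norm_real, Real.norm_eq_abs]
      exact hc n
    · rw [nm_shift]
  have hB := hgen (fun n => θ (n + 1) - θ n) 1 hlip (by
    intro n h
    rcases not_and_or.1 h with h | h
    · simp only [hza n (by omega), hza (n + 1) (by omega), sub_self]
    · simp only [hzb n (by omega), hzb (n + 1) (by omega), sub_self])
  have hC := hgen (fun n => θ (n - 1) - θ n) (-1) hlip' (by
    intro n h
    rcases not_and_or.1 h with h | h
    · simp only [hza n (by omega), hza (n - 1) (by omega), sub_self]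
    · simp only [hzb n (by omega), hzb (n - 1) (by omega), sub_self])
  have hRs : Rs v E (fun n => (θ n : ℂ) * ψ n) = fun n => ((θ n : ℂ) * Rs v E ψ n
      + ((θ (n + 1) - θ n : ℝ) : ℂ) * ψ (n + 1)) + ((θ (n - 1) - θ n : ℝ) : ℂ) * ψ (n + -1) := by
    funext n
    rw [Rs_mul, ← sub_eq_add_neg]
  have hle2 : nm (Rs v E (fun n => (θ n : ℂ) * ψ n)) ≤ nm (on a b (Rs v E ψ)) + 2 / l * nm (on a' b' ψ) := by
    rw [hRs]
    refine (nm_add_le (hFA.add hB.1) hC.1).trans ?_
    have h3 := nm_add_le hFA hB.1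
    have h4 := hB.2
    have h5 := hC.2
    have h6 : 2 / (l : ℝ) * nm (on a' b' ψ) = 1 / l * nm (on a' b' ψ) + 1 / l * nm (on a' b' ψ) := by ring
    linarith
  have hN := nm_nonneg (on a' b' ψ)
  have h7 : η / 2 * nm (on (a' + l) (b' - l) ψ) ≤ nm (on a b (Rs v E ψ)) + 2 / l * nm (on a' b' ψ) :=
    (mul_le_mul_of_nonneg_left hle1 (by positivity)).trans (hmain.trans hle2)
  have h8 : (2 : ℝ) / l ≤ η / 8 := by
    rw [div_le_iff₀ hl0]
    rw [div_le_iff₀ hη] at hl
    linarith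
  have h9 : 2 / (l : ℝ) * nm (on a' b' ψ) ≤ η / 8 * nm (on a' b' ψ) := mul_le_mul_of_nonneg_right h8 hN
  have h10 : nm (on (a' + l) (b' - l) ψ) = 2 / η * (η / 2 * nm (on (a' + l) (b' - l) ψ)) := by
    field_simp
  rw [h10]
  have h11 : 2 / η * (η / 2 * nm (on (a' + l) (b' - l) ψ))
      ≤ 2 / η * (nm (on a b (Rs v E ψ)) + η / 8 * nm (on a' b' ψ)) :=
    mul_le_mul_of_nonneg_left (h7.trans (by linarith)) (by positivity)
  refine h11.trans (le_of_eq ?_)
  field_simp
  ring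

theorem agmon (v : ℤ → ℝ) (a b : ℤ) (η E : ℝ) (hη : 0 < η) (hη1 : η ≤ 1) (l : ℕ) (hl : 16 / η ≤ l)
    (hlow : ∀ u : ℤ → ℂ, (∀ n, u n ≠ 0 → a ≤ n ∧ n ≤ b) → η / 2 * nm u ≤ nm (Rs v E u)) (ψ : ℤ → ℂ) (K : ℕ) :
    nm (on (a + K * l) (b - K * l) ψ) ≤ (1 / 2) ^ K * nm (on a b ψ) + 4 / η * nm (on a b (Rs v E ψ)) := by
  induction K with
  | zero =>
    have h := nm_nonneg (on a b (Rs v E ψ))
    have h2 : 0 ≤ 4 / η * nm (on a b (Rs v E ψ)) := by positivity
    simp only [Nat.cast_zero, zero_mul, add_zero, sub_zero, pow_zero, one_mul]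
    linarith
  | succ K ih =>
    have hKl : (0 : ℤ) ≤ K * l := by positivity
    have h := agmon_step v a b (a + K * l) (b - K * l) η E hη l hl hlow ψ (by linarith) (by linarith)
    have e1 : a + ((K + 1 : ℕ) : ℤ) * l = a + K * l + l := by push_cast; ring
    have e2 : b - ((K + 1 : ℕ) : ℤ) * l = b - K * l - l := by push_cast; ring
    rw [e1, e2]
    have hF := nm_nonneg (on a b (Rs v E ψ))
    have hP := nm_nonneg (on a b ψ)
    have h3 : 1 / 4 * nm (on (a + K * l) (b - K * l) ψ) ≤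
        1 / 4 * ((1 / 2) ^ K * nm (on a b ψ) + 4 / η * nm (on a b (Rs v E ψ))) :=
      mul_le_mul_of_nonneg_left ih (by norm_num)
    have h4 : 0 ≤ (1 / 2 : ℝ) ^ K * nm (on a b ψ) := by positivity
    have h5 : 0 ≤ 1 / η * nm (on a b (Rs v E ψ)) := by positivity
    have h6 : (1 / 2 : ℝ) ^ (K + 1) * nm (on a b ψ) = 1 / 2 * ((1 / 2 : ℝ) ^ K * nm (on a b ψ)) := by
      rw [pow_succ]; ring
    have h7 : 2 / η * nm (on a b (Rs v E ψ)) = 2 * (1 / η * nm (on a b (Rs v E ψ))) := by ring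
    have h8 : 4 / η * nm (on a b (Rs v E ψ)) = 4 * (1 / η * nm (on a b (Rs v E ψ))) := by ring
    rw [h6, h8]
    rw [h7] at h
    rw [h8] at h3
    linarith

end AMO75
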