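import Pool.Agent.AMO75.Nrm

/-!
# [AMO75-BARA] local lower bound (frozen phase)

If `χ u = 0` (everywhere) trivial. Otherwise there is `n₀` with `χ n₀ ≠ 0`, `u n₀ ≠ 0`, so `a ≤ n₀ ≤ b`. For every `n` with `χ n * u n ≠ 0`:
`a ≤ n ≤ b`, `|n - n₀| ≤ 2 L`, so `|x n - x n₀| ≤ 2 L d` (`hx`, sum of the increments, both points are in `[a, b]`) and
`|vp p q x n - lin (p/q) (x n₀) n| ≤ 8 π L d` (`vp_sub_le`, `lin (p/q) y = vp p q (fun _ => y)`).
Use `hfr n₀` for `χ u` and `nm_Rs_pot`.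
-/

set_option autoImplicit false

open Real

namespace AMO75

/-- sum of the increments -/
lemma abs_sub_le_of_incr {x : ℤ → ℝ} {a b : ℤ} {d : ℝ}
    (hx : ∀ n, a ≤ n → n < b → |x (n + 1) - x n| ≤ d) {m : ℤ} (hm : a ≤ m) (n : ℤ) (hmn : m ≤ n) :
    n ≤ b → |x n - x m| ≤ ((n - m : ℤ) : ℝ) * d := by
  induction n, hmn using Int.le_induction with
  | base => intro _; simp
  | succ n hn ih =>
    intro hb
    have h1 := ih (by omega)
    have h2 := hx n (by omega) (by omega)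
    have h3 : x (n + 1) - x m = (x (n + 1) - x n) + (x n - x m) := by ring
    rw [h3]
    refine (abs_add_le _ _).trans ?_
    push_cast at h1 ⊢
    linarith

theorem loc_bound (p : ℤ) (q : ℕ) (x : ℤ → ℝ) (a b : ℤ) (d η E : ℝ)
    (hd0 : 0 ≤ d) (hx : ∀ n, a ≤ n → n < b → |x (n + 1) - x n| ≤ d)
    (hfr : ∀ n, a ≤ n → n ≤ b → ∀ u : ℤ → ℂ, FS u → η * nm u ≤ nm (Rs (lin ((p : ℝ) / q) (x n)) E u))
    (u : ℤ → ℂ) (hu : ∀ n, u n ≠ 0 → a ≤ n ∧ n ≤ b) (χ : ℤ → ℝ) (j : ℤ) (L : ℕ)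
    (hχ : ∀ n, χ n ≠ 0 → |n - j| ≤ L) :
    (η - 8 * π * d * L) * nm (fun n => (χ n : ℂ) * u n) ≤ nm (Rs (vp p q x) E (fun n => (χ n : ℂ) * u n)) := by
  set w : ℤ → ℂ := fun n => (χ n : ℂ) * u n with hw
  have hwn : ∀ n, w n ≠ 0 → χ n ≠ 0 ∧ u n ≠ 0 := by
    intro n hn
    rw [hw] at hn
    exact ⟨fun h => hn (by simp [h]), fun h => hn (by simp [h])⟩
  have hF : FS w := FS_of_Icc a b fun n hn => hu n (hwn n hn).2
  by_cases h0 : w = 0
  · have h1 : nm w = 0 := (nm_eq_zero hF).2 h0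
    rw [h1, mul_zero]
    exact nm_nonneg _
  obtain ⟨n0, hn0⟩ := Function.ne_iff.1 h0
  obtain ⟨hc0, hu0⟩ := hwn n0 hn0
  obtain ⟨ha0, hb0⟩ := hu n0 hu0
  have h1 := hfr n0 ha0 hb0 w hF
  have hε : 0 ≤ 8 * π * d * L := by positivity
  have h2 : nm (Rs (lin ((p : ℝ) / q) (x n0)) E w) ≤ nm (Rs (vp p q x) E w) + 8 * π * d * L * nm w := by
    refine nm_Rs_pot _ _ E hF hε fun n hn => ?_
    obtain ⟨hc, hun⟩ := hwn n hn
    obtain ⟨ha, hb⟩ := hu n hun
    have h3 : lin ((p : ℝ) / q) (x n0) = vp p q (fun _ => x n0) := by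
      funext m
      simp only [lin, vp]
    rw [h3]
    refine (vp_sub_le p q _ _ n).trans ?_
    have h4 : |x n0 - x n| ≤ 2 * L * d := by
      have e1 := abs_le.1 (hχ n hc)
      have e2 := abs_le.1 (hχ n0 hc0)
      rcases le_total n n0 with h5 | h5
      · refine (abs_sub_le_of_incr hx ha n0 h5 hb0).trans ?_
        refine mul_le_mul_of_nonneg_right ?_ hd0
        have : n0 - n ≤ 2 * (L : ℤ) := by omega
        exact_mod_cast this
      · rw [abs_sub_comm]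
        refine (abs_sub_le_of_incr hx ha0 n h5 hb).trans ?_
        refine mul_le_mul_of_nonneg_right ?_ hd0
        have : n - n0 ≤ 2 * (L : ℤ) := by omega
        exact_mod_cast this
    calc 4 * π * |x n0 - x n| ≤ 4 * π * (2 * L * d) := by gcongr
      _ = 8 * π * d * L := by ring
  linarith

end AMO75
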