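import Pool.Agent.AMO75.Nrm

/-!
# [AMO75-BARB] averaging of local lower bounds (IMS)

`χ_j n = max 0 (L - |n - j|)` (tent function on `ℤ`), `j ∈ ℤ`.
(1) `∑_j (χ_j n)² = c₀` for all `n`, with `c₀ = (2 L³ + L) / 3 ≥ 2 L³ / 3`; `∑_j (χ_j (n+1) - χ_j n)² = 2 L =: g₀` (only `j` in a finite range
depending on `n` contribute; `≤ 2 L` is enough).
(2) Consider functions on `ℤ × ℤ`: `U (j, n) = Rs v E (χ_j u) n = χ_j n Rs v E u n + (χ_j (n+1) - χ_j n) u (n+1) + (χ_j (n-1) - χ_j n) u (n-1)` (`Rs_mul`).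
Its `nm` satisfies `nm U ^ 2 = ∑_j nm (Rs v E (χ_j u)) ^ 2 ≥ c² c₀ nm u ^ 2` and by the triangle inequality (`nm_add_le` on `ℤ × ℤ`)
`nm U ≤ √c₀ nm (Rs v E u) + 2 √g₀ nm u`. (All functions have finite support; everything can be written as finite sums over
large intervals.) So `nm (Rs v E u) ≥ (c - 2 √(g₀ / c₀)) nm u`, `2 √(g₀ / c₀) ≤ 2 √3 / L ≤ 4 / L`.
-/

set_option autoImplicit false

open Real

namespace AMO75

/-- the tent function -/
noncomputable def tent (L : ℕ) (j : ℤ) : ℤ → ℝ := fun n => max 0 ((L : ℝ) - |((n - j : ℤ) : ℝ)|)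

theorem barb_sum (l : ℝ) (M : ℕ) : ∑ k ∈ Finset.Icc (-(M : ℤ)) M, (l - |(k : ℝ)|) ^ 2
    = l ^ 2 * (2 * M + 1) - 2 * l * (M * (M + 1)) + M * (M + 1) * (2 * M + 1) / 3 := by
  induction M with
  | zero => simp
  | succ M ih =>
    have e1 : Finset.Icc (-((M + 1 : ℕ) : ℤ)) ((M + 1 : ℕ) : ℤ) =
        insert ((M : ℤ) + 1) (insert (-((M : ℤ) + 1)) (Finset.Icc (-(M : ℤ)) M)) := by
      ext k
      simp only [Finset.mem_Icc, Finset.mem_insert]
      push_cast
      omega
    rw [e1, Finset.sum_insert, Finset.sum_insert, ih]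
    · have hM : |(((M : ℤ) + 1 : ℤ) : ℝ)| = M + 1 := by
        push_cast
        exact abs_of_nonneg (by positivity)
      have hM' : |((-((M : ℤ) + 1) : ℤ) : ℝ)| = M + 1 := by
        rw [Int.cast_neg, abs_neg, hM]
      rw [hM, hM']
      push_cast
      ring
    · simp only [Finset.mem_Icc]
      omega
    · simp only [Finset.mem_insert, Finset.mem_Icc]
      omega

theorem tent_of_gt {L : ℕ} {j n : ℤ} (h : (L : ℤ) ≤ |n - j|) : tent L j n = 0 := by
  unfold tent
  apply max_eq_left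
  have : ((L : ℤ) : ℝ) ≤ ((|n - j| : ℤ) : ℝ) := by exact_mod_cast h
  rw [Int.cast_abs] at this
  push_cast at this ⊢
  linarith

theorem tent_of_le {L : ℕ} {j n : ℤ} (h : |n - j| ≤ (L : ℤ)) :
    tent L j n = (L : ℝ) - |((n - j : ℤ) : ℝ)| := by
  unfold tent
  apply max_eq_right
  have : ((|n - j| : ℤ) : ℝ) ≤ ((L : ℤ) : ℝ) := by exact_mod_cast h
  rw [Int.cast_abs] at this
  push_cast at this ⊢
  linarith

theorem tent_sum {L : ℕ} {J : Finset ℤ} {n : ℤ} (hJ : Finset.Icc (n - L) (n + L) ⊆ J) :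
    ∑ j ∈ J, tent L j n ^ 2 = (2 * (L : ℝ) ^ 3 + L) / 3 := by
  have e1 : ∑ j ∈ J, tent L j n ^ 2 = ∑ j ∈ Finset.Icc (n - L) (n + L), tent L j n ^ 2 := by
    symm
    apply Finset.sum_subset hJ
    intro j _ hj
    rw [Finset.mem_Icc] at hj
    rw [tent_of_gt, zero_pow two_ne_zero]
    rcases abs_cases (n - j) with h | h <;> omega
  have e2 : ∑ j ∈ Finset.Icc (n - L) (n + L), tent L j n ^ 2 =
      ∑ k ∈ Finset.Icc (-(L : ℤ)) L, ((L : ℝ) - |(k : ℝ)|) ^ 2 := by
    apply Finset.sum_nbij' (fun j => n - j) (fun k => n - k)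
    · intro j hj
      rw [Finset.mem_Icc] at hj ⊢
      omega
    · intro j hj
      rw [Finset.mem_Icc] at hj ⊢
      omega
    · intro j _
      ring
    · intro j _
      ring
    · intro j hj
      rw [Finset.mem_Icc] at hj
      rw [tent_of_le (abs_le.2 ⟨by omega, by omega⟩)]
  rw [e1, e2, barb_sum]
  ring

theorem tent_diff (L : ℕ) (j n : ℤ) : (tent L j (n + 1) - tent L j n) ^ 2 ≤ 1 := by
  have h1 : |tent L j (n + 1) - tent L j n| ≤ 1 := by
    unfold tent
    refine (abs_max_sub_max_le_max _ _ _ _).trans ?_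
    rw [sub_self, abs_zero]
    apply max_le zero_le_one
    have h2 : ((L : ℝ) - |((n + 1 - j : ℤ) : ℝ)| - (L - |((n - j : ℤ) : ℝ)|))
        = |((n - j : ℤ) : ℝ)| - |((n + 1 - j : ℤ) : ℝ)| := by ring
    rw [h2]
    refine (abs_abs_sub_abs_le_abs_sub _ _).trans ?_
    have h3 : ((n - j : ℤ) : ℝ) - ((n + 1 - j : ℤ) : ℝ) = -1 := by
      push_cast
      ring
    rw [h3]
    norm_num
  rw [← sq_abs]
  exact pow_le_one₀ (abs_nonneg _) h1

theorem tent_diff_sum (L : ℕ) (J : Finset ℤ) (n : ℤ) :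
    ∑ j ∈ J, (tent L j (n + 1) - tent L j n) ^ 2 ≤ 2 * L := by
  have e1 : ∑ j ∈ J, (tent L j (n + 1) - tent L j n) ^ 2
      ≤ ∑ j ∈ Finset.Icc (n - L + 1) (n + L), (1 : ℝ) := by
    calc ∑ j ∈ J, (tent L j (n + 1) - tent L j n) ^ 2
        ≤ ∑ j ∈ J ∪ Finset.Icc (n - L + 1) (n + L), (tent L j (n + 1) - tent L j n) ^ 2 :=
          Finset.sum_le_sum_of_subset_of_nonneg Finset.subset_union_left fun _ _ _ => sq_nonneg _
      _ = ∑ j ∈ Finset.Icc (n - L + 1) (n + L), (tent L j (n + 1) - tent L j n) ^ 2 := by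
          symm
          apply Finset.sum_subset Finset.subset_union_right
          intro j _ hj
          rw [Finset.mem_Icc] at hj
          rw [tent_of_gt, tent_of_gt, sub_self, zero_pow two_ne_zero]
          · rcases abs_cases (n - j) with h | h <;> omega
          · rcases abs_cases (n + 1 - j) with h | h <;> omega
      _ ≤ _ := Finset.sum_le_sum fun j _ => tent_diff L j n
  refine e1.trans ?_
  rw [Finset.sum_const, nsmul_eq_mul, mul_one, Int.card_Icc]
  have : (n + L + 1 - (n - L + 1)).toNat = 2 * L := by omega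
  rw [this]
  push_cast
  exact le_refl _

/-- weighted families -/
theorem nm_family {J S : Finset ℤ} {w : ℤ → ℂ} (hw : ∀ n ∉ S, w n = 0) (a : ℤ → ℤ → ℝ) :
    nm (fun x : ℤ × ℤ => if x.1 ∈ J then (a x.1 x.2 : ℂ) * w x.2 else 0) ^ 2
      = ∑ n ∈ S, (∑ j ∈ J, a j n ^ 2) * ‖w n‖ ^ 2 := by
  rw [nm_sq_eq_sum (J ×ˢ S)]
  · rw [Finset.sum_product, Finset.sum_comm]
    refine Finset.sum_congr rfl fun n _ => ?_
    rw [Finset.sum_mul]
    refine Finset.sum_congr rfl fun j hj => ?_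
    simp only [hj, if_true]
    rw [norm_mul, mul_pow, Complex.norm_real, Real.norm_eq_abs, sq_abs]
  · rintro ⟨j, n⟩ hx
    simp only
    rw [Finset.mem_product, not_and_or] at hx
    rcases hx with hx | hx
    · rw [if_neg hx]
    · rw [hw n hx, mul_zero, ite_self]

theorem fs_family {J : Finset ℤ} {w : ℤ → ℂ} (hw : FS w) (a : ℤ → ℤ → ℝ) :
    FS (fun x : ℤ × ℤ => if x.1 ∈ J then (a x.1 x.2 : ℂ) * w x.2 else 0) := by
  refine (J.finite_toSet.prod hw).subset ?_
  rintro ⟨j, n⟩ hx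
  rw [Function.mem_support] at hx
  by_contra hcon
  rw [Set.mem_prod, not_and_or] at hcon
  apply hx
  simp only
  rcases hcon with h | h
  · rw [if_neg (by simpa using h)]
  · have : w n = 0 := by
      rw [Function.mem_support, not_not] at h
      exact h
    rw [this, mul_zero, ite_self]

theorem ims (v : ℤ → ℝ) (E c : ℝ) (hc : 0 ≤ c) (L : ℕ) (hL : 1 ≤ L) (u : ℤ → ℂ) (hu : FS u)
    (h : ∀ j, c * nm (fun n => (tent L j n : ℂ) * u n) ≤ nm (Rs v E (fun n => (tent L j n : ℂ) * u n))) :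
    (c - 4 / L) * nm u ≤ nm (Rs v E u) := by
  classical
  have hLp : (0 : ℝ) < L := by exact_mod_cast hL
  -- a large interval
  obtain ⟨B, hB⟩ : ∃ B : ℤ, ∀ n, u n ≠ 0 → -B ≤ n ∧ n ≤ B := by
    obtain ⟨M, hM⟩ := (hu.image (fun n : ℤ => |n|)).bddAbove
    refine ⟨M, fun n hn => ?_⟩
    have := hM ⟨n, hn, rfl⟩
    simp only at this
    exact abs_le.1 this
  set S : Finset ℤ := Finset.Icc (-B - 2) (B + 2) with hS
  set J : Finset ℤ := Finset.Icc (-B - 2 - L) (B + 2 + L) with hJ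
  have hJS : ∀ n ∈ S, Finset.Icc (n - L) (n + L) ⊆ J := by
    intro n hn
    rw [hS, Finset.mem_Icc] at hn
    rw [hJ]
    apply Finset.Icc_subset_Icc <;> omega
  have hu0 : ∀ n ∉ S, u n = 0 := by
    intro n hn
    by_contra h0
    apply hn
    have := hB n h0
    rw [hS, Finset.mem_Icc]
    omega
  have hup : ∀ n ∉ S, u (n + 1) = 0 := by
    intro n hn
    by_contra h0
    apply hn
    have := hB _ h0
    rw [hS, Finset.mem_Icc]
    omega
  have hum : ∀ n ∉ S, u (n - 1) = 0 := by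
    intro n hn
    by_contra h0
    apply hn
    have := hB _ h0
    rw [hS, Finset.mem_Icc]
    omega
  have hw0 : ∀ n ∉ S, Rs v E u n = 0 := by
    intro n hn
    simp only [Rs]
    rw [hu0 n hn, hup n hn, hum n hn]
    simp
  set c₀ : ℝ := (2 * (L : ℝ) ^ 3 + L) / 3 with hc₀
  have hc₀p : 0 < c₀ := by positivity
  -- the family
  set W : ℤ × ℤ → ℂ := fun x => if x.1 ∈ J then Rs v E (fun n => (tent L x.1 n : ℂ) * u n) x.2 else 0
    with hW
  have hWeq : W = fun x => ((if x.1 ∈ J then (tent L x.1 x.2 : ℂ) * Rs v E u x.2 else 0)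
      + (if x.1 ∈ J then ((tent L x.1 (x.2 + 1) - tent L x.1 x.2 : ℝ) : ℂ) * u (x.2 + 1) else 0))
      + (if x.1 ∈ J then ((tent L x.1 (x.2 - 1) - tent L x.1 x.2 : ℝ) : ℂ) * u (x.2 - 1) else 0) := by
    funext x
    simp only [hW]
    split_ifs with hx
    · exact Rs_mul v E (tent L x.1) u x.2
    · simp
  have hFS1 : FS (fun n => u (n - 1)) := by
    have := hu.shift (-1)
    simpa [sub_eq_add_neg] using this
  have hn1 : nm (fun x : ℤ × ℤ => if x.1 ∈ J then (tent L x.1 x.2 : ℂ) * Rs v E u x.2 else 0)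
      = √c₀ * nm (Rs v E u) := by
    have e1 := nm_family (J := J) hw0 (fun j n => tent L j n)
    have e2 : ∑ n ∈ S, (∑ j ∈ J, tent L j n ^ 2) * ‖Rs v E u n‖ ^ 2 = (√c₀ * nm (Rs v E u)) ^ 2 := by
      rw [mul_pow, Real.sq_sqrt hc₀p.le, nm_sq_eq_sum S _ hw0, Finset.mul_sum]
      exact Finset.sum_congr rfl fun n hn => by rw [tent_sum (hJS n hn)]
    rw [e2] at e1
    exact (pow_left_inj₀ (nm_nonneg _) (mul_nonneg (Real.sqrt_nonneg _) (nm_nonneg _))
      two_ne_zero).1 e1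
  have hn2 : nm (fun x : ℤ × ℤ => if x.1 ∈ J then
      ((tent L x.1 (x.2 + 1) - tent L x.1 x.2 : ℝ) : ℂ) * u (x.2 + 1) else 0)
      ≤ √(2 * L) * nm u := by
    apply nm_le_of_sq_le (mul_nonneg (Real.sqrt_nonneg _) (nm_nonneg _))
    rw [nm_family (J := J) hup (fun j n => tent L j (n + 1) - tent L j n), mul_pow,
      Real.sq_sqrt (by positivity), ← nm_shift u 1, nm_sq_eq_sum S _ hup, Finset.mul_sum]
    exact Finset.sum_le_sum fun n _ =>
      mul_le_mul_of_nonneg_right (tent_diff_sum L J n) (by positivity)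
  have hn3 : nm (fun x : ℤ × ℤ => if x.1 ∈ J then
      ((tent L x.1 (x.2 - 1) - tent L x.1 x.2 : ℝ) : ℂ) * u (x.2 - 1) else 0)
      ≤ √(2 * L) * nm u := by
    apply nm_le_of_sq_le (mul_nonneg (Real.sqrt_nonneg _) (nm_nonneg _))
    have e1 : nm (fun n => u (n - 1)) = nm u := by
      have := nm_shift u (-1)
      simpa [sub_eq_add_neg] using this
    rw [nm_family (J := J) hum (fun j n => tent L j (n - 1) - tent L j n), mul_pow,
      Real.sq_sqrt (by positivity), ← e1, nm_sq_eq_sum S _ hum, Finset.mul_sum]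
    refine Finset.sum_le_sum fun n _ =>
      mul_le_mul_of_nonneg_right ?_ (by positivity)
    have := tent_diff_sum L J (n - 1)
    rw [sub_add_cancel] at this
    refine le_trans (le_of_eq ?_) this
    exact Finset.sum_congr rfl fun j _ => by ring
  have hup' : nm W ≤ √c₀ * nm (Rs v E u) + √(2 * L) * nm u + √(2 * L) * nm u := by
    rw [hWeq]
    refine (nm_add_le ((fs_family (hu.Rs v E) (fun j n => tent L j n)).add
      (fs_family (hu.shift 1) (fun j n => tent L j (n + 1) - tent L j n)))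
      (fs_family hFS1 (fun j n => tent L j (n - 1) - tent L j n))).trans ?_
    refine add_le_add ((nm_add_le (fs_family (hu.Rs v E) (fun j n => tent L j n))
      (fs_family (hu.shift 1) (fun j n => tent L j (n + 1) - tent L j n))).trans ?_) hn3
    exact add_le_add hn1.le hn2
  have hlow : c * (√c₀ * nm u) ≤ nm W := by
    apply le_of_sq_le_sq _ (nm_nonneg _)
    have hWs : ∀ x ∉ J ×ˢ S, W x = 0 := by
      rintro ⟨j, n⟩ hx
      simp only [hW]
      rw [Finset.mem_product, not_and_or] at hx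
      rcases hx with hx | hx
      · rw [if_neg hx]
      · split_ifs
        · simp only [Rs]
          rw [hu0 n hx, hup n hx, hum n hx]
          simp
        · rfl
    rw [nm_sq_eq_sum _ W hWs, Finset.sum_product]
    have e1 : (c * (√c₀ * nm u)) ^ 2 = ∑ j ∈ J, c ^ 2 * nm (fun n => (tent L j n : ℂ) * u n) ^ 2 := by
      rw [mul_pow, mul_pow, Real.sq_sqrt hc₀p.le, nm_sq_eq_sum S _ hu0, ← Finset.mul_sum]
      congr 1
      have e2 : ∀ j ∈ J, nm (fun n => (tent L j n : ℂ) * u n) ^ 2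
          = ∑ n ∈ S, tent L j n ^ 2 * ‖u n‖ ^ 2 := by
        intro j _
        rw [nm_sq_eq_sum S _ (fun n hn => by rw [hu0 n hn, mul_zero])]
        exact Finset.sum_congr rfl fun n _ => by
          rw [norm_mul, mul_pow, Complex.norm_real, Real.norm_eq_abs, sq_abs]
      rw [Finset.sum_congr rfl e2, Finset.sum_comm, Finset.mul_sum]
      refine Finset.sum_congr rfl fun n hn => ?_
      rw [← Finset.sum_mul, tent_sum (hJS n hn)]
    rw [e1]
    refine Finset.sum_le_sum fun j hj => ?_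
    have e3 : ∑ n ∈ S, ‖W (j, n)‖ ^ 2 = nm (Rs v E (fun n => (tent L j n : ℂ) * u n)) ^ 2 := by
      rw [nm_sq_eq_sum S]
      · refine Finset.sum_congr rfl fun n _ => ?_
        simp only [hW, hj, if_true]
      · intro n hn
        simp only [Rs]
        rw [hu0 n hn, hup n hn, hum n hn]
        simp
    rw [e3, ← mul_pow]
    exact pow_le_pow_left₀ (mul_nonneg hc (nm_nonneg _)) (h j) 2
  -- conclusion
  have hkey : √(2 * L) ≤ √c₀ * (2 / L) := by
    have h1 : √c₀ * (2 / L) = √(c₀ * (2 / L) ^ 2) := by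
      rw [Real.sqrt_mul hc₀p.le, Real.sqrt_sq (by positivity)]
    rw [h1]
    apply Real.sqrt_le_sqrt
    rw [hc₀]
    have : (2 * (L : ℝ) ^ 3 + L) / 3 * (2 / L) ^ 2 = 8 / 3 * L + 4 / 3 / L := by
      field_simp
      ring
    rw [this]
    have : 0 < 4 / 3 / (L : ℝ) := by positivity
    linarith
  have hsq : 0 < √c₀ := Real.sqrt_pos.2 hc₀p
  have hfin : √c₀ * ((c - 4 / L) * nm u) ≤ √c₀ * nm (Rs v E u) := by
    have h1 := mul_le_mul_of_nonneg_right hkey (nm_nonneg u)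
    have h2 : √c₀ * ((c - 4 / L) * nm u) = c * (√c₀ * nm u) - 2 * (√c₀ * (2 / L) * nm u) := by ring
    rw [h2]
    linarith
  exact le_of_mul_le_mul_left hfin hsq

end AMO75
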