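import Pool.Agent.AMO75.BarA
import Pool.Agent.AMO75.BarB

/-!
# [AMO75-BARRIER] lower bound in a barrier (assembly)

`L = ⌈16 / η⌉` (so `16 ≤ L`, `L ≤ 17 / η`), `loc_bound` for `χ = tent L j`, `ims` with `c = η - 8 π d L`,
`4 / L ≤ η / 4`, `8 π d L ≤ 8 π (η² / 10000) (17 / η) ≤ η / 4`.
-/

set_option autoImplicit false

open Real

namespace AMO75

theorem barrier (p : ℤ) (q : ℕ) (x : ℤ → ℝ) (a b : ℤ) (d η E : ℝ) (hη : 0 < η) (hη1 : η ≤ 1)
    (hd0 : 0 ≤ d) (hd : d ≤ η ^ 2 / 10000) (hx : ∀ n, a ≤ n → n < b → |x (n + 1) - x n| ≤ d)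
    (hfr : ∀ n, a ≤ n → n ≤ b → ∀ u : ℤ → ℂ, FS u → η * nm u ≤ nm (Rs (lin ((p : ℝ) / q) (x n)) E u))
    (u : ℤ → ℂ) (hu : ∀ n, u n ≠ 0 → a ≤ n ∧ n ≤ b) : η / 2 * nm u ≤ nm (Rs (vp p q x) E u) := by
  obtain ⟨L, hLdef⟩ : ∃ L : ℕ, L = ⌈16 / η⌉₊ := ⟨_, rfl⟩
  have hL1 : 16 / η ≤ L := by
    rw [hLdef]
    exact Nat.le_ceil _
  have hL2 : (L : ℝ) ≤ 17 / η := by
    have h1 : (L : ℝ) < 16 / η + 1 := by
      rw [hLdef]
      exact Nat.ceil_lt_add_one (by positivity)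
    have h2 : 1 ≤ 1 / η := by
      rw [le_div_iff₀ hη]
      linarith
    have h3 : 17 / η = 16 / η + 1 / η := by ring
    linarith
  have hL0 : (0 : ℝ) < L := lt_of_lt_of_le (by positivity) hL1
  have hLn : 1 ≤ L := by exact_mod_cast Nat.cast_pos.1 hL0
  have hFS : FS u := FS_of_Icc a b hu
  have h8 : 8 * π * d * L ≤ η / 4 := by
    have hpi : π ≤ 3.15 := Real.pi_lt_d2.le
    have h1 : d * L ≤ η ^ 2 / 10000 * (17 / η) := mul_le_mul hd hL2 hL0.le (by positivity)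
    have h2 : η ^ 2 / 10000 * (17 / η) = 17 / 10000 * η := by
      field_simp
    rw [h2] at h1
    have h3 : 8 * π * d * L = 8 * π * (d * L) := by ring
    have h4 : 0 ≤ d * L := mul_nonneg hd0 hL0.le
    rw [h3]
    calc 8 * π * (d * L) ≤ 8 * 3.15 * (17 / 10000 * η) := by gcongr
      _ ≤ η / 4 := by nlinarith
  have h4 : 4 / (L : ℝ) ≤ η / 4 := by
    rw [div_le_iff₀ hη] at hL1
    rw [div_le_iff₀ hL0]
    nlinarith
  have hims := ims (vp p q x) E (η - 8 * π * d * L) (by linarith) L hLn u hFS (fun j => by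
    refine loc_bound p q x a b d η E hd0 hx hfr u hu (tent L j) j L ?_
    intro n hn
    by_contra hcon
    apply hn
    unfold tent
    apply max_eq_left
    have h5 : (L : ℤ) ≤ |n - j| := (not_le.1 hcon).le
    have h6 : (L : ℝ) ≤ |((n - j : ℤ) : ℝ)| := by exact_mod_cast h5
    linarith)
  refine le_trans ?_ hims
  apply mul_le_mul_of_nonneg_right _ (nm_nonneg u)
  linarith

end AMO75
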