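import Pool.Agent.AMO75.SymDet

/-!
# [AMO75-CHAM] Chambers' formula

Let `Ω = diag (ζ^i)` and `C` the matrix of the cyclic shift, `C i j = 1` iff `j = i + 1` (so `(C φ) i = φ (i + 1)`), `ζ = exp (2 π i p / q)`,
a primitive `q`-th root of unity as `p`, `q` are coprime. `hM = z Ω + z⁻¹ Ω⁻¹ + w C + w⁻¹ C⁻¹`. `C Ω C⁻¹ = ζ Ω`, `Ω⁻¹ C Ω = ζ C`.
`det (-Ω) = ∏ (0 - ζ^i) = -1` (`X^q - 1 = ∏ (X - ζ^i)`, e.g. `X_pow_sub_one_eq_prod`, at `X = 0`), the same for `Ω⁻¹`;
`det (-C) = (-1)^q sign (q-cycle) = (-1)^q (-1)^(q-1) = -1`, the same for `C⁻¹` (or: `C` is conjugate to `Ω` or use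
`Matrix.det_permutation`, `finRotate` / `Equiv.Perm.sign_of_cycle`; or `C⁻¹ = Cᵀ`).
`sym_det` with `A = Ω, A' = Ω⁻¹, B = y - w C - w⁻¹ C⁻¹, G = C, G' = C⁻¹, ε = ζ` gives `D(z, w) = c(w) - z^q - z^(-q)`, so
`D(z, w) = D(1, w) + 2 - z^q - z^(-q)`; `sym_det` with `A = C, A' = C⁻¹, B = y - Ω - Ω⁻¹ (z = 1), G = Ω⁻¹, G' = Ω, ε = ζ` gives
`D(1, w) = D(1, 1) + 2 - w^q - w^(-q)`.
-/

set_option autoImplicit false

open Real

namespace AMO75

/-- the root of unity -/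
noncomputable def zt (p : ℤ) (q : ℕ) : ℂ := Complex.exp (2 * π * Complex.I * (p / q))

/-- the Bloch matrix of the frozen operator: `z = exp (2 π i x)`, quasi-momentum in `w` -/
noncomputable def hM (p : ℤ) (q : ℕ) (z w : ℂ) : Matrix (ZMod q) (ZMod q) ℂ :=
  fun i j => (if i = j then z * zt p q ^ i.val + z⁻¹ * (zt p q)⁻¹ ^ i.val else 0)
    + (if j = i + 1 then w else 0) + (if j = i - 1 then w⁻¹ else 0)

/-- the root of unity is primitive -/
theorem zt_prim (p : ℤ) (q : ℕ) [NeZero q] (hpq : IsCoprime p (q : ℤ)) :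
    IsPrimitiveRoot (zt p q) q := by
  have h := Complex.isPrimitiveRoot_exp q (NeZero.ne q)
  have e : zt p q = Complex.exp (2 * π * Complex.I / q) ^ p := by
    rw [zt, ← Complex.exp_int_mul]
    congr 1
    ring
  rw [e]
  exact h.zpow_of_gcd_eq_one p (Int.isCoprime_iff_gcd_eq_one.1 hpq)

/-- powers of a root of unity indexed by residues -/
theorem pow_val_add_one {q : ℕ} [NeZero q] {ζ : ℂ} (h : ζ ^ q = 1) (i : ZMod q) :
    ζ ^ (i + 1).val = ζ * ζ ^ i.val := by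
  rw [← pow_succ', ZMod.val_add, ← pow_mod_orderOf, ← pow_mod_orderOf ζ (i.val + 1)]
  have hd : orderOf ζ ∣ q := orderOf_dvd_of_pow_eq_one h
  congr 1
  rw [Nat.mod_mod_of_dvd _ hd]
  rcases Nat.lt_or_ge 1 q with h1 | h1
  · have : Fact (1 < q) := ⟨h1⟩
    rw [ZMod.val_one]
  · have hq1 : q = 1 := by
      have := NeZero.pos q
      omega
    have ho : orderOf ζ = 1 := by
      rw [hq1] at hd
      exact Nat.dvd_one.1 hd
    rw [ho, Nat.mod_one, Nat.mod_one]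

theorem pow_val_sub_one {q : ℕ} [NeZero q] {ζ : ℂ} (h : ζ ^ q = 1) (h0 : ζ ≠ 0) (i : ZMod q) :
    ζ ^ (i - 1).val = ζ⁻¹ * ζ ^ i.val := by
  have := pow_val_add_one h (i - 1)
  rw [sub_add_cancel] at this
  rw [this]
  field_simp

/-- the diagonal matrix -/
noncomputable def dM (q : ℕ) (ζ : ℂ) : Matrix (ZMod q) (ZMod q) ℂ :=
  Matrix.diagonal fun i => ζ ^ i.val

/-- the shift -/
noncomputable def cM (q : ℕ) : Matrix (ZMod q) (ZMod q) ℂ :=
  fun i j => if j = i + 1 then 1 else 0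

/-- the inverse shift -/
noncomputable def cM' (q : ℕ) : Matrix (ZMod q) (ZMod q) ℂ :=
  fun i j => if j = i - 1 then 1 else 0

theorem cM'_eq (q : ℕ) : cM' q = (cM q).transpose := by
  ext i j
  simp only [cM', cM, Matrix.transpose_apply]
  have : j = i - 1 ↔ i = j + 1 := by
    constructor
    · intro h; rw [h]; ring
    · intro h; rw [h]; ring
  simp only [this]

theorem cM_mul {q : ℕ} [NeZero q] (M : Matrix (ZMod q) (ZMod q) ℂ) (i j : ZMod q) :
    (cM q * M) i j = M (i + 1) j := by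
  rw [Matrix.mul_apply]
  simp [cM]

theorem cM'_mul {q : ℕ} [NeZero q] (M : Matrix (ZMod q) (ZMod q) ℂ) (i j : ZMod q) :
    (cM' q * M) i j = M (i - 1) j := by
  rw [Matrix.mul_apply]
  simp [cM']

theorem mul_cM' {q : ℕ} [NeZero q] (M : Matrix (ZMod q) (ZMod q) ℂ) (i j : ZMod q) :
    (M * cM' q) i j = M i (j + 1) := by
  rw [Matrix.mul_apply]
  simp only [cM', mul_ite, mul_one, mul_zero]
  have : ∀ x : ZMod q, j = x - 1 ↔ x = j + 1 := fun x => by
    constructor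
    · intro h; rw [h]; ring
    · intro h; rw [h]; ring
  simp [this]

theorem cM_mul_cM' {q : ℕ} [NeZero q] : cM q * cM' q = 1 := by
  ext i j
  rw [cM_mul, cM', Matrix.one_apply]
  congr 1
  rw [eq_iff_iff]
  constructor
  · intro h; rw [h]; ring
  · intro h; rw [h]; ring

theorem dM_mul_dM {q : ℕ} [NeZero q] {a b : ℂ} (h : a * b = 1) : dM q a * dM q b = 1 := by
  rw [dM, dM, Matrix.diagonal_mul_diagonal, ← Matrix.diagonal_one]
  congr 1
  ext i
  rw [← mul_pow, h, one_pow]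

theorem conj_d {q : ℕ} [NeZero q] {ζ : ℂ} (h : ζ ^ q = 1) :
    cM q * dM q ζ * cM' q = ζ • dM q ζ := by
  ext i j
  rw [mul_cM', cM_mul, dM, Matrix.smul_apply, Matrix.diagonal_apply, Matrix.diagonal_apply,
    smul_eq_mul]
  by_cases e : i = j
  · rw [if_pos (by rw [e]), if_pos e, pow_val_add_one h]
  · rw [if_neg (fun h => e (add_right_cancel h)), if_neg e, mul_zero]

theorem conj_c {q : ℕ} [NeZero q] {ζ : ℂ} (h : ζ ^ q = 1) (h0 : ζ ≠ 0) :
    dM q ζ⁻¹ * cM q * dM q ζ = ζ • cM q := by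
  ext i j
  rw [dM, dM, Matrix.mul_diagonal, Matrix.diagonal_mul, Matrix.smul_apply, smul_eq_mul, cM]
  by_cases e : j = i + 1
  · rw [if_pos e, e, pow_val_add_one h, inv_pow]
    have : ζ ^ i.val ≠ 0 := pow_ne_zero _ h0
    field_simp
  · rw [if_neg e]
    ring

theorem conj_c' {q : ℕ} [NeZero q] {ζ : ℂ} (h : ζ ^ q = 1) (h0 : ζ ≠ 0) :
    dM q ζ⁻¹ * cM' q * dM q ζ = ζ⁻¹ • cM' q := by
  ext i j
  rw [dM, dM, Matrix.mul_diagonal, Matrix.diagonal_mul, Matrix.smul_apply, smul_eq_mul, cM']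
  by_cases e : j = i - 1
  · rw [if_pos e, e, pow_val_sub_one h h0, inv_pow]
    have : ζ ^ i.val ≠ 0 := pow_ne_zero _ h0
    field_simp
  · rw [if_neg e]
    ring

/-- the product of the negatives of the powers of a primitive root of unity -/
theorem prod_neg_pow {q : ℕ} (hq : 0 < q) {ζ : ℂ} (h : IsPrimitiveRoot ζ q) :
    ∏ k ∈ Finset.range q, -ζ ^ k = -1 := by
  have e : ∏ k ∈ Finset.range q, -ζ ^ k = (-1) ^ q * ζ ^ (∑ k ∈ Finset.range q, k) := by
    rw [← Finset.prod_pow_eq_pow_sum, Finset.prod_neg, Finset.card_range]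
  rw [e]
  have hs := Finset.sum_range_id_mul_two q
  rcases Nat.even_or_odd' q with ⟨m, hm | hm⟩
  · have hm0 : 0 < m := by omega
    have h1 : (ζ ^ m) ^ 2 = 1 := by
      rw [← pow_mul, mul_comm, ← hm]
      exact h.pow_eq_one
    have h2 : ζ ^ m ≠ 1 := by
      intro h3
      have := h.dvd_of_pow_eq_one m h3
      have := Nat.le_of_dvd hm0 this
      omega
    have h3 : ζ ^ m = -1 := by
      have h6 : (ζ ^ m - 1) * (ζ ^ m + 1) = 0 := by linear_combination h1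
      rcases mul_eq_zero.1 h6 with h3 | h3
      · exact absurd (sub_eq_zero.1 h3) h2
      · exact eq_neg_of_add_eq_zero_left h3
    have h4 : ∑ k ∈ Finset.range q, k = m * (q - 1) := by
      have : (∑ k ∈ Finset.range q, k) * 2 = m * (q - 1) * 2 := by
        rw [hs]
        nth_rewrite 1 [hm]
        ring
      omega
    have h5 : Odd (q - 1) := by
      rw [hm]
      exact ⟨m - 1, by omega⟩
    rw [h4, pow_mul, h3, h5.neg_one_pow, hm, pow_mul]
    norm_num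
  · have h4 : ∑ k ∈ Finset.range q, k = q * m := by
      have : (∑ k ∈ Finset.range q, k) * 2 = q * m * 2 := by
        rw [hs]
        have : q - 1 = m * 2 := by omega
        rw [this]
        ring
      omega
    rw [h4, pow_mul, h.pow_eq_one, one_pow, mul_one]
    exact Odd.neg_one_pow ⟨m, hm⟩

theorem det_dM {q : ℕ} [NeZero q] {ζ : ℂ} (h : IsPrimitiveRoot ζ q) : (-dM q ζ).det = -1 := by
  have e : -dM q ζ = Matrix.diagonal fun i : ZMod q => -ζ ^ i.val := by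
    rw [dM, Matrix.diagonal_neg]
  rw [e, Matrix.det_diagonal]
  obtain ⟨n, rfl⟩ : ∃ n, q = n + 1 := ⟨q - 1, by have := NeZero.pos q; omega⟩
  have h1 : ∏ i : ZMod (n + 1), -ζ ^ i.val = ∏ k ∈ Finset.range (n + 1), -ζ ^ k :=
    Fin.prod_univ_eq_prod_range (fun k => -ζ ^ k) (n + 1)
  rw [h1, prod_neg_pow (Nat.succ_pos n) h]

theorem det_shift_fin (n : ℕ) :
    (-(Matrix.of fun i j : Fin (n + 1) => if j = i + 1 then (1 : ℂ) else 0)).det = -1 := by
  have e : (Matrix.of fun i j : Fin (n + 1) => if j = i + 1 then (1 : ℂ) else 0) =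
      ((finRotate (n + 1)).toPEquiv.toMatrix : Matrix (Fin (n + 1)) (Fin (n + 1)) ℂ) := by
    ext i j
    rw [PEquiv.toMatrix_apply, Matrix.of_apply, Equiv.toPEquiv_apply]
    simp only [Option.mem_def, Option.some.injEq, finRotate_apply]
    by_cases h : j = i + 1
    · rw [if_pos h, if_pos h.symm]
    · rw [if_neg h, if_neg (fun h' => h h'.symm)]
  rw [e, Matrix.det_neg, Matrix.det_permutation, sign_finRotate, Fintype.card_fin]
  push_cast
  rw [← pow_add]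
  exact Odd.neg_one_pow ⟨n, by ring⟩

theorem det_cM {q : ℕ} [NeZero q] : (-cM q).det = -1 := by
  obtain ⟨n, rfl⟩ : ∃ n, q = n + 1 := ⟨q - 1, by have := NeZero.pos q; omega⟩
  exact det_shift_fin n

theorem det_cM' {q : ℕ} [NeZero q] : (-cM' q).det = -1 := by
  rw [cM'_eq, ← Matrix.transpose_neg, Matrix.det_transpose, det_cM]

theorem hM_eq (p : ℤ) (q : ℕ) [NeZero q] (z w : ℂ) :
    hM p q z w = z • dM q (zt p q) + z⁻¹ • dM q (zt p q)⁻¹ + w • cM q + w⁻¹ • cM' q := by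
  ext i j
  simp only [hM, dM, cM, cM', Matrix.add_apply, Matrix.smul_apply, Matrix.diagonal_apply,
    smul_eq_mul, mul_ite, mul_one, mul_zero]
  by_cases e : i = j
  · simp [e]
  · simp [e]

theorem chambers (p : ℤ) (q : ℕ) [NeZero q] (hpq : IsCoprime p (q : ℤ)) (z w y : ℂ) (hz : z ≠ 0) (hw : w ≠ 0) :
    (y • (1 : Matrix (ZMod q) (ZMod q) ℂ) - hM p q z w).det
      = (y • (1 : Matrix (ZMod q) (ZMod q) ℂ) - hM p q 1 1).det + 4 - (z ^ q + z⁻¹ ^ q + w ^ q + w⁻¹ ^ q) := by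
  have hζ := zt_prim p q hpq
  have h0 : zt p q ≠ 0 := hζ.ne_zero (NeZero.ne q)
  have h1 : zt p q ^ q = 1 := hζ.pow_eq_one
  have hζ' : IsPrimitiveRoot (zt p q)⁻¹ q := hζ.inv
  have h1' : (zt p q)⁻¹ ^ q = 1 := hζ'.pow_eq_one
  have hcard : Fintype.card (ZMod q) = q := ZMod.card q
  have hcc' := cM_mul_cM' (q := q)
  -- first variable
  obtain ⟨c, hc⟩ := sym_det q hcard (NeZero.pos q) (zt p q) hζ (dM q (zt p q)) (dM q (zt p q)⁻¹)
    (y • (1 : Matrix (ZMod q) (ZMod q) ℂ) - w • cM q - w⁻¹ • cM' q) (cM q) (cM' q) hcc'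
    (conj_d h1) (conj_d h1') (by
      simp only [mul_sub, sub_mul, Matrix.mul_smul, Matrix.smul_mul, mul_one, hcc']
      rw [mul_assoc (cM q) (cM q), hcc', mul_one, one_mul])
    (det_dM hζ) (det_dM hζ')
  -- second variable
  obtain ⟨d, hd⟩ := sym_det q hcard (NeZero.pos q) (zt p q) hζ (cM q) (cM' q)
    (y • (1 : Matrix (ZMod q) (ZMod q) ℂ) - dM q (zt p q) - dM q (zt p q)⁻¹)
    (dM q (zt p q)⁻¹) (dM q (zt p q)) (dM_mul_dM (inv_mul_cancel₀ h0))
    (conj_c h1 h0) (conj_c' h1 h0) (by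
      simp only [mul_sub, sub_mul, Matrix.mul_smul, Matrix.smul_mul, mul_one,
        dM_mul_dM (q := q) (inv_mul_cancel₀ h0)]
      rw [mul_assoc (dM q (zt p q)⁻¹) (dM q (zt p q)⁻¹), dM_mul_dM (inv_mul_cancel₀ h0), mul_one,
        one_mul])
    det_cM det_cM'
  have e1 : ∀ x : ℂ, y • (1 : Matrix (ZMod q) (ZMod q) ℂ) - hM p q x w =
      y • (1 : Matrix (ZMod q) (ZMod q) ℂ) - w • cM q - w⁻¹ • cM' q - x • dM q (zt p q)
        - x⁻¹ • dM q (zt p q)⁻¹ := fun x => by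
    rw [hM_eq]
    abel
  have e2 : ∀ x : ℂ, y • (1 : Matrix (ZMod q) (ZMod q) ℂ) - hM p q 1 x =
      y • (1 : Matrix (ZMod q) (ZMod q) ℂ) - dM q (zt p q) - dM q (zt p q)⁻¹ - x • cM q
        - x⁻¹ • cM' q := fun x => by
    rw [hM_eq, inv_one, one_smul, one_smul]
    abel
  have a1 := hc z hz
  have a2 := hc 1 one_ne_zero
  have a3 := hd w hw
  have a4 := hd 1 one_ne_zero
  rw [← e1] at a1 a2
  rw [← e2] at a3 a4
  rw [a1, a4]
  rw [a2] at a3
  simp only [inv_one, one_pow] at a3 ⊢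
  linear_combination a3

end AMO75
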