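import Pool.Agent.AMO75.Four
import Pool.Agent.AMO75.Cham

/-!
# [AMO75-BLOCH] the Bloch matrices

`hM_herm`: for `|z| = |w| = 1` the matrix `hM p q z w` is Hermitian (`z⁻¹` is the conjugate of `z`, the same for `w` and `zt p q`).
`lin_eq_frv`: `n = (n : ZMod q).val + k q`, the arguments of the cosine differ by `2 π k p`.
`hM_mul`: `(hM p q z w).mulVec φ = Bl q v' w φ` with `v' i = 2 cos (2 π (i.val * (p/q) + x))` if `z = exp (2 π i x)`: note that
for `q = 1, 2` the indicator functions of `j = i`, `j = i + 1`, `j = i - 1` overlap, which is why `hM` is defined as a sum.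
-/

set_option autoImplicit false

open Real

namespace AMO75

theorem star_of_norm_one (z : ℂ) (hz : ‖z‖ = 1) : star z = z⁻¹ := by
  rw [Complex.star_def, Complex.inv_def, Complex.normSq_eq_norm_sq, hz]
  simp

theorem norm_zt (p : ℤ) (q : ℕ) : ‖zt p q‖ = 1 := by
  unfold zt
  have h : (2 * π * Complex.I * (p / q) : ℂ) = ((2 * π * (p / q) : ℝ) : ℂ) * Complex.I := by
    push_cast; ring
  rw [h, Complex.norm_exp_ofReal_mul_I]

theorem hM_herm (p : ℤ) (q : ℕ) [NeZero q] (z w : ℂ) (hz : ‖z‖ = 1) (hw : ‖w‖ = 1) : (hM p q z w).IsHermitian := by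
  have hz' := star_of_norm_one z hz
  have hw' := star_of_norm_one w hw
  have hζ := star_of_norm_one (zt p q) (norm_zt p q)
  refine Matrix.IsHermitian.ext fun i j => ?_
  simp only [hM, star_add]
  have h1 : star (if j = i then z * zt p q ^ j.val + z⁻¹ * (zt p q)⁻¹ ^ j.val else (0 : ℂ))
      = (if i = j then z * zt p q ^ i.val + z⁻¹ * (zt p q)⁻¹ ^ i.val else 0) := by
    by_cases h : i = j
    · subst h
      simp only [if_true, star_add, star_mul, star_pow, star_inv₀, hz', hζ, inv_inv]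
      ring
    · rw [if_neg h, if_neg (fun h' => h h'.symm), star_zero]
  have h2 : star (if i = j + 1 then w else (0 : ℂ)) = (if j = i - 1 then w⁻¹ else 0) := by
    by_cases h : i = j + 1
    · rw [if_pos h, if_pos (by rw [h]; ring), hw']
    · rw [if_neg h, if_neg (fun h' => h (by rw [h']; ring)), star_zero]
  have h3 : star (if i = j - 1 then w⁻¹ else (0 : ℂ)) = (if j = i + 1 then w else 0) := by
    by_cases h : i = j - 1
    · rw [if_pos h, if_pos (by rw [h]; ring), star_inv₀, hw', inv_inv]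
    · rw [if_neg h, if_neg (fun h' => h (by rw [h']; ring)), star_zero]
  rw [h1, h2, h3]
  ring

/-- the frozen potential on `ZMod q` -/
noncomputable def frv (p : ℤ) (q : ℕ) (x : ℝ) : ZMod q → ℝ := fun i => 2 * Real.cos (2 * π * (i.val * ((p : ℝ) / q) + x))

theorem lin_eq_frv (p : ℤ) (q : ℕ) [NeZero q] (x : ℝ) (n : ℤ) : lin ((p : ℝ) / q) x n = frv p q x (n : ZMod q) := by
  unfold lin frv
  have hq : (q : ℝ) ≠ 0 := Nat.cast_ne_zero.mpr (NeZero.ne q)
  have h1 : (((n : ZMod q).val : ℕ) : ℤ) = n % q := ZMod.val_intCast n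
  have h2 : n = n % q + q * (n / q) := (Int.emod_add_mul_ediv n q).symm
  have h3 : (n : ℝ) = (((n : ZMod q).val : ℕ) : ℝ) + q * ((n / q : ℤ) : ℝ) := by
    have h4 : (n : ℤ) = (((n : ZMod q).val : ℕ) : ℤ) + q * (n / q) := by rw [h1]; exact h2
    exact_mod_cast h4
  have h5 : 2 * π * ((n : ℝ) * ((p : ℝ) / q) + x)
      = 2 * π * ((((n : ZMod q).val : ℕ) : ℝ) * ((p : ℝ) / q) + x) + ((n / q * p : ℤ) : ℝ) * (2 * π) := by
    rw [h3]
    push_cast
    field_simp
    ring
  rw [h5, Real.cos_add_int_mul_two_pi]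

theorem hM_mul (p : ℤ) (q : ℕ) [NeZero q] (x : ℝ) (w : ℂ) (φ : ZMod q → ℂ) :
    (hM p q (Complex.exp (2 * π * Complex.I * x)) w).mulVec φ = Bl q (frv p q x) w φ := by
  funext i
  simp only [Matrix.mulVec, dotProduct, hM, Bl, add_mul, ite_mul, zero_mul, Finset.sum_add_distrib,
    Finset.sum_ite_eq, Finset.sum_ite_eq', Finset.mem_univ, if_true]
  have h : Complex.exp (2 * π * Complex.I * x) * zt p q ^ i.val
      + (Complex.exp (2 * π * Complex.I * x))⁻¹ * (zt p q)⁻¹ ^ i.val = (frv p q x i : ℂ) := by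
    unfold zt frv
    rw [← Complex.exp_neg, ← Complex.exp_neg, ← Complex.exp_nat_mul, ← Complex.exp_nat_mul, ← Complex.exp_add,
      ← Complex.exp_add]
    push_cast
    rw [Complex.two_cos]
    congr 1 <;> congr 1 <;> ring
  rw [← add_mul, h]
  ring

end AMO75
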