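import Pool.Agent.AMO75.Nrm

/-!
# [AMO75-HERMA] Hermitian matrices: approximate eigenvalues; almost orthogonal vectors

`herm_near`: let `e_k` be the orthonormal eigenbasis (`Matrix.IsHermitian.eigenvectorBasis`, `eigenvalues`), `c_k` the
coefficients of `φ`. Then `nm φ ^ 2 = ∑ |c_k|²` and `nm (A φ - E φ) ^ 2 = ∑ |λ_k - E|² |c_k|²`. If all `|λ_k - E| > ρ`
then, as `φ ≠ 0`, `nm (A φ - E φ) ^ 2 > ρ² nm φ ^ 2` (`ρ ≥ 0` follows from the hypothesis). So some `|λ_k - E| ≤ ρ`, take `ψ = e_k`.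
(`nm_sq_fin` relates `nm` to the finite sum; `EuclideanSpace.norm_eq`.)

`near_orth_card`: `m` unit vectors `e i` in a space `ι → ℂ` with pairwise inner products smaller than `1 / m` are linearly
independent: if `∑ c_i e_i = 0`, take `i` with `|c_i|` maximal and take the inner product with `e_i`:
`|c_i| ≤ ∑_{j ≠ i} |c_j| |⟪e_i, e_j⟫| ≤ |c_i| (m - 1) / m` (for `m ≥ 1`), so `c_i = 0`. Hence `m ≤ card ι`.
-/

set_option autoImplicit false

open Real

namespace AMO75

theorem herm_near {ι : Type} [Fintype ι] [DecidableEq ι] (A : Matrix ι ι ℂ) (hA : A.IsHermitian) (E ρ : ℝ)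
    (φ : ι → ℂ) (hφ : φ ≠ 0) (h : nm (fun i => A.mulVec φ i - (E : ℂ) * φ i) ≤ ρ * nm φ) :
    ∃ (y : ℝ) (ψ : ι → ℂ), |y - E| ≤ ρ ∧ ψ ≠ 0 ∧ A.mulVec ψ = fun i => (y : ℂ) * ψ i := by
  classical
  by_contra hcon
  push Not at hcon
  have hφ0 : 0 < nm φ := nm_pos (FS_fin φ) hφ
  have hρ : 0 ≤ ρ := by
    by_contra hneg
    push Not at hneg
    have h1 := nm_nonneg (fun i => A.mulVec φ i - (E : ℂ) * φ i)
    have h2 : ρ * nm φ < 0 := mul_neg_of_neg_of_pos hneg hφ0
    linarith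
  set e := hA.eigenvectorBasis with he
  set l := hA.eigenvalues with hl
  have hbig : ∀ k, ρ < |l k - E| := by
    intro k
    by_contra hk
    push Not at hk
    refine hcon (l k) (fun i => (e k) i) hk ?_ ?_
    · intro h0
      have h1 : ‖e k‖ = 1 := e.orthonormal.1 k
      have h2 : e k = 0 := by
        ext i
        exact congrFun h0 i
      rw [h2, norm_zero] at h1
      exact zero_ne_one h1
    · have h3 := hA.mulVec_eigenvectorBasis k
      funext i
      have h4 := congrFun h3 i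
      rw [Pi.smul_apply, Complex.real_smul] at h4
      exact h4
  set φ' : EuclideanSpace ℂ ι := WithLp.toLp 2 φ with hφ'
  set R' : EuclideanSpace ℂ ι := WithLp.toLp 2 (fun i => A.mulVec φ i - (E : ℂ) * φ i) with hR'
  have n1 : nm φ ^ 2 = ‖φ'‖ ^ 2 := by
    rw [nm_sq_fin, EuclideanSpace.norm_sq_eq]
  have n2 : nm (fun i => A.mulVec φ i - (E : ℂ) * φ i) ^ 2 = ‖R'‖ ^ 2 := by
    rw [nm_sq_fin, EuclideanSpace.norm_sq_eq]
  have s1 : ‖φ'‖ ^ 2 = ∑ k, ‖(inner ℂ (e k) φ' : ℂ)‖ ^ 2 := (e.sum_sq_norm_inner_right φ').symm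
  have s2 : ‖R'‖ ^ 2 = ∑ k, ‖(inner ℂ (e k) R' : ℂ)‖ ^ 2 := (e.sum_sq_norm_inner_right R').symm
  have key : ∀ k, (inner ℂ (e k) R' : ℂ) = ((l k - E : ℝ) : ℂ) * inner ℂ (e k) φ' := by
    intro k
    have a1 : (inner ℂ (e k) R' : ℂ) = (A.mulVec φ) ⬝ᵥ star (fun i => (e k) i)
        - (E : ℂ) * (φ ⬝ᵥ star (fun i => (e k) i)) := by
      rw [EuclideanSpace.inner_eq_star_dotProduct]
      rw [← smul_eq_mul, ← smul_dotProduct, ← sub_dotProduct]
      rfl
    have a2 : (inner ℂ (e k) φ' : ℂ) = φ ⬝ᵥ star (fun i => (e k) i) := by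
      rw [EuclideanSpace.inner_eq_star_dotProduct]
    have a3 : (A.mulVec φ) ⬝ᵥ star (fun i => (e k) i) = (l k : ℂ) * (φ ⬝ᵥ star (fun i => (e k) i)) := by
      have h3 := hA.mulVec_eigenvectorBasis k
      have h5 : star (A.mulVec (fun i => (e k) i)) = fun i => (l k : ℂ) * star ((e k) i) := by
        funext i
        have h4 := congrFun h3 i
        rw [Pi.smul_apply, Complex.real_smul] at h4
        rw [Pi.star_apply]
        have h6 : A.mulVec (fun i => (e k) i) i = (l k : ℂ) * (e k) i := h4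
        rw [h6, star_mul', RCLike.star_def, Complex.conj_ofReal]
      rw [Matrix.star_mulVec, hA.eq] at h5
      rw [dotProduct_comm, Matrix.dotProduct_mulVec, h5]
      simp only [dotProduct, Finset.mul_sum]
      apply Finset.sum_congr rfl
      intro i _
      rw [Pi.star_apply]
      ring
    rw [a1, a2, a3]
    push_cast
    ring
  have hle : ‖R'‖ ^ 2 ≤ ρ ^ 2 * ‖φ'‖ ^ 2 := by
    rw [← n1, ← n2, ← mul_pow]
    exact pow_le_pow_left₀ (nm_nonneg _) h 2
  rw [s1, s2, Finset.mul_sum] at hle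
  have hge : ∀ k ∈ Finset.univ, ρ ^ 2 * ‖(inner ℂ (e k) φ' : ℂ)‖ ^ 2 ≤ ‖(inner ℂ (e k) R' : ℂ)‖ ^ 2 := by
    intro k _
    rw [key k, norm_mul, mul_pow, Complex.norm_real, Real.norm_eq_abs]
    apply mul_le_mul_of_nonneg_right _ (by positivity)
    exact pow_le_pow_left₀ hρ (hbig k).le 2
  have hall : ∀ k, (inner ℂ (e k) φ' : ℂ) = 0 := by
    intro k
    by_contra hk
    have hlt : ∑ k, ρ ^ 2 * ‖(inner ℂ (e k) φ' : ℂ)‖ ^ 2 < ∑ k, ‖(inner ℂ (e k) R' : ℂ)‖ ^ 2 := by
      apply Finset.sum_lt_sum hge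
      refine ⟨k, Finset.mem_univ k, ?_⟩
      rw [key k, norm_mul, mul_pow, Complex.norm_real, Real.norm_eq_abs]
      apply mul_lt_mul_of_pos_right _ (by positivity)
      exact pow_lt_pow_left₀ (hbig k) hρ two_ne_zero
    linarith
  have h0 : nm φ ^ 2 = 0 := by
    rw [n1, s1]
    apply Finset.sum_eq_zero
    intro k _
    rw [hall k]
    simp
  have : 0 < nm φ ^ 2 := by positivity
  linarith

theorem near_orth_card {ι : Type} [Fintype ι] (m : ℕ) (e : Fin m → ι → ℂ) (he : ∀ i, nm (e i) = 1)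
    (h : ∀ i j, i ≠ j → ‖∑ k, (starRingEnd ℂ) (e i k) * e j k‖ < 1 / m) : m ≤ Fintype.card ι := by
  classical
  rcases Nat.eq_zero_or_pos m with hm | hm
  · omega
  have hm' : (0 : ℝ) < m := by exact_mod_cast hm
  have hli : LinearIndependent ℂ e := by
    rw [Fintype.linearIndependent_iff]
    intro c hc
    by_contra hcon
    push Not at hcon
    obtain ⟨i0, hi0⟩ := hcon
    obtain ⟨i, -, hi⟩ := Finset.exists_max_image (Finset.univ : Finset (Fin m)) (fun i => ‖c i‖) ⟨i0, Finset.mem_univ _⟩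
    have hpos : 0 < ‖c i‖ := lt_of_lt_of_le (norm_pos_iff.2 hi0) (hi i0 (Finset.mem_univ _))
    have h1 : ∑ j, c j * ∑ k, (starRingEnd ℂ) (e i k) * e j k = 0 := by
      have h2 : ∑ k, (starRingEnd ℂ) (e i k) * (∑ j, c j • e j) k = 0 := by
        rw [hc]
        simp
      rw [← h2]
      simp only [Finset.sum_apply, Pi.smul_apply, smul_eq_mul, Finset.mul_sum]
      rw [Finset.sum_comm]
      apply Finset.sum_congr rfl
      intro k _
      apply Finset.sum_congr rfl
      intro j _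
      ring
    have h3 : ∑ k, (starRingEnd ℂ) (e i k) * e i k = 1 := by
      have h4 := nm_sq_fin (e i)
      rw [he i] at h4
      have h5 : ∀ k, (starRingEnd ℂ) (e i k) * e i k = ((‖e i k‖ ^ 2 : ℝ) : ℂ) := by
        intro k
        rw [mul_comm, Complex.mul_conj, Complex.normSq_eq_norm_sq]
      simp only [h5]
      rw [← Complex.ofReal_sum, ← h4]
      norm_num
    rw [← Finset.add_sum_erase Finset.univ _ (Finset.mem_univ i), h3, mul_one] at h1
    have h6 : c i = - ∑ j ∈ Finset.univ.erase i, c j * ∑ k, (starRingEnd ℂ) (e i k) * e j k :=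
      eq_neg_of_add_eq_zero_left h1
    have h7 : ‖c i‖ ≤ ∑ j ∈ (Finset.univ : Finset (Fin m)).erase i, ‖c i‖ * (1 / m) := by
      calc ‖c i‖ = ‖∑ j ∈ Finset.univ.erase i, c j * ∑ k, (starRingEnd ℂ) (e i k) * e j k‖ := by
            rw [h6, norm_neg]
        _ ≤ ∑ j ∈ Finset.univ.erase i, ‖c j * ∑ k, (starRingEnd ℂ) (e i k) * e j k‖ := norm_sum_le _ _
        _ ≤ ∑ j ∈ (Finset.univ : Finset (Fin m)).erase i, ‖c i‖ * (1 / m) := by
            apply Finset.sum_le_sum
            intro j hj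
            rw [norm_mul]
            exact mul_le_mul (hi j (Finset.mem_univ _)) (h i j (Finset.ne_of_mem_erase hj).symm).le
              (norm_nonneg _) (norm_nonneg _)
    rw [Finset.sum_const, Finset.card_erase_of_mem (Finset.mem_univ i), Finset.card_univ, Fintype.card_fin,
      nsmul_eq_mul] at h7
    have h8 : ((m - 1 : ℕ) : ℝ) = m - 1 := by
      rw [Nat.cast_sub hm]
      simp
    rw [h8] at h7
    have h9 : ((m : ℝ) - 1) * (‖c i‖ * (1 / m)) = ‖c i‖ - ‖c i‖ / m := by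
      field_simp
    rw [h9] at h7
    have h10 : 0 < ‖c i‖ / m := by positivity
    linarith
  have h11 := hli.fintype_card_le_finrank
  rw [Fintype.card_fin, Module.finrank_fintype_fun_eq_card] at h11
  exact h11

end AMO75

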