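import Pool.Agent.AMO75.Bloch
import Pool.Agent.AMO75.HermA

/-!
# [AMO75-CHMA] the Chambers polynomial: property `near`

`chm_near`: if for all `|w| = 1` and all `φ` one had `η * nm φ ≤ nm (Bl q (frv p q x) w φ - E φ)`, then `four_lower` (with
`lin_eq_frv`) would contradict the hypothesis (note `0 < η` from `0 ≤ nm .. < η * nm u`). So there are `w`, `φ` with
`nm (..) < η * nm φ`; `φ ≠ 0`; by `herm_near` (with `ρ = nm (..) / nm φ < η`) the Hermitian matrix `hM p q z w` has a real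
eigenvalue `y` with `|y - E| ≤ ρ < η`, so its determinant `det (y - hM)` vanishes (`Matrix.exists_mulVec_eq_zero_iff`);
write `w = exp (i κ)` (`κ = arg w`), `θ = q κ`.
-/

set_option autoImplicit false

open Real

namespace AMO75

variable (p : ℤ) (q : ℕ) [NeZero q] (P : Polynomial ℝ)
  (hP : ∀ y x κ : ℝ, ((y : ℂ) • (1 : Matrix (ZMod q) (ZMod q) ℂ)
        - hM p q (Complex.exp (2 * π * Complex.I * x)) (Complex.exp (Complex.I * κ))).det
      = ((P.eval y - 2 * Real.cos (2 * π * (q * x)) - 2 * Real.cos (q * κ) : ℝ) : ℂ))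

include hP

theorem chm_near (x E η : ℝ) (u : ℤ → ℂ) (hu : FS u) (h : nm (Rs (lin ((p : ℝ) / q) x) E u) < η * nm u) :
    ∃ y θ : ℝ, |y - E| < η ∧ P.eval y = 2 * Real.cos (2 * π * (q * x)) + 2 * Real.cos θ := by
  have hn0 := nm_nonneg (Rs (lin ((p : ℝ) / q) x) E u)
  have hu0 := nm_nonneg u
  have hη : 0 < η := by
    by_contra hcon
    push Not at hcon
    have := mul_nonpos_of_nonpos_of_nonneg hcon hu0
    linarith
  -- the Bloch decomposition
  have hex : ∃ w : ℂ, ‖w‖ = 1 ∧ ∃ φ : ZMod q → ℂ,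
      nm (fun i => Bl q (frv p q x) w φ i - (E : ℂ) * φ i) < η * nm φ := by
    by_contra hcon
    push Not at hcon
    have := four_lower q (lin ((p : ℝ) / q) x) (frv p q x) (lin_eq_frv p q x) E η hη.le hcon u hu
    linarith
  obtain ⟨w, hw, φ, hφ⟩ := hex
  have hφ1 := nm_nonneg (fun i => Bl q (frv p q x) w φ i - (E : ℂ) * φ i)
  have hφ0 : 0 < nm φ := by
    rcases (nm_nonneg φ).lt_or_eq with h0 | h0
    · exact h0
    · rw [← h0, mul_zero] at hφ
      linarith
  have hφne : φ ≠ 0 := by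
    rintro rfl
    exact absurd (nm_zero (ι := ZMod q)) hφ0.ne'
  have hz : ‖Complex.exp (2 * π * Complex.I * x)‖ = 1 := by
    rw [show (2 * π * Complex.I * x : ℂ) = ((2 * π * x : ℝ) : ℂ) * Complex.I by push_cast; ring]
    exact Complex.norm_exp_ofReal_mul_I _
  have hA := hM_herm p q (Complex.exp (2 * π * Complex.I * x)) w hz hw
  have hle : nm (fun i => (hM p q (Complex.exp (2 * π * Complex.I * x)) w).mulVec φ i
      - (E : ℂ) * φ i) ≤
      (nm (fun i => Bl q (frv p q x) w φ i - (E : ℂ) * φ i) / nm φ) * nm φ := by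
    rw [hM_mul, div_mul_cancel₀ _ hφ0.ne']
  obtain ⟨y, ψ, hy, hψ, hev⟩ := herm_near _ hA E _ φ hφne hle
  have hlt : nm (fun i => Bl q (frv p q x) w φ i - (E : ℂ) * φ i) / nm φ < η := by
    rw [div_lt_iff₀ hφ0]
    exact hφ
  -- the determinant vanishes
  have hdet : ((y : ℂ) • (1 : Matrix (ZMod q) (ZMod q) ℂ)
      - hM p q (Complex.exp (2 * π * Complex.I * x)) w).det = 0 := by
    apply Matrix.exists_mulVec_eq_zero_iff.1
    refine ⟨ψ, hψ, ?_⟩
    rw [Matrix.sub_mulVec, hev, Matrix.smul_mulVec, Matrix.one_mulVec]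
    funext i
    simp
  have hw' : w = Complex.exp (Complex.I * (Complex.arg w : ℝ)) := by
    have h1 := Complex.norm_mul_exp_arg_mul_I w
    rw [hw, Complex.ofReal_one, one_mul, mul_comm] at h1
    exact h1.symm
  rw [hw', hP y x (Complex.arg w)] at hdet
  have h2 : P.eval y - 2 * Real.cos (2 * π * (q * x)) - 2 * Real.cos (q * Complex.arg w) = 0 :=
    Complex.ofReal_eq_zero.1 hdet
  exact ⟨y, q * Complex.arg w, hy.trans_lt hlt, by linarith⟩

end AMO75
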