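import Pool.Agent.AMO75.Bloch

/-!
# [AMO75-CHMB] the Chambers polynomial: properties `split`, `bd`

`chm_split`: for `|t| ≤ 4` there are `x`, `κ` with `t = 2 cos (2 π q x) + 2 cos (q κ)` (e.g. both cosines equal `t / 4`:
`x = arccos (t/4) / (2 π q)`, `κ = arccos (t/4) / q`), and `P y - t = det (y - hM z w)`, which is the characteristic polynomial of a Hermitian
matrix, `= ∏ (y - μ_i)` with real `μ_i`, for all real `y`; so `P - C t = ∏ (X - C μ_i)` (`Polynomial.funext`) splits.

`chm_bd`: if `|P y| ≤ 4` then as above `det (y - hM z w) = 0` for some `x, κ`, so there is `φ ≠ 0` with `Bl q (frv p q x) w φ = y φ`.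
Take `i` with `‖φ i‖` maximal: `|y| ‖φ i‖ ≤ ‖φ (i+1)‖ + ‖φ (i-1)‖ + 2 ‖φ i‖ ≤ 4 ‖φ i‖`.
-/

set_option autoImplicit false

open Real

namespace AMO75

/-- solution of the equation for the two phases -/
theorem helper23_phases (q : ℕ) [NeZero q] (t : ℝ) (ht : |t| ≤ 4) : ∃ x κ : ℝ,
    2 * Real.cos (2 * π * (q * x)) + 2 * Real.cos (q * κ) = t := by
  have hq : (q : ℝ) ≠ 0 := Nat.cast_ne_zero.2 (NeZero.ne q)
  have hpi := Real.pi_ne_zero
  rw [abs_le] at ht
  refine ⟨Real.arccos (t / 4) / (2 * π * q), Real.arccos (t / 4) / q, ?_⟩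
  have e1 : 2 * π * (q * (Real.arccos (t / 4) / (2 * π * q))) = Real.arccos (t / 4) := by
    field_simp
  have e2 : q * (Real.arccos (t / 4) / q) = Real.arccos (t / 4) := by
    field_simp
  rw [e1, e2, Real.cos_arccos (by linarith) (by linarith)]
  ring

theorem helper23_norm_z (x : ℝ) : ‖Complex.exp (2 * π * Complex.I * x)‖ = 1 := by
  have : (2 * π * Complex.I * x : ℂ) = ((2 * π * x : ℝ) : ℂ) * Complex.I := by push_cast; ring
  rw [this, Complex.norm_exp_ofReal_mul_I]

theorem helper23_norm_w (κ : ℝ) : ‖Complex.exp (Complex.I * κ)‖ = 1 := by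
  rw [mul_comm, Complex.norm_exp_ofReal_mul_I]

variable (p : ℤ) (q : ℕ) [NeZero q] (P : Polynomial ℝ)
  (hP : ∀ y x κ : ℝ, ((y : ℂ) • (1 : Matrix (ZMod q) (ZMod q) ℂ)
        - hM p q (Complex.exp (2 * π * Complex.I * x)) (Complex.exp (Complex.I * κ))).det
      = ((P.eval y - 2 * Real.cos (2 * π * (q * x)) - 2 * Real.cos (q * κ) : ℝ) : ℂ))

include hP

theorem chm_split (t : ℝ) (ht : |t| ≤ 4) : (P - Polynomial.C t).Splits := by
  obtain ⟨x, κ, hxk⟩ := helper23_phases q t ht
  have hH := hM_herm p q (Complex.exp (2 * π * Complex.I * x)) (Complex.exp (Complex.I * κ))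
    (helper23_norm_z x) (helper23_norm_w κ)
  have key : P - Polynomial.C t = ∏ i, (Polynomial.X - Polynomial.C (hH.eigenvalues i)) := by
    refine Polynomial.funext fun y => ?_
    have h1 := hP y x κ
    have h2 : P.eval y - 2 * Real.cos (2 * π * (q * x)) - 2 * Real.cos (q * κ) =
        P.eval y - t := by rw [← hxk]; ring
    rw [h2] at h1
    have h3 : ((y : ℂ) • (1 : Matrix (ZMod q) (ZMod q) ℂ)
        - hM p q (Complex.exp (2 * π * Complex.I * x)) (Complex.exp (Complex.I * κ))).det =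
        (hM p q (Complex.exp (2 * π * Complex.I * x))
          (Complex.exp (Complex.I * κ))).charpoly.eval (y : ℂ) := by
      rw [Matrix.eval_charpoly, Matrix.scalar_apply, ← Matrix.smul_one_eq_diagonal]
    rw [h3, hH.charpoly_eq, Polynomial.eval_prod] at h1
    simp only [Polynomial.eval_sub, Polynomial.eval_X, Polynomial.eval_C] at h1
    rw [Polynomial.eval_sub, Polynomial.eval_C, Polynomial.eval_prod]
    simp only [Polynomial.eval_sub, Polynomial.eval_X, Polynomial.eval_C]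
    have h4 : ((∏ i, (y - hH.eigenvalues i) : ℝ) : ℂ) = ((P.eval y - t : ℝ) : ℂ) := by
      rw [← h1]
      push_cast
      rfl
    exact (Complex.ofReal_injective h4).symm
  rw [key]
  exact Polynomial.Splits.prod fun i _ => Polynomial.Splits.X_sub_C _

theorem chm_bd (y : ℝ) (hy : |P.eval y| ≤ 4) : |y| ≤ 4 := by
  obtain ⟨x, κ, hxk⟩ := helper23_phases q (P.eval y) hy
  have h1 := hP y x κ
  have h2 : P.eval y - 2 * Real.cos (2 * π * (q * x)) - 2 * Real.cos (q * κ) = 0 := by
    linarith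
  rw [h2, Complex.ofReal_zero] at h1
  obtain ⟨φ, hφ, h3⟩ := Matrix.exists_mulVec_eq_zero_iff.2 h1
  rw [Matrix.sub_mulVec, Matrix.smul_mulVec, Matrix.one_mulVec, hM_mul, sub_eq_zero] at h3
  obtain ⟨i, hi⟩ := Finite.exists_max fun i => ‖φ i‖
  have h4 : 0 < ‖φ i‖ := by
    rw [norm_pos_iff]
    intro h0
    apply hφ
    funext j
    have h5 := hi j
    rw [h0, norm_zero] at h5
    exact norm_le_zero_iff.1 h5
  have h5 := congrFun h3 i
  rw [Pi.smul_apply, smul_eq_mul, Bl] at h5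
  have h6 : ‖(y : ℂ) * φ i‖ = |y| * ‖φ i‖ := by
    rw [norm_mul, Complex.norm_real, Real.norm_eq_abs]
  have hv : |frv p q x i| ≤ 2 := by
    unfold frv
    rw [abs_mul, abs_two]
    have := Real.abs_cos_le_one (2 * π * (i.val * ((p : ℝ) / q) + x))
    linarith
  have h7 : ‖(y : ℂ) * φ i‖ ≤ ‖φ (i + 1)‖ + ‖φ (i - 1)‖ + 2 * ‖φ i‖ := by
    rw [h5]
    refine (norm_add₃_le).trans ?_
    rw [norm_mul, norm_mul, norm_mul, norm_inv, helper23_norm_w, inv_one, one_mul, one_mul,
      Complex.norm_real, Real.norm_eq_abs]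
    gcongr
  have h8 := hi (i + 1)
  have h9 := hi (i - 1)
  rw [h6] at h7
  by_contra hcon
  push Not at hcon
  have := mul_lt_mul_of_pos_right hcon h4
  linarith

end AMO75
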