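import Pool.Agent.AMO75.Bloch

/-!
# [AMO75-CHMC] the Chambers polynomial: property `sol`

`chm_sol`: given `P y = 2 cos (2 π q x) + 2 cos θ` put `κ = θ / q`, `w = exp (i κ)`; the determinant of `y - hM` vanishes, so
there is `φ ≠ 0` with `Bl q (frv p q x) w φ = y φ` (`Matrix.exists_mulVec_eq_zero_iff`, `hM_mul`);
`ψ n = w^n φ (n : ZMod q)` (integer power) satisfies `Rs (lin (p/q) x) y ψ = 0` everywhere, `‖ψ n‖ ≤ C` and `‖ψ n‖ = ‖φ i‖ > 0` for all `n ≡ i`. For
`u = on (-N) N ψ`: `Rs .. u` vanishes except at `n = ±N, ±(N+1)` where it is bounded by `C`, so `nm (Rs .. u) ≤ 2 C`, and `nm u → ∞`.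
-/

set_option autoImplicit false

open Real

namespace AMO75

/-- cutting off a bounded solution -/
private theorem chmc_cut (v : ℤ → ℝ) (E : ℝ) (ψ : ℤ → ℂ) (C : ℝ) (hC : ∀ n, ‖ψ n‖ ≤ C)
    (h0 : ∀ n, Rs v E ψ n = 0) (N : ℤ) (hN : 1 ≤ N) : nm (Rs v E (on (-N) N ψ)) ≤ 2 * C := by
  have hC0 : 0 ≤ C := (norm_nonneg _).trans (hC 0)
  have hin : ∀ n, -N ≤ n → n ≤ N → on (-N) N ψ n = ψ n := fun n h1 h2 => by
    unfold on
    rw [if_pos ⟨h1, h2⟩]
  have hout : ∀ n, n < -N ∨ N < n → on (-N) N ψ n = 0 := fun n h => by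
    unfold on
    rw [if_neg]
    rintro ⟨h1, h2⟩
    omega
  have hz : ∀ n ∉ ({-N - 1, -N, N, N + 1} : Finset ℤ), Rs v E (on (-N) N ψ) n = 0 := by
    intro n hn
    simp only [Finset.mem_insert, Finset.mem_singleton, not_or] at hn
    obtain ⟨h1, h2, h3, h4⟩ := hn
    unfold Rs
    rcases lt_or_ge n (-N) with h5 | h5
    · rw [hout (n + 1) (by omega), hout (n - 1) (by omega), hout n (by omega)]
      simp
    · rcases lt_or_ge N n with h6 | h6
      · rw [hout (n + 1) (by omega), hout (n - 1) (by omega), hout n (by omega)]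
        simp
      · rw [hin (n + 1) (by omega) (by omega), hin (n - 1) (by omega) (by omega),
          hin n (by omega) (by omega)]
        exact h0 n
  have hb : ∀ n ∈ ({-N - 1, -N, N, N + 1} : Finset ℤ), ‖Rs v E (on (-N) N ψ) n‖ ^ 2 ≤ C ^ 2 := by
    intro n hn
    apply pow_le_pow_left₀ (norm_nonneg _)
    simp only [Finset.mem_insert, Finset.mem_singleton] at hn
    rcases hn with rfl | rfl | rfl | rfl
    · have : Rs v E (on (-N) N ψ) (-N - 1) = ψ (-N) := by
        unfold Rs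
        rw [show -N - 1 + 1 = -N by ring, hin (-N) (by omega) (by omega),
          hout (-N - 1 - 1) (by omega), hout (-N - 1) (by omega)]
        simp
      rw [this]
      exact hC _
    · have : Rs v E (on (-N) N ψ) (-N) = - ψ (-N - 1) := by
        have h := h0 (-N)
        unfold Rs at h ⊢
        rw [hin (-N + 1) (by omega) (by omega), hin (-N) (by omega) (by omega),
          hout (-N - 1) (by omega)]
        linear_combination h
      rw [this, norm_neg]
      exact hC _
    · have : Rs v E (on (-n) n ψ) n = - ψ (n + 1) := by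
        have h := h0 n
        unfold Rs at h ⊢
        rw [hin (n - 1) (by omega) (by omega), hin n (by omega) (by omega),
          hout (n + 1) (by omega)]
        linear_combination h
      rw [this, norm_neg]
      exact hC _
    · have : Rs v E (on (-N) N ψ) (N + 1) = ψ N := by
        unfold Rs
        rw [show N + 1 - 1 = N by ring, hin N (by omega) (by omega),
          hout (N + 1 + 1) (by omega), hout (N + 1) (by omega)]
        simp
      rw [this]
      exact hC _
  apply nm_le_of_sq_le (by positivity)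
  rw [nm_sq_eq_sum _ _ hz]
  refine (Finset.sum_le_card_nsmul _ _ _ hb).trans ?_
  have hcard : (({-N - 1, -N, N, N + 1} : Finset ℤ).card : ℝ) ≤ 4 := by
    exact_mod_cast Finset.card_le_four
  rw [nsmul_eq_mul]
  nlinarith [sq_nonneg C]

variable (p : ℤ) (q : ℕ) [NeZero q] (P : Polynomial ℝ)
  (hP : ∀ y x κ : ℝ, ((y : ℂ) • (1 : Matrix (ZMod q) (ZMod q) ℂ)
        - hM p q (Complex.exp (2 * π * Complex.I * x)) (Complex.exp (Complex.I * κ))).det
      = ((P.eval y - 2 * Real.cos (2 * π * (q * x)) - 2 * Real.cos (q * κ) : ℝ) : ℂ))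

include hP

theorem chm_sol (y x θ : ℝ) (h : P.eval y = 2 * Real.cos (2 * π * (q * x)) + 2 * Real.cos θ) :
    y ∈ Sp (lin ((p : ℝ) / q) x) := by
  have hq : 0 < q := Nat.pos_of_ne_zero (NeZero.ne q)
  have hq' : (0 : ℝ) < q := by exact_mod_cast hq
  set κ : ℝ := θ / q with hκ
  have hκq : q * κ = θ := by
    rw [hκ]
    field_simp
  set w : ℂ := Complex.exp (Complex.I * κ) with hw
  have hw0 : w ≠ 0 := Complex.exp_ne_zero _
  have hwn : ‖w‖ = 1 := by
    rw [hw, mul_comm]
    exact Complex.norm_exp_ofReal_mul_I κ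
  have hdet := hP y x κ
  rw [h, hκq] at hdet
  have hdet0 : ((y : ℂ) • (1 : Matrix (ZMod q) (ZMod q) ℂ)
        - hM p q (Complex.exp (2 * π * Complex.I * x)) w).det = 0 := by
    rw [hw, hdet]
    norm_num
  obtain ⟨φ, hφ0, hφ⟩ := Matrix.exists_mulVec_eq_zero_iff.2 hdet0
  rw [Matrix.sub_mulVec, hM_mul, Matrix.smul_mulVec, Matrix.one_mulVec] at hφ
  have hφ' : ∀ i, Bl q (frv p q x) w φ i = (y : ℂ) * φ i := by
    intro i
    have h1 := congrFun hφ i
    simp only [Pi.sub_apply, Pi.smul_apply, smul_eq_mul, Pi.zero_apply] at h1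
    linear_combination -h1
  -- the Bloch wave
  set ψ : ℤ → ℂ := fun n => w ^ n * φ (n : ZMod q) with hψ
  have hψn : ∀ n, ‖ψ n‖ = ‖φ (n : ZMod q)‖ := by
    intro n
    simp only [hψ, norm_mul, norm_zpow, hwn, one_zpow, one_mul]
  have hC : ∀ n, ‖ψ n‖ ≤ nm φ := by
    intro n
    rw [hψn]
    exact norm_le_nm (FS_fin φ) _
  have hsol : ∀ n, Rs (lin ((p : ℝ) / q) x) y ψ n = 0 := by
    intro n
    have h1 := hφ' (n : ZMod q)
    unfold Bl at h1
    unfold Rs
    rw [lin_eq_frv]
    simp only [hψ]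
    push_cast
    rw [zpow_add_one₀ hw0, zpow_sub_one₀ hw0]
    linear_combination w ^ n * h1
  -- a coordinate which does not vanish
  obtain ⟨i, hi⟩ : ∃ i, φ i ≠ 0 := by
    by_contra hcon
    push Not at hcon
    exact hφ0 (funext hcon)
  have hi' : 0 < ‖φ i‖ ^ 2 := by positivity
  intro ε hε
  obtain ⟨K, hK⟩ := exists_nat_gt ((2 * nm φ) ^ 2 / (ε ^ 2 * ‖φ i‖ ^ 2))
  rw [div_lt_iff₀ (by positivity)] at hK
  have hKpos : 0 < K := by
    rcases Nat.eq_zero_or_pos K with h0 | h0
    · exfalso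
      rw [h0] at hK
      have := sq_nonneg (2 * nm φ)
      norm_num at hK
      linarith
    · exact h0
  set N : ℤ := q * K with hN
  have hN1 : 1 ≤ N := by
    have : 0 < q * K := Nat.mul_pos hq hKpos
    rw [hN]
    exact_mod_cast this
  -- lower bound
  have hlow : K * ‖φ i‖ ^ 2 ≤ nm (on (-N) N ψ) ^ 2 := by
    have hz : ∀ n ∉ Finset.Icc (-N) N, on (-N) N ψ n = 0 := by
      intro n hn
      unfold on
      rw [if_neg]
      intro h2
      exact hn (Finset.mem_Icc.2 h2)
    rw [nm_sq_eq_sum _ _ hz]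
    let g : ℕ → ℤ := fun j => (i.val : ℤ) + q * j
    have hginj : Set.InjOn g (Finset.range K) := by
      intro a _ b _ hab
      simp only [g] at hab
      have h2 : (q : ℤ) * a = q * b := by linarith
      have h3 := mul_left_cancel₀ (by exact_mod_cast hq.ne' : (q : ℤ) ≠ 0) h2
      exact_mod_cast h3
    have hgval : ∀ j, ((g j : ℤ) : ZMod q) = i := by
      intro j
      simp only [g]
      push_cast
      simp
    have hgmem : ∀ j ∈ Finset.range K, -N ≤ g j ∧ g j ≤ N := by
      intro j hj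
      have h2 : i.val < q := ZMod.val_lt i
      have h3 : j + 1 ≤ K := Finset.mem_range.1 hj
      have h4 : q * (j + 1) ≤ q * K := Nat.mul_le_mul_left q h3
      have h5 : i.val + q * j ≤ q * K := by
        rw [Nat.mul_add, Nat.mul_one] at h4
        omega
      have h6 : ((i.val + q * j : ℕ) : ℤ) ≤ ((q * K : ℕ) : ℤ) := by exact_mod_cast h5
      push_cast at h6
      refine ⟨?_, h6⟩
      have h7 : (0 : ℤ) ≤ (i.val : ℤ) + q * j := by positivity
      simp only [g]
      omega
    calc K * ‖φ i‖ ^ 2 = ∑ _j ∈ Finset.range K, ‖φ i‖ ^ 2 := by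
          rw [Finset.sum_const, Finset.card_range, nsmul_eq_mul]
      _ = ∑ j ∈ Finset.range K, ‖on (-N) N ψ (g j)‖ ^ 2 := by
          refine Finset.sum_congr rfl fun j hj => ?_
          have : on (-N) N ψ (g j) = ψ (g j) := by
            unfold on
            rw [if_pos (hgmem j hj)]
          rw [this, hψn, hgval]
      _ = ∑ n ∈ (Finset.range K).image g, ‖on (-N) N ψ n‖ ^ 2 :=
          (Finset.sum_image (f := fun n => ‖on (-N) N ψ n‖ ^ 2) hginj).symm
      _ ≤ ∑ n ∈ Finset.Icc (-N) N, ‖on (-N) N ψ n‖ ^ 2 := by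
          refine Finset.sum_le_sum_of_subset_of_nonneg ?_ fun _ _ _ => by positivity
          intro n hn
          obtain ⟨j, hj, rfl⟩ := Finset.mem_image.1 hn
          exact Finset.mem_Icc.2 (hgmem j hj)
  have hup := chmc_cut (lin ((p : ℝ) / q) x) y ψ (nm φ) hC hsol N hN1
  refine ⟨on (-N) N ψ, FS_on _ _ _, ?_, ?_⟩
  · intro h0
    have hz0 : nm (0 : ℤ → ℂ) = 0 := nm_zero
    rw [h0, hz0] at hlow
    have : (0 : ℝ) < K := by exact_mod_cast hKpos
    have h2 : 0 < K * ‖φ i‖ ^ 2 := by positivity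
    norm_num at hlow
    linarith
  · refine lt_of_le_of_lt hup ?_
    apply lt_of_pow_lt_pow_left₀ 2 (mul_nonneg hε.le (nm_nonneg _))
    calc (2 * nm φ) ^ 2 < K * (ε ^ 2 * ‖φ i‖ ^ 2) := hK
      _ = ε ^ 2 * (K * ‖φ i‖ ^ 2) := by ring
      _ ≤ ε ^ 2 * nm (on (-N) N ψ) ^ 2 := mul_le_mul_of_nonneg_left hlow (by positivity)
      _ = (ε * nm (on (-N) N ψ)) ^ 2 := (mul_pow _ _ _).symm

end AMO75
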