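import Pool.Agent.AMO75.ExPP
import Pool.Agent.AMO75.ChmA
import Pool.Agent.AMO75.ChmB
import Pool.Agent.AMO75.ChmC

/-!
# the Chambers polynomial (assembly, proved)
-/

set_option autoImplicit false

open Real

namespace AMO75

theorem exists_chm (p : ℤ) (q : ℕ) (hq : 0 < q) (hpq : IsCoprime p (q : ℤ)) : ∃ P : Polynomial ℝ, Chm p q P := by
  have : NeZero q := ⟨hq.ne'⟩
  obtain ⟨P, h1, h2, h3⟩ := exists_PP p q hpq
  exact ⟨P, h1, h2, fun x E η u hu h => chm_near p q P h3 x E η u hu h,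
    fun y x θ h => chm_sol p q P h3 y x θ h, fun t ht => chm_split p q P h3 t ht,
    fun y hy => chm_bd p q P h3 y hy⟩

end AMO75
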