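import Mathlib

/-!
# [AMO75-CLUA] a point far from a finite set

If every `g ∈ (a, b)` had distance `< s` to some `f ∈ F` then `Ioo a b ⊆ ⋃ f ∈ F, Ioo (f - s) (f + s)` and the Lebesgue measure gives
`b - a ≤ card F * 2 s` (`measure_biUnion_finset_le`, `Real.volume_Ioo`); or induction over `F`.
-/

set_option autoImplicit false

open Real

namespace AMO75

theorem exists_gap (F : Finset ℝ) (s a b : ℝ) (hs : 0 ≤ s) (h : 2 * s * F.card < b - a) :
    ∃ g, a < g ∧ g < b ∧ ∀ f ∈ F, s ≤ |g - f| := by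
  by_contra hcon
  push Not at hcon
  have hsub : Set.Ioo a b ⊆ ⋃ f ∈ F, Set.Ioo (f - s) (f + s) := by
    intro g hg
    obtain ⟨f, hf, hlt⟩ := hcon g hg.1 hg.2
    rw [abs_lt] at hlt
    simp only [Set.mem_iUnion]
    exact ⟨f, hf, by linarith [hlt.1], by linarith [hlt.2]⟩
  have h1 : MeasureTheory.volume (Set.Ioo a b) ≤ ∑ f ∈ F, MeasureTheory.volume (Set.Ioo (f - s) (f + s)) :=
    (MeasureTheory.measure_mono hsub).trans (MeasureTheory.measure_biUnion_finset_le F _)
  have h2 : ∑ f ∈ F, MeasureTheory.volume (Set.Ioo (f - s) (f + s)) = ENNReal.ofReal (2 * s * F.card) := by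
    have h3 : ∀ f ∈ F, MeasureTheory.volume (Set.Ioo (f - s) (f + s)) = ENNReal.ofReal (2 * s) := by
      intro f _
      rw [Real.volume_Ioo]
      congr 1
      ring
    rw [Finset.sum_congr rfl h3, Finset.sum_const, nsmul_eq_mul, mul_comm,
      ENNReal.ofReal_mul (p := 2 * s) (by positivity), ENNReal.ofReal_natCast]
  rw [Real.volume_Ioo, h2] at h1
  have h4 : b - a ≤ 2 * s * F.card := (ENNReal.ofReal_le_ofReal_iff (by positivity)).1 h1
  linarith

end AMO75
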