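import Pool.Agent.AMO75.HermA

/-!
# [AMO75-SEPFIN] energies with localized almost eigenfunctions: at most `D` clusters

If `y_1, ..., y_m ∈ S` are energies with `|y_i - y_j| ≥ √τ` for `i ≠ j`, with unit vectors `e_i` (`nm e_i = 1`, support in `[0, D)`), then by
symmetry (`Rs_symm`): `∑ conj (Rs v y_i e_i n) * e_j n = ∑ conj (e_i n) * Rs v y_i e_j n`, and `Rs v y_i e_j = Rs v y_j e_j + (y_j - y_i) e_j`, so
`|y_i - y_j| |⟪e_i, e_j⟫| ≤ nm (Rs v y_i e_i) + nm (Rs v y_j e_j) ≤ 2 τ` (Cauchy-Schwarz for finite sums), so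
`|⟪e_i, e_j⟫| ≤ 2 √τ < 1 / m` if `m ≤ D + 1` (hypothesis `hτ`; case `τ = 0`: then the inner products vanish, also fine). So by `near_orth_card` (with `ι = Fin D`,
`k ↦ e_i k`) `m ≤ D`: there are no `D + 1` such energies.
So a `√τ`-separated finite subset of `S` of maximal cardinality (`≤ D`) exists, and every `y ∈ S` is within `√τ` of it (`|y - f| ≤ √τ`).
(If `τ = 0` separated means: different; `|y_i - y_j| ≥ √τ` and `y_i ≠ y_j`.)
-/

set_option autoImplicit false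

open Real

namespace AMO75

/-- Cauchy-Schwarz for finitely supported functions -/
theorem sepfin_cs {f g : ℤ → ℂ} (hf : FS f) (hg : FS g) :
    ‖∑' n, (starRingEnd ℂ) (f n) * g n‖ ≤ nm f * nm g := by
  classical
  set s : Finset ℤ := hf.toFinset ∪ hg.toFinset with hs
  have h1 : ∀ n ∉ s, f n = 0 := fun n hn => by
    by_contra h0
    exact hn (Finset.mem_union_left _ (hf.mem_toFinset.2 h0))
  have h2 : ∀ n ∉ s, g n = 0 := fun n hn => by
    by_contra h0
    exact hn (Finset.mem_union_right _ (hg.mem_toFinset.2 h0))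
  rw [tsum_eq_sum (s := s) (fun n hn => by rw [h2 n hn, mul_zero])]
  have h3 : ‖∑ n ∈ s, (starRingEnd ℂ) (f n) * g n‖ ≤ ∑ n ∈ s, ‖f n‖ * ‖g n‖ := by
    refine (norm_sum_le _ _).trans (le_of_eq ?_)
    refine Finset.sum_congr rfl (fun n _ => ?_)
    rw [norm_mul, RCLike.norm_conj]
  refine h3.trans ?_
  apply le_of_sq_le_sq _ (mul_nonneg (nm_nonneg _) (nm_nonneg _))
  rw [mul_pow, nm_sq_eq_sum s f h1, nm_sq_eq_sum s g h2]
  exact Finset.sum_mul_sq_le_sq_mul_sq s _ _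

/-- almost eigenfunctions with different energies are almost orthogonal -/
theorem sepfin_orth (v : ℤ → ℝ) {τ y z : ℝ} {u w : ℤ → ℂ} (hu : FS u) (hw : FS w)
    (hu1 : nm u = 1) (hw1 : nm w = 1) (hRu : nm (Rs v y u) ≤ τ) (hRw : nm (Rs v z w) ≤ τ) :
    |z - y| * ‖∑' n, (starRingEnd ℂ) (u n) * w n‖ ≤ 2 * τ := by
  have h1 := Rs_symm v y (u := u) hw
  have hs1 : Summable fun n => (starRingEnd ℂ) (u n) * Rs v z w n := by
    apply summable_of_hasFiniteSupport
    refine hu.subset ?_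
    intro n hn
    rw [Function.mem_support] at hn ⊢
    intro h0
    apply hn
    simp [h0]
  have hs2 : Summable fun n => (starRingEnd ℂ) (u n) * w n := by
    apply summable_of_hasFiniteSupport
    refine hu.subset ?_
    intro n hn
    rw [Function.mem_support] at hn ⊢
    intro h0
    apply hn
    simp [h0]
  have h2 : ∑' n, (starRingEnd ℂ) (u n) * Rs v y w n =
      ∑' n, (starRingEnd ℂ) (u n) * Rs v z w n
        + ((z - y : ℝ) : ℂ) * ∑' n, (starRingEnd ℂ) (u n) * w n := by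
    rw [← tsum_mul_left, ← hs1.tsum_add (hs2.mul_left _)]
    refine tsum_congr (fun n => ?_)
    simp only [Rs]
    push_cast
    ring
  have h3 : ((z - y : ℝ) : ℂ) * ∑' n, (starRingEnd ℂ) (u n) * w n =
      ∑' n, (starRingEnd ℂ) (Rs v y u n) * w n - ∑' n, (starRingEnd ℂ) (u n) * Rs v z w n := by
    rw [h1, h2]
    ring
  have h4 : |z - y| * ‖∑' n, (starRingEnd ℂ) (u n) * w n‖ =
      ‖((z - y : ℝ) : ℂ) * ∑' n, (starRingEnd ℂ) (u n) * w n‖ := by
    rw [norm_mul, Complex.norm_real, Real.norm_eq_abs]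
  rw [h4, h3]
  refine (norm_sub_le _ _).trans ?_
  have h5 := sepfin_cs (hu.Rs v y) hw
  have h6 := sepfin_cs hu (hw.Rs v z)
  rw [hw1, mul_one] at h5
  rw [hu1, one_mul] at h6
  linarith

/-- sums over the interval `[0, D)` -/
theorem sepfin_sum {E : Type} [AddCommMonoid E] [TopologicalSpace E] (D : ℕ) (F : ℤ → E)
    (h : ∀ n : ℤ, ¬ (0 ≤ n ∧ n < D) → F n = 0) : ∑' n, F n = ∑ k : Fin D, F (k : ℕ) := by
  classical
  rw [tsum_eq_sum (s := (Finset.range D).map ⟨fun k : ℕ => (k : ℤ), Nat.cast_injective⟩),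
    Finset.sum_map, Finset.sum_range]
  · rfl
  · intro n hn
    apply h
    rintro ⟨h1, h2⟩
    apply hn
    rw [Finset.mem_map]
    refine ⟨n.toNat, Finset.mem_range.2 (by omega), ?_⟩
    simp only [Function.Embedding.coeFn_mk]
    omega

/-- a separated set of energies has at most `D` elements -/
theorem sepfin_card (v : ℤ → ℝ) (D : ℕ) (τ : ℝ) (hτ0 : 0 < τ)
    (hτ : 2 * Real.sqrt τ * (D + 1) < 1) (S : Set ℝ)
    (h : ∀ y ∈ S, ∃ u : ℤ → ℂ, nm u = 1 ∧ (∀ n, u n ≠ 0 → 0 ≤ n ∧ n < D) ∧ nm (Rs v y u) ≤ τ)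
    (T : Finset ℝ) (hTS : ∀ y ∈ T, y ∈ S)
    (hT : ∀ y ∈ T, ∀ z ∈ T, y ≠ z → Real.sqrt τ < |z - y|) : T.card ≤ D := by
  by_contra hcon
  push Not at hcon
  obtain ⟨T', hT'T, hT'⟩ := Finset.exists_subset_card_eq (Nat.succ_le_of_lt hcon)
  have hsτ : 0 < Real.sqrt τ := Real.sqrt_pos.2 hτ0
  choose u hu using h
  -- enumeration
  let en : Fin (D + 1) ≃ T' := (Fin.castOrderIso hT'.symm).toEquiv.trans T'.equivFin.symm
  have hen : ∀ i, (en i : ℝ) ∈ T := fun i => hT'T (en i).2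
  set w : Fin (D + 1) → ℤ → ℂ := fun i => u (en i) (hTS _ (hen i)) with hw
  have hw1 : ∀ i, nm (w i) = 1 := fun i => (hu _ _).1
  have hw2 : ∀ i n, ¬ (0 ≤ n ∧ n < (D : ℤ)) → w i n = 0 := by
    intro i n hn
    by_contra h0
    exact hn ((hu _ (hTS _ (hen i))).2.1 n h0)
  have hw3 : ∀ i, nm (Rs v (en i) (w i)) ≤ τ := fun i => (hu _ _).2.2
  have hFS : ∀ i, FS (w i) := fun i => FS_of_Icc 0 D fun n hn => by
    by_contra h0
    exact hn (hw2 i n (by omega))
  have key := near_orth_card (ι := Fin D) (D + 1) (fun i k => w i (k : ℕ)) ?_ ?_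
  · rw [Fintype.card_fin] at key
    omega
  · intro i
    have h1 : nm (fun k : Fin D => w i (k : ℕ)) ^ 2 = nm (w i) ^ 2 := by
      rw [nm_sq_fin, nm_sq, sepfin_sum D (fun n => ‖w i n‖ ^ 2)]
      intro n hn
      rw [hw2 i n hn, norm_zero, zero_pow two_ne_zero]
    rw [hw1, one_pow] at h1
    exact (pow_eq_one_iff_of_nonneg (nm_nonneg _) two_ne_zero).1 h1
  · intro i j hij
    have h2 : (∑ k : Fin D, (starRingEnd ℂ) (w i (k : ℕ)) * w j (k : ℕ)) =
        ∑' n, (starRingEnd ℂ) (w i n) * w j n := by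
      rw [sepfin_sum D (fun n => (starRingEnd ℂ) (w i n) * w j n)]
      intro n hn
      rw [hw2 j n hn, mul_zero]
    rw [h2]
    have h3 := sepfin_orth v (hFS i) (hFS j) (hw1 i) (hw1 j) (hw3 i) (hw3 j)
    have hne : (en i : ℝ) ≠ en j := by
      intro h4
      exact hij (en.injective (Subtype.ext h4))
    have h4 := hT _ (hen i) _ (hen j) hne
    set x := ‖∑' n, (starRingEnd ℂ) (w i n) * w j n‖ with hx
    have hx0 : 0 ≤ x := norm_nonneg _
    have h5 : Real.sqrt τ * x ≤ 2 * τ := (mul_le_mul_of_nonneg_right h4.le hx0).trans h3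
    have h6 : τ = Real.sqrt τ * Real.sqrt τ := (Real.mul_self_sqrt hτ0.le).symm
    have h7 : x ≤ 2 * Real.sqrt τ := by
      have : Real.sqrt τ * x ≤ Real.sqrt τ * (2 * Real.sqrt τ) := by linarith
      exact le_of_mul_le_mul_left this hsτ
    push_cast
    rw [lt_div_iff₀ (by positivity)]
    calc x * ((D : ℝ) + 1) ≤ 2 * Real.sqrt τ * (D + 1) :=
          mul_le_mul_of_nonneg_right h7 (by positivity)
      _ < 1 := hτ

theorem sep_fin (v : ℤ → ℝ) (D : ℕ) (τ : ℝ) (hτ0 : 0 < τ) (hτ : 2 * Real.sqrt τ * (D + 1) < 1) (S : Set ℝ)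
    (h : ∀ y ∈ S, ∃ u : ℤ → ℂ, nm u = 1 ∧ (∀ n, u n ≠ 0 → 0 ≤ n ∧ n < D) ∧ nm (Rs v y u) ≤ τ) :
    ∃ F : Finset ℝ, F.card ≤ D ∧ ∀ y ∈ S, ∃ f ∈ F, |y - f| ≤ Real.sqrt τ := by
  classical
  have hcard := sepfin_card v D τ hτ0 hτ S h
  let Pr : ℕ → Prop := fun n => ∃ T : Finset ℝ, (∀ y ∈ T, y ∈ S) ∧
    (∀ y ∈ T, ∀ z ∈ T, y ≠ z → Real.sqrt τ < |z - y|) ∧ T.card = n
  have h0 : Pr 0 := ⟨∅, by simp, by simp, rfl⟩
  have hP : Pr (Nat.findGreatest Pr D) := Nat.findGreatest_spec (Nat.zero_le D) h0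
  obtain ⟨T, hT1, hT2, hT3⟩ := hP
  refine ⟨T, hcard T hT1 hT2, fun y hy => ?_⟩
  by_contra hcon
  push Not at hcon
  have hyT : y ∉ T := by
    intro h1
    have h2 := hcon y h1
    rw [sub_self, abs_zero] at h2
    exact absurd h2 (not_lt.2 (Real.sqrt_nonneg _))
  have h1 : Pr (T.card + 1) := by
    refine ⟨insert y T, ?_, ?_, Finset.card_insert_of_notMem hyT⟩
    · intro z hz
      rcases Finset.mem_insert.1 hz with rfl | hz
      · exact hy
      · exact hT1 z hz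
    · intro a ha b hb hab
      rcases Finset.mem_insert.1 ha with ha1 | ha1
      · rcases Finset.mem_insert.1 hb with hb1 | hb1
        · exact absurd (ha1.trans hb1.symm) hab
        · rw [ha1, abs_sub_comm]
          exact hcon b hb1
      · rcases Finset.mem_insert.1 hb with hb1 | hb1
        · rw [hb1]
          exact hcon a ha1
        · exact hT2 a ha1 b hb1 hab
  have h2 : T.card + 1 ≤ D := by
    obtain ⟨T', a1, a2, a3⟩ := h1
    rw [← a3]
    exact hcard T' a1 a2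
  have h3 := Nat.le_findGreatest h2 h1
  omega

end AMO75
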