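import Pool.Agent.AMO75.LocVec
import Pool.Agent.AMO75.SepFin

/-!
# [AMO75-COUNT] counting energies of a rational frequency (assembly)

Here `a / b = p / q + d'`, `P` the Chambers polynomial of `a / b`. For `y` with `0 ≤ P y ≤ 4` put `ω = 0`, for `-4 ≤ P y < 0` put `ω = 1 / (2 b)`: then
`P y = 2 cos (2 π b ω) + 2 cos θ` for some `θ` (`2 cos (2 π b ω) = ± 2`, the rest is in `[-2, 2]`), so by `Chm.sol` `y ∈ Sp (lin (a/b) ω)`.
`loc_vec`, `sep_fin` for both signs.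
-/

set_option autoImplicit false

open Real

namespace AMO75

theorem count_one (p : ℤ) (q : ℕ) (hq : 0 < q) (σ w η d' : ℝ) (hη : 0 < η) (hη1 : η ≤ 1) (hd0 : 0 < d')
    (hd : d' ≤ η ^ 2 / 10000) (hw : w ≤ 1 / (4 * q)) (l : ℕ) (hl : 16 / η ≤ l) (K : ℕ)
    (hK : (K * l + 2) * d' ≤ w) (a : ℤ) (b : ℕ) (hb : 0 < b) (hab : (a : ℝ) / b = (p : ℝ) / q + d')
    (ω : ℝ) (T : ℝ) (hT : 2 * (b + 1 / (q * d') + 3) ≤ T)
    (hτ : 2 * Real.sqrt (5 * (1 / 2) ^ K) * T < 1) :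
    ∃ F : Finset ℝ, (F.card : ℝ) ≤ T / 2 ∧ ∀ y, y ∈ Sp (lin ((a : ℝ) / b) ω) → HB p q σ w η y →
      ∃ f ∈ F, |y - f| ≤ Real.sqrt (5 * (1 / 2) ^ K) := by
  have hq0 : (0 : ℝ) < q := by exact_mod_cast hq
  have h1 : (0 : ℝ) ≤ b + 1 / (q * d') + 1 := by positivity
  obtain ⟨D, hD⟩ : ∃ D : ℕ, D = ⌈(b : ℝ) + 1 / (q * d') + 1⌉₊ := ⟨_, rfl⟩
  have hD1 : (b : ℝ) + 1 / (q * d') + 1 ≤ D := by
    rw [hD]
    exact Nat.le_ceil _
  have hD2 : (D : ℝ) < b + 1 / (q * d') + 1 + 1 := by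
    rw [hD]
    exact Nat.ceil_lt_add_one h1
  have hs0 : 0 ≤ Real.sqrt (5 * (1 / 2) ^ K) := Real.sqrt_nonneg _
  obtain ⟨F, hF1, hF2⟩ := sep_fin (lin ((a : ℝ) / b) ω) D (5 * (1 / 2) ^ K) (by positivity) (by
    have h2 : (D : ℝ) + 1 ≤ T := by linarith
    have h3 : 2 * Real.sqrt (5 * (1 / 2) ^ K) * (D + 1) ≤ 2 * Real.sqrt (5 * (1 / 2) ^ K) * T :=
      mul_le_mul_of_nonneg_left h2 (by positivity)
    linarith) {y | y ∈ Sp (lin ((a : ℝ) / b) ω) ∧ HB p q σ w η y} (by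
      rintro y ⟨hy1, hy2⟩
      exact loc_vec p q hq σ w η d' hη hη1 hd0 hd hw l hl K hK a b hb hab ω y hy2 hy1 D hD1)
  refine ⟨F, ?_, fun y h2 h3 => hF2 y ⟨h2, h3⟩⟩
  have h2 : (F.card : ℝ) ≤ D := by exact_mod_cast hF1
  linarith

theorem count (p : ℤ) (q : ℕ) (hq : 0 < q) (σ w η d' : ℝ) (hη : 0 < η) (hη1 : η ≤ 1) (hd0 : 0 < d')
    (hd : d' ≤ η ^ 2 / 10000) (hw : w ≤ 1 / (4 * q)) (l : ℕ) (hl : 16 / η ≤ l) (K : ℕ)
    (hK : (K * l + 2) * d' ≤ w) (a : ℤ) (b : ℕ) (hb : 0 < b) (hab : (a : ℝ) / b = (p : ℝ) / q + d')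
    (P : Polynomial ℝ) (hP : Chm a b P) (T : ℝ) (hT : 2 * (b + 1 / (q * d') + 3) ≤ T)
    (hτ : 2 * Real.sqrt (5 * (1 / 2) ^ K) * T < 1) :
    ∃ F : Finset ℝ, (F.card : ℝ) ≤ T ∧ ∀ y, |P.eval y| ≤ 4 → HB p q σ w η y →
      ∃ f ∈ F, |y - f| ≤ Real.sqrt (5 * (1 / 2) ^ K) := by
  classical
  have hb0 : (0 : ℝ) < b := by exact_mod_cast hb
  obtain ⟨F0, hF0c, hF0⟩ := count_one p q hq σ w η d' hη hη1 hd0 hd hw l hl K hK a b hb hab 0 T hT hτ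
  obtain ⟨F1, hF1c, hF1⟩ := count_one p q hq σ w η d' hη hη1 hd0 hd hw l hl K hK a b hb hab (1 / (2 * b)) T hT hτ
  refine ⟨F0 ∪ F1, ?_, ?_⟩
  · have h1 : ((F0 ∪ F1).card : ℝ) ≤ (F0.card : ℝ) + F1.card := by exact_mod_cast Finset.card_union_le F0 F1
    linarith
  · intro y hy hB
    have hy' := abs_le.1 hy
    rcases le_or_gt 0 (P.eval y) with h0 | h0
    · have h2 : P.eval y = 2 * Real.cos (2 * π * (b * 0)) + 2 * Real.cos (Real.arccos ((P.eval y - 2) / 2)) := by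
        rw [Real.cos_arccos (by linarith) (by linarith), mul_zero, mul_zero, Real.cos_zero]
        ring
      obtain ⟨f, hf, hf2⟩ := hF0 y (hP.sol y 0 _ h2) hB
      exact ⟨f, Finset.mem_union_left _ hf, hf2⟩
    · have h2 : P.eval y = 2 * Real.cos (2 * π * (b * (1 / (2 * b)))) +
          2 * Real.cos (Real.arccos ((P.eval y + 2) / 2)) := by
        have e1 : 2 * π * (b * (1 / (2 * b))) = π := by
          field_simp
        rw [Real.cos_arccos (by linarith) (by linarith), e1, Real.cos_pi]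
        ring
      obtain ⟨f, hf, hf2⟩ := hF1 y (hP.sol y _ _ h2) hB
      exact ⟨f, Finset.mem_union_right _ hf, hf2⟩

end AMO75
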