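import Pool.Agent.AMO75.RingD

/-!
# [AMO75-RINGB] ring eigenfunctions are localized in the window

Proof. Let `ψ` be the periodic eigenfunction, `N = ⌊(σ/q - φ) / d⌋`, `N' = ⌊((σ-1)/q - φ) / d⌋`; `m0 + 2 ≤ N'`, `N ≤ m0 + M - 3` (`left`, `right`, `0 ≤ φ ≤ q d`),
so `N + 1 < N' + M`; `(N - N') d ≥ 1/q - d`, `(K l + 2) d ≤ w ≤ 1/(4 q)`, so `N - N' ≥ 4 K l + 7`.
`a = N - K l`, `b = N' + M + 1 + K l`, `b - a < M`. `S = nm (on (N' + 1) (N' + M) ψ)` (norm over one period) is `> 0` since `ψ ≠ 0` is periodic,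
`nm (on a b ψ) ≤ S` (an interval of length at most `M`; norms over all periods are equal, by periodicity), so by `ring_decay`
`nm (on N (N'+M+1) ψ) ≤ (1/2)^K S`.
Let `u = on (N' + 1) N ψ`. `nm u ^ 2 = S² - nm (on (N+1) (N'+M) ψ) ^ 2 ≥ (1 - (1/4)^K) S² ≥ 3/4 S²` as `K ≥ 1`; so `u ≠ 0`; `InWin` by the definition of `N`, `N'`.
`Rs (lin (p/q+d) φ) E u` vanishes except at `N`, `N+1`, `N'`, `N'+1` with the values `- ψ (N+1)`, `ψ N`, `ψ (N'+1)`, `- ψ N'`
(`Rs_congr`: inside the window `rv = lin`, `max` and `min` inactive, and the window is contained in the fundamental domain;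
then `Rs_mul` with the indicator function of the window and `Rs rv E ψ = 0`).
`ψ N' = ψ (N' + M)`, `ψ (N'+1) = ψ (N'+M+1)`; the four different points `N, N+1, N'+M, N'+M+1` lie in
`[N, N'+M+1]`, so `nm (Rs ..) ^ 2 ≤ nm (on N (N'+M+1) ψ) ^ 2 ≤ (1/4)^K S² ≤ (4/3) (1/4)^K nm u ^ 2 ≤ (5 (1/2)^K nm u) ^ 2`.
-/

set_option autoImplicit false

open Real

namespace AMO75

theorem nm_on_sq (a b : ℤ) (u : ℤ → ℂ) : nm (on a b u) ^ 2 = ∑ n ∈ Finset.Icc a b, ‖u n‖ ^ 2 := by
  rw [nm_sq_eq_sum (Finset.Icc a b) (on a b u) fun n hn => by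
    unfold on
    rw [if_neg (fun h => hn (Finset.mem_Icc.2 h))]]
  refine Finset.sum_congr rfl fun n hn => ?_
  unfold on
  rw [if_pos (Finset.mem_Icc.1 hn)]

/-- sums over a period -/
theorem sum_per_succ {f : ℤ → ℝ} {M : ℤ} (hM : 0 < M) (hf : ∀ n, f (n + M) = f n) (a : ℤ) :
    ∑ n ∈ Finset.Ico (a + 1) (a + 1 + M), f n = ∑ n ∈ Finset.Ico a (a + M), f n := by
  have h1 : Finset.Ico (a + 1) (a + 1 + M) = Finset.Ioc a (a + M) := by
    ext x
    rw [Finset.mem_Ico, Finset.mem_Ioc]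
    omega
  rw [h1, ← Finset.sum_Ioo_add_eq_sum_Ioc (by omega : a < a + M),
    ← Finset.sum_Ioo_add_eq_sum_Ico (by omega : a < a + M), hf a]

theorem sum_per_add {f : ℤ → ℝ} {M : ℤ} (hM : 0 < M) (hf : ∀ n, f (n + M) = f n) (a : ℤ) (k : ℕ) :
    ∑ n ∈ Finset.Ico (a + k) (a + k + M), f n = ∑ n ∈ Finset.Ico a (a + M), f n := by
  induction k with
  | zero => simp
  | succ k ih =>
    rw [← ih, ← sum_per_succ hM hf (a + k)]
    push_cast
    rw [add_assoc a (k : ℤ) 1]

theorem sum_per {f : ℤ → ℝ} {M : ℤ} (hM : 0 < M) (hf : ∀ n, f (n + M) = f n) (a b : ℤ) :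
    ∑ n ∈ Finset.Ico a (a + M), f n = ∑ n ∈ Finset.Ico b (b + M), f n := by
  rcases le_total a b with h | h
  · have := sum_per_add hM hf a (b - a).toNat
    rw [Int.toNat_of_nonneg (by omega)] at this
    rw [← this]
    rw [show a + (b - a) = b by ring]
  · have := sum_per_add hM hf b (a - b).toNat
    rw [Int.toNat_of_nonneg (by omega)] at this
    rw [← this]
    rw [show b + (a - b) = a by ring]

theorem ring_window (p : ℤ) (q : ℕ) (hq : 0 < q) (σ w η E d : ℝ) (hη : 0 < η) (hη1 : η ≤ 1) (hd0 : 0 < d)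
    (hd : d ≤ η ^ 2 / 10000) (hw : w ≤ 1 / (4 * q)) (hB : HB p q σ w η E) (l : ℕ) (hl : 16 / η ≤ l) (K : ℕ)
    (hK1 : 1 ≤ K) (hK : (K * l + 2) * d ≤ w) (m0 M : ℤ) (hR : RingOK p q σ d m0 M) (φ : ℝ) (hφ0 : 0 ≤ φ)
    (hφ1 : φ ≤ q * d) (hE : RE p q σ d m0 M φ E) :
    ∃ u : ℤ → ℂ, u ≠ 0 ∧ InWin q σ d φ u ∧
      nm (Rs (lin ((p : ℝ) / q + d) φ) E u) ≤ 5 * (1 / 2) ^ K * nm u := by
  obtain ⟨ψ, hψ0, hper, hψ⟩ := hE
  have hq' : (0 : ℝ) < q := by exact_mod_cast hq
  have hM := hR.pos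
  -- the end points
  set N : ℤ := ⌊(σ / q - φ) / d⌋ with hNdef
  set N' : ℤ := ⌊((σ - 1) / q - φ) / d⌋ with hN'def
  have hN1 : φ + N * d ≤ σ / q := by
    have := Int.floor_le ((σ / q - φ) / d)
    rw [← hNdef, le_div_iff₀ hd0] at this
    linarith
  have hN2 : σ / q < φ + (N + 1) * d := by
    have := Int.lt_floor_add_one ((σ / q - φ) / d)
    rw [← hNdef, div_lt_iff₀ hd0] at this
    linarith
  have hN1' : φ + N' * d ≤ (σ - 1) / q := by
    have := Int.floor_le (((σ - 1) / q - φ) / d)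
    rw [← hN'def, le_div_iff₀ hd0] at this
    linarith
  have hN2' : (σ - 1) / q < φ + (N' + 1) * d := by
    have := Int.lt_floor_add_one (((σ - 1) / q - φ) / d)
    rw [← hN'def, div_lt_iff₀ hd0] at this
    linarith
  have hF1 : m0 + 3 ≤ N' := by
    rw [hN'def, Int.le_floor, le_div_iff₀ hd0]
    have := hR.left
    push_cast
    linarith
  have hF2 : N ≤ m0 + M - 3 := by
    have h1 := hR.right
    have h2 : (N : ℝ) * d ≤ ((m0 : ℝ) + M - 3) * d := by linarith
    have h3 : (N : ℝ) ≤ (m0 : ℝ) + M - 3 := le_of_mul_le_mul_right h2 hd0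
    exact_mod_cast h3
  have hF4 : N' + 4 * (K * l : ℤ) + 8 ≤ N := by
    have h1 : (4 * ((K : ℝ) * l + 2)) * d ≤ 1 / q := by
      have h2 : ((K : ℝ) * l + 2) * d ≤ 1 / (4 * q) := hK.trans hw
      have h3 : (1 : ℝ) / (4 * q) = 1 / q / 4 := by
        field_simp
      rw [h3] at h2
      linarith
    have h2 : (1 : ℝ) / q = σ / q - (σ - 1) / q := by ring
    have h3 : (4 * ((K : ℝ) * l + 2)) * d < ((N : ℝ) + 1 - N') * d := by
      rw [h2] at h1
      linarith
    have h4 : 4 * ((K : ℝ) * l + 2) < (N : ℝ) + 1 - N' := lt_of_mul_lt_mul_right h3 hd0.le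
    have h5 : 4 * ((K : ℤ) * l + 2) < N + 1 - N' := by exact_mod_cast h4
    linarith
  have hKl0 : (0 : ℤ) ≤ K * l := by positivity
  -- norms
  set f : ℤ → ℝ := fun n => ‖ψ n‖ ^ 2 with hf
  have hf0 : ∀ n, 0 ≤ f n := fun n => by rw [hf]; positivity
  have hfper : ∀ n, f (n + M) = f n := fun n => by simp only [hf, hper]
  set S2 : ℝ := ∑ n ∈ Finset.Ico (N' + 1) (N' + 1 + M), f n with hS2
  have hS2pos : 0 < S2 := by
    refine lt_of_le_of_ne (Finset.sum_nonneg fun n _ => hf0 n) fun h0 => hψ0 ?_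
    funext n
    have h1 := sum_per (by omega) hfper n (N' + 1)
    rw [← hS2, ← h0] at h1
    have h2 : f n ≤ ∑ n ∈ Finset.Ico n (n + M), f n :=
      Finset.single_le_sum (f := f) (fun i _ => hf0 i) (Finset.mem_Ico.2 ⟨le_rfl, by omega⟩)
    rw [h1] at h2
    have h3 : ‖ψ n‖ ^ 2 ≤ 0 := h2
    have h4 : ‖ψ n‖ = 0 := by
      have := sq_nonneg ‖ψ n‖
      exact pow_eq_zero_iff (two_ne_zero) |>.1 (le_antisymm h3 this)
    exact norm_eq_zero.1 h4
  have hAB : nm (on (N - K * l) (N' + M + 1 + K * l) ψ) ^ 2 ≤ S2 := by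
    rw [nm_on_sq, hS2, sum_per (by omega) hfper (N' + 1) (N - K * l)]
    refine Finset.sum_le_sum_of_subset_of_nonneg (fun n hn => ?_) fun n _ _ => hf0 n
    rw [Finset.mem_Icc] at hn
    rw [Finset.mem_Ico]
    omega
  have hdec := ring_decay p q hq σ w η E d hη hη1 hd0 hd hw hB l hl K hK m0 M hR φ hφ0 hφ1 ψ hψ N N'
    hN1 hN2 hN1' hN2'
  have hB2 : nm (on N (N' + M + 1) ψ) ^ 2 ≤ (1 / 4) ^ K * S2 := by
    have h1 : nm (on N (N' + M + 1) ψ) ^ 2 ≤
        ((1 / 2) ^ K * nm (on (N - K * l) (N' + M + 1 + K * l) ψ)) ^ 2 :=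
      pow_le_pow_left₀ (nm_nonneg _) hdec 2
    refine h1.trans ?_
    rw [mul_pow, ← pow_mul, mul_comm K 2, pow_mul]
    rw [show ((1 : ℝ) / 2) ^ 2 = 1 / 4 by norm_num]
    exact mul_le_mul_of_nonneg_left hAB (by positivity)
  have hK4 : ((1 : ℝ) / 4) ^ K ≤ 1 / 4 := by
    calc ((1 : ℝ) / 4) ^ K ≤ (1 / 4) ^ 1 :=
          pow_le_pow_of_le_one (by norm_num) (by norm_num) hK1
      _ = 1 / 4 := by norm_num
  -- the function
  have hu2 : 3 / 4 * S2 ≤ nm (on (N' + 1) N ψ) ^ 2 := by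
    have h1 : S2 = ∑ n ∈ Finset.Icc (N' + 1) N, f n + ∑ n ∈ Finset.Icc (N + 1) (N' + M), f n := by
      rw [hS2, ← Finset.sum_union]
      · refine Finset.sum_congr ?_ fun _ _ => rfl
        ext n
        rw [Finset.mem_union, Finset.mem_Icc, Finset.mem_Icc, Finset.mem_Ico]
        omega
      · rw [Finset.disjoint_left]
        intro n h1 h2
        rw [Finset.mem_Icc] at h1 h2
        omega
    have h2 : ∑ n ∈ Finset.Icc (N + 1) (N' + M), f n ≤ nm (on N (N' + M + 1) ψ) ^ 2 := by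
      rw [nm_on_sq]
      refine Finset.sum_le_sum_of_subset_of_nonneg (fun n hn => ?_) fun n _ _ => hf0 n
      rw [Finset.mem_Icc] at hn ⊢
      omega
    have h3 : (1 / 4 : ℝ) ^ K * S2 ≤ 1 / 4 * S2 := mul_le_mul_of_nonneg_right hK4 hS2pos.le
    rw [nm_on_sq]
    have h4 : ∑ n ∈ Finset.Icc (N' + 1) N, ‖ψ n‖ ^ 2 = ∑ n ∈ Finset.Icc (N' + 1) N, f n := rfl
    rw [h4]
    linarith
  refine ⟨on (N' + 1) N ψ, fun h0 => ?_, fun n hn => ?_, ?_⟩
  · rw [h0] at hu2
    have : nm (0 : ℤ → ℂ) = 0 := nm_zero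
    rw [this] at hu2
    linarith
  · have hn2 : N' + 1 ≤ n ∧ n ≤ N := by
      by_contra hcon
      apply hn
      unfold on
      rw [if_neg hcon]
    have h1 : ((N' : ℝ) + 1) ≤ n := by exact_mod_cast hn2.1
    have h2 : (n : ℝ) ≤ N := by exact_mod_cast hn2.2
    have h3 := mul_le_mul_of_nonneg_right h1 hd0.le
    have h4 := mul_le_mul_of_nonneg_right h2 hd0.le
    constructor
    · linarith
    · linarith
  · -- the residual
    have hcongr : Rs (lin ((p : ℝ) / q + d) φ) E (on (N' + 1) N ψ) =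
        Rs (rv p q σ d m0 M φ) E (on (N' + 1) N ψ) := by
      refine Rs_congr E fun n hn => ?_
      have hn2 : N' + 1 ≤ n ∧ n ≤ N := by
        by_contra hcon
        apply hn
        unfold on
        rw [if_neg hcon]
      have h1 : ((N' : ℝ) + 1) ≤ n := by exact_mod_cast hn2.1
      have h2 : (n : ℝ) ≤ N := by exact_mod_cast hn2.2
      have h3 := mul_le_mul_of_nonneg_right h1 hd0.le
      have h4 := mul_le_mul_of_nonneg_right h2 hd0.le
      have hmod : m0 + (n - m0) % M = n := by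
        rw [Int.emod_eq_of_lt (by omega) (by omega)]
        ring
      simp only [lin, rv]
      rw [hmod, min_eq_right (by linarith), max_eq_right (by linarith)]
      congr 2
      ring
    have hθ : on (N' + 1) N ψ = fun n => (((if N' + 1 ≤ n ∧ n ≤ N then 1 else 0 : ℝ)) : ℂ) * ψ n := by
      funext n
      unfold on
      split_ifs <;> simp
    have hr : ∀ n, Rs (rv p q σ d m0 M φ) E (on (N' + 1) N ψ) n =
        (((if N' + 1 ≤ n + 1 ∧ n + 1 ≤ N then 1 else 0 : ℝ) -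
          (if N' + 1 ≤ n ∧ n ≤ N then 1 else 0 : ℝ) : ℝ) : ℂ) * ψ (n + 1) +
        (((if N' + 1 ≤ n - 1 ∧ n - 1 ≤ N then 1 else 0 : ℝ) -
          (if N' + 1 ≤ n ∧ n ≤ N then 1 else 0 : ℝ) : ℝ) : ℂ) * ψ (n - 1) := by
      intro n
      rw [hθ, Rs_mul (rv p q σ d m0 M φ) E
        (fun n => (if N' + 1 ≤ n ∧ n ≤ N then 1 else 0 : ℝ)) ψ n, hψ n]
      ring
    have hnorm : nm (Rs (rv p q σ d m0 M φ) E (on (N' + 1) N ψ)) ^ 2 ≤
        nm (on N (N' + M + 1) ψ) ^ 2 := by
      rw [nm_sq_eq_sum {N', N' + 1, N, N + 1} _ fun n hn => ?_]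
      · rw [Finset.sum_insert (by
            simp only [Finset.mem_insert, Finset.mem_singleton]
            omega), Finset.sum_insert (by
            simp only [Finset.mem_insert, Finset.mem_singleton]
            omega), Finset.sum_pair (by omega)]
        have e1 : Rs (rv p q σ d m0 M φ) E (on (N' + 1) N ψ) N' = ψ (N' + 1) := by
          rw [hr, if_pos (by omega), if_neg (by omega), if_neg (by omega)]
          push_cast
          ring
        have e2 : Rs (rv p q σ d m0 M φ) E (on (N' + 1) N ψ) (N' + 1) = -ψ N' := by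
          rw [hr, if_pos (by omega), if_pos (by omega), if_neg (by omega),
            show N' + 1 - 1 = N' by ring]
          push_cast
          ring
        have e3 : Rs (rv p q σ d m0 M φ) E (on (N' + 1) N ψ) N = -ψ (N + 1) := by
          rw [hr, if_neg (by omega), if_pos (by omega), if_pos (by omega)]
          push_cast
          ring
        have e4 : Rs (rv p q σ d m0 M φ) E (on (N' + 1) N ψ) (N + 1) = ψ N := by
          rw [hr, if_neg (by omega), if_neg (by omega), if_pos (by omega),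
            show N + 1 - 1 = N by ring]
          push_cast
          ring
        rw [e1, e2, e3, e4, norm_neg, norm_neg, nm_on_sq]
        have h5 : ∑ n ∈ ({N, N + 1, N' + M, N' + M + 1} : Finset ℤ), ‖ψ n‖ ^ 2 ≤
            ∑ n ∈ Finset.Icc N (N' + M + 1), ‖ψ n‖ ^ 2 := by
          refine Finset.sum_le_sum_of_subset_of_nonneg (fun n hn => ?_) fun n _ _ => hf0 n
          simp only [Finset.mem_insert, Finset.mem_singleton] at hn
          rw [Finset.mem_Icc]
          omega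
        refine le_trans (le_of_eq ?_) h5
        rw [Finset.sum_insert (by
            simp only [Finset.mem_insert, Finset.mem_singleton]
            omega), Finset.sum_insert (by
            simp only [Finset.mem_insert, Finset.mem_singleton]
            omega), Finset.sum_pair (by omega), show N' + M + 1 = N' + 1 + M by ring, hper, hper]
        ring
      · simp only [Finset.mem_insert, Finset.mem_singleton, not_or] at hn
        rw [hr]
        have a1 : (N' + 1 ≤ n + 1 ∧ n + 1 ≤ N) ↔ (N' + 1 ≤ n ∧ n ≤ N) := by omega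
        have a2 : (N' + 1 ≤ n - 1 ∧ n - 1 ≤ N) ↔ (N' + 1 ≤ n ∧ n ≤ N) := by omega
        simp only [a1, a2, sub_self, Complex.ofReal_zero, zero_mul, add_zero]
    rw [hcongr]
    refine nm_le_of_sq_le (by
      have := nm_nonneg (on (N' + 1) N ψ)
      positivity) ?_
    refine hnorm.trans (hB2.trans ?_)
    rw [mul_pow, mul_pow, ← pow_mul, mul_comm K 2, pow_mul, show ((1 : ℝ) / 2) ^ 2 = 1 / 4 by norm_num]
    have h6 : (0 : ℝ) ≤ (1 / 4) ^ K := by positivity
    have h7 : S2 ≤ 25 * nm (on (N' + 1) N ψ) ^ 2 := by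
      have := sq_nonneg (nm (on (N' + 1) N ψ))
      linarith
    have h8 := mul_le_mul_of_nonneg_left h7 h6
    linarith

end AMO75
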