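import Pool.Agent.AMO75.Chm
import Pool.Agent.AMO75.RingB
import Pool.Agent.AMO75.Count

/-!
# [AMO75-CLUB] all ring eigenvalues near to a good energy are near to a finite set

Notation: `τ = 5 (1/2)^K`, `η₀ = η / 4`, `α = p/q + d`.
`hb_energy`: `HB p q σ w η E` implies `HB p q σ w η₀ E'` if `|E' - E| ≤ 3 η / 4` (`nm_Rs_energy`).
Dirichlet (`Real.exists_rat_abs_sub_le_and_den_le` or `Real.exists_int_int_abs_mul_sub_le`) for `α`, `Q`: a fraction `a / b` in lowest terms, `0 < b ≤ Q`,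
`|α - a/b| ≤ 1 / (b (Q+1))`. Put `d' = a/b - p/q`: `|d' - d| ≤ 1 / Q ≤ d / 2` (`hQ`), so `d / 2 ≤ d' ≤ 2 d`. `P` the Chambers polynomial of
`a / b` (`exists_chm`).
(1) `count` for `a / b` with `η₀`, `w`, `l`, `K`, `T' = 2 (b + 2/(q d) + 3)`: finite set `F₀`, at most `T'` elements, such that every `y` with `|P y| ≤ 4` and
`HB p q σ w η₀ y` is within `√τ` of `F₀` (`hτ`, `b ≤ Q`).
(2) Let `|g - E| ≤ η / 4`, `HB .. η E`, and `g` a ring eigenvalue for `φ ∈ [0, q d]`. Then `HB .. η₀ g`; by `ring_window` (with `η₀`) there is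
`u ≠ 0`, `InWin q σ d φ u`, `nm (Rs (lin α φ) g u) ≤ τ nm u`; on the support of `u` `|m| ≤ 1/(q d) + q`
(`|φ + m d| ≤ 1/q`, `0 ≤ φ ≤ q d`, `0 ≤ σ ≤ 1`), so `|lin α φ m - lin (a/b) φ m| ≤ 4 π |m| |α - a/b|`
`≤ 4 π (1/(q d) + q) / (b Q) =: ρ` (`Real.abs_cos_sub_cos_le`), so `nm (Rs (lin (a/b) φ) g u) ≤ (τ + ρ) nm u < 2 (τ + ρ) nm u` (`nm_Rs_pot`). By `Chm.near` there is `y` with
`|y - g| < 2 (τ + ρ)`, `|P y| ≤ 4`; then `HB .. η₀ y` (`η / 4 + 2 (τ + ρ) ≤ 3 η / 4`), so by (1) `|g - f| < 2 (τ + ρ) + √τ =: s` for some `f ∈ F₀`.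
(3) `hr` (and `r ≤ η / 4`) gives `2 s card F₀ + τ < r / 2` and `2 (τ + ρ) ≤ η / 4`: `T' ρ ≤ 2 (1 + 2/(q d) + 3) 4 π (1/(q d) + q) / Q` (as `b ≥ 1`),
`T' (2 τ + √τ) ≤ 2 (Q + 2/(q d) + 3) (2 τ + √τ)`, and `2 s T' = 2 T' (2 τ + √τ) + 4 T' ρ`.
-/

set_option autoImplicit false

open Real

namespace AMO75

theorem hb_energy (p : ℤ) (q : ℕ) (σ w η η' E E' : ℝ) (h : HB p q σ w η E) (h2 : |E' - E| + η' ≤ η) :
    HB p q σ w η' E' := by
  intro k x hx u hu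
  have h1 := h k x hx u hu
  have h3 := nm_Rs_energy (lin ((p : ℝ) / q) x) E E' hu
  have h4 : 0 ≤ nm u := nm_nonneg u
  rw [abs_sub_comm] at h2
  nlinarith [mul_le_mul_of_nonneg_right h2 h4]

theorem FS_InWin (q : ℕ) (σ d φ : ℝ) (hd : 0 < d) (u : ℤ → ℂ) (hu : InWin q σ d φ u) : FS u := by
  apply FS_of_Icc ⌊((σ - 1) / q - φ) / d⌋ ⌈(σ / q - φ) / d⌉
  intro n hn
  obtain ⟨h1, h2⟩ := hu n hn
  constructor
  · have h3 : ((σ - 1) / q - φ) / d < n := by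
      rw [div_lt_iff₀ hd]
      linarith
    have h4 := Int.floor_le (((σ - 1) / q - φ) / d)
    have h5 : ((⌊((σ - 1) / q - φ) / d⌋ : ℤ) : ℝ) < n := lt_of_le_of_lt h4 h3
    exact_mod_cast h5.le
  · have h3 : (n : ℝ) ≤ (σ / q - φ) / d := by
      rw [le_div_iff₀ hd]
      linarith
    have h4 := Int.le_ceil ((σ / q - φ) / d)
    exact_mod_cast h3.trans h4

theorem lin_sub_le (α β φ : ℝ) (n : ℤ) : |lin α φ n - lin β φ n| ≤ 4 * π * |(n : ℝ)| * |α - β| := by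
  simp only [lin]
  rw [← mul_sub, abs_mul, abs_of_pos (by norm_num : (0 : ℝ) < 2)]
  have h := Real.abs_cos_sub_cos_le (2 * π * (n * α + φ)) (2 * π * (n * β + φ))
  have h2 : |2 * π * (n * α + φ) - 2 * π * (n * β + φ)| = 2 * π * (|(n : ℝ)| * |α - β|) := by
    rw [← mul_sub, abs_mul, abs_of_pos (by positivity), ← abs_mul]
    congr 2
    ring
  rw [h2] at h
  linarith

theorem ring_count (p : ℤ) (q : ℕ) (hq : 0 < q) (hpq : IsCoprime p (q : ℤ)) (σ w η d : ℝ) (hσ0 : 0 ≤ σ) (hσ1 : σ ≤ 1)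
    (hη : 0 < η) (hη1 : η ≤ 1) (hd0 : 0 < d) (hd : 2 * d ≤ (η / 4) ^ 2 / 10000) (hw : w ≤ 1 / (4 * q)) (l : ℕ)
    (hl : 16 / (η / 4) ≤ l) (K : ℕ) (hK1 : 1 ≤ K) (hK : (K * l + 2) * (2 * d) ≤ w) (m0 M : ℤ)
    (hR : RingOK p q σ d m0 M) (Q : ℕ) (hQ : 2 ≤ Q * d) (r : ℝ) (hr1 : r ≤ η / 4)
    (hτ : 2 * Real.sqrt (5 * (1 / 2) ^ K) * (2 * (Q + 2 / (q * d) + 3)) < 1)
    (hr : 5 * (1 / 2) ^ K + 2 * (2 * (Q + 2 / (q * d) + 3) * (2 * (5 * (1 / 2) ^ K) + Real.sqrt (5 * (1 / 2) ^ K))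
      + 2 * (4 + 2 / (q * d)) * (8 * π * (1 / (q * d) + q) / Q)) < r / 2) :
    ∃ (F₀ : Finset ℝ) (s : ℝ), 0 ≤ s ∧ 2 * s * F₀.card + 5 * (1 / 2) ^ K < r / 2 ∧
      ∀ E g φ : ℝ, HB p q σ w η E → |g - E| ≤ η / 4 → 0 ≤ φ → φ ≤ q * d → RE p q σ d m0 M φ g →
        ∃ f ∈ F₀, |g - f| < s := by
  have hq0 : (0 : ℝ) < q := by exact_mod_cast hq
  have hpi := Real.pi_pos
  obtain ⟨τ, hτdef⟩ : ∃ τ : ℝ, τ = 5 * (1 / 2) ^ K := ⟨_, rfl⟩
  have hτ0 : 0 < τ := by rw [hτdef]; positivity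
  have hs0 : 0 ≤ Real.sqrt τ := Real.sqrt_nonneg _
  rw [← hτdef] at hτ hr
  have hQ0 : (0 : ℝ) < Q := by
    by_contra hcon
    have : (Q : ℝ) = 0 := le_antisymm (not_lt.1 hcon) (Nat.cast_nonneg Q)
    rw [this] at hQ
    linarith
  have hQn : 0 < Q := by exact_mod_cast hQ0
  obtain ⟨α', hα1, hα2⟩ := Real.exists_rat_abs_sub_le_and_den_le ((p : ℝ) / q + d) hQn
  obtain ⟨a, ha⟩ : ∃ a : ℤ, a = α'.num := ⟨_, rfl⟩
  obtain ⟨b, hb⟩ : ∃ b : ℕ, b = α'.den := ⟨_, rfl⟩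
  have hbn : 0 < b := by rw [hb]; exact α'.den_pos
  have hb0 : (0 : ℝ) < b := by exact_mod_cast hbn
  have hb1 : (1 : ℝ) ≤ b := by exact_mod_cast hbn
  have hcop : IsCoprime a (b : ℤ) := by
    rw [ha, hb, Int.isCoprime_iff_gcd_eq_one]
    have := α'.reduced
    rw [Nat.coprime_iff_gcd_eq_one] at this
    rw [Int.gcd, Int.natAbs_natCast]
    exact this
  have hab : (α' : ℝ) = (a : ℝ) / b := by
    rw [ha, hb]
    exact_mod_cast (Rat.num_div_den α').symm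
  rw [hab, ← hb] at hα1
  rw [← hb] at hα2
  have hbQ : (b : ℝ) ≤ Q := by exact_mod_cast hα2
  -- the difference
  have hδ : |(p : ℝ) / q + d - a / b| ≤ 1 / (b * Q) := by
    refine hα1.trans ?_
    apply one_div_le_one_div_of_le (by positivity)
    nlinarith
  have hδ2 : |(p : ℝ) / q + d - a / b| ≤ d / 2 := by
    refine hδ.trans ?_
    rw [div_le_iff₀ (by positivity)]
    nlinarith
  obtain ⟨d', hd'⟩ : ∃ d' : ℝ, d' = (a : ℝ) / b - p / q := ⟨_, rfl⟩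
  have hab' : (a : ℝ) / b = (p : ℝ) / q + d' := by rw [hd']; ring
  have hdd := abs_le.1 hδ2
  have hd'1 : d / 2 ≤ d' := by rw [hd']; linarith
  have hd'2 : d' ≤ 2 * d := by rw [hd']; linarith
  have hd'0 : 0 < d' := by linarith
  obtain ⟨P, hP⟩ := exists_chm a b hbn hcop
  obtain ⟨A, hA⟩ : ∃ A : ℝ, A = 1 / (q * d) := ⟨_, rfl⟩
  have hA0 : 0 < A := by rw [hA]; positivity
  have hA2 : 2 / ((q : ℝ) * d) = 2 * A := by rw [hA]; ring
  rw [hA2] at hτ hr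
  rw [← hA] at hr
  have hA' : 1 / ((q : ℝ) * d') ≤ 2 * A := by
    rw [← hA2, div_le_div_iff₀ (by positivity) (by positivity)]
    nlinarith
  obtain ⟨F₀, hF₀c, hF₀⟩ := count p q hq σ w (η / 4) d' (by linarith) (by linarith) hd'0 (hd'2.trans hd) hw l hl K
    (by
      refine le_trans ?_ hK
      apply mul_le_mul_of_nonneg_left hd'2
      positivity) a b hbn hab' P hP (2 * (b + 2 * A + 3)) (by linarith) (by
      rw [← hτdef]
      refine lt_of_le_of_lt ?_ hτ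
      apply mul_le_mul_of_nonneg_left _ (by positivity)
      linarith)
  rw [← hτdef] at hF₀
  obtain ⟨ρ, hρ⟩ : ∃ ρ : ℝ, ρ = 4 * π * (A + q) / (b * Q) := ⟨_, rfl⟩
  have hρ0 : 0 < ρ := by rw [hρ]; positivity
  obtain ⟨Y, hY⟩ : ∃ Y : ℝ, Y = 4 * π * (A + q) / Q := ⟨_, rfl⟩
  have hY0 : 0 < Y := by rw [hY]; positivity
  have hρY : ρ = Y / b := by
    rw [hρ, hY]
    field_simp
  have hY2 : 8 * π * (A + q) / Q = 2 * Y := by rw [hY]; ring
  rw [hY2] at hr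
  have hρY1 : ρ ≤ Y := by
    rw [hρY]
    exact div_le_self hY0.le hb1
  have hTρ : (b + 2 * A + 3) * ρ ≤ (4 + 2 * A) * Y := by
    have h0 : b * ρ = Y := by
      rw [hρY]
      field_simp
    have h1 : (b + 2 * A + 3) * ρ = b * ρ + (2 * A + 3) * ρ := by ring
    have h2 : (2 * A + 3) * ρ ≤ (2 * A + 3) * Y := mul_le_mul_of_nonneg_left hρY1 (by positivity)
    have h3 : (4 + 2 * A) * Y = Y + (2 * A + 3) * Y := by ring
    rw [h1, h0, h3]
    linarith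
  have hsmall : 2 * (τ + ρ) ≤ η / 2 := by
    have h1 : 3 * (2 * τ) ≤ (Q + 2 * A + 3) * (2 * τ + Real.sqrt τ) :=
      mul_le_mul (by linarith) (by linarith) (by positivity) (by positivity)
    have h2 : 4 * (2 * Y) ≤ (4 + 2 * A) * (2 * Y) := mul_le_mul_of_nonneg_right (by linarith) (by positivity)
    have h3 : 2 * (Q + 2 * A + 3) * (2 * τ + Real.sqrt τ) = 2 * ((Q + 2 * A + 3) * (2 * τ + Real.sqrt τ)) := by ring
    have h4 : 2 * (4 + 2 * A) * (2 * Y) = 2 * ((4 + 2 * A) * (2 * Y)) := by ring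
    rw [h3, h4] at hr
    linarith
  refine ⟨F₀, 2 * (τ + ρ) + Real.sqrt τ, by positivity, ?_, ?_⟩
  · rw [← hτdef]
    have h1 : 2 * (2 * (τ + ρ) + Real.sqrt τ) * F₀.card ≤ 2 * (2 * (τ + ρ) + Real.sqrt τ) * (2 * (b + 2 * A + 3)) :=
      mul_le_mul_of_nonneg_left hF₀c (by positivity)
    have h2 : 2 * (2 * (τ + ρ) + Real.sqrt τ) * (2 * (b + 2 * A + 3))
        = 4 * ((b + 2 * A + 3) * (2 * τ + Real.sqrt τ)) + 8 * ((b + 2 * A + 3) * ρ) := by ring
    have h3 : (b + 2 * A + 3) * (2 * τ + Real.sqrt τ) ≤ (Q + 2 * A + 3) * (2 * τ + Real.sqrt τ) :=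
      mul_le_mul_of_nonneg_right (by linarith) (by positivity)
    have h4 : 2 * (Q + 2 * A + 3) * (2 * τ + Real.sqrt τ) = 2 * ((Q + 2 * A + 3) * (2 * τ + Real.sqrt τ)) := by ring
    have h5 : 2 * (4 + 2 * A) * (2 * Y) = 4 * ((4 + 2 * A) * Y) := by ring
    rw [h4, h5] at hr
    rw [h2] at h1
    linarith
  · intro E g φ hB hgE hφ0 hφ1 hRE
    have hBg : HB p q σ w (η / 4) g := hb_energy p q σ w η (η / 4) E g hB (by linarith)
    obtain ⟨u, hu0, huW, hu⟩ := ring_window p q hq σ w (η / 4) g d (by linarith) (by linarith) hd0 (by linarith) hw hBg l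
      hl K hK1 (by
        refine le_trans ?_ hK
        apply mul_le_mul_of_nonneg_left _ (by positivity)
        linarith) m0 M hR φ hφ0 hφ1 hRE
    rw [← hτdef] at hu
    have hFS := FS_InWin q σ d φ hd0 u huW
    have hn := nm_pos hFS hu0
    have hpot := nm_Rs_pot (lin ((a : ℝ) / b) φ) (lin ((p : ℝ) / q + d) φ) g hFS hρ0.le (by
      intro n hn
      obtain ⟨h1, h2⟩ := huW n hn
      refine (lin_sub_le _ _ _ n).trans ?_
      have h3 : |(n : ℝ)| ≤ A + q := by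
        have e1 : 1 / (q : ℝ) = A * d := by
          rw [hA]
          field_simp
        have e2 : (σ - 1) / q ≥ - (1 / (q : ℝ)) := by
          rw [ge_iff_le, ← neg_div, div_le_div_iff_of_pos_right hq0]
          linarith
        have e3 : σ / q ≤ 1 / (q : ℝ) := by
          rw [div_le_div_iff_of_pos_right hq0]
          linarith
        have e4 : (A + q) * d = A * d + q * d := by ring
        have e5 : 0 ≤ q * d := by positivity
        rw [abs_le]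
        constructor
        · have h4 : -(A + q) * d ≤ n * d := by
            rw [neg_mul, e4]
            linarith
          exact le_of_mul_le_mul_right h4 hd0
        · have h4 : (n : ℝ) * d ≤ (A + q) * d := by
            rw [e4]
            linarith
          exact le_of_mul_le_mul_right h4 hd0
      have h5 : |(a : ℝ) / b - (p / q + d)| ≤ 1 / (b * Q) := by
        rw [abs_sub_comm]
        exact hδ
      calc 4 * π * |(n : ℝ)| * |(a : ℝ) / b - (p / q + d)| ≤ 4 * π * (A + q) * (1 / (b * Q)) := by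
            gcongr
        _ = ρ := by
            rw [hρ]
            ring)
    obtain ⟨y, θ, hy1, hy2⟩ := hP.near φ g (2 * (τ + ρ)) u hFS (by
      have h1 : 0 < (τ + ρ) * nm u := by positivity
      nlinarith)
    have hPy : |P.eval y| ≤ 4 := by
      rw [hy2, abs_le]
      have c1 := Real.cos_le_one (2 * π * (b * φ))
      have c2 := Real.neg_one_le_cos (2 * π * (b * φ))
      have c3 := Real.cos_le_one θ
      have c4 := Real.neg_one_le_cos θ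
      constructor <;> linarith
    have hBy : HB p q σ w (η / 4) y := by
      apply hb_energy p q σ w η (η / 4) E y hB
      have h1 : |y - E| ≤ |y - g| + |g - E| := abs_sub_le _ _ _
      linarith
    obtain ⟨f, hf, hf2⟩ := hF₀ y hPy hBy
    refine ⟨f, hf, ?_⟩
    have h1 : |g - f| ≤ |g - y| + |y - f| := abs_sub_le _ _ _
    rw [abs_sub_comm g y] at h1
    linarith

end AMO75
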