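import Pool.Agent.AMO75.HermA

/-!
# [AMO75-HERMB] homotopy of Hermitian matrices

`homot`: let `X` be the set of `φ ∈ [0, c]` such that `A φ` has an eigenvalue in `(g, g')`, equivalently (by `hg`, `hg'`) in `[g, g']`.
`X` is relatively open: if `y` is an eigenvalue of `A φ` with eigenvector `ψ` and `φ'` is near `φ` then
`nm (A φ' ψ - y ψ) ≤ ρ nm ψ` with small `ρ`, so by `herm_near` `A φ'` has an eigenvalue near `y`. `X` is relatively closed: if
`φ_n → φ`, `y_n ∈ [g, g']` eigenvalue of `A φ_n`, then a subsequence `y_n → y` and `det (A φ - y) = lim det (A φ_n - y_n) = 0`.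
(e.g. `X` is the projection of the compact set `{(φ, y) ∈ [0, c] × [g, g'] : det (A φ - y) = 0}`.) `[0, c]` is preconnected.
-/

set_option autoImplicit false

open Real

namespace AMO75

private theorem homot_nm_pos {ι : Type} [Fintype ι] {ψ : ι → ℂ} (h : ψ ≠ 0) : 0 < nm ψ := by
  obtain ⟨i, hi⟩ := Function.ne_iff.1 h
  have h1 : 0 < nm ψ ^ 2 := by
    rw [nm_sq_fin]
    apply Finset.sum_pos'
    · intro j _
      positivity
    · refine ⟨i, Finset.mem_univ i, ?_⟩
      have : 0 < ‖ψ i‖ := norm_pos_iff.2 hi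
      positivity
  rcases (nm_nonneg ψ).lt_or_eq with h2 | h2
  · exact h2
  · rw [← h2] at h1
    simp at h1

private theorem homot_cont {ι : Type} [Fintype ι] (A : ℝ → Matrix ι ι ℂ) (hc : Continuous A) {c : ℝ}
    (ψ : ι → ℂ) (y : ℝ) : Continuous fun φ' : Set.Icc (0 : ℝ) c =>
      nm (fun i => (A φ').mulVec ψ i - (y : ℂ) * ψ i) := by
  unfold nm
  simp only [tsum_fintype]
  apply Real.continuous_sqrt.comp
  apply continuous_finsetSum
  intro i _
  apply Continuous.pow
  apply Continuous.norm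
  apply Continuous.sub _ continuous_const
  have h1 : Continuous fun φ' : Set.Icc (0 : ℝ) c => (A φ').mulVec ψ :=
    (hc.comp continuous_subtype_val).matrix_mulVec continuous_const
  exact (continuous_apply i).comp h1

theorem homot {ι : Type} [Fintype ι] [DecidableEq ι] (A : ℝ → Matrix ι ι ℂ) (hA : ∀ φ, (A φ).IsHermitian)
    (hc : Continuous A) (c g g' : ℝ)
    (hg : ∀ φ ∈ Set.Icc 0 c, ∀ ψ : ι → ℂ, (A φ).mulVec ψ = (fun i => (g : ℂ) * ψ i) → ψ = 0)
    (hg' : ∀ φ ∈ Set.Icc 0 c, ∀ ψ : ι → ℂ, (A φ).mulVec ψ = (fun i => (g' : ℂ) * ψ i) → ψ = 0)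
    (φ₁ y : ℝ) (hφ₁ : φ₁ ∈ Set.Icc 0 c) (hy : g < y ∧ y < g') (ψ : ι → ℂ) (hψ : ψ ≠ 0)
    (h : (A φ₁).mulVec ψ = fun i => (y : ℂ) * ψ i) :
    ∃ (y' : ℝ) (ψ' : ι → ℂ), g < y' ∧ y' < g' ∧ ψ' ≠ 0 ∧ (A 0).mulVec ψ' = fun i => (y' : ℂ) * ψ' i := by
  have h0c : (0 : ℝ) ≤ c := hφ₁.1.trans hφ₁.2
  set X : Set (Set.Icc (0 : ℝ) c) := {φ | ∃ (y : ℝ) (ψ : ι → ℂ), g < y ∧ y < g' ∧ ψ ≠ 0 ∧
    (A φ).mulVec ψ = fun i => (y : ℂ) * ψ i} with hX
  have hopen : IsOpen X := by
    rw [isOpen_iff_mem_nhds]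
    rintro φ ⟨y, ψ, hgy, hyg, hψ0, hψe⟩
    have hnm : 0 < nm ψ := homot_nm_pos hψ0
    set ρ : ℝ := min (y - g) (g' - y) / 2 with hρ
    have hmin : 0 < min (y - g) (g' - y) := lt_min (by linarith) (by linarith)
    have hρ0 : 0 < ρ := by rw [hρ]; linarith
    have hcont : Continuous fun φ' : Set.Icc (0 : ℝ) c =>
        nm (fun i => (A φ').mulVec ψ i - (y : ℂ) * ψ i) :=
      homot_cont A hc ψ y
    have hzero : nm (fun i => (A φ).mulVec ψ i - (y : ℂ) * ψ i) = 0 := by
      have : (fun i => (A φ).mulVec ψ i - (y : ℂ) * ψ i) = fun _ => (0 : ℂ) := by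
        funext i
        rw [hψe]
        exact sub_self _
      rw [this]
      unfold nm
      simp
    have hev : ∀ᶠ φ' : Set.Icc (0 : ℝ) c in nhds φ,
        nm (fun i => (A φ').mulVec ψ i - (y : ℂ) * ψ i) < ρ * nm ψ := by
      apply hcont.continuousAt.eventually_lt continuousAt_const
      rw [hzero]
      positivity
    filter_upwards [hev] with φ' hφ'
    obtain ⟨y', ψ', h1, h2, h3⟩ := herm_near (A φ') (hA φ') y ρ ψ hψ0 hφ'.le
    have h4 := abs_le.1 h1
    have h5 : min (y - g) (g' - y) ≤ y - g := min_le_left _ _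
    have h6 : min (y - g) (g' - y) ≤ g' - y := min_le_right _ _
    exact ⟨y', ψ', by linarith [h4.1], by linarith [h4.2], h2, h3⟩
  have hclosed : IsClosed X := by
    set K : Set (Set.Icc (0 : ℝ) c × Set.Icc g g') :=
      {p | (A p.1 - ((p.2 : ℝ) : ℂ) • (1 : Matrix ι ι ℂ)).det = 0} with hK
    have hKc : IsClosed K := by
      apply isClosed_eq _ continuous_const
      apply Continuous.matrix_det
      apply Continuous.sub
      · exact hc.comp (continuous_subtype_val.comp continuous_fst)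
      · exact (Complex.continuous_ofReal.comp (continuous_subtype_val.comp continuous_snd)).smul
          continuous_const
    have hXK : X = Prod.fst '' K := by
      ext φ
      constructor
      · rintro ⟨y, ψ, hgy, hyg, hψ0, hψe⟩
        refine ⟨(φ, ⟨y, hgy.le, hyg.le⟩), ?_, rfl⟩
        apply Matrix.exists_mulVec_eq_zero_iff.1
        refine ⟨ψ, hψ0, ?_⟩
        rw [Matrix.sub_mulVec, Matrix.smul_mulVec, Matrix.one_mulVec, hψe]
        funext i
        simp
      · rintro ⟨⟨φ', y⟩, hp, rfl⟩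
        obtain ⟨ψ, hψ0, hψe⟩ := Matrix.exists_mulVec_eq_zero_iff.2 hp
        have hψe' : (A φ').mulVec ψ = fun i => ((y : ℝ) : ℂ) * ψ i := by
          rw [Matrix.sub_mulVec, Matrix.smul_mulVec, Matrix.one_mulVec] at hψe
          rw [sub_eq_zero.1 hψe]
          funext i
          simp
        refine ⟨y, ψ, ?_, ?_, hψ0, hψe'⟩
        · rcases lt_or_eq_of_le y.2.1 with h1 | h1
          · exact h1
          · exfalso
            apply hψ0
            apply hg φ' φ'.2 ψ
            rw [hψe']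
            funext i
            congr 2
            exact h1.symm
        · rcases lt_or_eq_of_le y.2.2 with h1 | h1
          · exact h1
          · exfalso
            apply hψ0
            apply hg' φ' φ'.2 ψ
            rw [hψe']
            funext i
            congr 2
    rw [hXK]
    exact (hKc.isCompact.image continuous_fst).isClosed
  have : PreconnectedSpace (Set.Icc (0 : ℝ) c) := Subtype.preconnectedSpace isPreconnected_Icc
  have huniv : X = Set.univ :=
    IsClopen.eq_univ ⟨hclosed, hopen⟩ ⟨⟨φ₁, hφ₁⟩, y, ψ, hy.1, hy.2, hψ, h⟩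
  have h0 : (⟨0, le_refl 0, h0c⟩ : Set.Icc (0 : ℝ) c) ∈ X := by rw [huniv]; trivial
  obtain ⟨y', ψ', h1, h2, h3, h4⟩ := h0
  exact ⟨y', ψ', h1, h2, h3, h4⟩

end AMO75
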