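import Pool.Agent.AMO75.RingM
import Pool.Agent.AMO75.HermB

/-!
# [AMO75-RINGH] the ring operator: number of eigenvalues, homotopy

Write `M = k + 8` (`k : ℕ`) and use `RE_iff`.
`ring_fin`: a matrix of size `M` has at most `M` eigenvalues (real roots of the characteristic polynomial, `Matrix.charpoly_natDegree_eq_dim`,
`Polynomial.card_roots'`; `Matrix.exists_mulVec_eq_zero_iff`; or the set of `hA.eigenvalues`).
`ring_hom`: `homot`.
-/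

set_option autoImplicit false

open Real

namespace AMO75

private theorem exists_size {M : ℤ} (hM : 8 ≤ M) : ∃ k : ℕ, M = ((k + 8 : ℕ) : ℤ) := by
  refine ⟨(M - 8).toNat, ?_⟩
  push_cast
  rw [Int.toNat_of_nonneg (by omega)]
  ring

theorem ring_fin (p : ℤ) (q : ℕ) (σ d : ℝ) (m0 M : ℤ) (hM : 8 ≤ M) (φ : ℝ) :
    ∃ F : Finset ℝ, F.card ≤ M.toNat ∧ ∀ y, RE p q σ d m0 M φ y → y ∈ F := by
  obtain ⟨k, rfl⟩ := exists_size hM
  set A := ringM p q σ d m0 k φ with hA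
  refine ⟨A.charpoly.roots.toFinset.image Complex.re, ?_, ?_⟩
  · calc (A.charpoly.roots.toFinset.image Complex.re).card
        ≤ A.charpoly.roots.toFinset.card := Finset.card_image_le
      _ ≤ Multiset.card A.charpoly.roots := Multiset.toFinset_card_le _
      _ ≤ A.charpoly.natDegree := Polynomial.card_roots' _
      _ = Fintype.card (ZMod (k + 8)) := Matrix.charpoly_natDegree_eq_dim A
      _ = k + 8 := ZMod.card (k + 8)
      _ = (((k + 8 : ℕ) : ℤ)).toNat := (Int.toNat_natCast _).symm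
  · intro y hy
    obtain ⟨ψ, hψ, h⟩ := (RE_iff p q σ d m0 k φ y).1 hy
    rw [Finset.mem_image]
    refine ⟨(y : ℂ), ?_, Complex.ofReal_re y⟩
    rw [Multiset.mem_toFinset, Polynomial.mem_roots (Matrix.charpoly_monic A).ne_zero,
      Polynomial.IsRoot.def, Matrix.eval_charpoly]
    apply Matrix.exists_mulVec_eq_zero_iff.1
    refine ⟨ψ, hψ, ?_⟩
    rw [Matrix.sub_mulVec, h]
    funext i
    simp [Matrix.scalar_apply]

theorem ring_hom (p : ℤ) (q : ℕ) (σ d : ℝ) (m0 M : ℤ) (hM : 8 ≤ M) (c g g' φ₁ y : ℝ)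
    (hg : ∀ φ ∈ Set.Icc 0 c, ¬ RE p q σ d m0 M φ g) (hg' : ∀ φ ∈ Set.Icc 0 c, ¬ RE p q σ d m0 M φ g')
    (hφ₁ : φ₁ ∈ Set.Icc 0 c) (hgy : g < y) (hyg : y < g') (h : RE p q σ d m0 M φ₁ y) :
    ∃ y', RE p q σ d m0 M 0 y' ∧ g < y' ∧ y' < g' := by
  obtain ⟨k, rfl⟩ := exists_size hM
  obtain ⟨ψ, hψ, hψe⟩ := (RE_iff p q σ d m0 k φ₁ y).1 h
  have key : ∀ e : ℝ, (∀ φ ∈ Set.Icc 0 c, ¬ RE p q σ d m0 ((k + 8 : ℕ) : ℤ) φ e) →
      ∀ φ ∈ Set.Icc 0 c, ∀ ψ : ZMod (k + 8) → ℂ,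
        (ringM p q σ d m0 k φ).mulVec ψ = (fun i => (e : ℂ) * ψ i) → ψ = 0 := by
    intro e he φ hφ ψ hψ
    by_contra h0
    exact he φ hφ ((RE_iff p q σ d m0 k φ e).2 ⟨ψ, h0, hψ⟩)
  obtain ⟨y', ψ', h1, h2, h3, h4⟩ := homot (ringM p q σ d m0 k) (ringM_herm p q σ d m0 k)
    (ringM_cont p q σ d m0 k) c g g' (key g hg) (key g' hg') φ₁ y hφ₁ ⟨hgy, hyg⟩ ψ hψ hψe
  exact ⟨y', (RE_iff p q σ d m0 k 0 y').2 ⟨ψ', h3, h4⟩, h1, h2⟩

end AMO75
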