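import Pool.Agent.AMO75.Window

/-!
# [AMO75-STDW] localization in the standard window

From `window` (with `u` from `hE : E ∈ Sp ..` for `ε = η * (1/2)^K / 20`) by a translation: let `n₀` be an integer with `n₀ p ≡ -k` mod `q` and
`0 ≤ ω + n₀ d - k / q < q d` (such integers `n₀` form a residue class mod `q` since `p`, `q` are coprime, so the numbers
`ω + n₀ d - k / q` run through an arithmetic progression with difference `q d`), `φ = ω + n₀ d - k / q`, `u'' m = u' (m + n₀)`.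
`lin (p/q+d) ω (m + n₀) = lin (p/q+d) φ m`: the arguments of the cosine differ by `2 π (n₀ p + k) / q`, an integer multiple of `2 π`.
`nm_Rs_shift`, `nm_shift`. The window condition `(k - 1 + σ) / q < ω + (m + n₀) d ≤ (k + σ) / q` becomes `(σ - 1) / q < φ + m d ≤ σ / q`.
-/

set_option autoImplicit false

open Real

namespace AMO75

theorem std_window (p : ℤ) (q : ℕ) (hq : 0 < q) (hpq : IsCoprime p (q : ℤ)) (σ w η E d ω : ℝ) (hη : 0 < η)
    (hη1 : η ≤ 1) (hd0 : 0 < d) (hd : d ≤ η ^ 2 / 10000) (hw : w ≤ 1 / (4 * q)) (hB : HB p q σ w η E) (l : ℕ)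
    (hl : 16 / η ≤ l) (K : ℕ) (hK : (K * l + 2) * d ≤ w) (hE : E ∈ Sp (lin ((p : ℝ) / q + d) ω)) :
    ∃ (φ : ℝ) (u : ℤ → ℂ), 0 ≤ φ ∧ φ ≤ q * d ∧ u ≠ 0 ∧ InWin q σ d φ u ∧
      nm (Rs (lin ((p : ℝ) / q + d) φ) E u) ≤ 5 * (1 / 2) ^ K * nm u := by
  have hq0 : (0 : ℝ) < q := by exact_mod_cast hq
  have hqd : (0 : ℝ) < q * d := mul_pos hq0 hd0
  obtain ⟨u, hu, hu0, hε⟩ := hE (η * (1 / 2) ^ K / 20) (by positivity)
  obtain ⟨k, u', hu'0, hwin, hnm⟩ := window p q hq σ w η E d ω hη hη1 hd0 hd hw hB l hl K hK u hu hu0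
    (η * (1 / 2) ^ K / 20) hε.le le_rfl
  obtain ⟨a, b, hab⟩ := hpq
  -- the translation
  obtain ⟨c, hc⟩ : ∃ c : ℝ, c = ω + ((-k * a : ℤ) : ℝ) * d - k / q := ⟨_, rfl⟩
  obtain ⟨t, ht⟩ : ∃ t : ℤ, t = ⌈-c / (q * d)⌉ := ⟨_, rfl⟩
  have ht1 : -c ≤ t * (q * d) := by
    have h1 : -c / (q * d) ≤ ((t : ℤ) : ℝ) := by
      rw [ht]
      exact Int.le_ceil _
    rwa [div_le_iff₀ hqd] at h1
  have ht2 : t * (q * d) < -c + q * d := by
    have h1 : ((t : ℤ) : ℝ) < -c / (q * d) + 1 := by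
      rw [ht]
      exact Int.ceil_lt_add_one _
    have h2 := mul_lt_mul_of_pos_right h1 hqd
    rw [add_mul, div_mul_cancel₀ _ hqd.ne', one_mul] at h2
    exact h2
  obtain ⟨n₀, hn₀⟩ : ∃ n₀ : ℤ, n₀ = -k * a + q * t := ⟨_, rfl⟩
  obtain ⟨φ, hφ⟩ : ∃ φ : ℝ, φ = ω + n₀ * d - k / q := ⟨_, rfl⟩
  have hφc : φ = c + t * (q * d) := by
    rw [hφ, hc, hn₀]
    push_cast
    ring
  have hdiv : n₀ * p + k = q * (k * b + t * p) := by
    rw [hn₀]
    linear_combination (-k) * hab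
  have hdivR : (n₀ : ℝ) * p + k = q * (k * b + t * p) := by exact_mod_cast hdiv
  have hlin : lin ((p : ℝ) / q + d) φ = fun m => lin ((p : ℝ) / q + d) ω (m + n₀) := by
    funext m
    unfold lin
    have harg : 2 * π * (((m + n₀ : ℤ) : ℝ) * ((p : ℝ) / q + d) + ω)
        = 2 * π * ((m : ℝ) * ((p : ℝ) / q + d) + φ) + ((k * b + t * p : ℤ) : ℝ) * (2 * π) := by
      have h3 : ((k * b + t * p : ℤ) : ℝ) = ((n₀ : ℝ) * p + k) / q := by
        rw [hdivR]
        push_cast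
        field_simp
      rw [h3, hφ]
      push_cast
      field_simp
      ring
    rw [harg, Real.cos_add_int_mul_two_pi]
  refine ⟨φ, fun m => u' (m + n₀), ?_, ?_, ?_, ?_, ?_⟩
  · rw [hφc]
    linarith
  · rw [hφc]
    linarith
  · intro h0
    apply hu'0
    funext n
    have := congrFun h0 (n - n₀)
    simpa using this
  · intro n hn
    have h1 := hwin (n + n₀) hn
    have h4 : ω + ((n + n₀ : ℤ) : ℝ) * d = φ + n * d + k / q := by
      rw [hφ]
      push_cast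
      ring
    rw [h4] at h1
    have h5 : ((k : ℝ) - 1 + σ) / q = (σ - 1) / q + k / q := by
      rw [← add_div]
      congr 1
      ring
    have h6 : ((k : ℝ) + σ) / q = σ / q + k / q := by
      rw [← add_div]
      congr 1
      ring
    rw [h5, h6] at h1
    exact ⟨by linarith [h1.1], by linarith [h1.2]⟩
  · rw [hlin, nm_Rs_shift, nm_shift]
    exact hnm

end AMO75
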