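import Pool.Agent.AMO75.RingN
import Pool.Agent.AMO75.RingH
import Pool.Agent.AMO75.StdW
import Pool.Agent.AMO75.CluA
import Pool.Agent.AMO75.CluB

/-!
# [AMO75-CLUSTER] the good part of the spectrum is contained in `M` very short intervals (assembly)

Notation: `τ = 5 (1/2)^K`. `F₀`, `s` from `ring_count`. By `exists_gap` there are `g ∈ (E - r, E - τ)`, `g' ∈ (E + τ, E + r)` with distance `≥ s` to `F₀`, so they are not ring
eigenvalues for any `φ ∈ [0, q d]`.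
`std_window` for `E ∈ Sp (lin α 0)` and `ring_near`: some `φ₁ ∈ [0, q d]` and a ring eigenvalue `y` with `|y - E| ≤ τ`. By `ring_hom` there is a ring
eigenvalue `y'` for `φ = 0` in `(g, g')`, so `|E - y'| < r`. `F` is the set of `ring_fin` for `φ = 0`.
-/

set_option autoImplicit false

open Real

namespace AMO75

theorem cluster (p : ℤ) (q : ℕ) (hq : 0 < q) (hpq : IsCoprime p (q : ℤ)) (σ w η d : ℝ) (hσ0 : 0 ≤ σ) (hσ1 : σ ≤ 1)
    (hη : 0 < η) (hη1 : η ≤ 1) (hd0 : 0 < d) (hd : 2 * d ≤ (η / 4) ^ 2 / 10000) (hw : w ≤ 1 / (4 * q)) (l : ℕ)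
    (hl : 16 / (η / 4) ≤ l) (K : ℕ) (hK1 : 1 ≤ K) (hK : (K * l + 2) * (2 * d) ≤ w) (m0 M : ℤ)
    (hR : RingOK p q σ d m0 M) (Q : ℕ) (hQ : 2 ≤ Q * d) (r : ℝ) (hr1 : r ≤ η / 4)
    (hτ : 2 * Real.sqrt (5 * (1 / 2) ^ K) * (2 * (Q + 2 / (q * d) + 3)) < 1)
    (hr : 5 * (1 / 2) ^ K + 2 * (2 * (Q + 2 / (q * d) + 3) * (2 * (5 * (1 / 2) ^ K) + Real.sqrt (5 * (1 / 2) ^ K))
      + 2 * (4 + 2 / (q * d)) * (8 * π * (1 / (q * d) + q) / Q)) < r / 2) :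
    ∃ F : Finset ℝ, F.card ≤ M.toNat ∧ ∀ E ∈ Sp (lin ((p : ℝ) / q + d) 0), HB p q σ w η E →
      ∃ f ∈ F, |E - f| ≤ r := by
  obtain ⟨F₀, s, hs0, hs, hF₀⟩ := ring_count p q hq hpq σ w η d hσ0 hσ1 hη hη1 hd0 hd hw l hl K hK1 hK m0 M hR Q hQ r
    hr1 hτ hr
  obtain ⟨F, hF1, hF2⟩ := ring_fin p q σ d m0 M hR.pos 0
  refine ⟨F, hF1, ?_⟩
  intro E hE hB
  have hτ0 : (0 : ℝ) < 5 * (1 / 2) ^ K := by positivity
  have hsF : 0 ≤ 2 * s * F₀.card := by positivity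
  have hr0 : 0 < r := by linarith
  have hl' : 16 / η ≤ l := by
    refine le_trans ?_ hl
    apply div_le_div_of_nonneg_left (by norm_num) (by positivity)
    linarith
  have hdη : d ≤ η ^ 2 / 10000 := by nlinarith
  have hKd : (K * l + 2) * d ≤ w := by
    have h1 : (0 : ℝ) ≤ (K * l + 2) * d := by positivity
    nlinarith
  obtain ⟨φ₁, u, h1, h2, h3, h4, h5⟩ := std_window p q hq hpq σ w η E d 0 hη hη1 hd0 hdη hw hB l hl' K hKd hE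
  obtain ⟨y, hy1, hy2⟩ := ring_near p q hq σ d hd0 m0 M hR φ₁ E (5 * (1 / 2) ^ K) h1 h2 u h3 h4 h5
  rw [abs_le] at hy1
  obtain ⟨g, hg1, hg2, hg3⟩ := exists_gap F₀ s (E - r) (E - 5 * (1 / 2) ^ K) hs0 (by linarith)
  obtain ⟨g', hg1', hg2', hg3'⟩ := exists_gap F₀ s (E + 5 * (1 / 2) ^ K) (E + r) hs0 (by linarith)
  have hng : ∀ φ ∈ Set.Icc 0 ((q : ℝ) * d), ¬ RE p q σ d m0 M φ g := by
    intro φ hφ hRE
    obtain ⟨f, hf, hf2⟩ := hF₀ E g φ hB (by rw [abs_le]; constructor <;> linarith) hφ.1 hφ.2 hRE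
    exact absurd hf2 (not_lt.2 (hg3 f hf))
  have hng' : ∀ φ ∈ Set.Icc 0 ((q : ℝ) * d), ¬ RE p q σ d m0 M φ g' := by
    intro φ hφ hRE
    obtain ⟨f, hf, hf2⟩ := hF₀ E g' φ hB (by rw [abs_le]; constructor <;> linarith) hφ.1 hφ.2 hRE
    exact absurd hf2 (not_lt.2 (hg3' f hf))
  obtain ⟨y', hy1', hy2', hy3'⟩ := ring_hom p q σ d m0 M hR.pos (q * d) g g' φ₁ y hng hng' ⟨h1, h2⟩
    (by linarith) (by linarith) hy2
  refine ⟨y', hF2 y' hy1', ?_⟩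
  rw [abs_le]
  constructor <;> linarith

end AMO75
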