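import Pool.Agent.AMO75.Nrm

/-!
# [AMO75-CONV] the spectrum of the problem

Both sides say: for every `ε > 0` there is a finitely supported `ψ ≠ 0` with `∑ ‖Rs (lin β 0) E ψ n‖² < ε² ∑ ‖ψ n‖²`
(if `ψ n = 0` for `|n| > N` then `Rs .. ψ n = 0` for `|n| > N + 1`; `nm_sq_eq_sum`; for `ψ` with finite support choose `N` large).
`nm .. < ε * nm u` iff the squares satisfy the same (`0 < ε`).
-/

set_option autoImplicit false

open Real

namespace AMO75

/-- the residual in the notation of the problem -/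
lemma conv_Rs (β E : ℝ) (ψ : ℤ → ℂ) (n : ℤ) : Rs (lin β 0) E ψ n = ψ (n + 1) + ψ (n - 1)
    + (((2 * Real.cos (2 * Real.pi * ((n : ℝ) * β)) - E : ℝ)) : ℂ) * ψ n := by
  unfold Rs lin
  rw [add_zero]

/-- squares of `nm` as sums over intervals -/
lemma conv_sums (β E : ℝ) (N : ℕ) (ψ : ℤ → ℂ) (h : ∀ n : ℤ, (N : ℤ) < |n| → ψ n = 0) :
    nm (Rs (lin β 0) E ψ) ^ 2 = ∑ n ∈ Finset.Icc (-(N : ℤ) - 1) ((N : ℤ) + 1),
          ‖ψ (n + 1) + ψ (n - 1)
            + (((2 * Real.cos (2 * Real.pi * ((n : ℝ) * β)) - E : ℝ)) : ℂ) * ψ n‖ ^ 2 ∧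
      nm ψ ^ 2 = ∑ n ∈ Finset.Icc (-(N : ℤ)) (N : ℤ), ‖ψ n‖ ^ 2 := by
  constructor
  · rw [nm_sq_eq_sum (Finset.Icc (-(N : ℤ) - 1) ((N : ℤ) + 1))]
    · refine Finset.sum_congr rfl fun n _ => ?_
      rw [conv_Rs]
    · intro n hn
      rw [Finset.mem_Icc, not_and_or, not_le, not_le] at hn
      have h1 : ψ (n + 1) = 0 := by
        apply h
        rcases hn with hn | hn
        · exact lt_abs.2 (Or.inr (by omega))
        · exact lt_abs.2 (Or.inl (by omega))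
      have h2 : ψ (n - 1) = 0 := by
        apply h
        rcases hn with hn | hn
        · exact lt_abs.2 (Or.inr (by omega))
        · exact lt_abs.2 (Or.inl (by omega))
      have h3 : ψ n = 0 := by
        apply h
        rcases hn with hn | hn
        · exact lt_abs.2 (Or.inr (by omega))
        · exact lt_abs.2 (Or.inl (by omega))
      rw [conv_Rs, h1, h2, h3]
      simp
  · apply nm_sq_eq_sum
    intro n hn
    rw [Finset.mem_Icc, not_and_or, not_le, not_le] at hn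
    apply h
    rcases hn with hn | hn
    · exact lt_abs.2 (Or.inr (by omega))
    · exact lt_abs.2 (Or.inl (by omega))

lemma conv_lt {a b ε : ℝ} (ha : 0 ≤ a) (hb : 0 ≤ b) (hε : 0 < ε) :
    a < ε * b ↔ a ^ 2 < ε ^ 2 * b ^ 2 := by
  rw [← mul_pow]
  exact (sq_lt_sq₀ ha (mul_nonneg hε.le hb)).symm

lemma conv_bound {u : ℤ → ℂ} (h : FS u) : ∃ N : ℕ, ∀ n : ℤ, (N : ℤ) < |n| → u n = 0 := by
  have hf : (Function.support u).Finite := h
  obtain ⟨a, ha⟩ := hf.bddAbove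
  obtain ⟨b, hb⟩ := hf.bddBelow
  refine ⟨a.natAbs + b.natAbs, fun n hn => ?_⟩
  by_contra hne
  have h1 : n ≤ a := ha (Function.mem_support.2 hne)
  have h2 : b ≤ n := hb (Function.mem_support.2 hne)
  push_cast at hn
  rcases lt_abs.1 hn with h3 | h3
  · have := le_abs_self a
    have := abs_nonneg b
    omega
  · have := neg_abs_le b
    have := abs_nonneg a
    omega

theorem conv (β E : ℝ) : E ∈ Sp (lin β 0) ↔
    ∀ ε : ℝ, 0 < ε → ∃ N : ℕ, ∃ ψ : ℤ → ℂ,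
      (∀ n : ℤ, (N : ℤ) < |n| → ψ n = 0) ∧ (∃ n : ℤ, ψ n ≠ 0) ∧
      ∑ n ∈ Finset.Icc (-(N : ℤ) - 1) ((N : ℤ) + 1),
          ‖ψ (n + 1) + ψ (n - 1)
            + (((2 * Real.cos (2 * Real.pi * ((n : ℝ) * β)) - E : ℝ)) : ℂ) * ψ n‖ ^ 2
        < ε ^ 2 * ∑ n ∈ Finset.Icc (-(N : ℤ)) (N : ℤ), ‖ψ n‖ ^ 2 := by
  constructor
  · intro hE ε hε
    obtain ⟨u, hu, hne, hlt⟩ := hE ε hε
    obtain ⟨N, hN⟩ := conv_bound hu
    refine ⟨N, u, hN, ?_, ?_⟩
    · by_contra hcon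
      push Not at hcon
      exact hne (funext hcon)
    · obtain ⟨h1, h2⟩ := conv_sums β E N u hN
      rw [← h1, ← h2]
      exact (conv_lt (nm_nonneg _) (nm_nonneg _) hε).1 hlt
  · intro h ε hε
    obtain ⟨N, ψ, hN, ⟨n, hn⟩, hlt⟩ := h ε hε
    refine ⟨ψ, ?_, ?_, ?_⟩
    · apply FS_of_Icc (-(N : ℤ)) N
      intro m hm
      by_contra hcon
      apply hm
      apply hN
      rw [not_and_or, not_le, not_le] at hcon
      rcases hcon with hcon | hcon
      · exact lt_abs.2 (Or.inr (by omega))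
      · exact lt_abs.2 (Or.inl (by omega))
    · rintro rfl
      exact hn rfl
    · obtain ⟨h1, h2⟩ := conv_sums β E N ψ hN
      rw [← h1, ← h2] at hlt
      exact (conv_lt (nm_nonneg _) (nm_nonneg _) hε).2 hlt

end AMO75
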