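import Pool.Agent.AMO75.Nrm

/-!
# [AMO75-EXRING] existence of ring data
-/

set_option autoImplicit false

open Real

namespace AMO75

/-- existence of ring data: `m0 = ⌊(σ - 1) / (q d)⌋ - q - 4`, `M` the smallest integer `≥ 1 / (q d) + q + 8` with `M p ≡ -1` mod `q`
(`p`, `q` coprime). -/
theorem exists_ring (p : ℤ) (q : ℕ) (hq : 0 < q) (hpq : IsCoprime p (q : ℤ)) (σ d : ℝ) (hd0 : 0 < d) :
    ∃ m0 M : ℤ, RingOK p q σ d m0 M ∧ (M : ℝ) ≤ 1 / (q * d) + 2 * q + 10 := by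
  obtain ⟨a, b, hab⟩ := hpq
  have hq0 : (0 : ℝ) < q := by exact_mod_cast hq
  have hqz : (0 : ℤ) < q := by exact_mod_cast hq
  have hqd : (0 : ℝ) < q * d := mul_pos hq0 hd0
  set X : ℝ := 1 / (q * d) + q + 8 with hX
  set L : ℤ := ⌈X⌉ with hL
  set r : ℤ := (-a - L) % (q : ℤ) with hr
  have hr0 : 0 ≤ r := Int.emod_nonneg _ hqz.ne'
  have hr1 : r < q := Int.emod_lt_of_pos _ hqz
  have hdvd : ((q : ℤ)) ∣ (-a - L) - r := by
    rw [hr]
    exact Int.dvd_self_sub_emod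
  have hLX : X ≤ (L : ℝ) := Int.le_ceil X
  have hLX2 : (L : ℝ) < X + 1 := Int.ceil_lt_add_one X
  have h1qd : 0 < 1 / (q * d) := by positivity
  have hr0' : (0 : ℝ) ≤ (r : ℝ) := by exact_mod_cast hr0
  have hr1' : (r : ℝ) ≤ (q : ℝ) := by
    have : r ≤ (q : ℤ) := hr1.le
    exact_mod_cast this
  set m0 : ℤ := ⌊(σ - 1) / (q * d)⌋ - q - 4 with hm0
  have hf1 : ((⌊(σ - 1) / (q * d)⌋ : ℤ) : ℝ) ≤ (σ - 1) / (q * d) := Int.floor_le _
  have hf2 : (σ - 1) / (q * d) < ((⌊(σ - 1) / (q * d)⌋ : ℤ) : ℝ) + 1 := Int.lt_floor_add_one _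
  have hm0r : (m0 : ℝ) = ((⌊(σ - 1) / (q * d)⌋ : ℤ) : ℝ) - q - 4 := by
    rw [hm0]; push_cast; ring
  have e1 : (σ - 1) / (q * d) * d = (σ - 1) / q := by field_simp
  have e2 : σ / (q * d) * d = σ / q := by field_simp
  have e3 : (σ - 1) / (q * d) + 1 / (q * d) = σ / (q * d) := by
    rw [← add_div]; congr 1; ring
  refine ⟨m0, L + r, ⟨?_, ?_, ?_, ?_⟩, ?_⟩
  · have h : ((m0 : ℝ) + 3 + q) ≤ (σ - 1) / (q * d) := by rw [hm0r]; linarith
    have h2 := mul_le_mul_of_nonneg_right h hd0.le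
    rw [e1] at h2
    linarith
  · have h : σ / (q * d) ≤ (m0 : ℝ) + ((L + r : ℤ) : ℝ) - 3 := by
      rw [hm0r]; push_cast; linarith
    have h2 := mul_le_mul_of_nonneg_right h hd0.le
    rw [e2] at h2
    exact h2
  · obtain ⟨c, hc⟩ := hdvd
    refine ⟨-c * p + b, ?_⟩
    have h3 : L + r = -a - (q : ℤ) * c := by linarith
    rw [h3]
    linear_combination (-1 : ℤ) * hab
  · have h8 : (8 : ℝ) ≤ L := by linarith
    have h9 : (8 : ℤ) ≤ L := by exact_mod_cast h8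
    linarith
  · push_cast
    linarith

end AMO75
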