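import Pool.Agent.AMO75.ParamA

/-!
# [AMO75-PARAM] choice of the parameters

Let `e = d^a`, `η = e²`, `w = √e / (4 π q)`, `l = ⌈64 / η⌉` (`≤ 65 / η`), `K = ⌊(w / (2 d) - 2) / l⌋`, `Q = ⌈d^(-(N + 5))⌉`.
`w / (2 d) = √e / (8 π q d) ≥ d^(a/2 + 1/4 - 1) / (8 π)` (`q ≤ d^(-1/4)`), `l ≤ 65 d^(-2a)`, so `K ≥ d^(-θ) / 1700 - 3` with
`θ = 3/4 - 5 a / 2 > 1/8`. So `(1/2)^K` is smaller than every power of `d` (`tendsto_rpow_mul_exp_neg_mul_atTop_nhds_zero` with `x = d^(-θ)`),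
uniformly in `q` (`half_small`). `1 / (q d) ≤ 1 / d`, `q ≤ 1 / d`, `Q ≤ 2 d^(-(N+5))`, `1 / Q ≤ d^(N+5)`. So the left side of (hr) is
`≤ C d^(-(N+6)) √((1/2)^K) + C d^(-2) d^(N+5) < d^N / 2` for small `d`. `2 d ≤ (η/4)² / 10000 = d^(4a) / 160000` for small `d` since `4 a < 1`;
`d^N ≤ η / 4 = d^(2a) / 4` for small `d` since `N ≥ 1 > 2 a`.
-/

set_option autoImplicit false

open Real

namespace AMO75

namespace Prm

/-- a positive power of `d` is small -/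
theorem pow_small (b c : ℝ) (hb : 0 < b) (hc : 0 < c) :
    ∃ δ : ℝ, 0 < δ ∧ ∀ d : ℝ, 0 < d → d < δ → d ^ b ≤ c := by
  refine ⟨c ^ (1 / b), rpow_pos_of_pos hc _, fun d hd hlt => ?_⟩
  have h1 : d ^ b ≤ (c ^ (1 / b)) ^ b := rpow_le_rpow hd.le hlt.le hb.le
  have h2 : (c ^ (1 / b)) ^ b = c := by
    rw [← rpow_mul hc.le, one_div_mul_cancel hb.ne', rpow_one]
  rwa [h2] at h1

set_option maxHeartbeats 4000000 in
/-- the final estimate, everything in terms of `X = 1 / (q d)` and so on -/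
theorem est (N : ℕ) (d h X q Q : ℝ) (hd : 0 < d) (hd1 : d < 1 / 4000) (hh : 0 ≤ h)
    (hhB : h ≤ (d ^ (2 * N + 6)) ^ 2) (hX : 0 ≤ X) (hXd : X ≤ 1 / d) (hq : 0 ≤ q) (hqd : q ≤ 1 / d)
    (hQ1 : 1 ≤ Q * d ^ (N + 5)) (hQ2 : Q * d ^ (N + 5) ≤ 2) :
    2 * Real.sqrt (5 * h) * (2 * (Q + 2 * X + 3)) < 1 ∧
    5 * h + 2 * (2 * (Q + 2 * X + 3) * (2 * (5 * h) + Real.sqrt (5 * h))
          + 2 * (4 + 2 * X) * (8 * π * (X + q) / Q)) < d ^ N / 2 := by
  have hpi : π < 3.15 := pi_lt_d2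
  have hpi0 : 0 < π := pi_pos
  have hN5 : 0 < d ^ (N + 5) := by positivity
  have hN : 0 < d ^ N := by positivity
  have hN1 : d ^ N ≤ 1 := pow_le_one₀ hd.le (by linarith)
  have hQ : 0 < Q := by
    by_contra hneg
    push Not at hneg
    have : Q * d ^ (N + 5) ≤ 0 := mul_nonpos_of_nonpos_of_nonneg hneg hN5.le
    linarith
  have hs : Real.sqrt (5 * h) ≤ 3 * d ^ (2 * N + 6) := by
    have h0 : 0 ≤ 3 * d ^ (2 * N + 6) := by positivity
    rw [Real.sqrt_le_left h0]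
    have h9 : (3 * d ^ (2 * N + 6)) ^ 2 = 9 * (d ^ (2 * N + 6)) ^ 2 := by ring
    rw [h9]
    linarith [sq_nonneg (d ^ (2 * N + 6))]
  have hs0 : 0 ≤ Real.sqrt (5 * h) := Real.sqrt_nonneg _
  set s := Real.sqrt (5 * h) with hsdef
  have hNN : d ^ (2 * N + 6) = d ^ (N + 5) * (d ^ N * d) := by ring
  -- bound for A := Q + 2 X + 3
  have hXd' : X * d ≤ 1 := by
    have := mul_le_mul_of_nonneg_right hXd hd.le
    rwa [one_div_mul_cancel hd.ne'] at this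
  have hqd' : q * d ≤ 1 := by
    have := mul_le_mul_of_nonneg_right hqd hd.le
    rwa [one_div_mul_cancel hd.ne'] at this
  have hd4 : d ^ (N + 5) = d * d ^ (N + 4) := by ring
  have hN4 : 0 < d ^ (N + 4) := by positivity
  have hN41 : d ^ (N + 4) ≤ 1 := pow_le_one₀ hd.le (by linarith)
  have hN51 : d ^ (N + 5) ≤ 1 := pow_le_one₀ hd.le (by linarith)
  have hA : (Q + 2 * X + 3) * d ^ (N + 5) ≤ 7 := by
    have h1 : 2 * X * d ^ (N + 5) ≤ 2 := by
      rw [hd4]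
      have : X * d * d ^ (N + 4) ≤ 1 * 1 := mul_le_mul hXd' hN41 hN4.le (by norm_num)
      linarith
    have hexp : (Q + 2 * X + 3) * d ^ (N + 5) = Q * d ^ (N + 5) + 2 * X * d ^ (N + 5) + 3 * d ^ (N + 5) := by ring
    rw [hexp]
    linarith
  have hA0 : 0 ≤ Q + 2 * X + 3 := by linarith
  -- s * A
  have hsA : s * (Q + 2 * X + 3) ≤ 21 * (d ^ N * d) := by
    have h1 : s * (Q + 2 * X + 3) ≤ 3 * d ^ (2 * N + 6) * (Q + 2 * X + 3) :=
      mul_le_mul_of_nonneg_right hs hA0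
    have h2 : 3 * d ^ (2 * N + 6) * (Q + 2 * X + 3) = 3 * ((Q + 2 * X + 3) * d ^ (N + 5)) * (d ^ N * d) := by
      rw [hNN]; ring
    have h3 : 3 * ((Q + 2 * X + 3) * d ^ (N + 5)) * (d ^ N * d) ≤ 3 * 7 * (d ^ N * d) := by
      apply mul_le_mul_of_nonneg_right _ (by positivity)
      linarith
    linarith
  have hNd : d ^ N * d ≤ d := mul_le_of_le_one_left hd.le hN1
  have h5h : 5 * h = s * s := by
    rw [hsdef]; exact (Real.mul_self_sqrt (by positivity)).symm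
  have hs1 : s ≤ 3 * (d ^ N * d) := by
    have : d ^ (2 * N + 6) ≤ d ^ N * d := by
      rw [hNN]
      have : d ^ (N + 5) * (d ^ N * d) ≤ 1 * (d ^ N * d) := mul_le_mul_of_nonneg_right hN51 (by positivity)
      linarith
    linarith
  have hsle1 : s ≤ 1 := by linarith
  have hss : s * s ≤ s := mul_le_of_le_one_left hs0 hsle1
  have hfirst : 2 * s * (2 * (Q + 2 * X + 3)) < 1 := by
    have : 2 * s * (2 * (Q + 2 * X + 3)) = 4 * (s * (Q + 2 * X + 3)) := by ring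
    rw [this]; linarith
  refine ⟨hfirst, ?_⟩
  -- term C
  have hinv : 1 / Q ≤ d ^ (N + 5) := by
    rw [div_le_iff₀ hQ]; linarith [mul_comm Q (d ^ (N + 5))]
  have hC : 2 * (4 + 2 * X) * (8 * π * (X + q) / Q) ≤ 2 * ((4 + 2 * X) * d) * (8 * π * ((X + q) * d)) * (d ^ N * d ^ 3) := by
    have h1 : 8 * π * (X + q) / Q = 8 * π * (X + q) * (1 / Q) := by ring
    have h2 : 8 * π * (X + q) * (1 / Q) ≤ 8 * π * (X + q) * d ^ (N + 5) :=
      mul_le_mul_of_nonneg_left hinv (by positivity)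
    rw [h1]
    have h3 : 2 * (4 + 2 * X) * (8 * π * (X + q) * (1 / Q)) ≤ 2 * (4 + 2 * X) * (8 * π * (X + q) * d ^ (N + 5)) :=
      mul_le_mul_of_nonneg_left h2 (by positivity)
    refine h3.trans (le_of_eq ?_)
    ring
  have hC2 : 2 * ((4 + 2 * X) * d) * (8 * π * ((X + q) * d)) * (d ^ N * d ^ 3) ≤ 2 * 3 * (8 * 3.15 * 2) * (d ^ N * d ^ 3) := by
    have e1 : (4 + 2 * X) * d ≤ 3 := by
      have : (4 + 2 * X) * d = 4 * d + 2 * (X * d) := by ring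
      rw [this]; linarith
    have e2 : (X + q) * d ≤ 2 := by
      rw [add_mul]; linarith
    have e10 : 0 ≤ (4 + 2 * X) * d := by positivity
    have e20 : 0 ≤ (X + q) * d := by positivity
    have e3 : 8 * π * ((X + q) * d) ≤ 8 * 3.15 * 2 := by
      have : π * ((X + q) * d) ≤ 3.15 * 2 := mul_le_mul hpi.le e2 e20 (by norm_num)
      linarith
    have e4 : 2 * ((4 + 2 * X) * d) * (8 * π * ((X + q) * d)) ≤ 2 * 3 * (8 * 3.15 * 2) :=
      mul_le_mul (by linarith) e3 (by positivity) (by norm_num)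
    exact mul_le_mul_of_nonneg_right e4 (by positivity)
  have hd3 : d ^ N * d ^ 3 ≤ d ^ N * (1 / 4000) := by
    apply mul_le_mul_of_nonneg_left _ hN.le
    have : d ^ 3 ≤ d := by
      have h2 : d ^ 2 ≤ 1 := pow_le_one₀ hd.le (by linarith)
      have h3 : d ^ 3 = d ^ 2 * d := by ring
      rw [h3]
      exact mul_le_of_le_one_left hd.le h2
    linarith
  have hB : 2 * (Q + 2 * X + 3) * (2 * (5 * h) + s) ≤ 126 * (d ^ N * d) := by
    have : 2 * (5 * h) + s ≤ 3 * s := by rw [h5h]; linarith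
    have h2 : 2 * (Q + 2 * X + 3) * (2 * (5 * h) + s) ≤ 2 * (Q + 2 * X + 3) * (3 * s) :=
      mul_le_mul_of_nonneg_left this (by positivity)
    have h3 : 2 * (Q + 2 * X + 3) * (3 * s) = 6 * (s * (Q + 2 * X + 3)) := by ring
    linarith
  have hA5 : 5 * h ≤ 3 * (d ^ N * d) := by rw [h5h]; linarith
  have hdd : d ^ N * d ≤ d ^ N * (1 / 4000) := mul_le_mul_of_nonneg_left hd1.le hN.le
  have hCC := hC.trans hC2
  generalize 2 * (Q + 2 * X + 3) * (2 * (5 * h) + s) = B at hB ⊢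
  generalize 2 * (4 + 2 * X) * (8 * π * (X + q) / Q) = C at hCC ⊢
  generalize d ^ N * d ^ 3 = u at hCC hd3
  generalize d ^ N * d = v at hB hA5 hdd
  linarith

end Prm

set_option maxHeartbeats 4000000 in
theorem param (a : ℝ) (ha0 : 0 < a) (ha : a < 1 / 4) (N : ℕ) (hN : 1 ≤ N) :
    ∃ δ₀ : ℝ, 0 < δ₀ ∧ δ₀ ≤ 1 / 2 ∧ ∀ (q : ℕ) (d : ℝ), 0 < q → 0 < d → d < δ₀ → (q : ℝ) ≤ d ^ (-(1 / 4) : ℝ) →
      ∃ (e η w : ℝ) (l K Q : ℕ), e = d ^ a ∧ η = e ^ 2 ∧ w = Real.sqrt e / (4 * π * q) ∧ 0 < e ∧ e ≤ 1 ∧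
        0 < η ∧ η ≤ 1 ∧ w ≤ 1 / (4 * q) ∧ 2 * d ≤ (η / 4) ^ 2 / 10000 ∧ 16 / (η / 4) ≤ l ∧ 1 ≤ K ∧
        (K * l + 2) * (2 * d) ≤ w ∧ 2 ≤ Q * d ∧ d ^ N ≤ η / 4 ∧
        2 * Real.sqrt (5 * (1 / 2) ^ K) * (2 * (Q + 2 / (q * d) + 3)) < 1 ∧
        5 * (1 / 2) ^ K + 2 * (2 * (Q + 2 / (q * d) + 3) * (2 * (5 * (1 / 2) ^ K) + Real.sqrt (5 * (1 / 2) ^ K))
          + 2 * (4 + 2 / (q * d)) * (8 * π * (1 / (q * d) + q) / Q)) < d ^ N / 2 ∧
        1 / (q * d) + 2 * q + 10 ≤ 4 / d := by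
  set θ : ℝ := 3 / 4 - 5 * a / 2 with hθ
  have hθ0 : 0 < θ := by rw [hθ]; linarith
  obtain ⟨δ1, hδ1, H1⟩ := half_small θ (1 / 1700) 2 (2 * (2 * N + 6)) hθ0 (by norm_num)
  obtain ⟨δ2, hδ2, H2⟩ := Prm.pow_small (1 - 4 * a) (1 / 320000) (by linarith) (by norm_num)
  obtain ⟨δ3, hδ3, H3⟩ := Prm.pow_small (1 - 2 * a) (1 / 4) (by linarith) (by norm_num)
  obtain ⟨δ4, hδ4, H4⟩ := Prm.pow_small θ (1 / 3400) hθ0 (by norm_num)
  refine ⟨min (min δ1 δ2) (min (min δ3 δ4) (1 / 4000)), by positivity, ?_, ?_⟩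
  · exact (min_le_right _ _).trans ((min_le_right _ _).trans (by norm_num))
  intro q d hq hd hdδ hqd
  have hd1 : d < δ1 := lt_of_lt_of_le hdδ ((min_le_left _ _).trans (min_le_left _ _))
  have hd2 : d < δ2 := lt_of_lt_of_le hdδ ((min_le_left _ _).trans (min_le_right _ _))
  have hd3 : d < δ3 := lt_of_lt_of_le hdδ ((min_le_right _ _).trans ((min_le_left _ _).trans (min_le_left _ _)))
  have hd4 : d < δ4 := lt_of_lt_of_le hdδ ((min_le_right _ _).trans ((min_le_left _ _).trans (min_le_right _ _)))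
  have hd5 : d < 1 / 4000 := lt_of_lt_of_le hdδ ((min_le_right _ _).trans (min_le_right _ _))
  have hdle1 : d ≤ 1 := by linarith
  have hpi3 : 3 < π := pi_gt_three
  have hpi : π < 3.15 := pi_lt_d2
  have hq1 : (1 : ℝ) ≤ q := by exact_mod_cast hq
  have hq0 : (0 : ℝ) < q := by linarith
  -- the quantities
  have he0 : 0 < d ^ a := rpow_pos_of_pos hd _
  have he1 : d ^ a ≤ 1 := rpow_le_one hd.le hdle1 ha0.le
  have hη : (d ^ a) ^ 2 = d ^ (2 * a) := by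
    rw [← rpow_natCast (d ^ a) 2, ← rpow_mul hd.le]
    congr 1; push_cast; ring
  have hη0 : 0 < (d ^ a) ^ 2 := by positivity
  have hη1 : (d ^ a) ^ 2 ≤ 1 := pow_le_one₀ he0.le he1
  have hsq : Real.sqrt (d ^ a) = d ^ (a / 2) := by
    rw [sqrt_eq_rpow, ← rpow_mul hd.le]
    congr 1; ring
  have hsq1 : Real.sqrt (d ^ a) ≤ 1 := by
    rw [hsq]; exact rpow_le_one hd.le hdle1 (by linarith)
  set η := (d ^ a) ^ 2 with hηdef
  set w := Real.sqrt (d ^ a) / (4 * π * q) with hw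
  set l : ℕ := ⌈64 / η⌉₊ with hl
  set K : ℕ := ⌊(w / (2 * d) - 2) / l⌋₊ with hK
  set Q : ℕ := ⌈(1 / d) ^ (N + 5)⌉₊ with hQ
  have hl1 : 64 / η ≤ l := Nat.le_ceil _
  have h64 : (0 : ℝ) < 64 / η := by positivity
  have hl0 : (0 : ℝ) < l := lt_of_lt_of_le h64 hl1
  have hl2 : (l : ℝ) ≤ 65 / η := by
    have h1 : (l : ℝ) < 64 / η + 1 := Nat.ceil_lt_add_one h64.le
    have h2 : (1 : ℝ) ≤ 1 / η := by rw [le_div_iff₀ hη0]; linarith
    have h3 : 65 / η = 64 / η + 1 / η := by ring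
    linarith
  -- lower bound for w / (2d)
  have hw1 : d ^ (a / 2 - 3 / 4) / (8 * π) ≤ w / (2 * d) := by
    have h1 : w / (2 * d) = d ^ (a / 2) / (8 * π) * (1 / (q * d)) := by
      rw [hw, hsq]; field_simp; ring
    have h2 : d ^ (-(3 / 4) : ℝ) ≤ 1 / (q * d) := by
      rw [le_div_iff₀ (by positivity)]
      have e1 : d ^ (-(3 / 4) : ℝ) * (q * d) ≤ d ^ (-(3 / 4) : ℝ) * (d ^ (-(1 / 4) : ℝ) * d) := by
        apply mul_le_mul_of_nonneg_left _ (rpow_nonneg hd.le _)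
        exact mul_le_mul_of_nonneg_right hqd hd.le
      have e2 : d ^ (-(3 / 4) : ℝ) * (d ^ (-(1 / 4) : ℝ) * d) = 1 := by
        nth_rewrite 3 [← rpow_one d]
        rw [← rpow_add hd, ← rpow_add hd]
        norm_num
      linarith
    have h3 : d ^ (a / 2 - 3 / 4) = d ^ (a / 2) * d ^ (-(3 / 4) : ℝ) := by
      rw [← rpow_add hd]; congr 1
    rw [h1, h3]
    calc d ^ (a / 2) * d ^ (-(3 / 4) : ℝ) / (8 * π) = d ^ (a / 2) / (8 * π) * d ^ (-(3 / 4) : ℝ) := by ring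
      _ ≤ _ := mul_le_mul_of_nonneg_left h2 (by positivity)
  -- lower bound for the quotient
  have hx : d ^ (-θ) / 1700 - 1 ≤ (w / (2 * d) - 2) / l := by
    have h1 : d ^ (-θ) = d ^ (a / 2 - 3 / 4) * η := by
      rw [hη, ← rpow_add hd]; congr 1; rw [hθ]; ring
    have hpp : 0 < d ^ (a / 2 - 3 / 4) := rpow_pos_of_pos hd _
    have hηl : η * l ≤ 65 := by
      have := mul_le_mul_of_nonneg_left hl2 hη0.le
      rwa [mul_div_cancel₀ _ hη0.ne'] at this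
    have hl64 : 64 ≤ (l : ℝ) := by
      have : (64 : ℝ) ≤ 64 / η := by rw [le_div_iff₀ hη0]; linarith
      linarith
    rw [le_div_iff₀ hl0, h1]
    have h2 : (d ^ (a / 2 - 3 / 4) * η / 1700 - 1) * l = d ^ (a / 2 - 3 / 4) * (η * l) / 1700 - l := by ring
    rw [h2]
    have h3 : d ^ (a / 2 - 3 / 4) * (η * l) / 1700 ≤ d ^ (a / 2 - 3 / 4) / (8 * π) := by
      rw [div_le_div_iff₀ (by norm_num) (by positivity)]
      have h8 : η * l * (8 * π) ≤ 1700 := by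
        have : η * l * (8 * π) ≤ 65 * (8 * 3.15) := mul_le_mul hηl (by linarith) (by positivity) (by norm_num)
        linarith
      have h9 := mul_le_mul_of_nonneg_left h8 hpp.le
      rw [mul_assoc]; exact h9
    linarith
  have hx1 : 1 ≤ (w / (2 * d) - 2) / l := by
    have h1 : 3400 ≤ d ^ (-θ) := by
      rw [rpow_neg hd.le]
      have := H4 d hd hd4
      rw [le_inv_comm₀ (by norm_num) (rpow_pos_of_pos hd _)]
      simpa using this
    have : (1 : ℝ) ≤ d ^ (-θ) / 1700 - 1 := by linarith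
    linarith
  have hK1 : 1 ≤ K := Nat.le_floor (by simpa using hx1)
  have hKx : (K : ℝ) ≤ (w / (2 * d) - 2) / l := Nat.floor_le (by linarith)
  have hKlow : 1 / 1700 * d ^ (-θ) - 2 ≤ (K : ℝ) := by
    have : (w / (2 * d) - 2) / l < (K : ℝ) + 1 := Nat.lt_floor_add_one _
    linarith
  have hh := H1 d hd hd1 K hKlow
  have hhB : (1 / 2 : ℝ) ^ K ≤ (d ^ (2 * N + 6)) ^ 2 := by
    refine hh.trans (le_of_eq ?_)
    rw [← pow_mul, ← rpow_natCast]
    congr 1; push_cast; ring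
  have hQ1 : (1 / d) ^ (N + 5) ≤ Q := Nat.le_ceil _
  have hdinv : 4000 < 1 / d := by
    rw [lt_div_iff₀ hd]; linarith
  have hpw : 4000 < (1 / d) ^ (N + 5) := by
    calc (4000 : ℝ) < 1 / d := hdinv
      _ = (1 / d) ^ 1 := (pow_one _).symm
      _ ≤ (1 / d) ^ (N + 5) := pow_le_pow_right₀ (by linarith) (by omega)
  have hQ2 : (Q : ℝ) < (1 / d) ^ (N + 5) + 1 := Nat.ceil_lt_add_one (by positivity)
  have hdN5 : 0 < d ^ (N + 5) := by positivity
  have hmul : (1 / d) ^ (N + 5) * d ^ (N + 5) = 1 := by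
    rw [← mul_pow, one_div_mul_cancel hd.ne', one_pow]
  have hQa : 1 ≤ (Q : ℝ) * d ^ (N + 5) := by
    rw [← hmul]; exact mul_le_mul_of_nonneg_right hQ1 hdN5.le
  have hdN51 : d ^ (N + 5) ≤ 1 := pow_le_one₀ hd.le hdle1
  have hQb : (Q : ℝ) * d ^ (N + 5) ≤ 2 := by
    have := mul_le_mul_of_nonneg_right hQ2.le hdN5.le
    rw [add_mul, hmul] at this
    linarith
  have hX : 1 / (q * d) ≤ 1 / d := by
    apply one_div_le_one_div_of_le hd
    exact le_mul_of_one_le_left hd.le hq1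
  have hX0 : 0 ≤ 1 / ((q : ℝ) * d) := by positivity
  have hqq : d ^ (-(1 / 4) : ℝ) ≤ 1 / d := by
    have h1 : 1 / d = d ^ (-1 : ℝ) := by rw [rpow_neg_one, one_div]
    rw [h1]
    exact rpow_le_rpow_of_exponent_ge hd hdle1 (by norm_num : (-1 : ℝ) ≤ -(1 / 4))
  have hq2 : (q : ℝ) ≤ 1 / d := hqd.trans hqq
  have hest := Prm.est N d ((1 / 2) ^ K) (1 / (q * d)) q Q hd hd5 (by positivity) hhB hX0 hX hq0.le hq2 hQa hQb
  have h2X : 2 / ((q : ℝ) * d) = 2 * (1 / (q * d)) := by ring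
  refine ⟨d ^ a, η, w, l, K, Q, rfl, rfl, rfl, he0, he1, hη0, hη1, ?_, ?_, ?_, hK1, ?_, ?_, ?_, ?_, ?_, ?_⟩
  · rw [hw, div_le_div_iff₀ (by positivity) (by positivity)]
    have h1 : Real.sqrt (d ^ a) * (4 * q) ≤ 1 * (4 * q) := mul_le_mul_of_nonneg_right hsq1 (by positivity)
    have h2 : 1 * (q : ℝ) ≤ π * q := mul_le_mul_of_nonneg_right (by linarith) hq0.le
    linarith
  · have h1 := H2 d hd hd2
    have h2 : (η / 4) ^ 2 = d ^ (4 * a) / 16 := by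
      have h20 : (d ^ (2 * a)) ^ 2 = d ^ (4 * a) := by
        rw [← rpow_natCast (d ^ (2 * a)) 2, ← rpow_mul hd.le]
        congr 1; push_cast; ring
      rw [hη, div_pow, h20]; norm_num
    have h3 : d ^ (1 - 4 * a) * d ^ (4 * a) = d := by
      rw [← rpow_add hd]; simp
    rw [h2]
    have h4 := mul_le_mul_of_nonneg_right h1 (rpow_nonneg hd.le (4 * a))
    rw [h3] at h4
    linarith
  · have : 16 / (η / 4) = 64 / η := by field_simp; norm_num
    rw [this]; exact hl1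
  · rw [le_div_iff₀ hl0] at hKx
    have : (K * l + 2) ≤ w / (2 * d) := by linarith
    rwa [le_div_iff₀ (by positivity)] at this
  · have h1 : (1 / d) ^ (N + 5) * d = (1 / d) ^ (N + 4) := by
      rw [pow_succ, mul_assoc, one_div_mul_cancel hd.ne', mul_one]
    have h2 : 4000 < (1 / d) ^ (N + 4) := by
      calc (4000 : ℝ) < 1 / d := hdinv
        _ = (1 / d) ^ 1 := (pow_one _).symm
        _ ≤ (1 / d) ^ (N + 4) := pow_le_pow_right₀ (by linarith) (by omega)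
    have h3 := mul_le_mul_of_nonneg_right hQ1 hd.le
    linarith
  · have h1 := H3 d hd hd3
    have h2 : d ^ N ≤ d := by
      calc d ^ N ≤ d ^ 1 := pow_le_pow_of_le_one hd.le hdle1 hN
        _ = d := pow_one d
    have h3 : d ^ (1 - 2 * a) * d ^ (2 * a) = d := by
      rw [← rpow_add hd]; simp
    have h4 := mul_le_mul_of_nonneg_right h1 (rpow_nonneg hd.le (2 * a))
    rw [h3] at h4
    rw [hη]; linarith
  · rw [h2X]; exact hest.1
  · rw [h2X]; exact hest.2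
  · have h1 : (q : ℝ) ≤ 1 / d := hq2
    have h3 : 2 * d ^ (-(1 / 4) : ℝ) ≤ 1 / d := by
      rw [le_div_iff₀ hd]
      have e1 : 2 * d ^ (-(1 / 4) : ℝ) * d = 2 * d ^ (3 / 4 : ℝ) := by
        nth_rewrite 2 [← rpow_one d]
        rw [mul_assoc, ← rpow_add hd]; norm_num
      rw [e1]
      have e2 : d ^ (3 / 4 : ℝ) ≤ d ^ (1 / 2 : ℝ) := rpow_le_rpow_of_exponent_ge hd hdle1 (by norm_num : (1 / 2 : ℝ) ≤ 3 / 4)
      have e3 : d ^ (1 / 2 : ℝ) ≤ 1 / 2 := by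
        rw [← sqrt_eq_rpow, Real.sqrt_le_left (by norm_num)]
        linarith
      linarith
    have h4 : 4 / d = 4 * (1 / d) := by ring
    rw [h4]
    linarith

end AMO75
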