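import Pool.Agent.AMO75.DerivLow

/-!
# [AMO75-POLYIDX] the branches of the Chambers polynomial

`poly_idx`: let `idx x` be the number of roots of `P'` which are `< x` (roots counted with multiplicity or without: `P'` has at most `q - 1` roots, so the
number is `≤ q - 1 < q`). Let `x < y` with `idx x = idx y`: no root of `P'` in `[x, y)`; if moreover `P' y ≠ 0` then none in `[x, y]`.
First claim: `|P'| ≥ κ` on `[x, y]` by `unimod` (`deriv_splits`); mean value theorem: `|P y - P x| ≥ κ |y - x|`, and `|P y - P x| ≤ 12`.
Second claim: by `deriv_low` `|P' x|, |P' y| ≥ 1/4`, so `|P'| ≥ 1/4` on `[x, y]`, `|y - x| ≤ 4 |P y - P x| ≤ 8 e`.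
-/

set_option autoImplicit false

open Real

namespace AMO75

/-- the key estimate on an interval without critical points -/
private theorem poly_idx_key (P : Polynomial ℝ) (hP : P.Splits) (x y κ : ℝ) (hκ : 0 < κ)
    (hxy : x < y)
    (hidx : (P.derivative.roots.toFinset.filter (fun c => c < x)).card =
      (P.derivative.roots.toFinset.filter (fun c => c < y)).card)
    (hx : κ ≤ |P.derivative.eval x|) (hy : κ ≤ |P.derivative.eval y|) :
    κ * (y - x) ≤ |P.eval y - P.eval x| := by
  have hne : P.derivative ≠ 0 := by
    intro h0
    rw [h0, Polynomial.eval_zero, abs_zero] at hx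
    linarith
  have hno : ∀ c ∈ Set.Icc x y, P.derivative.eval c ≠ 0 := by
    intro c hc h0
    rcases eq_or_lt_of_le hc.2 with h | h
    · rw [h] at h0
      rw [h0, abs_zero] at hy
      linarith
    · have h1 : P.derivative.roots.toFinset.filter (fun c => c < x) ⊂
          P.derivative.roots.toFinset.filter (fun c => c < y) := by
        rw [Finset.ssubset_iff_of_subset]
        · refine ⟨c, ?_, ?_⟩
          · rw [Finset.mem_filter, Multiset.mem_toFinset, Polynomial.mem_roots hne]
            exact ⟨h0, h⟩
          · rw [Finset.mem_filter]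
            intro h2
            linarith [h2.2, hc.1]
        · intro d hd
          rw [Finset.mem_filter] at hd ⊢
          exact ⟨hd.1, hd.2.trans hxy⟩
      have h2 := Finset.card_lt_card h1
      omega
  obtain ⟨c, hc, hc'⟩ := exists_hasDerivAt_eq_slope (fun y => P.eval y)
    (fun y => P.derivative.eval y) hxy P.continuous.continuousOn
    (fun y _ => P.hasDerivAt y)
  have hu := unimod P.derivative (deriv_splits P hP) x y c hc.1.le hc.2.le hno
  have h3 : κ ≤ |P.derivative.eval c| := le_trans (le_min hx hy) hu
  have hpos : 0 < y - x := by linarith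
  change P.derivative.eval c = _ at hc'
  rw [hc', abs_div, abs_of_pos hpos, le_div_iff₀ hpos] at h3
  exact h3

theorem poly_idx (q : ℕ) (P : Polynomial ℝ) (hd : P.natDegree = q) (hq : 0 < q)
    (hs : ∀ t : ℝ, |t| ≤ 4 → (P - Polynomial.C t).Splits) (hb : ∀ y : ℝ, |P.eval y| ≤ 4 → |y| ≤ 4) :
    ∃ idx : ℝ → Fin q,
      (∀ x y κ : ℝ, 0 < κ → idx x = idx y → |P.eval x| ≤ 6 → |P.eval y| ≤ 6 →
        κ ≤ |P.derivative.eval x| → κ ≤ |P.derivative.eval y| → |x - y| ≤ 12 / κ) ∧
      (∀ x y e : ℝ, 0 < e → e ≤ 2 → idx x = idx y → |P.eval x| < e → |P.eval y| < e → |x - y| ≤ 8 * e) := by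
  have hP : P.Splits := by
    have := hs 0 (by norm_num)
    rwa [Polynomial.C_0, sub_zero] at this
  have hcard : ∀ x : ℝ, (P.derivative.roots.toFinset.filter (fun c => c < x)).card < q := by
    intro x
    have h1 := Finset.card_filter_le P.derivative.roots.toFinset (fun c => c < x)
    have h2 := Multiset.toFinset_card_le P.derivative.roots
    have h3 := P.derivative.card_roots'
    have h4 := Polynomial.natDegree_derivative_le P
    omega
  refine ⟨fun x => ⟨_, hcard x⟩, ?_, ?_⟩
  · intro x y κ hκ hidx hx hy hx' hy'
    have hidx' : (P.derivative.roots.toFinset.filter (fun c => c < x)).card =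
      (P.derivative.roots.toFinset.filter (fun c => c < y)).card := by
      simpa using hidx
    have h12 : |P.eval y - P.eval x| ≤ 12 := by
      have := abs_sub (P.eval y) (P.eval x)
      linarith
    have h12' : |P.eval x - P.eval y| ≤ 12 := by
      rw [abs_sub_comm]
      exact h12
    rw [le_div_iff₀ hκ]
    rcases lt_trichotomy x y with h | h | h
    · have h1 := poly_idx_key P hP x y κ hκ h hidx' hx' hy'
      rw [abs_sub_comm, abs_of_pos (by linarith : 0 < y - x)]
      linarith
    · rw [h, sub_self, abs_zero, zero_mul]
      norm_num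
    · have h1 := poly_idx_key P hP y x κ hκ h hidx'.symm hy' hx'
      rw [abs_of_pos (by linarith : 0 < x - y)]
      linarith
  · intro x y e he he2 hidx hx hy
    have hidx' : (P.derivative.roots.toFinset.filter (fun c => c < x)).card =
      (P.derivative.roots.toFinset.filter (fun c => c < y)).card := by
      simpa using hidx
    have hx' := deriv_low P (by omega) hs hb x (by linarith)
    have hy' := deriv_low P (by omega) hs hb y (by linarith)
    have h12 : |P.eval y - P.eval x| ≤ 2 * e := by
      have := abs_sub (P.eval y) (P.eval x)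
      linarith
    have h12' : |P.eval x - P.eval y| ≤ 2 * e := by
      rw [abs_sub_comm]
      exact h12
    rcases lt_trichotomy x y with h | h | h
    · have h1 := poly_idx_key P hP x y (1 / 4) (by norm_num) h hidx' hx' hy'
      rw [abs_sub_comm, abs_of_pos (by linarith : 0 < y - x)]
      linarith
    · rw [h, sub_self, abs_zero]
      linarith
    · have h1 := poly_idx_key P hP y x (1 / 4) (by norm_num) h hidx'.symm hy' hx'
      rw [abs_of_pos (by linarith : 0 < x - y)]
      linarith

end AMO75
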