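import Pool.Agent.AMO75.Good
import Pool.Agent.AMO75.PolyIdx
import Pool.Agent.AMO75.Cluster
import Pool.Agent.AMO75.ExRing
import Pool.Agent.AMO75.Param

/-!
# [AMO75-COVER] covers of the spectrum (assembly)
-/

set_option autoImplicit false

open Real

namespace AMO75

theorem cover (a : ℝ) (ha0 : 0 < a) (ha : a < 1 / 4) (N : ℕ) (hN : 1 ≤ N) :
    ∃ δ₀ : ℝ, 0 < δ₀ ∧ δ₀ ≤ 1 / 2 ∧ ∀ (p : ℤ) (q : ℕ) (d : ℝ), 0 < q → IsCoprime p (q : ℤ) → 0 < d → d < δ₀ →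
      (q : ℝ) ≤ d ^ (-(1 / 4) : ℝ) →
      ∃ (C : Fin q ⊕ Fin q → Set ℝ) (F : Finset ℝ),
        (∀ i, ∀ x ∈ C i, ∀ y ∈ C i, |x - y| ≤ 200 * d ^ a) ∧ (F.card : ℝ) ≤ 8 / d ∧
        ∀ E ∈ Sp (lin ((p : ℝ) / q + d) 0), (∃ i, E ∈ C i) ∨ ∃ f ∈ F, |E - f| ≤ d ^ N := by
  classical
  obtain ⟨δ₀, hδ0, hδ1, hpar⟩ := param a ha0 ha N hN
  refine ⟨δ₀, hδ0, hδ1, ?_⟩
  intro p q d hq hpq hd0 hd hqd
  obtain ⟨e, η, w, l, K, Q, he, hη, hw, he0, he1, hη0, hη1, hw4, hdη, hl, hK1, hK, hQ, hr1, hτ, hr, hM⟩ :=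
    hpar q d hq hd0 hd hqd
  obtain ⟨P, hP⟩ := exists_chm p q hq hpq
  obtain ⟨idx, hidx1, hidx2⟩ := poly_idx q P hP.deg hq hP.split hP.bd
  have hring : ∀ σ : ℝ, 0 ≤ σ → σ ≤ 1 → ∃ F : Finset ℝ, (F.card : ℝ) ≤ 4 / d ∧
      ∀ E ∈ Sp (lin ((p : ℝ) / q + d) 0), HB p q σ w η E → ∃ f ∈ F, |E - f| ≤ d ^ N := by
    intro σ hσ0 hσ1
    obtain ⟨m0, M, hRing, hMle⟩ := exists_ring p q hq hpq σ d hd0
    obtain ⟨F, hF1, hF2⟩ := cluster p q hq hpq σ w η d hσ0 hσ1 hη0 hη1 hd0 hdη hw4 l hl K hK1 hK m0 M hRing Q hQ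
      (d ^ N) hr1 hτ hr
    refine ⟨F, ?_, hF2⟩
    have hM8 := hRing.pos
    have h1 : (F.card : ℝ) ≤ ((M.toNat : ℕ) : ℝ) := by exact_mod_cast hF1
    have h2 : ((M.toNat : ℕ) : ℝ) = (M : ℝ) := by
      have : ((M.toNat : ℕ) : ℤ) = M := Int.toNat_of_nonneg (by omega)
      exact_mod_cast this
    linarith
  obtain ⟨F0, hF0c, hF0⟩ := hring 0 le_rfl zero_le_one
  obtain ⟨F1, hF1c, hF1⟩ := hring (1 / 2) (by norm_num) (by norm_num)
  refine ⟨Sum.elim (fun i => {E | ∃ z, |z - E| ≤ e ^ 2 ∧ |P.eval z| ≤ 6 ∧ 1 / (16 * e) ≤ |P.derivative.eval z| ∧ idx z = i})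
    (fun i => {E | |P.eval E| < e ∧ idx E = i}), F0 ∪ F1, ?_, ?_, ?_⟩
  · rintro (i | i)
    · rintro x ⟨z, hz1, hz2, hz3, hz4⟩ y ⟨z', hz1', hz2', hz3', hz4'⟩
      have hκ : 0 < 1 / (16 * e) := by positivity
      have h1 := hidx1 z z' (1 / (16 * e)) hκ (hz4.trans hz4'.symm) hz2 hz2' hz3 hz3'
      have h2 : 12 / (1 / (16 * e)) = 192 * e := by
        field_simp
        norm_num
      rw [h2] at h1
      have h3 : e ^ 2 ≤ e := by nlinarith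
      rw [← he]
      have h4 : |x - y| ≤ |z - x| + |z - z'| + |z' - y| := by
        have e1 : x - y = -(z - x) + (z - z') + (z' - y) := by ring
        rw [e1]
        refine (abs_add_three _ _ _).trans ?_
        rw [abs_neg]
      nlinarith
    · rintro x ⟨hx1, hx2⟩ y ⟨hy1, hy2⟩
      have h1 := hidx2 x y e he0 (by linarith) (hx2.trans hy2.symm) hx1 hy1
      rw [← he]
      linarith
  · have h1 : ((F0 ∪ F1).card : ℝ) ≤ (F0.card : ℝ) + F1.card := by exact_mod_cast Finset.card_union_le F0 F1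
    have h2 : 8 / d = 4 / d + 4 / d := by ring
    linarith
  · intro E hE
    have hdg : d ≤ (e ^ 2) ^ 2 / 10000 := by
      rw [← hη]
      nlinarith
    rcases good p q hq P hP e d E he0 he1 hd0.le hdg hE with h | h | ⟨σ, hσ, hHB⟩
    · obtain ⟨z, hz1, hz2, hz3⟩ := h
      left
      exact ⟨Sum.inl (idx z), z, hz1, hz2, hz3, rfl⟩
    · left
      exact ⟨Sum.inr (idx E), h, rfl⟩
    · right
      rw [← hw, ← hη] at hHB
      rcases hσ with h0 | h0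
      · rw [h0] at hHB
        obtain ⟨f, hf, hfE⟩ := hF0 E hE hHB
        exact ⟨f, Finset.mem_union_left _ hf, hfE⟩
      · rw [h0] at hHB
        obtain ⟨f, hf, hfE⟩ := hF1 E hE hHB
        exact ⟨f, Finset.mem_union_right _ hf, hfE⟩

end AMO75
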