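import Pool.Agent.AMO75.Barrier
import Pool.Agent.AMO75.Agmon

/-!
# decay of approximate solutions in a barrier (proved from `barrier` and `agmon`)
-/

set_option autoImplicit false

open Real

namespace AMO75

theorem decay (p : ℤ) (q : ℕ) (σ w η E d : ℝ) (hη : 0 < η) (hη1 : η ≤ 1) (hd0 : 0 < d)
    (hd : d ≤ η ^ 2 / 10000) (hB : HB p q σ w η E) (l : ℕ) (hl : 16 / η ≤ l) (x : ℤ → ℝ) (a b : ℤ)
    (hx : ∀ n, a ≤ n → n < b → |x (n + 1) - x n| ≤ d)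
    (hnear : ∀ n, a ≤ n → n ≤ b → ∃ k : ℤ, |x n - (k + σ) / q| ≤ w) (v : ℤ → ℝ)
    (hv : ∀ n, a ≤ n → n ≤ b → v n = vp p q x n) (ψ : ℤ → ℂ) (K : ℕ) :
    nm (on (a + K * l) (b - K * l) ψ) ≤ (1 / 2) ^ K * nm (on a b ψ) + 4 / η * nm (on a b (Rs v E ψ)) := by
  apply agmon v a b η E hη hη1 l hl
  intro u hu
  rw [Rs_congr E (fun n hn => hv n (hu n hn).1 (hu n hn).2)]
  apply barrier p q x a b d η E hη hη1 hd0.le hd hx _ u hu
  intro n h1 h2 u hu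
  obtain ⟨k, hk⟩ := hnear n h1 h2
  exact hB k (x n) hk u hu

end AMO75
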