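import Mathlib

/-!
# AMO75 (MP_7e21ba_mp): the spectrum of the critical almost Mathieu operator for well approximable frequencies

Theorem (Final.lean): if `α` is irrational and `|α - m/n| < C n^(-w)` for infinitely many `n`, then the
Hausdorff dimension of the spectrum `S(α)` of the critical almost Mathieu operator is at most `4 / w`.
So `S(α)` has dimension `0` for every Liouville number `α`, and `d(G α) = d(α)` for all Liouville numbers.

Everything is formulated with finitely supported functions `u : ℤ → ℂ`; no operator theory is needed: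
`E` is in the spectrum of the operator with potential `v` iff for every `ε > 0` there is a finitely supported
`u ≠ 0` with `nm (Rs v E u) < ε * nm u`, where `Rs v E u = (H - E) u`.
-/

set_option autoImplicit false

open Real

namespace AMO75

/-- finite support -/
def FS {ι : Type} (u : ι → ℂ) : Prop := (Function.support u).Finite

/-- the `ℓ²` norm (used for finitely supported functions) -/
noncomputable def nm {ι : Type} (u : ι → ℂ) : ℝ := Real.sqrt (∑' n, ‖u n‖ ^ 2)

/-- `(H - E) u` for the discrete Schrödinger operator `H` with potential `v` -/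
noncomputable def Rs (v : ℤ → ℝ) (E : ℝ) (u : ℤ → ℂ) : ℤ → ℂ :=
  fun n => u (n + 1) + u (n - 1) + ((v n - E : ℝ) : ℂ) * u n

/-- the potential of the critical almost Mathieu operator with frequency `α` and phase `ω`.
`lin (p / q) x` is also called the frozen potential (with phase `x`). -/
noncomputable def lin (α ω : ℝ) : ℤ → ℝ := fun n => 2 * Real.cos (2 * π * (n * α + ω))

/-- the potential near `p / q` with slowly varying phases `x n` -/
noncomputable def vp (p : ℤ) (q : ℕ) (x : ℤ → ℝ) : ℤ → ℝ :=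
  fun n => 2 * Real.cos (2 * π * (n * ((p : ℝ) / q) + x n))

/-- the spectrum of the operator with potential `v` -/
def Sp (v : ℤ → ℝ) : Set ℝ :=
  {E | ∀ ε : ℝ, 0 < ε → ∃ u : ℤ → ℂ, FS u ∧ u ≠ 0 ∧ nm (Rs v E u) < ε * nm u}

/-- restriction to an interval -/
def on (a b : ℤ) (u : ℤ → ℂ) : ℤ → ℂ := fun n => if a ≤ n ∧ n ≤ b then u n else 0

/-- `E` is forbidden (with margin `η`) for all frozen phases `x` at distance at most `w` from `(k + σ) / q`:
these phases are the barriers between the wells. -/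
def HB (p : ℤ) (q : ℕ) (σ w η E : ℝ) : Prop :=
  ∀ (k : ℤ) (x : ℝ), |x - (k + σ) / q| ≤ w → ∀ u : ℤ → ℂ, FS u →
    η * nm u ≤ nm (Rs (lin ((p : ℝ) / q) x) E u)

/-- `P` is the Chambers polynomial of `p / q`: `det (E - h (x, θ)) = P E - 2 cos (2 π q x) - 2 cos θ`
for the Bloch matrices `h (x, θ)` of the frozen potential. -/
structure Chm (p : ℤ) (q : ℕ) (P : Polynomial ℝ) : Prop where
  monic : P.Monic
  deg : P.natDegree = q
  /-- an approximate eigenvalue of a frozen operator is near to an element of its spectrum -/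
  near : ∀ (x E η : ℝ) (u : ℤ → ℂ), FS u → nm (Rs (lin ((p : ℝ) / q) x) E u) < η * nm u →
    ∃ y θ : ℝ, |y - E| < η ∧ P.eval y = 2 * Real.cos (2 * π * (q * x)) + 2 * Real.cos θ
  /-- solutions of `P y = 2 cos (2 π q x) + 2 cos θ` are in the spectrum of the frozen operator -/
  sol : ∀ y x θ : ℝ, P.eval y = 2 * Real.cos (2 * π * (q * x)) + 2 * Real.cos θ →
    y ∈ Sp (lin ((p : ℝ) / q) x)
  split : ∀ t : ℝ, |t| ≤ 4 → (P - Polynomial.C t).Splits
  bd : ∀ y : ℝ, |P.eval y| ≤ 4 → |y| ≤ 4

/-- the window between two barriers (in the standard position), for the frequency `p / q + d` -/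
def InWin (q : ℕ) (σ d φ : ℝ) (u : ℤ → ℂ) : Prop :=
  ∀ n : ℤ, u n ≠ 0 → (σ - 1) / q < φ + n * d ∧ φ + n * d ≤ σ / q

/-- the ring potential: on the fundamental domain `m0 ≤ m < m0 + M` it is the almost Mathieu potential
of frequency `p / q + d` and phase `φ` inside of the window, with frozen phase outside of the window; it is
`M`-periodic. -/
noncomputable def rv (p : ℤ) (q : ℕ) (σ d : ℝ) (m0 M : ℤ) (φ : ℝ) : ℤ → ℝ := fun n =>
  2 * Real.cos (2 * π * (((m0 + (n - m0) % M : ℤ) : ℝ) * ((p : ℝ) / q)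
    + max ((σ - 1) / q) (min (σ / q) (φ + ((m0 + (n - m0) % M : ℤ) : ℝ) * d))))

/-- `E` is an eigenvalue of the ring operator -/
def RE (p : ℤ) (q : ℕ) (σ d : ℝ) (m0 M : ℤ) (φ E : ℝ) : Prop :=
  ∃ ψ : ℤ → ℂ, ψ ≠ 0 ∧ (∀ n, ψ (n + M) = ψ n) ∧ ∀ n, Rs (rv p q σ d m0 M φ) E ψ n = 0

/-- admissible ring data -/
structure RingOK (p : ℤ) (q : ℕ) (σ d : ℝ) (m0 M : ℤ) : Prop where
  left : ((m0 : ℝ) + 3) * d + q * d ≤ (σ - 1) / q
  right : σ / q ≤ ((m0 : ℝ) + M - 3) * d
  mul : ((q : ℤ)) ∣ M * p + 1
  pos : 8 ≤ M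

end AMO75
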