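import Mathlib

/-!
# [AMO75-NOCRIT] critical values of polynomials whose level sets are real

Suppose `P' c = 0` and `|P c| < 4`. For every `t ∈ [-4, 4]`, `t ≠ P c`, the polynomial
`R = P - t` splits, `R = a ∏ (X - r_i)`, degree `≥ 1`, `R c ≠ 0`. Logarithmic derivative:
`(R' / R)' = (R'' R - R'^2) / R^2 = - ∑ 1 / (x - r_i)^2 < 0`. At `c`: `P''(c) / (P c - t) < 0`. Use it for a `t > P c` and a `t < P c`: contradiction.
(Alternative: induction over the number of factors for the inequality `R'' R ≤ R'^2`, strict where `R ≠ 0` and `R` not constant.)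
-/

set_option autoImplicit false

open Real

namespace AMO75

open Polynomial in
private theorem prod_aux (c : ℝ) (s : Multiset ℝ) :
    0 ≤ ((s.map (fun r => X - C r)).prod.derivative.eval c) ^ 2 -
      (s.map (fun r => X - C r)).prod.derivative.derivative.eval c *
        (s.map (fun r => X - C r)).prod.eval c ∧
    (s ≠ 0 → (s.map (fun r => X - C r)).prod.eval c ≠ 0 →
      0 < ((s.map (fun r => X - C r)).prod.derivative.eval c) ^ 2 -
      (s.map (fun r => X - C r)).prod.derivative.derivative.eval c *
        (s.map (fun r => X - C r)).prod.eval c) := by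
  induction s using Multiset.induction_on with
  | empty => simp
  | cons r s ih =>
    rw [Multiset.map_cons, Multiset.prod_cons]
    set Q := (s.map (fun r => X - C r)).prod with hQ
    have e0 : ((X - C r) * Q).eval c = (c - r) * Q.eval c := by
      simp
    have e1 : ((X - C r) * Q).derivative.eval c = Q.eval c + (c - r) * Q.derivative.eval c := by
      simp [derivative_mul]
    have e2 : ((X - C r) * Q).derivative.derivative.eval c =
        2 * Q.derivative.eval c + (c - r) * Q.derivative.derivative.eval c := by
      simp [derivative_mul]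
      ring
    rw [e0, e1, e2]
    have key : (Q.eval c + (c - r) * Q.derivative.eval c) ^ 2 -
        (2 * Q.derivative.eval c + (c - r) * Q.derivative.derivative.eval c) *
          ((c - r) * Q.eval c) = Q.eval c ^ 2 + (c - r) ^ 2 * (Q.derivative.eval c ^ 2 -
            Q.derivative.derivative.eval c * Q.eval c) := by
      ring
    rw [key]
    have h1 : 0 ≤ (c - r) ^ 2 * (Q.derivative.eval c ^ 2 -
            Q.derivative.derivative.eval c * Q.eval c) := mul_nonneg (sq_nonneg _) ih.1
    refine ⟨add_nonneg (sq_nonneg _) h1, fun _ h2 => ?_⟩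
    have h3 : Q.eval c ≠ 0 := by
      intro h
      apply h2
      rw [h, mul_zero]
    have h4 : 0 < Q.eval c ^ 2 := by positivity
    linarith

open Polynomial in
private theorem split_aux (R : Polynomial ℝ) (hR : R.Splits) (hd : 0 < R.natDegree) (c : ℝ)
    (hc : R.eval c ≠ 0) :
    R.derivative.derivative.eval c * R.eval c < R.derivative.eval c ^ 2 := by
  have e := hR.eq_prod_roots
  set a := R.leadingCoeff with ha
  have hne : R.roots ≠ 0 := by
    intro h
    rw [h, Multiset.map_zero, Multiset.prod_zero, mul_one] at e
    rw [e, natDegree_C] at hd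
    exact lt_irrefl _ hd
  have ha0 : a ≠ 0 := by
    intro h
    rw [e, h] at hc
    simp at hc
  have h1 := (prod_aux c R.roots).2 hne
  set Q := (R.roots.map (fun r => X - C r)).prod with hQ
  have e0 : R.eval c = a * Q.eval c := by
    rw [e]
    simp
  have e1 : R.derivative.eval c = a * Q.derivative.eval c := by
    rw [e]
    simp
  have e2 : R.derivative.derivative.eval c = a * Q.derivative.derivative.eval c := by
    rw [e]
    simp
  have h2 : Q.eval c ≠ 0 := by
    intro h
    apply hc
    rw [e0, h, mul_zero]
  have h3 := h1 h2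
  rw [e0, e1, e2]
  have h4 : 0 < a ^ 2 := by positivity
  nlinarith [mul_pos h4 h3]

open Polynomial in
theorem no_crit (P : Polynomial ℝ) (hd : 0 < P.natDegree) (hs : ∀ t : ℝ, |t| ≤ 4 → (P - Polynomial.C t).Splits)
    (c : ℝ) (hc : |P.eval c| < 4) : P.derivative.eval c ≠ 0 := by
  intro h0
  have key : ∀ t : ℝ, |t| ≤ 4 → t ≠ P.eval c →
      P.derivative.derivative.eval c * (P.eval c - t) < 0 := by
    intro t ht hne
    have h1 := split_aux (P - C t) (hs t ht) (by rwa [natDegree_sub_C]) c (by
      rw [eval_sub, eval_C]
      intro h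
      apply hne
      linarith)
    rw [derivative_sub, derivative_C, sub_zero, eval_sub, eval_C, h0] at h1
    simpa using h1
  have hc' := abs_lt.1 hc
  have h1 := key 4 (by norm_num) (by
    intro h
    linarith [hc'.2])
  have h2 := key (-4) (by norm_num) (by
    intro h
    linarith [hc'.1])
  nlinarith [hc'.1, hc'.2]

end AMO75
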