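import Pool.Agent.AMO75.PolyA
import Pool.Agent.AMO75.NoCrit

/-!
# [AMO75-DERIVLOW] lower bound of the derivative

`deriv_low`: Let `|P x| ≤ 2`. Since `|P y| > 4` for `|y| > 4` (`hb`) there are a smallest `b ≥ x` and a largest `a ≤ x` with `|P b| ≥ 4`, `|P a| ≥ 4`
(`= 4`), `-4 ≤ a < x < b ≤ 4` (for `b`: the infimum of the closed set `{y ≥ x : 4 ≤ |P y|}`, which contains points arbitrarily close to
`4` from above, so its infimum is `≤ 4`), and `|P| < 4` on `(a, b)`, so `P' ≠ 0` on `(a, b)` by `no_crit`. Mean value theorem: `ξ₁ ∈ (a, x)`, `ξ₂ ∈ (x, b)` with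
`|P' ξ₂| = |P b - P x| / (b - x) ≥ 2 / 8`, same for `ξ₁`. By `unimod` on `[ξ₁, ξ₂]` for `P'` (`deriv_splits` for `P - C 0`): `|P' x| ≥ 1/4`.
-/

set_option autoImplicit false

open Real

namespace AMO75

namespace DerivLow

/-- the exit point to the right -/
lemma exit_right (P : Polynomial ℝ) (hb : ∀ y : ℝ, |P.eval y| ≤ 4 → |y| ≤ 4) (x : ℝ)
    (hx : |P.eval x| ≤ 2) :
    ∃ b : ℝ, x < b ∧ b ≤ 4 ∧ 4 ≤ |P.eval b| ∧ ∀ y, x ≤ y → y < b → |P.eval y| < 4 := by
  set S : Set ℝ := {y | x ≤ y ∧ 4 ≤ |P.eval y|} with hS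
  have hx4 : |x| ≤ 4 := hb x (by linarith)
  have hx4' := abs_le.1 hx4
  have hmem : ∀ y : ℝ, 4 < y → y ∈ S := by
    intro y hy
    refine ⟨by linarith, ?_⟩
    by_contra hcon
    have h1 := hb y (by linarith)
    have h2 := (abs_le.1 h1).2
    linarith
  have hbdd : BddBelow S := ⟨x, fun y hy => hy.1⟩
  have hne : S.Nonempty := ⟨5, hmem 5 (by norm_num)⟩
  have hclosed : IsClosed S := by
    have h1 : IsClosed {y : ℝ | x ≤ y} := isClosed_le continuous_const continuous_id
    have h2 : IsClosed {y : ℝ | 4 ≤ |P.eval y|} :=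
      isClosed_le continuous_const (continuous_abs.comp P.continuous)
    exact h1.inter h2
  have hin : sInf S ∈ S := hclosed.csInf_mem hne hbdd
  refine ⟨sInf S, ?_, ?_, hin.2, ?_⟩
  · rcases lt_or_eq_of_le hin.1 with h1 | h1
    · exact h1
    · exfalso
      have h2 := hin.2
      rw [← h1] at h2
      linarith
  · apply le_of_forall_gt_imp_ge_of_dense
    intro y hy
    exact csInf_le hbdd (hmem y hy)
  · intro y hy hyb
    by_contra hcon
    have h1 : y ∈ S := ⟨hy, by linarith⟩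
    have h2 := csInf_le hbdd h1
    linarith

/-- the exit point to the left -/
lemma exit_left (P : Polynomial ℝ) (hb : ∀ y : ℝ, |P.eval y| ≤ 4 → |y| ≤ 4) (x : ℝ)
    (hx : |P.eval x| ≤ 2) :
    ∃ a : ℝ, a < x ∧ -4 ≤ a ∧ 4 ≤ |P.eval a| ∧ ∀ y, a < y → y ≤ x → |P.eval y| < 4 := by
  have hev : ∀ y : ℝ, (P.comp (-Polynomial.X)).eval y = P.eval (-y) := by
    intro y
    rw [Polynomial.eval_comp, Polynomial.eval_neg, Polynomial.eval_X]
  obtain ⟨b, h1, h2, h3, h4⟩ := exit_right (P.comp (-Polynomial.X)) (by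
    intro y hy
    rw [hev] at hy
    have := hb _ hy
    rwa [abs_neg] at this) (-x) (by rw [hev, neg_neg]; exact hx)
  refine ⟨-b, by linarith, by linarith, by rw [hev] at h3; exact h3, ?_⟩
  intro y hy hyx
  have h5 := h4 (-y) (by linarith) (by linarith)
  rwa [hev, neg_neg] at h5

end DerivLow

theorem deriv_low (P : Polynomial ℝ) (hd : 0 < P.natDegree) (hs : ∀ t : ℝ, |t| ≤ 4 → (P - Polynomial.C t).Splits)
    (hb : ∀ y : ℝ, |P.eval y| ≤ 4 → |y| ≤ 4) (x : ℝ) (hx : |P.eval x| ≤ 2) : 1 / 4 ≤ |P.derivative.eval x| := by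
  obtain ⟨b, hb1, hb2, hb3, hb4⟩ := DerivLow.exit_right P hb x hx
  obtain ⟨a, ha1, ha2, ha3, ha4⟩ := DerivLow.exit_left P hb x hx
  have hx4' := abs_le.1 (hb x (by linarith))
  have key : ∀ u v : ℝ, u < v → v - u ≤ 8 → 2 ≤ |P.eval v - P.eval u| →
      ∃ c, u < c ∧ c < v ∧ 1 / 4 ≤ |P.derivative.eval c| := by
    intro u v huv h8 h2
    obtain ⟨c, hc, hc'⟩ := exists_hasDerivAt_eq_slope (fun y => P.eval y)
      (fun y => P.derivative.eval y) huv P.continuous.continuousOn
      (fun y _ => P.hasDerivAt y)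
    refine ⟨c, hc.1, hc.2, ?_⟩
    have hpos : 0 < v - u := by linarith
    change P.derivative.eval c = _ at hc'
    rw [hc', abs_div, abs_of_pos hpos, le_div_iff₀ hpos]
    change _ ≤ |P.eval v - P.eval u|
    linarith
  obtain ⟨c2, h1, h2, h3⟩ := key x b hb1 (by linarith) (by
    have := abs_sub_abs_le_abs_sub (P.eval b) (P.eval x)
    linarith)
  obtain ⟨c1, g1, g2, g3⟩ := key a x ha1 (by linarith) (by
    have := abs_sub_abs_le_abs_sub (P.eval a) (P.eval x)
    rw [abs_sub_comm] at this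
    linarith)
  have hP : P.Splits := by
    have := hs 0 (by norm_num)
    rwa [Polynomial.C_0, sub_zero] at this
  have hu := unimod P.derivative (deriv_splits P hP) c1 c2 x g2.le h1.le (by
    intro c hc
    apply no_crit P hd hs c
    rcases le_total c x with h | h
    · exact ha4 c (by linarith [hc.1]) h
    · exact hb4 c h (by linarith [hc.2]))
  exact le_trans (le_min g3 h3) hu

end AMO75
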