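import Mathlib

/-!
# [AMO75-DIM] Hausdorff dimension from covers

`MeasureTheory.Measure.hausdorffMeasure_le_liminf_sum` with the covers for `ε = 1 / (n + 1)`: all diameters are `≤ ρ i ≤ (1/(n+1))^(1/s) → 0`, sums
`≤ 1/(n+1) → 0`, so `μH[s] S = 0`, and `dimH_le_of_hausdorffMeasure_ne_top`.
-/

set_option autoImplicit false

open Real

namespace AMO75

theorem dim_of_covers (S : Set ℝ) (s : ℝ) (hs : 0 < s)
    (h : ∀ ε : ℝ, 0 < ε → ∃ (ι : Type) (_ : Fintype ι) (C : ι → Set ℝ) (ρ : ι → ℝ), (∀ i, 0 ≤ ρ i) ∧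
      (∀ i, ∀ x ∈ C i, ∀ y ∈ C i, |x - y| ≤ ρ i) ∧ S ⊆ ⋃ i, C i ∧ ∑ i, ρ i ^ s < ε) :
    dimH S ≤ ENNReal.ofReal s := by
  classical
  choose ι fι C ρ h0 hd hc hsum using fun n : ℕ => h (1 / ((n : ℝ) + 1)) (by positivity)
  have hr : Filter.Tendsto (fun n : ℕ => ENNReal.ofReal ((1 / ((n : ℝ) + 1)) ^ (1 / s)))
      Filter.atTop (nhds 0) := by
    have h1 : Filter.Tendsto (fun n : ℕ => (1 / ((n : ℝ) + 1)) ^ (1 / s)) Filter.atTop
        (nhds ((0 : ℝ) ^ (1 / s))) :=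
      tendsto_one_div_add_atTop_nhds_zero_nat.rpow_const (Or.inr (by positivity))
    rw [Real.zero_rpow (by positivity)] at h1
    have h2 := ENNReal.tendsto_ofReal h1
    rwa [ENNReal.ofReal_zero] at h2
  have hdiam : ∀ n i, Metric.ediam (C n i) ≤ ENNReal.ofReal (ρ n i) := by
    intro n i
    refine Metric.ediam_le fun x hx y hy => ?_
    rw [edist_dist, Real.dist_eq]
    exact ENNReal.ofReal_le_ofReal (hd n i x hx y hy)
  have hle : ∀ n i, ρ n i ^ s ≤ ∑ j, ρ n j ^ s := fun n i =>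
    Finset.single_le_sum (f := fun j => ρ n j ^ s) (fun j _ => Real.rpow_nonneg (h0 n j) s)
      (Finset.mem_univ i)
  have hdiam2 : ∀ n i, Metric.ediam (C n i) ≤ ENNReal.ofReal ((1 / ((n : ℝ) + 1)) ^ (1 / s)) := by
    intro n i
    refine (hdiam n i).trans (ENNReal.ofReal_le_ofReal ?_)
    have h1 : ρ n i ^ s ≤ 1 / ((n : ℝ) + 1) := (hle n i).trans (hsum n).le
    have h2 := Real.rpow_le_rpow (Real.rpow_nonneg (h0 n i) s) h1 (by positivity : 0 ≤ 1 / s)
    rwa [← Real.rpow_mul (h0 n i), mul_one_div_cancel hs.ne', Real.rpow_one] at h2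
  have key := MeasureTheory.Measure.hausdorffMeasure_le_liminf_sum s S
    (fun n : ℕ => ENNReal.ofReal ((1 / ((n : ℝ) + 1)) ^ (1 / s))) hr C
    (Filter.Eventually.of_forall hdiam2) (Filter.Eventually.of_forall hc)
  have hbd : ∀ n : ℕ, ∑ i, Metric.ediam (C n i) ^ s ≤ 1 := by
    intro n
    have h1 : ∑ i, Metric.ediam (C n i) ^ s ≤ ∑ i, ENNReal.ofReal (ρ n i ^ s) := by
      refine Finset.sum_le_sum fun i _ => ?_
      rw [← ENNReal.ofReal_rpow_of_nonneg (h0 n i) hs.le]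
      exact ENNReal.rpow_le_rpow (hdiam n i) hs.le
    refine h1.trans ?_
    rw [← ENNReal.ofReal_sum_of_nonneg fun i _ => Real.rpow_nonneg (h0 n i) s,
      ← ENNReal.ofReal_one]
    refine ENNReal.ofReal_le_ofReal ((hsum n).le.trans ?_)
    rw [div_le_one (by positivity)]
    have : (0 : ℝ) ≤ n := Nat.cast_nonneg n
    linarith
  have hfin : MeasureTheory.Measure.hausdorffMeasure s S ≤ 1 := by
    refine key.trans ?_
    refine (Filter.liminf_le_limsup).trans ?_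
    exact Filter.limsup_le_of_le (h := Filter.Eventually.of_forall hbd)
  have h2 : MeasureTheory.Measure.hausdorffMeasure ((s.toNNReal : NNReal) : ℝ) S ≠ ⊤ := by
    rw [Real.coe_toNNReal s hs.le]
    exact ne_top_of_le_ne_top ENNReal.one_ne_top hfin
  exact dimH_le_of_hausdorffMeasure_ne_top h2

end AMO75
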