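import Pool.Agent.AMO75.Bloch

/-!
# [AMO75-EXPP] the Chambers polynomial

`exists_PP`: `P = ∏ (X - μ_i) + 4` where `μ_i` are the (real) eigenvalues of `hM p q 1 1` (`Matrix.IsHermitian.eigenvalues`,
charpoly = product of the `X - μ_i`), so `P` is a real monic polynomial of degree `q ≥ 1` with
`P y = det (y - hM 1 1) + 4`, and by `chambers` `det (y - hM z w) = P y - (z^q + z^(-q) + w^q + w^(-q))`, for `z = exp (2 π i x)`,
`w = exp (i κ)`: `= P y - 2 cos (2 π q x) - 2 cos (q κ)`.
-/

set_option autoImplicit false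

open Real

namespace AMO75

theorem exists_PP (p : ℤ) (q : ℕ) [NeZero q] (hpq : IsCoprime p (q : ℤ)) :
    ∃ P : Polynomial ℝ, P.Monic ∧ P.natDegree = q ∧ ∀ y x κ : ℝ,
      ((y : ℂ) • (1 : Matrix (ZMod q) (ZMod q) ℂ)
        - hM p q (Complex.exp (2 * π * Complex.I * x)) (Complex.exp (Complex.I * κ))).det
      = ((P.eval y - 2 * Real.cos (2 * π * (q * x)) - 2 * Real.cos (q * κ) : ℝ) : ℂ) := by
  have hH : (hM p q 1 1).IsHermitian := hM_herm p q 1 1 norm_one norm_one
  obtain ⟨μ, hμ⟩ : ∃ μ : ZMod q → ℝ, μ = hH.eigenvalues := ⟨_, rfl⟩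
  have hcard : (Finset.univ : Finset (ZMod q)).card = q := by
    rw [Finset.card_univ, ZMod.card]
  have hmon : (∏ i : ZMod q, (Polynomial.X - Polynomial.C (μ i))).Monic :=
    Polynomial.monic_prod_of_monic _ _ fun i _ => Polynomial.monic_X_sub_C _
  have hdeg : (∏ i : ZMod q, (Polynomial.X - Polynomial.C (μ i))).natDegree = q := by
    rw [Polynomial.natDegree_prod_of_monic _ _ fun i _ => Polynomial.monic_X_sub_C _]
    simp only [Polynomial.natDegree_X_sub_C, Finset.sum_const, smul_eq_mul, mul_one]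
    exact hcard
  have hq : 0 < q := Nat.pos_of_ne_zero (NeZero.ne q)
  have hlt : (Polynomial.C (4 : ℝ)).degree < (∏ i : ZMod q, (Polynomial.X - Polynomial.C (μ i))).degree := by
    rw [Polynomial.degree_eq_natDegree hmon.ne_zero, hdeg]
    refine lt_of_le_of_lt Polynomial.degree_C_le ?_
    exact_mod_cast hq
  refine ⟨∏ i : ZMod q, (Polynomial.X - Polynomial.C (μ i)) + Polynomial.C 4, ?_, ?_, ?_⟩
  · exact hmon.add_of_left hlt
  · rw [Polynomial.natDegree_add_eq_left_of_degree_lt hlt, hdeg]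
  · intro y x κ
    have h1 := chambers p q hpq (Complex.exp (2 * π * Complex.I * x)) (Complex.exp (Complex.I * κ)) (y : ℂ)
      (Complex.exp_ne_zero _) (Complex.exp_ne_zero _)
    rw [h1]
    have h2 : ((y : ℂ) • (1 : Matrix (ZMod q) (ZMod q) ℂ) - hM p q 1 1).det = ∏ i : ZMod q, ((y : ℂ) - (μ i : ℂ)) := by
      have h3 := congrArg (Polynomial.eval (y : ℂ)) hH.charpoly_eq
      rw [Matrix.eval_charpoly, Polynomial.eval_prod] at h3
      rw [Matrix.smul_one_eq_diagonal, hμ]
      refine h3.trans (Finset.prod_congr rfl fun i _ => ?_)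
      rw [Polynomial.eval_sub, Polynomial.eval_X, Polynomial.eval_C]
      rfl
    rw [h2]
    have h4 : ∀ t : ℝ, Complex.exp (Complex.I * t) ^ q + (Complex.exp (Complex.I * t))⁻¹ ^ q
        = 2 * Complex.cos (q * t) := by
      intro t
      rw [← Complex.exp_neg, ← Complex.exp_nat_mul, ← Complex.exp_nat_mul, Complex.cos]
      have e1 : (q : ℂ) * (Complex.I * t) = (q * t : ℂ) * Complex.I := by ring
      have e2 : (q : ℂ) * (-(Complex.I * t)) = -(q * t : ℂ) * Complex.I := by ring
      rw [e1, e2]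
      ring
    have h5 := h4 (2 * π * x)
    have h6 := h4 κ
    have e3 : (2 * π * Complex.I * x : ℂ) = Complex.I * ((2 * π * x : ℝ) : ℂ) := by
      push_cast
      ring
    have h7 : Complex.exp (2 * π * Complex.I * x) ^ q + (Complex.exp (2 * π * Complex.I * x))⁻¹ ^ q
        + Complex.exp (Complex.I * κ) ^ q + (Complex.exp (Complex.I * κ))⁻¹ ^ q
        = 2 * Complex.cos (q * ((2 * π * x : ℝ) : ℂ)) + 2 * Complex.cos (q * κ) := by
      rw [e3, add_assoc, h5, h6]
    rw [h7, Polynomial.eval_add, Polynomial.eval_prod, Polynomial.eval_C]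
    simp only [Polynomial.eval_sub, Polynomial.eval_X, Polynomial.eval_C]
    push_cast
    have e4 : (q : ℂ) * (2 * π * x) = 2 * π * (q * x) := by ring
    rw [e4]
    ring

end AMO75
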