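import Mathlib

/-!
# [AMO75-INV] Liouville numbers are invariant under the Gauss map

Let `x` be a Liouville number, `0 < x < 1`. For every `w > 0` `LiouvilleWith w x` (`Liouville.liouvilleWith` or `forall_liouvilleWith_iff`).
If `|x - m / n| < C / n ^ w` with `n` large then `0 < m ≤ n`, `m ≥ x n / 2`, and `|1/x - n/m| = |x - m/n| n / (x m) ≤ (2 / x²) C / n ^ w ≤ C' / m ^ w`, and
`m → ∞`. So `LiouvilleWith w x⁻¹` for all `w`, and `Int.fract x⁻¹ = x⁻¹ - integer` (`LiouvilleWith.sub_int_iff` etc.).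
-/

set_option autoImplicit false

namespace AMO75

lemma liouvilleWith_inv (x : ℝ) (hx0 : 0 < x) (hx1 : x < 1) (p : ℝ) (hp : 1 ≤ p)
    (h : LiouvilleWith p x) : LiouvilleWith p x⁻¹ := by
  obtain ⟨C, hC, hfr⟩ := h.exists_pos
  refine ⟨2 ^ (p + 1) * C / x ^ 2, ?_⟩
  rw [Filter.frequently_atTop] at hfr ⊢
  intro a
  obtain ⟨n, hn, hn1, m, hne, hlt⟩ := hfr (⌈2 * C / x⌉₊ + ⌈2 * (a : ℝ) / x⌉₊)
  have hn0 : (0 : ℝ) < n := by exact_mod_cast (by omega : 0 < n)
  have hnC : 2 * C / x ≤ n := by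
    refine (Nat.le_ceil _).trans ?_
    exact_mod_cast (by omega : ⌈2 * C / x⌉₊ ≤ n)
  have hna : 2 * (a : ℝ) / x ≤ n := by
    refine (Nat.le_ceil _).trans ?_
    exact_mod_cast (by omega : ⌈2 * (a : ℝ) / x⌉₊ ≤ n)
  have hn1' : (1 : ℝ) ≤ n := by exact_mod_cast hn1
  have hnp : (n : ℝ) ≤ (n : ℝ) ^ p := by
    calc (n : ℝ) = (n : ℝ) ^ (1 : ℝ) := (Real.rpow_one _).symm
      _ ≤ (n : ℝ) ^ p := Real.rpow_le_rpow_of_exponent_le hn1' hp
  have hnp0 : (0 : ℝ) < (n : ℝ) ^ p := by positivity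
  have h1 : C / (n : ℝ) ^ p ≤ x / 2 := by
    rw [div_le_iff₀ hnp0]
    rw [div_le_iff₀ hx0] at hnC
    nlinarith
  have h2 := abs_lt.1 hlt
  -- bounds on `m`
  have hm1 : x / 2 * n < m := by
    have h3 : x / 2 < m / n := by linarith
    rwa [lt_div_iff₀ hn0] at h3
  have hm2 : (m : ℝ) < 2 * n := by
    have h3 : (m : ℝ) / n < 2 := by linarith
    rwa [div_lt_iff₀ hn0] at h3
  have hm0 : (0 : ℝ) < m := lt_trans (by positivity) hm1
  have hm0' : 0 < m := by exact_mod_cast hm0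
  obtain ⟨k, hk⟩ := Int.eq_ofNat_of_zero_le hm0'.le
  have hkm : (m : ℝ) = (k : ℝ) := by rw [hk]; simp
  rw [hkm] at hm0 hm1 hm2 hne hlt
  have hka : a ≤ k := by
    have h3 : (a : ℝ) < k := by
      rw [div_le_iff₀ hx0] at hna
      linarith
    exact_mod_cast h3.le
  refine ⟨k, hka, (n : ℤ), ?_, ?_⟩
  · intro h3
    apply hne
    have h4 : x = (x⁻¹)⁻¹ := (inv_inv x).symm
    rw [h4, h3]
    push_cast
    rw [inv_div]
  · have e : x⁻¹ - ((n : ℤ) : ℝ) / (k : ℝ) = -(x - k / n) * (n / (x * k)) := by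
      push_cast
      field_simp
      ring
    rw [e, abs_mul, abs_neg, abs_of_pos (by positivity : 0 < (n : ℝ) / (x * k))]
    have h5 : (n : ℝ) / (x * k) ≤ 2 / x ^ 2 := by
      rw [div_le_div_iff₀ (by positivity) (by positivity)]
      nlinarith [mul_pos hx0 hx0]
    have h6 : C / (n : ℝ) ^ p ≤ 2 ^ p * C / (k : ℝ) ^ p := by
      rw [div_le_div_iff₀ hnp0 (by positivity)]
      have h7 : (k : ℝ) ^ p ≤ (2 * n : ℝ) ^ p :=
        Real.rpow_le_rpow hm0.le hm2.le (by linarith)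
      rw [Real.mul_rpow (by norm_num) hn0.le] at h7
      nlinarith
    calc |x - k / n| * (n / (x * k)) < C / (n : ℝ) ^ p * (n / (x * k)) :=
          mul_lt_mul_of_pos_right hlt (by positivity)
      _ ≤ (2 ^ p * C / (k : ℝ) ^ p) * (2 / x ^ 2) := by
          apply mul_le_mul h6 h5 (by positivity) (by positivity)
      _ = 2 ^ (p + 1) * C / x ^ 2 / (k : ℝ) ^ p := by
          rw [Real.rpow_add (by norm_num), Real.rpow_one]
          field_simp

theorem liouville_gauss (x : ℝ) (hx : Liouville x) (hx0 : 0 < x) (hx1 : x < 1) : Liouville (Int.fract x⁻¹) := by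
  rw [← forall_liouvilleWith_iff] at hx ⊢
  intro p
  have h1 : LiouvilleWith p x⁻¹ :=
    (liouvilleWith_inv x hx0 hx1 (max p 1) (le_max_right _ _) (hx _)).mono (le_max_left _ _)
  rw [Int.fract]
  exact LiouvilleWith.sub_int_iff.2 h1

end AMO75
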