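import Pool.Agent.AMO75.Cover
import Pool.Agent.AMO75.Dim
import Pool.Agent.AMO75.Inv
import Pool.Agent.AMO75.Conv

/-!
# [AMO75-FINAL] the dimension of the spectrum (assembly)
-/

set_option autoImplicit false

open Real

namespace AMO75

/-- a fraction near to `α` in lowest terms, with sign -/
theorem exists_frac (α w' : ℝ) (hw' : 0 < w') (n : ℕ) (hn : 1 ≤ n) (m : ℤ) (hne : α ≠ m / n)
    (hlt : |α - m / n| < (n : ℝ) ^ (-w')) :
    ∃ (β : ℝ) (p : ℤ) (q : ℕ) (d : ℝ), (β = α ∨ β = -α) ∧ 0 < q ∧ IsCoprime p (q : ℤ) ∧ 0 < d ∧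
      d < (n : ℝ) ^ (-w') ∧ β = (p : ℝ) / q + d ∧ (q : ℝ) ≤ d ^ (-(1 / w') : ℝ) := by
  have hn0 : (0 : ℝ) < n := by exact_mod_cast hn
  obtain ⟨r, hr⟩ : ∃ r : ℚ, r = (m : ℚ) / n := ⟨_, rfl⟩
  have hrR : (r : ℝ) = (m : ℝ) / n := by rw [hr]; push_cast; ring
  have hrq : (r : ℝ) = (r.num : ℝ) / r.den := by
    exact_mod_cast (Rat.num_div_den r).symm
  have hden : r.den ≤ n := by
    have h1 : (r.den : ℤ) ∣ (n : ℤ) := by
      have h2 := Rat.den_dvd m (n : ℤ)
      rwa [Rat.divInt_eq_div, Int.cast_natCast, ← hr] at h2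
    exact Nat.le_of_dvd hn (by exact_mod_cast h1)
  have hd0 : 0 < |α - m / n| := abs_pos.2 (sub_ne_zero.2 hne)
  have hcop : IsCoprime r.num (r.den : ℤ) := by
    rw [Int.isCoprime_iff_gcd_eq_one]
    have := r.reduced
    rw [Nat.coprime_iff_gcd_eq_one] at this
    rw [Int.gcd, Int.natAbs_natCast]
    exact this
  have hqd : (r.den : ℝ) ≤ |α - m / n| ^ (-(1 / w') : ℝ) := by
    have h1 : (r.den : ℝ) ≤ n := by exact_mod_cast hden
    refine h1.trans ?_
    have h2 : ((n : ℝ) ^ (-w')) ^ (-(1 / w')) ≤ |α - m / n| ^ (-(1 / w') : ℝ) :=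
      Real.rpow_le_rpow_of_nonpos hd0 hlt.le (by
        have : 0 < 1 / w' := by positivity
        linarith)
    have h3 : ((n : ℝ) ^ (-w')) ^ (-(1 / w')) = n := by
      rw [← Real.rpow_mul hn0.le]
      have : -w' * -(1 / w') = 1 := by field_simp
      rw [this, Real.rpow_one]
    linarith
  rcases lt_or_gt_of_ne hne with h | h
  · refine ⟨-α, -r.num, r.den, |α - m / n|, Or.inr rfl, r.den_pos, hcop.neg_left, hd0, hlt, ?_, hqd⟩
    rw [abs_of_neg (by linarith)]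
    push_cast
    have : -(r.num : ℝ) / r.den = -(m / n) := by rw [neg_div, ← hrq, hrR]
    rw [this]
    ring
  · refine ⟨α, r.num, r.den, |α - m / n|, Or.inl rfl, r.den_pos, hcop, hd0, hlt, ?_, hqd⟩
    rw [abs_of_pos (by linarith), ← hrq, hrR]
    ring

theorem lin_neg (α : ℝ) : lin (-α) 0 = lin α 0 := by
  funext n
  unfold lin
  have : 2 * π * (n * -α + 0) = -(2 * π * (n * α + 0)) := by ring
  rw [this, Real.cos_neg]

/-- the sums tend to `0` -/
theorem sum_small (a s b N : ℝ) (hs : 0 < s) (h1 : b < a * s) (h2 : 1 < N * s) (ε : ℝ) (hε : 0 < ε) :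
    ∃ δ : ℝ, 0 < δ ∧ ∀ d : ℝ, 0 < d → d < δ →
      2 * d ^ (-b) * (200 * d ^ a) ^ s + 8 / d * (2 * d ^ N) ^ s < ε := by
  have t1 : Filter.Tendsto (fun d : ℝ => 2 * 200 ^ s * d ^ (a * s - b) + 8 * 2 ^ s * d ^ (N * s - 1))
      (nhds 0) (nhds (2 * 200 ^ s * 0 ^ (a * s - b) + 8 * 2 ^ s * 0 ^ (N * s - 1))) := by
    apply Filter.Tendsto.add
    · exact ((Real.continuous_rpow_const (by linarith)).tendsto 0).const_mul _
    · exact ((Real.continuous_rpow_const (by linarith)).tendsto 0).const_mul _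
  have n1 : a * s - b ≠ 0 := by
    intro h
    linarith
  have n2 : N * s - 1 ≠ 0 := by
    intro h
    linarith
  rw [Real.zero_rpow n1, Real.zero_rpow n2, mul_zero, mul_zero, add_zero] at t1
  obtain ⟨δ, hδ, hδ'⟩ := Metric.eventually_nhds_iff.1 (t1.eventually (gt_mem_nhds hε))
  refine ⟨δ, hδ, fun d hd0 hd => ?_⟩
  have h3 := hδ' (y := d) (by rw [Real.dist_eq, sub_zero, abs_of_pos hd0]; exact hd)
  have e1 : 2 * d ^ (-b) * (200 * d ^ a) ^ s = 2 * 200 ^ s * d ^ (a * s - b) := by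
    rw [Real.mul_rpow (by norm_num) (by positivity), ← Real.rpow_mul hd0.le, sub_eq_add_neg, Real.rpow_add hd0]
    ring
  have e2 : 8 / d * (2 * d ^ N) ^ s = 8 * 2 ^ s * d ^ (N * s - 1) := by
    rw [Real.mul_rpow (by norm_num) (by positivity), ← Real.rpow_mul hd0.le, Real.rpow_sub hd0, Real.rpow_one]
    ring
  rw [e1, e2]
  exact h3

theorem dim_le_aux (α w s : ℝ) (hw : 4 < w) (h : LiouvilleWith w α) (hs0 : 0 < s) (hs : 4 / w < s) :
    dimH (Sp (lin α 0)) ≤ ENNReal.ofReal s := by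
  classical
  have hsw : 4 / s < w := by
    rw [div_lt_iff₀ (by linarith)] at hs
    rw [div_lt_iff₀ hs0]
    linarith
  obtain ⟨w', hw1, hw2⟩ := exists_between (max_lt hw hsw)
  have hw4 : 4 < w' := (le_max_left _ _).trans_lt hw1
  have hws : 4 / s < w' := (le_max_right _ _).trans_lt hw1
  have hw0 : 0 < w' := by linarith
  have h14 : 1 / (s * w') < 1 / 4 := by
    rw [div_lt_iff₀ hs0] at hws
    apply one_div_lt_one_div_of_lt (by norm_num)
    linarith
  obtain ⟨a, ha1, ha2⟩ := exists_between h14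
  have ha0 : 0 < a := lt_trans (by positivity) ha1
  have has : 1 / w' < a * s := by
    rw [div_lt_iff₀ (by positivity)] at ha1
    rw [div_lt_iff₀ hw0]
    linarith
  obtain ⟨N, hN⟩ := exists_nat_gt (max 1 (1 / s))
  have hN1 : (1 : ℝ) < N := (le_max_left _ _).trans_lt hN
  have hNs : 1 < (N : ℝ) * s := by
    have := (le_max_right _ _).trans_lt hN
    rwa [div_lt_iff₀ hs0] at this
  obtain ⟨δ₀, hδ0, hδ1, hcov⟩ := cover a ha0 ha2 N (by exact_mod_cast hN1.le)
  apply dim_of_covers _ s hs0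
  intro ε hε
  obtain ⟨δ₁, hδ₁, hsum⟩ := sum_small a s (1 / w') N hs0 has hNs ε hε
  have hfr := h.frequently_lt_rpow_neg hw2
  have hev : ∀ᶠ n : ℕ in Filter.atTop, (n : ℝ) ^ (-w') < min δ₀ δ₁ := by
    have ht : Filter.Tendsto (fun n : ℕ => (n : ℝ) ^ (-w')) Filter.atTop (nhds 0) :=
      (tendsto_rpow_neg_atTop hw0).comp tendsto_natCast_atTop_atTop
    exact ht.eventually (gt_mem_nhds (lt_min hδ0 hδ₁))
  obtain ⟨n, ⟨m, hne, hlt⟩, hn1, hn2⟩ := (hfr.and_eventually (hev.and (Filter.eventually_ge_atTop 1))).exists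
  obtain ⟨β, p, q, d, hβ, hq, hpq, hd0, hd, hβ2, hqd⟩ := exists_frac α w' hw0 n hn2 m hne hlt
  have hSp : Sp (lin α 0) = Sp (lin β 0) := by
    rcases hβ with rfl | rfl
    · rfl
    · rw [lin_neg]
  have hdδ0 : d < δ₀ := hd.trans (hn1.trans_le (min_le_left _ _))
  have hdδ1 : d < δ₁ := hd.trans (hn1.trans_le (min_le_right _ _))
  have hd1 : d ≤ 1 := by linarith
  have hq4 : (q : ℝ) ≤ d ^ (-(1 / 4) : ℝ) := by
    refine hqd.trans (Real.rpow_le_rpow_of_exponent_ge hd0 hd1 ?_)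
    have : 1 / w' ≤ 1 / 4 := one_div_le_one_div_of_le (by norm_num) hw4.le
    linarith
  obtain ⟨C, F, hC, hF, hSC⟩ := hcov p q d hq hpq hd0 hdδ0 hq4
  refine ⟨(Fin q ⊕ Fin q) ⊕ F, inferInstance, Sum.elim C (fun f => {E | |E - f| ≤ d ^ N}),
    Sum.elim (fun _ => 200 * d ^ a) (fun _ => 2 * d ^ N), ?_, ?_, ?_, ?_⟩
  · rintro (i | i)
    · simp only [Sum.elim_inl]
      positivity
    · simp only [Sum.elim_inr]
      positivity
  · rintro (i | i)
    · exact hC i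
    · intro x hx y hy
      simp only [Sum.elim_inr, Set.mem_ofPred_eq] at hx hy ⊢
      have e1 : x - y = (x - i) - (y - i) := by ring
      rw [e1]
      refine (abs_sub _ _).trans ?_
      linarith
  · intro E hE
    rw [hSp, hβ2] at hE
    rcases hSC E hE with ⟨i, hi⟩ | ⟨f, hf, hfE⟩
    · exact Set.mem_iUnion.2 ⟨Sum.inl i, hi⟩
    · exact Set.mem_iUnion.2 ⟨Sum.inr ⟨f, hf⟩, hfE⟩
  · rw [Fintype.sum_sum_type]
    simp only [Sum.elim_inl, Sum.elim_inr, Finset.sum_const, Finset.card_univ, Fintype.card_sum, Fintype.card_fin,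
      Fintype.card_coe, nsmul_eq_mul]
    refine lt_of_le_of_lt ?_ (hsum d hd0 hdδ1)
    have e1 : (2 * d ^ N : ℝ) = 2 * d ^ (N : ℝ) := by rw [Real.rpow_natCast]
    rw [← e1]
    push_cast
    have h1 : ((q : ℝ) + q) * (200 * d ^ a) ^ s ≤ 2 * d ^ (-(1 / w')) * (200 * d ^ a) ^ s := by
      apply mul_le_mul_of_nonneg_right _ (by positivity)
      linarith
    have h2 : (F.card : ℝ) * (2 * d ^ N) ^ s ≤ 8 / d * (2 * d ^ N) ^ s :=
      mul_le_mul_of_nonneg_right hF (by positivity)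
    linarith

theorem dim_le_one (S : Set ℝ) : dimH S ≤ 1 := by
  refine (dimH_mono (Set.subset_univ S)).trans ?_
  rw [Real.dimH_univ]

theorem dim_le (α w : ℝ) (hw : 0 < w) (h : LiouvilleWith w α) :
    dimH (Sp (lin α 0)) ≤ ENNReal.ofReal (4 / w) := by
  rcases le_or_gt w 4 with h4 | h4
  · refine (dim_le_one _).trans ?_
    rw [← ENNReal.ofReal_one]
    apply ENNReal.ofReal_le_ofReal
    rw [le_div_iff₀ hw]
    linarith
  · have hcl : ∀ δ : ℝ, 0 < δ → dimH (Sp (lin α 0)) ≤ ENNReal.ofReal (4 / w + δ) := by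
      intro δ hδ
      have : 0 < 4 / w := by positivity
      exact dim_le_aux α w (4 / w + δ) h4 h (by linarith) (by linarith)
    have ht : Filter.Tendsto (fun δ : ℝ => ENNReal.ofReal (4 / w + δ)) (nhdsWithin 0 (Set.Ioi 0))
        (nhds (ENNReal.ofReal (4 / w + 0))) := by
      apply (ENNReal.continuous_ofReal.tendsto _).comp
      exact ((continuous_const.add continuous_id).tendsto 0).mono_left nhdsWithin_le_nhds
    rw [add_zero] at ht
    refine ge_of_tendsto ht ?_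
    filter_upwards [self_mem_nhdsWithin] with δ hδ
    exact hcl δ hδ

theorem dim_liouville (α : ℝ) (h : Liouville α) : dimH (Sp (lin α 0)) = 0 := by
  have hcl : ∀ w : ℝ, 0 < w → dimH (Sp (lin α 0)) ≤ ENNReal.ofReal (4 / w) := fun w hw =>
    dim_le α w hw (h.liouvilleWith w)
  have ht : Filter.Tendsto (fun w : ℝ => ENNReal.ofReal (4 / w)) Filter.atTop (nhds (ENNReal.ofReal 0)) :=
    (ENNReal.continuous_ofReal.tendsto _).comp (Filter.Tendsto.const_div_atTop Filter.tendsto_id 4)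
  rw [ENNReal.ofReal_zero] at ht
  refine le_antisymm (ge_of_tendsto ht ?_) bot_le
  filter_upwards [Filter.eventually_gt_atTop 0] with w hw
  exact hcl w hw

theorem liouvilleWith_gauss (x w : ℝ) (hx0 : 0 < x) (hx1 : x < 1) (hw : 1 ≤ w) (h : LiouvilleWith w x) :
    LiouvilleWith w (Int.fract x⁻¹) := by
  have h1 := liouvilleWith_inv x hx0 hx1 w hw h
  have h2 : Int.fract x⁻¹ = x⁻¹ - (⌊x⁻¹⌋ : ℤ) := rfl
  rw [h2]
  exact h1.sub_int _

end AMO75
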