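import Pool.Agent.AMO75.Nrm

/-!
# [AMO75-FOUR] Bloch decomposition of a periodic operator (lower bound)

Proof. For `w` on the unit circle let `Tr q w u i = ∑_{n ≡ i mod q} w ^ (-n) * u n`. Then
`Bl q v' w (Tr q w u) - E (Tr q w u) = Tr q w (Rs v E u)`, and Parseval for the `N`-th roots of unity (`N` larger than
the diameter of the support) gives the inequality: this is the finite version of the integral over the circle.
-/

set_option autoImplicit false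

open Real

namespace AMO75

/-- the Bloch operator -/
noncomputable def Bl (q : ℕ) (v : ZMod q → ℝ) (w : ℂ) (φ : ZMod q → ℂ) : ZMod q → ℂ :=
  fun i => w * φ (i + 1) + w⁻¹ * φ (i - 1) + (v i : ℂ) * φ i

/-- the Bloch transform -/
noncomputable def Tr (q : ℕ) (w : ℂ) (u : ℤ → ℂ) : ZMod q → ℂ :=
  fun i => ∑' n : ℤ, if (n : ZMod q) = i then w ^ (-n) * u n else 0

theorem Tr_summable (q : ℕ) (w : ℂ) {u : ℤ → ℂ} (hu : FS u) (i : ZMod q) :
    Summable fun n : ℤ => if (n : ZMod q) = i then w ^ (-n) * u n else 0 := by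
  apply summable_of_hasFiniteSupport
  refine hu.subset ?_
  intro n hn
  rw [Function.mem_support] at hn ⊢
  intro h0
  apply hn
  simp [h0]

theorem Tr_succ (q : ℕ) {w : ℂ} (hw : w ≠ 0) (u : ℤ → ℂ) (i : ZMod q) :
    w * Tr q w u (i + 1) = Tr q w (fun n => u (n + 1)) i := by
  unfold Tr
  rw [← tsum_mul_left, ← (Equiv.addRight (1 : ℤ)).tsum_eq]
  apply tsum_congr
  intro n
  simp only [Equiv.coe_addRight, Int.cast_add, Int.cast_one, add_left_inj]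
  split_ifs with hi
  · rw [← mul_assoc]
    congr 1
    rw [neg_add, zpow_add₀ hw, zpow_neg_one]
    field_simp
  · rw [mul_zero]

theorem Tr_pred (q : ℕ) {w : ℂ} (hw : w ≠ 0) (u : ℤ → ℂ) (i : ZMod q) :
    w⁻¹ * Tr q w u (i - 1) = Tr q w (fun n => u (n - 1)) i := by
  have h := Tr_succ q hw (fun n => u (n - 1)) (i - 1)
  simp only [sub_add_cancel, add_sub_cancel_right] at h
  rw [← h, ← mul_assoc, inv_mul_cancel₀ hw, one_mul]

theorem Tr_pot (q : ℕ) (w : ℂ) (v : ℤ → ℝ) (v' : ZMod q → ℝ) (hv : ∀ n : ℤ, v n = v' (n : ZMod q))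
    (u : ℤ → ℂ) (i : ZMod q) (E : ℝ) :
    ((v' i - E : ℝ) : ℂ) * Tr q w u i = Tr q w (fun n => ((v n - E : ℝ) : ℂ) * u n) i := by
  unfold Tr
  rw [← tsum_mul_left]
  apply tsum_congr
  intro n
  split_ifs with hi
  · show ((v' i - E : ℝ) : ℂ) * (w ^ (-n) * u n) = w ^ (-n) * (((v n - E : ℝ) : ℂ) * u n)
    rw [hv n, hi]
    ring
  · rw [mul_zero]

theorem Tr_add (q : ℕ) (w : ℂ) {u u' : ℤ → ℂ} (hu : FS u) (hu' : FS u') (i : ZMod q) :
    Tr q w (fun n => u n + u' n) i = Tr q w u i + Tr q w u' i := by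
  unfold Tr
  rw [← (Tr_summable q w hu i).tsum_add (Tr_summable q w hu' i)]
  apply tsum_congr
  intro n
  split_ifs with hi
  · ring
  · rw [add_zero]

theorem Bl_Tr (q : ℕ) {w : ℂ} (hw : w ≠ 0) (v : ℤ → ℝ) (v' : ZMod q → ℝ)
    (hv : ∀ n : ℤ, v n = v' (n : ZMod q)) (E : ℝ) (u : ℤ → ℂ) (hu : FS u) (i : ZMod q) :
    Bl q v' w (Tr q w u) i - (E : ℂ) * Tr q w u i = Tr q w (Rs v E u) i := by
  have h1 : FS (fun n => u (n + 1)) := hu.shift 1
  have h2 : FS (fun n => u (n - 1)) := by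
    have := hu.shift (-1)
    simpa [sub_eq_add_neg] using this
  have h3 : FS (fun n => ((v n - E : ℝ) : ℂ) * u n) := hu.mul _
  have e1 : Tr q w (Rs v E u) i = Tr q w (fun n => u (n + 1)) i + Tr q w (fun n => u (n - 1)) i
      + Tr q w (fun n => ((v n - E : ℝ) : ℂ) * u n) i := by
    rw [← Tr_add q w h1 h2, ← Tr_add q w (h1.add h2) h3]
    rfl
  rw [e1, ← Tr_succ q hw, ← Tr_pred q hw, ← Tr_pot q w v v' hv]
  unfold Bl
  push_cast
  ring

/-- Parseval for roots of unity -/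
theorem parseval (N : ℕ) (ζ : ℂ) (hζ : ‖ζ‖ = 1) (hN : ζ ^ N = 1) (s : Finset ℤ)
    (hs : ∀ n ∈ s, ∀ m ∈ s, n ≠ m → ζ ^ (m - n) ≠ 1) (f : ℤ → ℂ) :
    ∑ j ∈ Finset.range N, ‖∑ n ∈ s, (ζ ^ j) ^ (-n) * f n‖ ^ 2 = N * ∑ n ∈ s, ‖f n‖ ^ 2 := by
  have hζ0 : ζ ≠ 0 := by
    rintro rfl
    simp at hζ
  have hconj : (starRingEnd ℂ) ζ = ζ⁻¹ := (Complex.inv_eq_conj hζ).symm
  have hsq : ∀ z : ℂ, ((‖z‖ ^ 2 : ℝ) : ℂ) = z * (starRingEnd ℂ) z := fun z => by
    rw [Complex.mul_conj, Complex.normSq_eq_norm_sq]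
  have hc : ((∑ j ∈ Finset.range N, ‖∑ n ∈ s, (ζ ^ j) ^ (-n) * f n‖ ^ 2 : ℝ) : ℂ)
      = ((N * ∑ n ∈ s, ‖f n‖ ^ 2 : ℝ) : ℂ) := by
    rw [Complex.ofReal_sum]
    simp only [hsq, map_sum, map_mul, map_zpow₀, map_pow, hconj]
    rw [Complex.ofReal_mul, Complex.ofReal_sum]
    simp only [hsq, Complex.ofReal_natCast]
    have e1 : ∀ j ∈ Finset.range N,
        (∑ n ∈ s, (ζ ^ j) ^ (-n) * f n) * (∑ m ∈ s, (ζ⁻¹ ^ j) ^ (-m) * (starRingEnd ℂ) (f m))
        = ∑ n ∈ s, ∑ m ∈ s, (ζ ^ (m - n)) ^ j * (f n * (starRingEnd ℂ) (f m)) := by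
      intro j _
      rw [Finset.sum_mul_sum]
      apply Finset.sum_congr rfl
      intro n _
      apply Finset.sum_congr rfl
      intro m _
      have : (ζ ^ j) ^ (-n) * (ζ⁻¹ ^ j) ^ (-m) = (ζ ^ (m - n)) ^ j := by
        rw [← zpow_natCast, ← zpow_natCast, ← zpow_natCast, ← zpow_mul, ← zpow_mul, ← zpow_mul,
          inv_zpow, ← zpow_neg, ← zpow_add₀ hζ0]
        congr 1
        ring
      rw [← this]
      ring
    rw [Finset.sum_congr rfl e1, Finset.sum_comm, Finset.mul_sum]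
    apply Finset.sum_congr rfl
    intro n hn
    rw [Finset.sum_comm, Finset.sum_eq_single n]
    · simp
    · intro m hm hmn
      rw [← Finset.sum_mul]
      have hne : ζ ^ (m - n) ≠ 1 := hs n hn m hm (Ne.symm hmn)
      rw [geom_sum_eq hne]
      have : (ζ ^ (m - n)) ^ N = 1 := by
        rw [← zpow_natCast, ← zpow_mul, mul_comm, zpow_mul, zpow_natCast, hN, one_zpow]
      rw [this]
      simp
    · intro h
      exact absurd hn h
  exact_mod_cast hc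

theorem Tr_nm (q : ℕ) [NeZero q] (N : ℕ) (ζ : ℂ) (hζ : ‖ζ‖ = 1) (hN : ζ ^ N = 1) (s : Finset ℤ)
    (hs : ∀ n ∈ s, ∀ m ∈ s, n ≠ m → ζ ^ (m - n) ≠ 1) (u : ℤ → ℂ) (hu : ∀ n ∉ s, u n = 0) :
    ∑ j ∈ Finset.range N, nm (Tr q (ζ ^ j) u) ^ 2 = N * nm u ^ 2 := by
  classical
  have e1 : ∀ j ∈ Finset.range N, nm (Tr q (ζ ^ j) u) ^ 2
      = ∑ i : ZMod q, ‖∑ n ∈ s, (ζ ^ j) ^ (-n) * (if (n : ZMod q) = i then u n else 0)‖ ^ 2 := by
    intro j _
    rw [nm_sq_fin]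
    apply Finset.sum_congr rfl
    intro i _
    congr 2
    unfold Tr
    rw [tsum_eq_sum (s := s)]
    · apply Finset.sum_congr rfl
      intro n _
      split_ifs
      · rfl
      · rw [mul_zero]
    · intro n hn
      rw [hu n hn, mul_zero, ite_self]
  rw [Finset.sum_congr rfl e1, Finset.sum_comm,
    Finset.sum_congr rfl (fun i _ => parseval N ζ hζ hN s hs (fun n => if (n : ZMod q) = i then u n else 0)),
    ← Finset.mul_sum, Finset.sum_comm, nm_sq_eq_sum s u hu]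
  congr 1
  apply Finset.sum_congr rfl
  intro n _
  rw [Finset.sum_eq_single (n : ZMod q)]
  · simp
  · intro i _ hi
    rw [if_neg (Ne.symm hi)]
    simp
  · intro h
    exact absurd (Finset.mem_univ _) h

theorem four_lower (q : ℕ) [NeZero q] (v : ℤ → ℝ) (v' : ZMod q → ℝ) (hv : ∀ n : ℤ, v n = v' (n : ZMod q))
    (E η : ℝ) (hη : 0 ≤ η)
    (h : ∀ w : ℂ, ‖w‖ = 1 → ∀ φ : ZMod q → ℂ, η * nm φ ≤ nm (fun i => Bl q v' w φ i - (E : ℂ) * φ i))
    (u : ℤ → ℂ) (hu : FS u) : η * nm u ≤ nm (Rs v E u) := by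
  classical
  have hR : FS (Rs v E u) := hu.Rs v E
  set s : Finset ℤ := hu.toFinset ∪ hR.toFinset with hsdef
  have h1 : ∀ n ∉ s, u n = 0 := fun n hn => by
    by_contra h0
    exact hn (Finset.mem_union_left _ (hu.mem_toFinset.2 h0))
  have h2 : ∀ n ∉ s, Rs v E u n = 0 := fun n hn => by
    by_contra h0
    exact hn (Finset.mem_union_right _ (hR.mem_toFinset.2 h0))
  -- a modulus larger than the diameter
  set D : ℕ := ∑ n ∈ s, n.natAbs with hD
  have hbd : ∀ n ∈ s, n.natAbs ≤ D := fun n hn =>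
    Finset.single_le_sum (f := fun n : ℤ => n.natAbs) (fun _ _ => Nat.zero_le _) hn
  set N : ℕ := 2 * D + 1 with hNdef
  have hN0 : N ≠ 0 := by omega
  have hprim : IsPrimitiveRoot (Complex.exp (2 * π * Complex.I / N)) N := Complex.isPrimitiveRoot_exp N hN0
  set ζ : ℂ := Complex.exp (2 * π * Complex.I / N) with hζdef
  have hζ1 : ‖ζ‖ = 1 := Complex.norm_eq_one_of_pow_eq_one hprim.pow_eq_one hN0
  have hζ0 : ζ ≠ 0 := by
    intro h0
    rw [h0] at hζ1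
    simp at hζ1
  have hs : ∀ n ∈ s, ∀ m ∈ s, n ≠ m → ζ ^ (m - n) ≠ 1 := by
    intro n hn m hm hnm heq
    rw [hprim.zpow_eq_one_iff_dvd] at heq
    have hb1 := hbd n hn
    have hb2 := hbd m hm
    have : m - n = 0 := by
      apply Int.eq_zero_of_abs_lt_dvd heq
      rw [abs_lt]
      constructor <;> omega
    omega
  have p1 := Tr_nm q N ζ hζ1 hprim.pow_eq_one s hs u h1
  have p2 := Tr_nm q N ζ hζ1 hprim.pow_eq_one s hs (Rs v E u) h2
  have hle : η ^ 2 * (N * nm u ^ 2) ≤ N * nm (Rs v E u) ^ 2 := by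
    rw [← p1, ← p2, Finset.mul_sum]
    apply Finset.sum_le_sum
    intro j _
    have hw1 : ‖ζ ^ j‖ = 1 := by rw [norm_pow, hζ1, one_pow]
    have hw0 : ζ ^ j ≠ 0 := pow_ne_zero _ hζ0
    have h3 := h (ζ ^ j) hw1 (Tr q (ζ ^ j) u)
    have e : (fun i => Bl q v' (ζ ^ j) (Tr q (ζ ^ j) u) i - (E : ℂ) * Tr q (ζ ^ j) u i)
        = Tr q (ζ ^ j) (Rs v E u) := by
      funext i
      exact Bl_Tr q hw0 v v' hv E u hu i
    rw [e] at h3
    rw [← mul_pow]
    exact pow_le_pow_left₀ (mul_nonneg hη (nm_nonneg _)) h3 2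
  have hNpos : (0 : ℝ) < N := by exact_mod_cast Nat.pos_of_ne_zero hN0
  apply le_of_sq_le_sq _ (nm_nonneg _)
  rw [mul_pow]
  have : (N : ℝ) * (η ^ 2 * nm u ^ 2) ≤ N * nm (Rs v E u) ^ 2 := by linarith [hle]
  exact le_of_mul_le_mul_left this hNpos

end AMO75
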