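import Mathlib

/-!
# [AMO75-GOODB] a polynomial with small derivative on the set `|P| ≤ 6`

Suppose `|P z - P y₀| > 2 η κ` for some `z` with `|z - E| ≤ η`. Let `ρ = min |P z - P y₀| 2 > 0` (if `ρ = 2` then `2 η κ < 2` or `≤ 2`: note `ρ ≥ 2 η κ`, and
use the strict inequality `|P'| < κ`) and let `z₁` be the point of the closed set
`{t between y₀ and z : |P t - P y₀| ≥ ρ}` nearest to `y₀`; `z₁ ≠ y₀`; between `y₀` and `z₁` (including `z₁`) `|P t - P y₀| ≤ ρ`, so `|P t| ≤ 4 + ρ ≤ 6`, `|P' t| < κ` there, and by the mean value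
theorem `ρ = |P z₁ - P y₀| < κ |z₁ - y₀| ≤ 2 η κ ≤ ρ`, a contradiction.
(All points between `y₀` and `z` are in `[E - η, E + η]`.)
-/

set_option autoImplicit false

open Real

namespace AMO75

theorem poly_flat (P : Polynomial ℝ) (E η κ y₀ : ℝ) (hη : 0 < η) (hκ0 : 0 < κ) (hκ : 2 * η * κ ≤ 2)
    (hy : |y₀ - E| ≤ η) (hy0 : |P.eval y₀| ≤ 4)
    (h : ∀ z, |z - E| ≤ η → |P.eval z| ≤ 6 → |P.derivative.eval z| < κ) (z : ℝ) (hz : |z - E| ≤ η) :
    |P.eval z - P.eval y₀| ≤ 2 * η * κ := by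
  by_contra hcon
  push Not at hcon
  set ρ : ℝ := min |P.eval z - P.eval y₀| 2 with hρdef
  have hρ : 2 * η * κ ≤ ρ := le_min hcon.le hκ
  have hpos : 0 < 2 * η * κ := by positivity
  have hρ0 : 0 < ρ := lt_of_lt_of_le hpos hρ
  have hρ2 : ρ ≤ 2 := min_le_right _ _
  have hρz : ρ ≤ |P.eval z - P.eval y₀| := min_le_left _ _
  obtain ⟨f, hf⟩ : ∃ f : ℝ → ℝ, ∀ t, f t = P.eval (y₀ + t * (z - y₀)) := ⟨_, fun _ => rfl⟩
  have hfe : f = fun t => P.eval (y₀ + t * (z - y₀)) := funext hf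
  have hf0 : f 0 = P.eval y₀ := by rw [hf]; congr 1; ring
  have hf1 : f 1 = P.eval z := by rw [hf]; congr 1; ring
  have hfd : ∀ t, HasDerivAt f (P.derivative.eval (y₀ + t * (z - y₀)) * (z - y₀)) t := by
    intro t
    have h1 : HasDerivAt (fun t : ℝ => y₀ + t * (z - y₀)) (z - y₀) t := by
      simpa using ((hasDerivAt_id t).mul_const (z - y₀)).const_add y₀
    have h2 := (P.hasDerivAt (y₀ + t * (z - y₀)))
    rw [hfe]
    exact h2.comp t h1
  have hfc : Continuous f := continuous_iff_continuousAt.2 fun t => (hfd t).continuousAt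
  have hseg : ∀ t : ℝ, 0 ≤ t → t ≤ 1 → |y₀ + t * (z - y₀) - E| ≤ η := by
    intro t ht0 ht1
    rw [abs_le] at hy hz ⊢
    constructor
    · nlinarith [mul_nonneg ht0 (by linarith [hz.1] : (0 : ℝ) ≤ z - E + η),
        mul_nonneg (by linarith : (0 : ℝ) ≤ 1 - t) (by linarith [hy.1] : (0 : ℝ) ≤ y₀ - E + η)]
    · nlinarith [mul_nonneg ht0 (by linarith [hz.2] : (0 : ℝ) ≤ η - (z - E)),
        mul_nonneg (by linarith : (0 : ℝ) ≤ 1 - t) (by linarith [hy.2] : (0 : ℝ) ≤ η - (y₀ - E))]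
  have hSc : IsCompact (Set.Icc (0 : ℝ) 1 ∩ {t | ρ ≤ |f t - f 0|}) :=
    isCompact_Icc.inter_right (isClosed_le continuous_const (hfc.sub continuous_const).abs)
  have h1S : (1 : ℝ) ∈ Set.Icc (0 : ℝ) 1 ∩ {t | ρ ≤ |f t - f 0|} := by
    refine ⟨⟨zero_le_one, le_rfl⟩, ?_⟩
    simp only [Set.mem_ofPred_eq]
    rw [hf0, hf1]
    exact hρz
  obtain ⟨s, hs⟩ : ∃ s : ℝ, s = sInf (Set.Icc (0 : ℝ) 1 ∩ {t | ρ ≤ |f t - f 0|}) := ⟨_, rfl⟩
  have hsm := hSc.sInf_mem ⟨1, h1S⟩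
  rw [← hs] at hsm
  obtain ⟨⟨hs0, hs1⟩, hsρ⟩ := hsm
  simp only [Set.mem_ofPred_eq] at hsρ
  have hspos : 0 < s := by
    rcases hs0.lt_or_eq with h0 | h0
    · exact h0
    · exfalso
      rw [← h0] at hsρ
      simp at hsρ
      linarith
  have hbelow : ∀ t : ℝ, 0 ≤ t → t < s → |f t - f 0| < ρ := by
    intro t ht0 hts
    by_contra hc
    push Not at hc
    have hm : t ∈ Set.Icc (0 : ℝ) 1 ∩ {t | ρ ≤ |f t - f 0|} := ⟨⟨ht0, by linarith⟩, hc⟩
    have := csInf_le hSc.bddBelow hm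
    rw [← hs] at this
    linarith
  obtain ⟨c, hc, hce⟩ := exists_hasDerivAt_eq_slope f
    (fun t => P.derivative.eval (y₀ + t * (z - y₀)) * (z - y₀)) hspos hfc.continuousOn
    (fun t _ => hfd t)
  have hc6 : |P.eval (y₀ + c * (z - y₀))| ≤ 6 := by
    have h1 := hbelow c hc.1.le hc.2
    rw [hf0, hf c] at h1
    have h2 := abs_sub_abs_le_abs_sub (P.eval (y₀ + c * (z - y₀))) (P.eval y₀)
    linarith
  have hder := h _ (hseg c hc.1.le (by linarith [hc.2])) hc6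
  have hsl : f s - f 0 = P.derivative.eval (y₀ + c * (z - y₀)) * (z - y₀) * s := by
    rw [hce, sub_zero, div_mul_cancel₀ _ hspos.ne']
  have hzy : |z - y₀| ≤ 2 * η := by
    rw [abs_le] at hy hz ⊢
    constructor <;> linarith [hy.1, hy.2, hz.1, hz.2]
  have hbound : |f s - f 0| < ρ := by
    rw [hsl, abs_mul, abs_mul, abs_of_pos hspos]
    rcases (abs_nonneg (z - y₀)).lt_or_eq with h0 | h0
    · calc |P.derivative.eval (y₀ + c * (z - y₀))| * |z - y₀| * s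
          < κ * |z - y₀| * s := by
            apply mul_lt_mul_of_pos_right _ hspos
            exact mul_lt_mul_of_pos_right hder h0
        _ ≤ κ * (2 * η) * 1 := by
            apply mul_le_mul _ hs1 hs0 (by positivity)
            exact mul_le_mul_of_nonneg_left hzy hκ0.le
        _ = 2 * η * κ := by ring
        _ ≤ ρ := hρ
    · rw [← h0]
      simpa using hρ0
  linarith

end AMO75
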