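import Pool.Agent.AMO75.GoodA
import Pool.Agent.AMO75.GoodB

/-!
# [AMO75-GOOD] energies are bad (few short intervals), near to a saddle, or good

Proof. Let `E ∈ Sp (lin (p/q+d) 0)`, `κ = 1 / (16 e)`, `η = e²`.
Step 0: `near_spec`: there is `y₀` with `|y₀ - E| < η` and `|P y₀| ≤ 4`.
Suppose the first alternative fails: for all `z` with `|z - E| ≤ η` and `|P z| ≤ 6`: `|P' z| < κ`.
Step 1: `poly_flat`: for all `z` with `|z - E| ≤ η`: `|P z - P y₀| ≤ 2 η κ = e / 8`. So `|P z - P E| ≤ e / 4` for `|z - E| ≤ η`.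
Step 2: suppose `|P E| ≥ e`. If `P E ≥ e` take `σ = 1/2`. Let `|x - (k + 1/2) / q| ≤ √e / (4 π q)` and suppose `nm (Rs (lin (p/q) x) E u) < η nm u`. By `Chm.near`
there are `y`, `θ`, `|y - E| < η`, `P y = 2 cos (2 π q x) + 2 cos θ`. `2 π q x = 2 π k + π + s`, `|s| ≤ √e / 2`, `cos (2 π q x) = - cos s ≤ -1 + s²/2 ≤ -1 + e / 8`
(`Real.one_sub_sq_div_two_le_cos`), so `P y ≤ e / 4`, but `P y ≥ P E - e / 4 ≥ 3 e / 4`. Contradiction.
If `P E ≤ -e` take `σ = 0`: `2 π q x = 2 π k + s`, `cos ≥ 1 - e / 8`, `P y ≥ - e / 4`, but `P y ≤ - 3 e / 4`.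
-/

set_option autoImplicit false

open Real

namespace AMO75

/-- the angle is near to an integer multiple of `2 π` (plus `2 π σ`) -/
theorem angle_small {q : ℕ} (hq : 0 < q) {e σ x : ℝ} {k : ℤ} (he : 0 < e)
    (hx : |x - (k + σ) / q| ≤ Real.sqrt e / (4 * π * q)) :
    (2 * π * (q * x) - 2 * π * k - 2 * π * σ) ^ 2 ≤ e / 4 := by
  have hq' : (0 : ℝ) < q := by exact_mod_cast hq
  have hpi := Real.pi_pos
  have h1 : 2 * π * (q * x) - 2 * π * k - 2 * π * σ = 2 * π * q * (x - (k + σ) / q) := by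
    field_simp
    ring
  have h2 : |2 * π * (q * x) - 2 * π * k - 2 * π * σ| ≤ Real.sqrt e / 2 := by
    rw [h1, abs_mul, abs_of_pos (by positivity)]
    have h3 := mul_le_mul_of_nonneg_left hx (by positivity : (0 : ℝ) ≤ 2 * π * q)
    refine h3.trans (le_of_eq ?_)
    field_simp
    ring
  rw [← sq_abs]
  have h3 := pow_le_pow_left₀ (abs_nonneg _) h2 2
  refine h3.trans (le_of_eq ?_)
  rw [div_pow, Real.sq_sqrt he.le]
  norm_num

theorem good (p : ℤ) (q : ℕ) (hq : 0 < q) (P : Polynomial ℝ) (hP : Chm p q P) (e d E : ℝ) (he : 0 < e) (he1 : e ≤ 1)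
    (hd0 : 0 ≤ d) (hd : d ≤ (e ^ 2) ^ 2 / 10000) (hE : E ∈ Sp (lin ((p : ℝ) / q + d) 0)) :
    (∃ z, |z - E| ≤ e ^ 2 ∧ |P.eval z| ≤ 6 ∧ 1 / (16 * e) ≤ |P.derivative.eval z|) ∨ |P.eval E| < e ∨
      ∃ σ : ℝ, (σ = 0 ∨ σ = 1 / 2) ∧ HB p q σ (Real.sqrt e / (4 * π * q)) (e ^ 2) E := by
  have hη : 0 < e ^ 2 := by positivity
  have hη1 : e ^ 2 ≤ 1 := by nlinarith
  obtain ⟨y₀, hy1, hy2⟩ := near_spec p q P hP (e ^ 2) d E hη hη1 hd0 hd hE
  by_cases hA : ∃ z, |z - E| ≤ e ^ 2 ∧ |P.eval z| ≤ 6 ∧ 1 / (16 * e) ≤ |P.derivative.eval z|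
  · exact Or.inl hA
  refine Or.inr ?_
  push Not at hA
  have hκ0 : 0 < 1 / (16 * e) := by positivity
  have hκe : 2 * e ^ 2 * (1 / (16 * e)) = e / 8 := by
    field_simp
    ring
  have hflat : ∀ z, |z - E| ≤ e ^ 2 → |P.eval z - P.eval y₀| ≤ e / 8 := by
    intro z hz
    have := poly_flat P E (e ^ 2) (1 / (16 * e)) y₀ hη hκ0 (by rw [hκe]; linarith) hy1.le hy2 hA z hz
    rwa [hκe] at this
  have hE0 := hflat E (by rw [sub_self, abs_zero]; exact hη.le)
  have hflat2 : ∀ z, |z - E| < e ^ 2 → |P.eval z - P.eval E| ≤ e / 4 := by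
    intro z hz
    have h1 := abs_le.1 (hflat z hz.le)
    have h2 := abs_le.1 hE0
    rw [abs_le]
    constructor
    · linarith [h1.1, h2.2]
    · linarith [h1.2, h2.1]
  by_cases hPE : |P.eval E| < e
  · exact Or.inl hPE
  refine Or.inr ?_
  rw [not_lt, le_abs] at hPE
  rcases hPE with hPE | hPE
  · refine ⟨1 / 2, Or.inr rfl, fun k x hx u hu => ?_⟩
    by_contra hcon
    rw [not_le] at hcon
    obtain ⟨y, θ, h1, h2⟩ := hP.near x E (e ^ 2) u hu hcon
    have h3 := angle_small hq he hx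
    set s : ℝ := 2 * π * (q * x) - 2 * π * k - 2 * π * (1 / 2) with hs
    have h4 : Real.cos (2 * π * (q * x)) = - Real.cos s := by
      have : 2 * π * (q * x) = s + π + k * (2 * π) := by
        rw [hs]; ring
      rw [this, Real.cos_add_int_mul_two_pi, Real.cos_add_pi]
    have h5 := Real.one_sub_sq_div_two_le_cos (x := s)
    have h6 := Real.cos_le_one θ
    have h7 := (abs_le.1 (hflat2 y h1)).1
    rw [h2, h4] at h7
    linarith
  · refine ⟨0, Or.inl rfl, fun k x hx u hu => ?_⟩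
    by_contra hcon
    rw [not_le] at hcon
    obtain ⟨y, θ, h1, h2⟩ := hP.near x E (e ^ 2) u hu hcon
    have h3 := angle_small hq he hx
    set s : ℝ := 2 * π * (q * x) - 2 * π * k - 2 * π * 0 with hs
    have h4 : Real.cos (2 * π * (q * x)) = Real.cos s := by
      have : 2 * π * (q * x) = s + k * (2 * π) := by
        rw [hs]; ring
      rw [this, Real.cos_add_int_mul_two_pi]
    have h5 := Real.one_sub_sq_div_two_le_cos (x := s)
    have h6 := Real.neg_one_le_cos θ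
    have h7 := (abs_le.1 (hflat2 y h1)).2
    rw [h2, h4] at h7
    linarith

end AMO75
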