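import Pool.Agent.AMO75.Barrier

/-!
# [AMO75-GOODA] energies of the spectrum are near to the spectrum of the frozen operators

There is `y₀` with `|y₀ - E| < η` and `|P y₀| ≤ 4`. Otherwise for every `x` and every finitely supported `u`:
`η nm u ≤ nm (Rs (lin (p/q) x) E u)` (by `Chm.near`, as `|2 cos + 2 cos| ≤ 4`), and `barrier` with the phases `x n = n d` (`lin_eq_vp`) on an interval containing the
support gives `η / 2 nm u ≤ nm (Rs (lin (p/q+d) 0) E u)` for all finitely supported `u`, contradicting `E ∈ Sp` (with `ε = η / 2`).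
(`FS u`: the support is finite, so contained in an interval `[a, b]`.)
-/

set_option autoImplicit false

open Real

namespace AMO75

theorem near_spec (p : ℤ) (q : ℕ) (P : Polynomial ℝ) (hP : Chm p q P) (η d E : ℝ) (hη : 0 < η) (hη1 : η ≤ 1)
    (hd0 : 0 ≤ d) (hd : d ≤ η ^ 2 / 10000) (hE : E ∈ Sp (lin ((p : ℝ) / q + d) 0)) :
    ∃ y₀, |y₀ - E| < η ∧ |P.eval y₀| ≤ 4 := by
  by_contra hcon
  push Not at hcon
  have hfr : ∀ x : ℝ, ∀ u : ℤ → ℂ, FS u → η * nm u ≤ nm (Rs (lin ((p : ℝ) / q) x) E u) := by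
    intro x u hu
    by_contra hlt
    rw [not_le] at hlt
    obtain ⟨y, θ, hy, hPy⟩ := hP.near x E η u hu hlt
    have h1 := hcon y hy
    have h2 := abs_le.1 (Real.abs_cos_le_one (2 * π * (q * x)))
    have h3 := abs_le.1 (Real.abs_cos_le_one θ)
    have h4 : |P.eval y| ≤ 4 := by
      rw [hPy, abs_le]
      constructor <;> linarith [h2.1, h2.2, h3.1, h3.2]
    linarith
  obtain ⟨u, hu, -, hlt⟩ := hE (η / 2) (by linarith)
  obtain ⟨a, ha⟩ := hu.bddBelow
  obtain ⟨b, hb⟩ := hu.bddAbove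
  have hb1 := barrier p q (fun n => (0 : ℝ) + n * d) a b d η E hη hη1 hd0 hd (by
    intro n _ _
    have h1 : (0 : ℝ) + ((n + 1 : ℤ) : ℝ) * d - (0 + (n : ℝ) * d) = d := by push_cast; ring
    rw [h1, abs_of_nonneg hd0]) (fun n _ _ u hu => hfr _ u hu) u
    (fun n hn => ⟨ha (Function.mem_support.2 hn), hb (Function.mem_support.2 hn)⟩)
  rw [← lin_eq_vp] at hb1
  linarith

end AMO75
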