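import Pool.Agent.AMO75.Window

/-!
# [AMO75-LOCVEC] localized unit vectors for a rational frequency

Here `a / b = p / q + d'`. Let `τ = 5 (1/2)^K`. `window` (with `u` from `hy : y ∈ Sp ..` for `ε = η * (1/2)^K / 20`) gives `k`, `u' ≠ 0` with support in
`{n : (k-1+σ)/q < ω + n d' ≤ (k+σ)/q}` and `nm (Rs (lin (a/b) ω) y u') ≤ τ nm u'`. The support is contained in `[n₀, n₀ + 1/(q d'))` where `n₀` is the smallest
integer with `(k-1+σ)/q < ω + n₀ d'`. The potential `lin (a/b) ω` is `b`-periodic (`cos` argument changes by `2 π a`), so after a translation by a multiple of `b`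
(`n₀ = b t + r`, `0 ≤ r < b`; `nm_Rs_shift`, `nm_shift` with `k = b t`) the support is contained in `[0, b + 1/(q d'))`. Normalize `nm u' = 1` (`nm_smul`, `Rs_smul`).
-/

set_option autoImplicit false

open Real

namespace AMO75

theorem loc_vec (p : ℤ) (q : ℕ) (hq : 0 < q) (σ w η d' : ℝ) (hη : 0 < η) (hη1 : η ≤ 1) (hd0 : 0 < d')
    (hd : d' ≤ η ^ 2 / 10000) (hw : w ≤ 1 / (4 * q)) (l : ℕ) (hl : 16 / η ≤ l) (K : ℕ)
    (hK : (K * l + 2) * d' ≤ w) (a : ℤ) (b : ℕ) (hb : 0 < b) (hab : (a : ℝ) / b = (p : ℝ) / q + d')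
    (ω y : ℝ) (hB : HB p q σ w η y) (hy : y ∈ Sp (lin ((a : ℝ) / b) ω)) (D : ℕ) (hD : b + 1 / (q * d') + 1 ≤ D) :
    ∃ u : ℤ → ℂ, nm u = 1 ∧ (∀ n, u n ≠ 0 → 0 ≤ n ∧ n < D) ∧
      nm (Rs (lin ((a : ℝ) / b) ω) y u) ≤ 5 * (1 / 2) ^ K := by
  have hq' : (0 : ℝ) < q := by exact_mod_cast hq
  have hb' : (0 : ℝ) < b := by exact_mod_cast hb
  have hε0 : 0 < η * (1 / 2) ^ K / 20 := by positivity
  obtain ⟨u0, hu0, hu0n, hlt⟩ := hy _ hε0
  have hlt' : nm (Rs (lin ((p : ℝ) / q + d') ω) y u0) ≤ η * (1 / 2) ^ K / 20 * nm u0 := by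
    rw [← hab]
    exact hlt.le
  obtain ⟨k, u', hu'0, hsupp, hres⟩ := window p q hq σ w η y d' ω hη hη1 hd0 hd hw hB l hl K hK u0
    hu0 hu0n _ hlt' le_rfl
  rw [← hab] at hres
  -- the first point
  set n0 : ℤ := ⌊((k - 1 + σ) / q - ω) / d'⌋ + 1 with hn0
  have h1 : ∀ n, u' n ≠ 0 → n0 ≤ n := by
    intro n hn
    have h := (hsupp n hn).1
    have h2 : ((k - 1 + σ) / q - ω) / d' < n := by
      rw [div_lt_iff₀ hd0]
      linarith
    have h3 : ⌊((k - 1 + σ) / q - ω) / d'⌋ < n := Int.floor_lt.2 h2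
    omega
  have h2 : (k - 1 + σ) / q < ω + n0 * d' := by
    have h := Int.lt_floor_add_one (((k - 1 + σ) / q - ω) / d')
    rw [div_lt_iff₀ hd0] at h
    rw [hn0]
    push_cast
    linarith
  have h3 : ∀ n, u' n ≠ 0 → (n : ℝ) - n0 < 1 / (q * d') := by
    intro n hn
    have h := (hsupp n hn).2
    have h4 : ((n : ℝ) - n0) * d' < 1 / q := by
      have h5 : (k + σ) / q - (k - 1 + σ) / q = 1 / q := by ring
      rw [← h5]
      linarith
    have h6 : (1 : ℝ) / (q * d') = 1 / q / d' := by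
      field_simp
    rw [h6, lt_div_iff₀ hd0]
    exact h4
  -- the translation
  set t : ℤ := n0 / b with ht
  have hmod := Int.emod_add_mul_ediv n0 b
  have hm0 : 0 ≤ n0 % b := Int.emod_nonneg _ (by omega)
  have hm1 : n0 % b < b := Int.emod_lt_of_pos _ (by omega)
  have hFS : FS u' := by
    refine FS_of_Icc n0 (n0 + ⌈1 / (q * d')⌉) fun n hn => ⟨h1 n hn, ?_⟩
    have h := h3 n hn
    have h4 := Int.le_ceil (1 / (q * d'))
    have h5 : ((n - n0 : ℤ) : ℝ) < ((⌈1 / (q * d')⌉ : ℤ) : ℝ) := by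
      push_cast
      linarith
    have h6 : n - n0 < ⌈1 / (q * d')⌉ := by exact_mod_cast h5
    omega
  have hnm : 0 < nm u' := nm_pos hFS hu'0
  have hperiod : (fun n => lin ((a : ℝ) / b) ω (n + b * t)) = lin ((a : ℝ) / b) ω := by
    funext n
    simp only [lin]
    have h : 2 * π * (((n + b * t : ℤ) : ℝ) * ((a : ℝ) / b) + ω) =
        2 * π * (n * ((a : ℝ) / b) + ω) + ((t * a : ℤ) : ℝ) * (2 * π) := by
      push_cast
      field_simp
      ring
    rw [h, Real.cos_add_int_mul_two_pi]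
  have hres2 : nm (Rs (lin ((a : ℝ) / b) ω) y fun n => u' (n + b * t)) =
      nm (Rs (lin ((a : ℝ) / b) ω) y u') := by
    conv_lhs => rw [← hperiod]
    exact nm_Rs_shift _ _ _ _
  refine ⟨fun n => (((nm u')⁻¹ : ℝ) : ℂ) * u' (n + b * t), ?_, fun n hn => ?_, ?_⟩
  · rw [nm_smul, nm_shift, Complex.norm_real, Real.norm_eq_abs, abs_of_pos (inv_pos.2 hnm),
      inv_mul_cancel₀ hnm.ne']
  · have hn' : u' (n + b * t) ≠ 0 := fun h0 => hn (by simp only [h0, mul_zero])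
    have h4 := h1 _ hn'
    have h5 := h3 _ hn'
    constructor
    · rw [ht] at h4
      linarith
    · have h6 : ((n0 % b : ℤ) : ℝ) < b := by exact_mod_cast hm1
      have h7 : (n : ℝ) < D := by
        have h8 : ((n0 % b + b * (n0 / b) : ℤ) : ℝ) = n0 := by exact_mod_cast hmod
        push_cast at h5 h8
        rw [← ht] at h8
        linarith
      exact_mod_cast h7
  · rw [Rs_smul, nm_smul, hres2, Complex.norm_real, Real.norm_eq_abs, abs_of_pos (inv_pos.2 hnm)]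
    have h4 := mul_le_mul_of_nonneg_left hres (inv_pos.2 hnm).le
    refine h4.trans (le_of_eq ?_)
    field_simp

end AMO75
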