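import Pool.Agent.AMO75.Defs

/-!
# [AMO75-NRM] basic lemmas on `nm`, `FS`, `Rs` (proved)
-/

set_option autoImplicit false

open Real

namespace AMO75

variable {ι : Type}

theorem FS.sum_ok {u : ι → ℂ} (h : FS u) : Summable fun n => ‖u n‖ ^ 2 := by
  apply summable_of_hasFiniteSupport
  refine h.subset ?_
  intro n hn
  rw [Function.mem_support] at hn ⊢
  intro h0
  apply hn
  simp [h0]

theorem FS.of_le {u v : ι → ℂ} (h : FS v) (hle : ∀ n, v n = 0 → u n = 0) : FS u :=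
  h.subset fun n hn => by
    rw [Function.mem_support] at hn ⊢
    exact fun h0 => hn (hle n h0)

theorem FS.add {u v : ι → ℂ} (h : FS u) (h' : FS v) : FS (fun n => u n + v n) :=
  (h.union h').subset fun n hn => by
    rw [Function.mem_support] at hn
    by_contra hcon
    rw [Set.mem_union, not_or, Function.mem_support, Function.mem_support, not_not, not_not] at hcon
    apply hn
    rw [hcon.1, hcon.2, add_zero]

theorem FS.mul {u : ι → ℂ} (h : FS u) (c : ι → ℂ) : FS (fun n => c n * u n) :=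
  h.of_le fun n hn => by simp only [hn, mul_zero]

theorem FS.shift {u : ℤ → ℂ} (h : FS u) (k : ℤ) : FS (fun n => u (n + k)) := by
  have : (Function.support fun n => u (n + k)) = (fun n => n + k) ⁻¹' Function.support u := rfl
  unfold FS
  rw [this]
  exact h.preimage (fun a _ b _ hab => by simpa using hab)

theorem FS.Rs {u : ℤ → ℂ} (h : FS u) (v : ℤ → ℝ) (E : ℝ) : FS (Rs v E u) := by
  have h1 : FS (fun n => u (n - 1)) := by
    have := h.shift (-1)
    simpa [sub_eq_add_neg] using this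
  exact ((h.shift 1).add h1).add (h.mul _)

theorem FS_of_Icc {u : ℤ → ℂ} (a b : ℤ) (h : ∀ n, u n ≠ 0 → a ≤ n ∧ n ≤ b) : FS u :=
  (Set.finite_Icc a b).subset fun n hn => Set.mem_Icc.2 (h n hn)

theorem FS_on (a b : ℤ) (u : ℤ → ℂ) : FS (on a b u) :=
  FS_of_Icc a b fun n hn => by
    by_contra hcon
    apply hn
    unfold on
    rw [if_neg hcon]

theorem FS_zero : FS (fun _ : ι => (0 : ℂ)) := by
  unfold FS
  simp

theorem FS_fin [Finite ι] (u : ι → ℂ) : FS u := Set.toFinite _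

theorem nm_nonneg (u : ι → ℂ) : 0 ≤ nm u := Real.sqrt_nonneg _

theorem nm_sq (u : ι → ℂ) : nm u ^ 2 = ∑' n, ‖u n‖ ^ 2 :=
  Real.sq_sqrt (tsum_nonneg fun _ => by positivity)

/-- `nm` as a finite sum -/
theorem nm_sq_eq_sum (s : Finset ι) (u : ι → ℂ) (h : ∀ n ∉ s, u n = 0) : nm u ^ 2 = ∑ n ∈ s, ‖u n‖ ^ 2 := by
  rw [nm_sq]
  exact tsum_eq_sum fun n hn => by rw [h n hn]; simp

theorem nm_sq_fin [Fintype ι] (u : ι → ℂ) : nm u ^ 2 = ∑ n, ‖u n‖ ^ 2 := by
  rw [nm_sq, tsum_fintype]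

theorem nm_mono {u v : ι → ℂ} (hv : FS v) (h : ∀ n, ‖u n‖ ≤ ‖v n‖) : nm u ≤ nm v := by
  have hu : FS u := hv.of_le fun n hn => by
    have := h n
    rw [hn, norm_zero] at this
    exact norm_le_zero_iff.1 this
  apply Real.sqrt_le_sqrt
  exact hu.sum_ok.tsum_le_tsum (fun n => pow_le_pow_left₀ (norm_nonneg _) (h n) 2) hv.sum_ok

theorem nm_congr {u v : ι → ℂ} (h : ∀ n, ‖u n‖ = ‖v n‖) : nm u = nm v := by
  unfold nm
  simp only [h]

theorem nm_le_of_sq_le {u : ι → ℂ} {c : ℝ} (hc : 0 ≤ c) (h : nm u ^ 2 ≤ c ^ 2) : nm u ≤ c :=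
  le_of_sq_le_sq h hc

theorem nm_add_le {u v : ι → ℂ} (hu : FS u) (hv : FS v) : nm (fun n => u n + v n) ≤ nm u + nm v := by
  classical
  set s : Finset ι := hu.toFinset ∪ hv.toFinset with hs
  have h1 : ∀ n ∉ s, u n = 0 := fun n hn => by
    by_contra h0
    exact hn (Finset.mem_union_left _ (hu.mem_toFinset.2 h0))
  have h2 : ∀ n ∉ s, v n = 0 := fun n hn => by
    by_contra h0
    exact hn (Finset.mem_union_right _ (hv.mem_toFinset.2 h0))
  have key : ∀ w : ι → ℂ, (∀ n ∉ s, w n = 0) →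
      nm w = ‖(WithLp.toLp 2 (fun n : s => w n) : EuclideanSpace ℂ s)‖ := by
    intro w hw
    rw [EuclideanSpace.norm_eq]
    have h3 := nm_sq_eq_sum s w hw
    rw [← Real.sqrt_sq (nm_nonneg w), h3, ← Finset.sum_coe_sort s]
  rw [key u h1, key v h2, key _ (fun n hn => by rw [h1 n hn, h2 n hn, add_zero])]
  exact norm_add_le (WithLp.toLp 2 (fun n : s => u n) : EuclideanSpace ℂ s)
    (WithLp.toLp 2 (fun n : s => v n) : EuclideanSpace ℂ s)

theorem nm_smul (c : ℂ) (u : ι → ℂ) : nm (fun n => c * u n) = ‖c‖ * nm u := by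
  unfold nm
  have : (fun n => ‖c * u n‖ ^ 2) = fun n => ‖c‖ ^ 2 * ‖u n‖ ^ 2 := by
    funext n
    rw [norm_mul, mul_pow]
  rw [this, tsum_mul_left, Real.sqrt_mul (by positivity), Real.sqrt_sq (norm_nonneg c)]

theorem nm_neg (u : ι → ℂ) : nm (fun n => - u n) = nm u := nm_congr fun n => norm_neg _

theorem nm_sub_le {u v : ι → ℂ} (hu : FS u) (hv : FS v) : nm (fun n => u n - v n) ≤ nm u + nm v := by
  have h : FS (fun n => - v n) := hv.of_le fun n hn => by rw [hn, neg_zero]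
  have := nm_add_le hu h
  rw [nm_neg] at this
  simpa [sub_eq_add_neg] using this

theorem nm_zero : nm (fun _ : ι => (0 : ℂ)) = 0 := by
  unfold nm
  simp

theorem norm_le_nm {u : ι → ℂ} (hu : FS u) (n : ι) : ‖u n‖ ≤ nm u := by
  apply le_of_sq_le_sq _ (nm_nonneg u)
  rw [nm_sq]
  exact hu.sum_ok.le_tsum n fun _ _ => by positivity

theorem nm_eq_zero {u : ι → ℂ} (hu : FS u) : nm u = 0 ↔ u = 0 := by
  constructor
  · intro h
    funext n
    have := norm_le_nm hu n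
    rw [h] at this
    exact norm_le_zero_iff.1 this
  · rintro rfl
    exact nm_zero

theorem nm_pos {u : ι → ℂ} (hu : FS u) (h : u ≠ 0) : 0 < nm u :=
  lt_of_le_of_ne (nm_nonneg u) fun h0 => h ((nm_eq_zero hu).1 h0.symm)

theorem nm_mul_le {u : ι → ℂ} (hu : FS u) {c : ι → ℂ} {C : ℝ} (h : ∀ n, u n ≠ 0 → ‖c n‖ ≤ C) (hC : 0 ≤ C) :
    nm (fun n => c n * u n) ≤ C * nm u := by
  have h1 : nm (fun n => (C : ℂ) * u n) = C * nm u := by
    rw [nm_smul, Complex.norm_real, Real.norm_eq_abs, abs_of_nonneg hC]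
  rw [← h1]
  apply nm_mono (hu.mul _)
  intro n
  by_cases h0 : u n = 0
  · simp [h0]
  · rw [norm_mul, norm_mul, Complex.norm_real, Real.norm_eq_abs, abs_of_nonneg hC]
    exact mul_le_mul_of_nonneg_right (h n h0) (norm_nonneg _)

theorem nm_shift (u : ℤ → ℂ) (k : ℤ) : nm (fun n => u (n + k)) = nm u := by
  unfold nm
  congr 1
  exact (Equiv.addRight k).tsum_eq (fun n => ‖u n‖ ^ 2)

/-! ### the residual -/

theorem Rs_add (v : ℤ → ℝ) (E : ℝ) (u w : ℤ → ℂ) :
    Rs v E (fun n => u n + w n) = fun n => Rs v E u n + Rs v E w n := by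
  funext n
  simp only [Rs]
  ring

theorem Rs_smul (v : ℤ → ℝ) (E : ℝ) (c : ℂ) (u : ℤ → ℂ) :
    Rs v E (fun n => c * u n) = fun n => c * Rs v E u n := by
  funext n
  simp only [Rs]
  ring

theorem Rs_shift (v : ℤ → ℝ) (E : ℝ) (u : ℤ → ℂ) (k : ℤ) :
    Rs (fun n => v (n + k)) E (fun n => u (n + k)) = fun n => Rs v E u (n + k) := by
  funext n
  simp only [Rs]
  rw [show n + 1 + k = n + k + 1 by ring, show n - 1 + k = n + k - 1 by ring]

theorem nm_Rs_shift (v : ℤ → ℝ) (E : ℝ) (u : ℤ → ℂ) (k : ℤ) :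
    nm (Rs (fun n => v (n + k)) E (fun n => u (n + k))) = nm (Rs v E u) := by
  rw [Rs_shift, nm_shift]

/-- change of the energy -/
theorem nm_Rs_energy (v : ℤ → ℝ) (E E' : ℝ) {u : ℤ → ℂ} (hu : FS u) :
    nm (Rs v E u) ≤ nm (Rs v E' u) + |E - E'| * nm u := by
  have h : Rs v E u = fun n => Rs v E' u n + ((E' - E : ℝ) : ℂ) * u n := by
    funext n
    simp only [Rs]
    push_cast
    ring
  rw [h]
  refine (nm_add_le (hu.Rs v E') (hu.mul _)).trans ?_
  rw [nm_smul, Complex.norm_real, Real.norm_eq_abs, abs_sub_comm]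

/-- change of the potential (only on the support) -/
theorem nm_Rs_pot (v v' : ℤ → ℝ) (E : ℝ) {u : ℤ → ℂ} (hu : FS u) {ε : ℝ} (hε : 0 ≤ ε)
    (h : ∀ n, u n ≠ 0 → |v n - v' n| ≤ ε) : nm (Rs v E u) ≤ nm (Rs v' E u) + ε * nm u := by
  have h1 : Rs v E u = fun n => Rs v' E u n + ((v n - v' n : ℝ) : ℂ) * u n := by
    funext n
    simp only [Rs]
    push_cast
    ring
  rw [h1]
  refine (nm_add_le (hu.Rs v' E) (hu.mul _)).trans ?_
  gcongr
  refine nm_mul_le hu (fun n hn => ?_) hε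
  rw [Complex.norm_real, Real.norm_eq_abs]
  exact h n hn

/-- if the potentials agree on the support, the residuals agree -/
theorem Rs_congr {v v' : ℤ → ℝ} (E : ℝ) {u : ℤ → ℂ} (h : ∀ n, u n ≠ 0 → v n = v' n) : Rs v E u = Rs v' E u := by
  funext n
  simp only [Rs]
  by_cases h0 : u n = 0
  · simp [h0]
  · rw [h n h0]

/-- product rule: `(H - E) (θ u) = θ (H - E) u + commutator` -/
theorem Rs_mul (v : ℤ → ℝ) (E : ℝ) (θ : ℤ → ℝ) (u : ℤ → ℂ) (n : ℤ) :
    Rs v E (fun n => (θ n : ℂ) * u n) n = (θ n : ℂ) * Rs v E u n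
      + ((θ (n + 1) - θ n : ℝ) : ℂ) * u (n + 1) + ((θ (n - 1) - θ n : ℝ) : ℂ) * u (n - 1) := by
  simp only [Rs]
  push_cast
  ring

/-- symmetry of the operator -/
theorem Rs_symm (v : ℤ → ℝ) (E : ℝ) {u w : ℤ → ℂ} (hw : FS w) :
    ∑' n, (starRingEnd ℂ) (Rs v E u n) * w n = ∑' n, (starRingEnd ℂ) (u n) * Rs v E w n := by
  have hsum : ∀ {f g : ℤ → ℂ}, FS g → Summable fun n => (starRingEnd ℂ) (f n) * g n := by
    intro f g hg
    apply summable_of_hasFiniteSupport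
    refine hg.subset ?_
    intro n hn
    rw [Function.mem_support] at hn ⊢
    intro h0
    apply hn
    simp [h0]
  have hw1 : FS (fun n => w (n - 1)) := by
    have := hw.shift (-1)
    simpa [sub_eq_add_neg] using this
  have e1 : ∑' n, (starRingEnd ℂ) (u (n + 1)) * w n = ∑' n, (starRingEnd ℂ) (u n) * w (n - 1) := by
    rw [← (Equiv.addRight (1 : ℤ)).tsum_eq (fun n => (starRingEnd ℂ) (u n) * w (n - 1))]
    simp
  have e2 : ∑' n, (starRingEnd ℂ) (u (n - 1)) * w n = ∑' n, (starRingEnd ℂ) (u n) * w (n + 1) := by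
    rw [← (Equiv.addRight (-1 : ℤ)).tsum_eq (fun n => (starRingEnd ℂ) (u n) * w (n + 1))]
    simp [sub_eq_add_neg]
  have l : ∀ n, (starRingEnd ℂ) (Rs v E u n) * w n = ((starRingEnd ℂ) (u (n + 1)) * w n
      + (starRingEnd ℂ) (u (n - 1)) * w n) + (starRingEnd ℂ) (u n) * (((v n - E : ℝ) : ℂ) * w n) := by
    intro n
    simp only [Rs, map_add, map_mul, Complex.conj_ofReal]
    ring
  have r : ∀ n, (starRingEnd ℂ) (u n) * Rs v E w n = ((starRingEnd ℂ) (u n) * w (n - 1)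
      + (starRingEnd ℂ) (u n) * w (n + 1)) + (starRingEnd ℂ) (u n) * (((v n - E : ℝ) : ℂ) * w n) := by
    intro n
    simp only [Rs]
    ring
  simp only [l, r]
  rw [((hsum hw).add (hsum hw)).tsum_add (hsum (hw.mul _)), (hsum hw).tsum_add (hsum hw),
    ((hsum hw1).add (hsum (hw.shift 1))).tsum_add (hsum (hw.mul _)), (hsum hw1).tsum_add (hsum (hw.shift 1)),
    e1, e2]

theorem lin_eq_vp (p : ℤ) (q : ℕ) (d ω : ℝ) :
    lin ((p : ℝ) / q + d) ω = vp p q (fun n => ω + n * d) := by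
  funext n
  simp only [lin, vp]
  congr 2
  ring

/-- potentials with nearby phases are near -/
theorem vp_sub_le (p : ℤ) (q : ℕ) (x y : ℤ → ℝ) (n : ℤ) :
    |vp p q x n - vp p q y n| ≤ 4 * π * |x n - y n| := by
  simp only [vp]
  rw [← mul_sub, abs_mul, abs_of_pos (by norm_num : (0 : ℝ) < 2)]
  have h := Real.abs_cos_sub_cos_le
    (2 * π * (n * ((p : ℝ) / q) + x n)) (2 * π * (n * ((p : ℝ) / q) + y n))
  have h2 : |2 * π * (n * ((p : ℝ) / q) + x n) - 2 * π * (n * ((p : ℝ) / q) + y n)| = 2 * π * |x n - y n| := by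
    rw [← mul_sub, abs_mul, abs_of_pos (by positivity)]
    congr 2
    ring
  rw [h2] at h
  linarith

end AMO75
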