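import Mathlib

/-!
# [AMO75-PARAMA] `(1/2)^K` is smaller than every power of `d`

`(1/2)^K = exp (- K log 2) ≤ exp (- (log 2) (c d^(-θ) - c₀))`; with `x = d^(-θ) → ∞` as `d → 0+` (`tendsto_rpow_neg_nhdsGT_zero` or similar) use
`tendsto_rpow_mul_exp_neg_mul_atTop_nhds_zero` (`x^(B/θ) exp (- b x) → 0`, `b = c log 2`), `x^(B/θ) = d^(-B)`. So
`(1/2)^K d^(-B) ≤ exp (c₀ log 2) x^(B/θ) exp (- b x) ≤ 1` for small `d`. (For `B ≤ 0` the same proof works.)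
-/

set_option autoImplicit false

open Real

namespace AMO75

theorem half_small (θ c c₀ B : ℝ) (hθ : 0 < θ) (hc : 0 < c) :
    ∃ δ : ℝ, 0 < δ ∧ ∀ d : ℝ, 0 < d → d < δ → ∀ K : ℕ, c * d ^ (-θ) - c₀ ≤ K → (1 / 2 : ℝ) ^ K ≤ d ^ B := by
  have hl : 0 < Real.log 2 := Real.log_pos (by norm_num)
  have hb : 0 < c * Real.log 2 := mul_pos hc hl
  have h1 := tendsto_rpow_mul_exp_neg_mul_atTop_nhds_zero (B / θ) (c * Real.log 2) hb
  have h2 : Filter.Tendsto (fun d : ℝ => d ^ (-θ)) (nhdsWithin 0 (Set.Ioi 0)) Filter.atTop :=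
    tendsto_rpow_neg_nhdsGT_zero (neg_neg_of_pos hθ)
  have h3 := h1.comp h2
  have h4 : (0 : ℝ) < Real.exp (-(c₀ * Real.log 2)) := Real.exp_pos _
  have h5 := h3.eventually (gt_mem_nhds h4)
  rw [Filter.Eventually, mem_nhdsGT_iff_exists_Ioo_subset] at h5
  obtain ⟨δ, hδ, h6⟩ := h5
  refine ⟨δ, hδ, fun d hd hdδ K hK => ?_⟩
  have h7 : (d ^ (-θ)) ^ (B / θ) * Real.exp (-(c * Real.log 2) * d ^ (-θ)) < Real.exp (-(c₀ * Real.log 2)) :=
    h6 ⟨hd, hdδ⟩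
  have h8 : (d ^ (-θ)) ^ (B / θ) = (d ^ B)⁻¹ := by
    rw [← Real.rpow_mul hd.le, ← Real.rpow_neg hd.le]
    congr 1
    field_simp
  rw [h8] at h7
  have hdB : 0 < d ^ B := Real.rpow_pos_of_pos hd B
  rw [inv_mul_lt_iff₀ hdB] at h7
  have h9 : (1 / 2 : ℝ) ^ K = Real.exp (-(K * Real.log 2)) := by
    rw [Real.exp_neg, Real.exp_nat_mul, Real.exp_log (by norm_num : (0 : ℝ) < 2), one_div, inv_pow]
  rw [h9]
  have h10 : Real.exp (-(K * Real.log 2)) ≤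
      Real.exp (-(c * Real.log 2) * d ^ (-θ)) * Real.exp (c₀ * Real.log 2) := by
    rw [← Real.exp_add]
    apply Real.exp_le_exp.2
    nlinarith
  refine h10.trans ?_
  calc Real.exp (-(c * Real.log 2) * d ^ (-θ)) * Real.exp (c₀ * Real.log 2)
      ≤ (d ^ B * Real.exp (-(c₀ * Real.log 2))) * Real.exp (c₀ * Real.log 2) := by
        exact mul_le_mul_of_nonneg_right h7.le (Real.exp_pos _).le
    _ = d ^ B := by
        rw [mul_assoc, ← Real.exp_add, neg_add_cancel, Real.exp_zero, mul_one]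

end AMO75
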