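import Mathlib

/-!
# [AMO75-POLYA] real polynomials with real roots

`deriv_splits`: Rolle: `Polynomial.card_roots_le_derivative` (`card roots P ≤ card roots P' + 1`), so `P'` has `natDegree P'` real roots
(constant `P`: trivial).

`unimod`: write `R = a ∏ (X - c_j)`. If `a ≤ x ≤ b` and no `c_j` is in `[a, b]` then for each `j` the function `|y - c_j|` is affine and positive on
`[a, b]`, so with `x = (1 - s) a + s b`, `0 ≤ s ≤ 1`: `|x - c_j| = (1 - s) |a - c_j| + s |b - c_j| ≥ |a - c_j|^(1-s) |b - c_j|^s`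
(weighted AM-GM, `Real.geom_mean_le_arith_mean2_weighted`). Multiply over `j`:
`|R x| ≥ |R a|^(1-s) |R b|^s ≥ min |R a| |R b|`. (Or: induction over the factors with the statement
`|R x| ≥ |R a| ^ (1-s) * |R b| ^ s`.)
-/

set_option autoImplicit false

open Real

namespace AMO75

theorem deriv_splits (P : Polynomial ℝ) (hs : P.Splits) : P.derivative.Splits := by
  rw [Polynomial.splits_iff_card_roots]
  have h1 := hs.natDegree_eq_card_roots
  have h2 := Polynomial.card_roots_le_derivative P
  have h3 := Polynomial.natDegree_derivative_le P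
  have h4 := P.derivative.card_roots'
  rcases Nat.eq_zero_or_pos P.natDegree with h | h
  · have h5 : P.derivative = 0 := by
      rw [Polynomial.eq_C_of_natDegree_eq_zero h, Polynomial.derivative_C]
    rw [h5]
    simp
  · omega

private theorem unimod_prod (a b t : ℝ) (ht0 : 0 ≤ t) (ht1 : t ≤ 1) (hab : a ≤ b)
    (s : Multiset ℝ) (hs : ∀ c ∈ s, c ∉ Set.Icc a b) :
    (s.map fun c => |a - c|).prod ^ (1 - t) * (s.map fun c => |b - c|).prod ^ t ≤
      (s.map fun c => |((1 - t) * a + t * b) - c|).prod := by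
  induction s using Multiset.induction_on with
  | empty => simp
  | cons c s ih =>
    have ih' := ih fun c' hc' => hs c' (Multiset.mem_cons_of_mem hc')
    have hc := hs c (Multiset.mem_cons_self c s)
    rw [Multiset.map_cons, Multiset.map_cons, Multiset.map_cons, Multiset.prod_cons,
      Multiset.prod_cons, Multiset.prod_cons]
    have hA : 0 ≤ (s.map fun c => |a - c|).prod :=
      Multiset.prod_map_nonneg fun _ _ => abs_nonneg _
    have hB : 0 ≤ (s.map fun c => |b - c|).prod :=
      Multiset.prod_map_nonneg fun _ _ => abs_nonneg _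
    rw [Real.mul_rpow (abs_nonneg _) hA, Real.mul_rpow (abs_nonneg _) hB]
    have h1 : |a - c| ^ (1 - t) * |b - c| ^ t ≤ |((1 - t) * a + t * b) - c| := by
      have h2 := Real.geom_mean_le_arith_mean2_weighted (by linarith : 0 ≤ 1 - t) ht0
        (abs_nonneg (a - c)) (abs_nonneg (b - c)) (by ring)
      refine h2.trans (le_of_eq ?_)
      have h3 : c < a ∨ b < c := by
        by_contra hcon
        push Not at hcon
        exact hc ⟨hcon.1, hcon.2⟩
      rcases h3 with h3 | h3
      · rw [abs_of_pos (by linarith), abs_of_pos (by linarith), abs_of_pos]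
        · ring
        · nlinarith
      · rw [abs_of_neg (by linarith), abs_of_neg (by linarith), abs_of_neg]
        · ring
        · nlinarith
    calc (|a - c| ^ (1 - t) * (s.map fun c => |a - c|).prod ^ (1 - t)) *
          (|b - c| ^ t * (s.map fun c => |b - c|).prod ^ t)
        = (|a - c| ^ (1 - t) * |b - c| ^ t) * ((s.map fun c => |a - c|).prod ^ (1 - t) *
          (s.map fun c => |b - c|).prod ^ t) := by ring
      _ ≤ _ := mul_le_mul h1 ih' (by positivity) (abs_nonneg _)

theorem unimod (R : Polynomial ℝ) (hR : R.Splits) (a b x : ℝ) (hax : a ≤ x) (hxb : x ≤ b)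
    (h : ∀ c ∈ Set.Icc a b, R.eval c ≠ 0) : min |R.eval a| |R.eval b| ≤ |R.eval x| := by
  have hR0 : R ≠ 0 := by
    intro h0
    exact h a ⟨le_refl _, hax.trans hxb⟩ (by rw [h0, Polynomial.eval_zero])
  rcases eq_or_lt_of_le (hax.trans hxb) with hab | hab
  · have : x = a := le_antisymm (by rw [hab]; exact hxb) hax
    rw [this]
    exact min_le_left _ _
  obtain ⟨t, ht⟩ : ∃ t, t = (x - a) / (b - a) := ⟨_, rfl⟩
  have hba : 0 < b - a := by linarith
  have ht0 : 0 ≤ t := by
    rw [ht]
    exact div_nonneg (by linarith) hba.le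
  have ht1 : t ≤ 1 := by
    rw [ht, div_le_one hba]
    linarith
  have hx : (1 - t) * a + t * b = x := by
    rw [ht]
    field_simp
    ring
  have hroots : ∀ c ∈ R.roots, c ∉ Set.Icc a b := by
    intro c hc hcab
    exact h c hcab ((Polynomial.mem_roots hR0).1 hc)
  have h1 := unimod_prod a b t ht0 ht1 hab.le R.roots hroots
  rw [hx] at h1
  have hev : ∀ y, |R.eval y| = |R.leadingCoeff| * (R.roots.map fun c => |y - c|).prod := by
    intro y
    rw [hR.eval_eq_prod_roots y, abs_mul]
    congr 1
    have h3 := Multiset.prod_hom (R.roots.map fun c => y - c) (absHom : ℝ →*₀ ℝ)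
    rw [Multiset.map_map] at h3
    exact h3.symm
  obtain ⟨L, hL⟩ : ∃ L, L = |R.leadingCoeff| := ⟨_, rfl⟩
  have hL0 : 0 ≤ L := by
    rw [hL]
    exact abs_nonneg _
  obtain ⟨A, hA⟩ : ∃ A, A = (R.roots.map fun c => |a - c|).prod := ⟨_, rfl⟩
  obtain ⟨B, hB⟩ : ∃ B, B = (R.roots.map fun c => |b - c|).prod := ⟨_, rfl⟩
  have hA0 : 0 ≤ A := by
    rw [hA]
    exact Multiset.prod_map_nonneg fun _ _ => abs_nonneg _
  have hB0 : 0 ≤ B := by
    rw [hB]
    exact Multiset.prod_map_nonneg fun _ _ => abs_nonneg _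
  rw [hev a, hev b, hev x, ← hL, ← hA, ← hB]
  rw [← hA, ← hB] at h1
  have h2 : min A B ≤ A ^ (1 - t) * B ^ t := by
    have hm0 : 0 ≤ min A B := le_min hA0 hB0
    calc min A B = (min A B) ^ (1 - t) * (min A B) ^ t := by
          rw [← Real.rpow_add_of_nonneg hm0 (by linarith) ht0]
          norm_num
      _ ≤ A ^ (1 - t) * B ^ t :=
          mul_le_mul (Real.rpow_le_rpow hm0 (min_le_left _ _) (by linarith))
            (Real.rpow_le_rpow hm0 (min_le_right _ _) ht0) (by positivity) (by positivity)
  calc min (L * A) (L * B) = L * min A B := (mul_min_of_nonneg _ _ hL0).symm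
    _ ≤ L * (A ^ (1 - t) * B ^ t) := mul_le_mul_of_nonneg_left h2 hL0
    _ ≤ _ := mul_le_mul_of_nonneg_left h1 hL0

end AMO75
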