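import Pool.Agent.AMO75.Decay

/-!
# [AMO75-RINGD] ring eigenfunctions decay in the barrier

Proof. Unrolled phases: `X m = max ((σ-1)/q) (min (σ/q) (φ + m d))` for `m < m0 + M`,
`X m = 1/q + max ((σ-1)/q) (min (σ/q) (φ + (m - M) d))` for `m ≥ m0 + M`. For `m0 ≤ m < m0 + 2 M`: `rv m = vp p q X m` (for `m ≥ m0 + M` because
`M p + 1` is divisible by `q`: the arguments differ by `2 π (M p + 1) / q`, an integer multiple of `2 π`; there `m0 + (m - m0) % M = m - M`).
`0 ≤ X (m+1) - X m ≤ d` also at `m + 1 = m0 + M`: both values are `σ / q` (`right`: `φ + (m0 + M - 1) d ≥ σ/q`; `left`: `φ + m0 d ≤ (σ-1)/q`).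
`N` is the largest integer with `φ + N d ≤ σ / q`, `N'` the largest integer with `φ + N' d ≤ (σ - 1) / q`; `m0 + 2 ≤ N'`, `N ≤ m0 + M - 3`,
`(N - N') d ≥ 1/q - d`, `(K l + 2) d ≤ w ≤ 1/(4 q)`, so `N - N' ≥ 4 K l + 7`.
Put `a = N - K l`, `b = N' + M + 1 + K l`. On `[a, b]`: `|X m - σ / q| ≤ w` (`X m ≥ φ + a d > σ/q - d - K l d ≥ σ/q - w` for `m < m0 + M`, and
for `m ≥ m0 + M`: `X m ≤ 1/q + (σ-1)/q + (K l + 1) d ≤ σ/q + w`), and `m0 ≤ a`, `b < m0 + 2 M`.
`decay` with `x = X`, `v = rv ..` (`k = 0` in `hnear`) and `Rs rv E ψ = 0` gives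
`nm (on N (N'+M+1) ψ) ≤ (1/2)^K nm (on a b ψ)` (`nm_zero` for the second term).
-/

set_option autoImplicit false

open Real

namespace AMO75

/-- the unrolled phases -/
private noncomputable def ringX (q : ℕ) (σ d : ℝ) (m0 M : ℤ) (φ : ℝ) : ℤ → ℝ := fun m =>
  if m < m0 + M then max ((σ - 1) / q) (min (σ / q) (φ + m * d))
  else 1 / q + max ((σ - 1) / q) (min (σ / q) (φ + ((m - M : ℤ) : ℝ) * d))

/-- the clamp function is monotone and Lipschitz -/
private theorem clamp_step {A B s t d : ℝ} (hst : s ≤ t) (htd : t ≤ s + d) (hd : 0 ≤ d) :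
    |max A (min B t) - max A (min B s)| ≤ d := by
  have h1 : max A (min B s) ≤ max A (min B t) := max_le_max le_rfl (min_le_min le_rfl hst)
  have h2 : max A (min B t) ≤ max A (min B s) + d := by
    apply max_le
    · linarith [le_max_left A (min B s)]
    · have h3 : min B t ≤ min B s + d := by
        rcases le_total B s with h | h
        · rw [min_eq_left h]
          exact (min_le_left _ _).trans (by linarith)
        · rw [min_eq_right h]
          exact (min_le_right _ _).trans htd
      exact h3.trans (by linarith [le_max_right A (min B s)])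
  rw [abs_of_nonneg (by linarith)]
  linarith

theorem ring_decay (p : ℤ) (q : ℕ) (hq : 0 < q) (σ w η E d : ℝ) (hη : 0 < η) (hη1 : η ≤ 1) (hd0 : 0 < d)
    (hd : d ≤ η ^ 2 / 10000) (hw : w ≤ 1 / (4 * q)) (hB : HB p q σ w η E) (l : ℕ) (hl : 16 / η ≤ l) (K : ℕ)
    (hK : (K * l + 2) * d ≤ w) (m0 M : ℤ) (hR : RingOK p q σ d m0 M) (φ : ℝ) (hφ0 : 0 ≤ φ)
    (hφ1 : φ ≤ q * d) (ψ : ℤ → ℂ) (hψ : ∀ n, Rs (rv p q σ d m0 M φ) E ψ n = 0) (N N' : ℤ)
    (hN1 : φ + N * d ≤ σ / q) (hN2 : σ / q < φ + (N + 1) * d)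
    (hN1' : φ + N' * d ≤ (σ - 1) / q) (hN2' : (σ - 1) / q < φ + (N' + 1) * d) :
    nm (on N (N' + M + 1) ψ) ≤ (1 / 2) ^ K * nm (on (N - K * l) (N' + M + 1 + K * l) ψ) := by
  have hq0 : (0 : ℝ) < q := by exact_mod_cast hq
  have hleft := hR.left
  have hright := hR.right
  have hpos := hR.pos
  have hσ : σ / q = (σ - 1) / q + 1 / q := by ring
  have hq1 : 0 < 1 / (q : ℝ) := by positivity
  have hw4 : w ≤ (1 / q) / 4 := by
    have : 1 / (4 * (q : ℝ)) = (1 / q) / 4 := by
      field_simp
    rw [← this]; exact hw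
  -- integer facts
  have hKl0 : (0 : ℝ) ≤ (K : ℝ) * l := by positivity
  have f1 : m0 + 3 ≤ N' := by
    by_contra hc
    push Not at hc
    have h1 : N' + 1 ≤ m0 + 3 := by omega
    have h2 : ((N' : ℝ) + 1) ≤ (m0 : ℝ) + 3 := by exact_mod_cast h1
    have h3 : ((N' : ℝ) + 1) * d ≤ ((m0 : ℝ) + 3) * d := mul_le_mul_of_nonneg_right h2 hd0.le
    linarith
  have f2 : N ≤ m0 + M - 3 := by
    by_contra hc
    push Not at hc
    have h1 : m0 + M - 3 < N := hc
    have h2 : (m0 : ℝ) + M - 3 < N := by exact_mod_cast h1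
    have h3 : ((m0 : ℝ) + M - 3) * d < (N : ℝ) * d := mul_lt_mul_of_pos_right h2 hd0
    linarith
  have f3 : N' + 4 * (K * l) + 7 < N := by
    by_contra hc
    push Not at hc
    have h2 : (N : ℝ) ≤ N' + 4 * (K * l) + 7 := by exact_mod_cast hc
    have h3 : (N : ℝ) * d ≤ (N' + 4 * (K * l) + 7) * d := mul_le_mul_of_nonneg_right h2 hd0.le
    have h4 : (N' + 4 * ((K : ℝ) * l) + 7) * d = N' * d + 4 * ((K * l + 2) * d) - d := by ring
    have h5 : ((N : ℝ) + 1) * d = N * d + d := by ring
    rw [h4] at h3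
    rw [h5] at hN2
    linarith
  have hKlz : (0 : ℤ) ≤ (K : ℤ) * l := by positivity
  have ha : N - K * l + K * l = N := by ring
  have hb : N' + M + 1 + K * l - K * l = N' + M + 1 := by ring
  have hdec := decay p q σ w η E d hη hη1 hd0 hd hB l hl (ringX q σ d m0 M φ) (N - K * l)
    (N' + M + 1 + K * l) ?_ ?_ (rv p q σ d m0 M φ) ?_ ψ K
  · rw [ha, hb] at hdec
    have hz : on (N - K * l) (N' + M + 1 + K * l) (Rs (rv p q σ d m0 M φ) E ψ) = fun _ => (0 : ℂ) := by
      funext n
      unfold on
      rw [hψ n, ite_self]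
    rw [hz, nm_zero, mul_zero, add_zero] at hdec
    exact hdec
  · -- steps
    intro n hn1 hn2
    unfold ringX
    rcases lt_trichotomy (n + 1) (m0 + M) with h | h | h
    · rw [if_pos h, if_pos (by omega)]
      apply clamp_step
      · push_cast
        nlinarith
      · push_cast
        linarith
      · exact hd0.le
    · -- the seam
      rw [if_neg (by omega), if_pos (by omega)]
      have e1 : (n + 1 - M : ℤ) = m0 := by omega
      rw [e1]
      have hn : (n : ℝ) = m0 + M - 1 := by
        have : n = m0 + M - 1 := by omega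
        rw [this]; push_cast; ring
      have h1 : σ / q ≤ φ + (n : ℝ) * d := by
        rw [hn]
        have : ((m0 : ℝ) + M - 1) * d = (m0 + M - 3) * d + 2 * d := by ring
        rw [this]; linarith
      have h2 : φ + (m0 : ℝ) * d ≤ (σ - 1) / q := by
        have : ((m0 : ℝ) + 3) * d = m0 * d + 3 * d := by ring
        rw [this] at hleft
        linarith
      rw [min_eq_left h1, min_eq_right (by linarith), max_eq_left h2, max_eq_right (by linarith)]
      rw [hσ]
      have : 1 / (q : ℝ) + (σ - 1) / q - ((σ - 1) / q + 1 / q) = 0 := by ring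
      rw [this, abs_zero]
      exact hd0.le
    · rw [if_neg (by omega), if_neg (by omega)]
      rw [add_sub_add_left_eq_sub]
      apply clamp_step
      · push_cast
        nlinarith
      · push_cast
        linarith
      · exact hd0.le
  · -- closeness
    intro n hn1 hn2
    refine ⟨0, ?_⟩
    have hs0 : (((0 : ℤ) : ℝ) + σ) / q = σ / q := by simp
    rw [hs0]
    unfold ringX
    split_ifs with h
    · have hn : (N : ℝ) - K * l ≤ n := by exact_mod_cast hn1
      have h1 : ((N : ℝ) - K * l) * d ≤ n * d := mul_le_mul_of_nonneg_right hn hd0.le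
      have h2 : σ / q - w ≤ φ + n * d := by
        have e1 : ((N : ℝ) - K * l) * d = N * d - K * l * d := by ring
        have e2 : ((N : ℝ) + 1) * d = N * d + d := by ring
        have e3 : ((K : ℝ) * l + 2) * d = K * l * d + 2 * d := by ring
        rw [e1] at h1
        rw [e2] at hN2
        rw [e3] at hK
        linarith
      have hw0 : 0 ≤ w := by
        have : 0 ≤ ((K : ℝ) * l + 2) * d := by positivity
        linarith
      have h3 : max ((σ - 1) / q) (min (σ / q) (φ + n * d)) ≤ σ / q :=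
        max_le (by linarith) (min_le_left _ _)
      have h4 : σ / q - w ≤ max ((σ - 1) / q) (min (σ / q) (φ + n * d)) :=
        (le_min (by linarith) h2).trans (le_max_right _ _)
      rw [abs_le]
      constructor <;> linarith
    · push Not at h
      have hn : (n : ℝ) ≤ N' + M + 1 + K * l := by exact_mod_cast hn2
      have hw0 : 0 ≤ w := by
        have : 0 ≤ ((K : ℝ) * l + 2) * d := by positivity
        linarith
      have h1 : ((n - M : ℤ) : ℝ) * d ≤ (N' + 1 + K * l) * d := by
        apply mul_le_mul_of_nonneg_right _ hd0.le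
        push_cast
        linarith
      have h2 : φ + ((n - M : ℤ) : ℝ) * d ≤ (σ - 1) / q + w := by
        have e1 : ((N' : ℝ) + 1 + K * l) * d = N' * d + d + K * l * d := by ring
        have e3 : ((K : ℝ) * l + 2) * d = K * l * d + 2 * d := by ring
        rw [e1] at h1
        rw [e3] at hK
        linarith
      have h3 : max ((σ - 1) / q) (min (σ / q) (φ + ((n - M : ℤ) : ℝ) * d)) ≤ (σ - 1) / q + w :=
        max_le (by linarith) ((min_le_right _ _).trans h2)
      have h4 : (σ - 1) / q ≤ max ((σ - 1) / q) (min (σ / q) (φ + ((n - M : ℤ) : ℝ) * d)) :=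
        le_max_left _ _
      rw [abs_le]
      constructor <;> linarith
  · -- the potential
    intro n hn1 hn2
    have hnlo : m0 ≤ n := by omega
    have hnhi : n < m0 + 2 * M := by omega
    unfold rv vp ringX
    split_ifs with h
    · have e1 : (n - m0) % M = n - m0 := Int.emod_eq_of_lt (by omega) (by omega)
      rw [e1]
      have e2 : m0 + (n - m0) = n := by ring
      rw [e2]
    · push Not at h
      have e1 : (n - m0) % M = n - m0 - M := by
        rw [← Int.sub_emod_right]
        exact Int.emod_eq_of_lt (by omega) (by omega)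
      rw [e1]
      have e2 : m0 + (n - m0 - M) = n - M := by ring
      rw [e2]
      obtain ⟨t, ht⟩ := hR.mul
      have ht' : ((M : ℝ) * p + 1) = q * t := by exact_mod_cast ht
      congr 1
      set Y : ℝ := max ((σ - 1) / q) (min (σ / q) (φ + ((n - M : ℤ) : ℝ) * d)) with hY
      have e3 : 2 * π * ((n : ℝ) * ((p : ℝ) / q) + (1 / q + Y)) =
          2 * π * (((n - M : ℤ) : ℝ) * ((p : ℝ) / q) + Y) + (t : ℝ) * (2 * π) := by
        have e4 : (t : ℝ) = ((M : ℝ) * p + 1) / q := by
          rw [ht']; field_simp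
        rw [e4]
        push_cast
        field_simp
        ring
      rw [e3, Real.cos_add_int_mul_two_pi]

end AMO75
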