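import Pool.Agent.AMO75.HermA

/-!
# [AMO75-RINGM] the matrix of the ring operator

Indices `i : ZMod (k + 8)` stand for the point `m0 + i.val` of the fundamental domain; neighbours are `i + 1`, `i - 1` (different from each other and from `i`).
`ringM_herm`: `i + 1 = j` iff `i = j - 1`. `ringM_cont`: `rv` is continuous in `φ` (cos, max, min).
`RE_iff`: `ψ n = ψ' (n - m0 : ZMod (k + 8))` is a bijection between the functions on `ZMod (k + 8)` and the `(k + 8)`-periodic functions on `ℤ`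
(`rv` is `M`-periodic by definition, `rv n = rv (m0 + (n - m0 : ZMod (k+8)).val)`; `ZMod.val_intCast`).
-/

set_option autoImplicit false

open Real

namespace AMO75

/-- the matrix of the ring operator with `M = k + 8` points -/
noncomputable def ringM (p : ℤ) (q : ℕ) (σ d : ℝ) (m0 : ℤ) (k : ℕ) (φ : ℝ) :
    Matrix (ZMod (k + 8)) (ZMod (k + 8)) ℂ :=
  fun i j => (if i = j then ((rv p q σ d m0 ((k + 8 : ℕ) : ℤ) φ (m0 + i.val) : ℝ) : ℂ) else 0)
    + (if j = i + 1 then 1 else 0) + (if j = i - 1 then 1 else 0)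

variable (p : ℤ) (q : ℕ) (σ d : ℝ) (m0 : ℤ) (k : ℕ)

theorem ringM_herm (φ : ℝ) : (ringM p q σ d m0 k φ).IsHermitian := by
  ext i j
  rw [Matrix.conjTranspose_apply]
  have e1 : (i = j + 1) = (j = i - 1) := propext ⟨fun h => by rw [h]; ring, fun h => by rw [h]; ring⟩
  have e2 : (i = j - 1) = (j = i + 1) := propext ⟨fun h => by rw [h]; ring, fun h => by rw [h]; ring⟩
  have e3 : (j = i) = (i = j) := propext eq_comm
  have h1 : (starRingEnd ℂ) (if j = i then ((rv p q σ d m0 ((k + 8 : ℕ) : ℤ) φ (m0 + j.val) : ℝ) : ℂ) else 0)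
      = if i = j then ((rv p q σ d m0 ((k + 8 : ℕ) : ℤ) φ (m0 + i.val) : ℝ) : ℂ) else 0 := by
    by_cases h : i = j
    · subst h
      rw [if_pos rfl, Complex.conj_ofReal]
    · rw [if_neg h, if_neg (fun h' => h h'.symm), map_zero]
  have h2 : ∀ (P : Prop) [Decidable P], (starRingEnd ℂ) (if P then (1 : ℂ) else 0) = if P then 1 else 0 := by
    intro P _
    split_ifs <;> simp
  show (starRingEnd ℂ) (ringM p q σ d m0 k φ j i) = ringM p q σ d m0 k φ i j
  unfold ringM
  rw [map_add, map_add, h1, h2, h2, add_assoc, add_assoc]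
  congr 1
  rw [add_comm]
  congr 1
  · simp only [e2]
  · simp only [e1]

theorem ringM_cont : Continuous (ringM p q σ d m0 k) := by
  refine continuous_matrix fun i j => ?_
  unfold ringM
  refine (Continuous.add ?_ continuous_const).add continuous_const
  by_cases h : i = j
  · simp only [if_pos h]
    refine Complex.continuous_ofReal.comp ?_
    unfold rv
    fun_prop
  · simp only [if_neg h]
    exact continuous_const

theorem ringM_mul (φ : ℝ) (ψ : ZMod (k + 8) → ℂ) (i : ZMod (k + 8)) : (ringM p q σ d m0 k φ).mulVec ψ i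
    = ψ (i + 1) + ψ (i - 1) + ((rv p q σ d m0 ((k + 8 : ℕ) : ℤ) φ (m0 + i.val) : ℝ) : ℂ) * ψ i := by
  rw [Matrix.mulVec, dotProduct]
  simp only [ringM, add_mul, ite_mul, one_mul, zero_mul, Finset.sum_add_distrib, Finset.sum_ite_eq,
    Finset.sum_ite_eq', Finset.mem_univ, if_true]
  ring

/-- representative in the fundamental domain -/
lemma val_repr (n : ℤ) : (((n - m0 : ℤ) : ZMod (k + 8)).val : ℤ) = (n - m0) % ((k + 8 : ℕ) : ℤ) :=
  ZMod.val_intCast _

lemma rv_repr (φ : ℝ) (n : ℤ) : rv p q σ d m0 ((k + 8 : ℕ) : ℤ) φ (m0 + (((n - m0 : ℤ) : ZMod (k + 8)).val : ℤ))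
    = rv p q σ d m0 ((k + 8 : ℕ) : ℤ) φ n := by
  have h : (m0 + (((n - m0 : ℤ) : ZMod (k + 8)).val : ℤ) - m0) % ((k + 8 : ℕ) : ℤ)
      = (n - m0) % ((k + 8 : ℕ) : ℤ) := by
    rw [val_repr, add_sub_cancel_left, Int.emod_emod_of_dvd _ (dvd_refl _)]
  unfold rv
  rw [h]

theorem RE_iff (φ y : ℝ) : RE p q σ d m0 ((k + 8 : ℕ) : ℤ) φ y ↔
    ∃ ψ : ZMod (k + 8) → ℂ, ψ ≠ 0 ∧ (ringM p q σ d m0 k φ).mulVec ψ = fun i => (y : ℂ) * ψ i := by
  have hcast : ∀ i : ZMod (k + 8), ((((i.val : ℕ) : ℤ)) : ZMod (k + 8)) = i := by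
    intro i
    rw [Int.cast_natCast, ZMod.natCast_val, ZMod.cast_id]
  constructor
  · rintro ⟨ψ, h0, hper, hR⟩
    have hper2 : ∀ (j : ℕ) (n : ℤ), ψ (n + ((k + 8 : ℕ) : ℤ) * j) = ψ n := by
      intro j
      induction j with
      | zero => intro n; simp
      | succ j ih =>
        intro n
        rw [show n + ((k + 8 : ℕ) : ℤ) * ((j + 1 : ℕ) : ℤ)
          = (n + ((k + 8 : ℕ) : ℤ) * (j : ℤ)) + ((k + 8 : ℕ) : ℤ) by push_cast; ring, hper, ih]
    have hper3 : ∀ (j : ℤ) (n : ℤ), ψ (n + ((k + 8 : ℕ) : ℤ) * j) = ψ n := by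
      intro j n
      obtain ⟨t, rfl | rfl⟩ := j.eq_nat_or_neg
      · exact hper2 t n
      · rw [← hper2 t (n + ((k + 8 : ℕ) : ℤ) * (-(t : ℤ)))]
        congr 1
        ring
    have key : ∀ n : ℤ, ψ (m0 + (((n - m0 : ℤ) : ZMod (k + 8)).val : ℤ)) = ψ n := by
      intro n
      rw [val_repr, ← hper3 ((n - m0) / ((k + 8 : ℕ) : ℤ))
        (m0 + (n - m0) % ((k + 8 : ℕ) : ℤ))]
      congr 1
      have := Int.emod_add_mul_ediv (n - m0) ((k + 8 : ℕ) : ℤ)
      linarith
    refine ⟨fun i => ψ (m0 + i.val), ?_, ?_⟩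
    · intro h
      apply h0
      funext n
      rw [← key n]
      exact congrFun h _
    · funext i
      rw [ringM_mul]
      have h1 := hR (m0 + i.val)
      unfold Rs at h1
      have h2 : ψ (m0 + (((i + 1 : ZMod (k + 8)).val : ℕ) : ℤ)) = ψ (m0 + i.val + 1) := by
        rw [← key (m0 + i.val + 1)]
        congr 3
        rw [show m0 + (i.val : ℤ) + 1 - m0 = i.val + 1 by ring]
        push_cast
        rw [ZMod.natCast_val, ZMod.cast_id]
      have h3 : ψ (m0 + (((i - 1 : ZMod (k + 8)).val : ℕ) : ℤ)) = ψ (m0 + i.val - 1) := by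
        rw [← key (m0 + i.val - 1)]
        congr 3
        rw [show m0 + (i.val : ℤ) - 1 - m0 = i.val - 1 by ring]
        push_cast
        rw [ZMod.natCast_val, ZMod.cast_id]
      rw [h2, h3]
      rw [Complex.ofReal_sub] at h1
      linear_combination h1
  · rintro ⟨ψ, h0, hM⟩
    refine ⟨fun n => ψ ((n - m0 : ℤ) : ZMod (k + 8)), ?_, ?_, ?_⟩
    · intro h
      apply h0
      funext i
      have := congrFun h (m0 + i.val)
      simp only [add_sub_cancel_left, hcast] at this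
      exact this
    · intro n
      have h5 : ((n + ((k + 8 : ℕ) : ℤ) - m0 : ℤ) : ZMod (k + 8)) = ((n - m0 : ℤ) : ZMod (k + 8)) := by
        rw [show n + ((k + 8 : ℕ) : ℤ) - m0 = (n - m0) + ((k + 8 : ℕ) : ℤ) by ring, Int.cast_add,
          Int.cast_natCast, ZMod.natCast_self, add_zero]
      simp only [h5]
    · intro n
      have h1 := congrFun hM ((n - m0 : ℤ) : ZMod (k + 8))
      rw [ringM_mul, rv_repr] at h1
      unfold Rs
      have h2 : ((n + 1 - m0 : ℤ) : ZMod (k + 8)) = ((n - m0 : ℤ) : ZMod (k + 8)) + 1 := by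
        push_cast; ring
      have h3 : ((n - 1 - m0 : ℤ) : ZMod (k + 8)) = ((n - m0 : ℤ) : ZMod (k + 8)) - 1 := by
        push_cast; ring
      simp only [h2, h3]
      rw [Complex.ofReal_sub]
      linear_combination h1

end AMO75
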