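import Pool.Agent.AMO75.RingM

/-!
# [AMO75-RINGN] approximate eigenfunctions in the window give ring eigenvalues

Write `M = k + 8` (`k : ℕ`). The support of `u` is contained in `{m : m0 + 3 < m ≤ m0 + M - 3}`: if `u m ≠ 0` then `(σ-1)/q < φ + m d ≤ q d + m d`, so by
`left` `m > m0 + 3`; `m d ≤ σ / q - φ ≤ σ / q ≤ (m0 + M - 3) d`. Let `φ' i = u (m0 + i.val)`; then `nm φ' = nm u` and
`(ringM φ φ' - E φ') i = Rs (lin (p/q+d) φ) E u (m0 + i.val)`: no wrap around since `u` vanishes near the ends of the fundamental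
domain, and on the support of `u` `rv = lin (p/q+d) φ` since `(σ-1)/q ≤ φ + m d ≤ σ / q` (`max`, `min` inactive). So
`nm (ringM φ' - E φ') ≤ τ nm φ'` and `herm_near` applies; `RE_iff`.
-/

set_option autoImplicit false

open Real

namespace AMO75

/-- functions supported in the fundamental domain -/
theorem nm_fund (m0 : ℤ) (k : ℕ) (w : ℤ → ℂ) (hw : ∀ n, w n ≠ 0 → m0 ≤ n ∧ n < m0 + ((k + 8 : ℕ) : ℤ)) :
    nm (fun i : ZMod (k + 8) => w (m0 + (i.val : ℤ))) = nm w := by
  have h1 : nm (fun i : ZMod (k + 8) => w (m0 + (i.val : ℤ))) ^ 2 = nm w ^ 2 := by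
    rw [nm_sq_fin, nm_sq_eq_sum ((Finset.range (k + 8)).image fun j : ℕ => m0 + (j : ℤ)) w]
    · rw [Finset.sum_image (by intro a _ b _ hab; simpa using hab)]
      refine Finset.sum_nbij' (fun i : ZMod (k + 8) => i.val) (fun j : ℕ => (j : ZMod (k + 8))) ?_ ?_ ?_ ?_ ?_
      · intro i _
        exact Finset.mem_range.2 (ZMod.val_lt i)
      · intro j _
        exact Finset.mem_univ _
      · intro i _
        exact ZMod.natCast_zmod_val i
      · intro j hj
        exact ZMod.val_natCast_of_lt (Finset.mem_range.1 hj)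
      · intro i _
        rfl
    · intro n hn
      by_contra h0
      obtain ⟨a, b⟩ := hw n h0
      apply hn
      refine Finset.mem_image.2 ⟨(n - m0).toNat, Finset.mem_range.2 ?_, ?_⟩
      · omega
      · omega
  exact (pow_left_inj₀ (nm_nonneg _) (nm_nonneg _) two_ne_zero).1 h1

theorem ring_near (p : ℤ) (q : ℕ) (hq : 0 < q) (σ d : ℝ) (hd : 0 < d) (m0 M : ℤ) (hR : RingOK p q σ d m0 M)
    (φ E τ : ℝ) (hφ0 : 0 ≤ φ) (hφ1 : φ ≤ q * d) (u : ℤ → ℂ) (hu0 : u ≠ 0) (hu : InWin q σ d φ u)
    (h : nm (Rs (lin ((p : ℝ) / q + d) φ) E u) ≤ τ * nm u) :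
    ∃ y : ℝ, |y - E| ≤ τ ∧ RE p q σ d m0 M φ y := by
  obtain ⟨k, rfl⟩ : ∃ k : ℕ, M = ((k + 8 : ℕ) : ℤ) :=
    ⟨(M - 8).toNat, by have := hR.pos; push_cast; omega⟩
  have hsup : ∀ n, u n ≠ 0 → m0 + 3 < n ∧ n ≤ m0 + ((k + 8 : ℕ) : ℤ) - 3 := by
    intro n hn
    obtain ⟨h1, h2⟩ := hu n hn
    have hl := hR.left
    have hr := hR.right
    constructor
    · have : ((m0 : ℝ) + 3) * d < n * d := by linarith
      have := lt_of_mul_lt_mul_right this hd.le
      exact_mod_cast this
    · have : (n : ℝ) * d ≤ ((m0 : ℝ) + (((k + 8 : ℕ) : ℤ) : ℝ) - 3) * d := by linarith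
      have := le_of_mul_le_mul_right this hd
      exact_mod_cast this
  have hz : ∀ n, (n ≤ m0 + 3 ∨ m0 + ((k + 8 : ℕ) : ℤ) - 3 < n) → u n = 0 := by
    intro n hn
    by_contra h0
    have := hsup n h0
    omega
  set φ' : ZMod (k + 8) → ℂ := fun i => u (m0 + (i.val : ℤ)) with hφ'
  set R : ℤ → ℂ := Rs (lin ((p : ℝ) / q + d) φ) E u with hRd
  have hFS : FS u := FS_of_Icc (m0 + 3) (m0 + ((k + 8 : ℕ) : ℤ)) fun n hn => by
    have := hsup n hn
    omega
  have e1 : nm φ' = nm u := nm_fund m0 k u fun n hn => by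
    have := hsup n hn
    omega
  have e2 : nm (fun i : ZMod (k + 8) => R (m0 + (i.val : ℤ))) = nm R := by
    refine nm_fund m0 k R fun n hn => ?_
    by_contra hcon
    apply hn
    have h1 : u (n + 1) = 0 := hz _ (by omega)
    have h2 : u (n - 1) = 0 := hz _ (by omega)
    have h3 : u n = 0 := hz _ (by omega)
    simp only [hRd, Rs, h1, h2, h3]
    simp
  have e3 : (fun i => (ringM p q σ d m0 k φ).mulVec φ' i - (E : ℂ) * φ' i)
      = fun i : ZMod (k + 8) => R (m0 + (i.val : ℤ)) := by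
    funext i
    have hi : i.val < k + 8 := ZMod.val_lt i
    rw [ringM_mul]
    have a1 : φ' (i + 1) = u (m0 + (i.val : ℤ) + 1) := by
      by_cases hc : i.val + 1 < k + 8
      · have : (i + 1).val = i.val + 1 := by
          have h1 : (1 : ZMod (k + 8)).val = 1 := by
            have := ZMod.val_natCast_of_lt (n := k + 8) (a := 1) (by omega)
            simpa using this
          rw [ZMod.val_add_of_lt (by rw [h1]; exact hc), h1]
        show u (m0 + ((i + 1).val : ℤ)) = _
        rw [this]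
        congr 1
        push_cast
        ring
      · have hi2 : i + 1 = 0 := by
          have h2 : i = ((k + 7 : ℕ) : ZMod (k + 8)) := by
            rw [← ZMod.natCast_zmod_val i]
            congr 1
            omega
          rw [h2]
          have h3 : (((k + 8 : ℕ) : ℕ) : ZMod (k + 8)) = 0 := ZMod.natCast_self _
          have h4 : (((k + 7 : ℕ) : ZMod (k + 8)) + 1) = (((k + 8 : ℕ) : ℕ) : ZMod (k + 8)) := by
            push_cast
            ring
          rw [h4, h3]
        show u (m0 + ((i + 1).val : ℤ)) = _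
        rw [hi2, ZMod.val_zero, hz _ (by simp), hz _ (by push_cast; omega)]
    have a2 : φ' (i - 1) = u (m0 + (i.val : ℤ) - 1) := by
      by_cases hc : 1 ≤ i.val
      · have : (i - 1).val = i.val - 1 := by
          have h2 : i - 1 = ((i.val - 1 : ℕ) : ZMod (k + 8)) := by
            rw [Nat.cast_sub hc, ZMod.natCast_zmod_val]
            simp
          rw [h2, ZMod.val_natCast_of_lt (by omega)]
        show u (m0 + ((i - 1).val : ℤ)) = _
        rw [this]
        congr 1
        omega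
      · have h0 : i.val = 0 := by omega
        have hi0 : i = 0 := (ZMod.val_eq_zero i).1 h0
        have h2 : (i - 1).val = k + 7 := by
          have h3 : i - 1 = ((k + 7 : ℕ) : ZMod (k + 8)) := by
            rw [hi0, zero_sub, neg_eq_iff_add_eq_zero]
            have h3 : (((k + 8 : ℕ) : ℕ) : ZMod (k + 8)) = 0 := ZMod.natCast_self _
            rw [← h3]
            push_cast
            ring
          rw [h3, ZMod.val_natCast_of_lt (by omega)]
        show u (m0 + ((i - 1).val : ℤ)) = _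
        rw [h2, h0, hz _ (by push_cast; omega), hz _ (by simp; omega)]
    have a3 : ((rv p q σ d m0 ((k + 8 : ℕ) : ℤ) φ (m0 + (i.val : ℤ)) : ℝ) : ℂ) * φ' i
        = ((lin ((p : ℝ) / q + d) φ (m0 + (i.val : ℤ)) : ℝ) : ℂ) * φ' i := by
      by_cases h0 : φ' i = 0
      · rw [h0, mul_zero, mul_zero]
      · congr 2
        obtain ⟨h1, h2⟩ := hu _ h0
        have hmod : (m0 + (i.val : ℤ) - m0) % ((k + 8 : ℕ) : ℤ) = (i.val : ℤ) := by
          rw [add_sub_cancel_left]
          exact Int.emod_eq_of_lt (by omega) (by exact_mod_cast hi)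
        simp only [rv, lin, hmod]
        rw [min_eq_right h2, max_eq_right h1.le]
        congr 2
        ring
    rw [a1, a2, a3]
    simp only [hRd, Rs]
    push_cast
    simp only [hφ']
    ring
  have e4 : φ' ≠ 0 := by
    intro h0
    have h1 : nm φ' = 0 := by
      rw [h0]
      exact nm_zero
    rw [e1] at h1
    exact hu0 ((nm_eq_zero hFS).1 h1)
  obtain ⟨y, ψ, hy, hψ, hA⟩ := herm_near (ringM p q σ d m0 k φ) (ringM_herm p q σ d m0 k φ) E τ φ' e4
    (by rw [e3, e2, e1]; exact h)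
  exact ⟨y, hy, (RE_iff p q σ d m0 k φ y).2 ⟨ψ, hψ, hA⟩⟩

end AMO75
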