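import Mathlib

/-!
# [AMO75-SYMDET] a determinant with cyclic symmetry

Proof. Consider the polynomial `F(Z) = det (Z B - Z² A - A') ∈ ℂ[Z]` (matrix with entries in `ℂ[Z]`, all of degree `≤ 2`, so
`natDegree F ≤ 2 q`: expand `Matrix.det_apply`, `Polynomial.natDegree_sum_le_of_forall_le`, `natDegree_prod_le`).
For `z ∈ ℂ`: `F(ε z) = det (ε z B - ε² z² A - A') = ε^q det (z B - ε z² A - ε⁻¹ A') = det (G (z B - z² A - A') G') = F(z)`
(`ε^q = 1`, `G G' = 1`). So the polynomial `F` satisfies `F(ε Z) = F(Z)`, i.e. its coefficients satisfy `f_m ε^m = f_m`, and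
`f_m = 0` unless `q ∣ m`. As the degree is `≤ 2 q`: `F = f_0 + f_q Z^q + f_{2q} Z^{2q}`.
`f_0 = F(0) = det (-A') = -1`. For the top coefficient use the reversed polynomial: `z^{2q} F(1/z) = det (z B - A - z² A')` for all `z ≠ 0`,
both sides are polynomials in `z`, value at `0`: `f_{2q} = det (-A) = -1`.
So `det (B - z A - z⁻¹ A') = z^(-q) F(z) = f_q - z^q - z^(-q)`.
-/

set_option autoImplicit false

namespace AMO75

open Polynomial in
private theorem sd_poly {ι : Type} [Fintype ι] [DecidableEq ι] (P0 P1 P2 : Matrix ι ι ℂ) :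
    ∃ F : ℂ[X], F.natDegree ≤ 2 * Fintype.card ι ∧
      ∀ z : ℂ, F.eval z = (P0 + z • P1 + z ^ 2 • P2).det := by
  refine ⟨(Matrix.of fun i j => C (P0 i j) + X * C (P1 i j) + X ^ 2 * C (P2 i j)).det, ?_, ?_⟩
  · rw [Matrix.det_apply]
    refine natDegree_sum_le_of_forall_le _ _ fun σ _ => ?_
    refine (natDegree_smul_le _ _).trans ?_
    refine (natDegree_prod_le _ _).trans ?_
    have h : ∀ i, (Matrix.of (fun i j => C (P0 i j) + X * C (P1 i j) + X ^ 2 * C (P2 i j))
        (σ i) i).natDegree ≤ 2 := by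
      intro i
      rw [Matrix.of_apply]
      refine natDegree_add_le_of_degree_le ?_ ?_
      · refine natDegree_add_le_of_degree_le ?_ ?_
        · rw [natDegree_C]; exact Nat.zero_le _
        · refine natDegree_mul_le.trans ?_
          rw [natDegree_C, natDegree_X]
          norm_num
      · refine natDegree_mul_le.trans ?_
        rw [natDegree_C, natDegree_X_pow]
    refine (Finset.sum_le_sum fun i _ => h i).trans ?_
    rw [Finset.sum_const, Finset.card_univ, smul_eq_mul, mul_comm]
  · intro z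
    rw [← coe_evalRingHom, RingHom.map_det]
    congr 1
    ext i j
    simp [Matrix.add_apply, Matrix.smul_apply]
    ring

theorem sym_det {ι : Type} [Fintype ι] [DecidableEq ι] (q : ℕ) (hq : Fintype.card ι = q) (hq0 : 0 < q)
    (ε : ℂ) (hε : IsPrimitiveRoot ε q) (A A' B G G' : Matrix ι ι ℂ) (hG : G * G' = 1)
    (h1 : G * A * G' = ε • A) (h2 : G * A' * G' = ε⁻¹ • A') (h3 : G * B * G' = B)
    (hA : (-A).det = -1) (hA' : (-A').det = -1) :
    ∃ c : ℂ, ∀ z : ℂ, z ≠ 0 → (B - z • A - z⁻¹ • A').det = c - z ^ q - z⁻¹ ^ q := by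
  have hε0 : ε ≠ 0 := hε.ne_zero hq0.ne'
  obtain ⟨F, hFd, hF⟩ := sd_poly (-A') B (-A)
  obtain ⟨R, -, hR⟩ := sd_poly (-A) B (-A')
  rw [hq] at hFd
  have hdetG : G.det * G'.det = 1 := by rw [← Matrix.det_mul, hG, Matrix.det_one]
  have hsym : ∀ z : ℂ, F.eval (ε * z) = F.eval z := by
    intro z
    rw [hF, hF]
    have e1 : -A' + (ε * z) • B + (ε * z) ^ 2 • -A =
        ε • (G * (-A' + z • B + z ^ 2 • -A) * G') := by
      have e2 : G * (-A' + z • B + z ^ 2 • -A) * G' =
          -(G * A' * G') + z • (G * B * G') - z ^ 2 • (G * A * G') := by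
        rw [Matrix.mul_add, Matrix.mul_add, Matrix.add_mul, Matrix.add_mul, Matrix.mul_smul,
          Matrix.mul_smul, Matrix.smul_mul, Matrix.smul_mul, Matrix.mul_neg, Matrix.mul_neg,
          Matrix.neg_mul, Matrix.neg_mul, smul_neg, ← sub_eq_add_neg]
      rw [e2, h1, h2, h3]
      ext i j
      simp only [Matrix.add_apply, Matrix.sub_apply, Matrix.neg_apply, Matrix.smul_apply,
        smul_eq_mul]
      field_simp
      ring
    rw [e1, Matrix.det_smul, hq, hε.pow_eq_one, one_mul, Matrix.det_mul, Matrix.det_mul,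
      mul_right_comm, hdetG, one_mul]
  have hcoeff : ∀ m, ¬ q ∣ m → F.coeff m = 0 := by
    intro m hm
    have e1 : F.comp (Polynomial.C ε * Polynomial.X) = F := by
      apply Polynomial.funext
      intro z
      rw [Polynomial.eval_comp, Polynomial.eval_mul, Polynomial.eval_C, Polynomial.eval_X]
      exact hsym z
    have e2 : F.coeff m * ε ^ m = F.coeff m := by
      have := congrArg (fun P => Polynomial.coeff P m) e1
      simp only [Polynomial.comp_C_mul_X_coeff] at this
      exact this
    by_contra h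
    apply hm
    rw [← hε.pow_eq_one_iff_dvd]
    have e3 : F.coeff m * (ε ^ m - 1) = 0 := by rw [mul_sub, e2, mul_one, sub_self]
    rcases mul_eq_zero.1 e3 with h' | h'
    · exact absurd h' h
    · exact sub_eq_zero.1 h'
  have hexp : ∀ z : ℂ, F.eval z = F.coeff 0 + F.coeff q * z ^ q + F.coeff (2 * q) * z ^ (2 * q) := by
    intro z
    rw [Polynomial.eval_eq_sum_range' (n := 2 * q + 1) (by omega)]
    have hsub : ({0, q, 2 * q} : Finset ℕ) ⊆ Finset.range (2 * q + 1) := by
      intro x hx
      simp only [Finset.mem_insert, Finset.mem_singleton] at hx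
      rw [Finset.mem_range]
      omega
    rw [← Finset.sum_subset hsub]
    · rw [Finset.sum_insert, Finset.sum_insert, Finset.sum_singleton, pow_zero, mul_one, add_assoc]
      · rw [Finset.mem_singleton]; omega
      · simp only [Finset.mem_insert, Finset.mem_singleton]; omega
    · intro m hm hm'
      rw [hcoeff m, zero_mul]
      rintro ⟨k, rfl⟩
      rw [Finset.mem_range] at hm
      have hk : k < 3 := by
        by_contra hk
        have : q * 3 ≤ q * k := Nat.mul_le_mul_left q (not_lt.1 hk)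
        omega
      apply hm'
      simp only [Finset.mem_insert, Finset.mem_singleton]
      interval_cases k
      · left; simp
      · right; left; simp
      · right; right; ring
  have hf0 : F.coeff 0 = -1 := by
    have h := hF 0
    rw [hexp] at h
    rw [← hA', ← add_zero (-A').det]
    have e : (-A' + (0 : ℂ) • B + (0 : ℂ) ^ 2 • -A) = -A' := by simp
    rw [e] at h
    rw [← h]
    have h2q : 2 * q ≠ 0 := by omega
    simp [hq0.ne']
  have hf2 : F.coeff (2 * q) = -1 := by
    let P : Polynomial ℂ := Polynomial.C (F.coeff 0) * Polynomial.X ^ (2 * q) +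
      Polynomial.C (F.coeff q) * Polynomial.X ^ q + Polynomial.C (F.coeff (2 * q))
    have hP : ∀ z, P.eval z = F.coeff 0 * z ^ (2 * q) + F.coeff q * z ^ q + F.coeff (2 * q) := by
      intro z
      simp [P]
    have hRP : ∀ z : ℂ, z ≠ 0 → R.eval z = P.eval z := by
      intro z hz
      have h := hF z⁻¹
      rw [hexp] at h
      rw [hR, hP]
      have e : -A + z • B + z ^ 2 • -A' = (z ^ 2) • (-A' + z⁻¹ • B + z⁻¹ ^ 2 • -A) := by
        rw [smul_add, smul_add, smul_smul, smul_smul]
        have e1 : z ^ 2 * z⁻¹ = z := by field_simp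
        have e2 : z ^ 2 * z⁻¹ ^ 2 = 1 := by field_simp
        rw [e1, e2, one_smul]
        abel
      rw [e, Matrix.det_smul, ← h, hq, ← pow_mul]
      have e3 : z ^ (2 * q) * z⁻¹ ^ q = z ^ q := by
        rw [two_mul, pow_add, mul_assoc, ← mul_pow, mul_inv_cancel₀ hz, one_pow, mul_one]
      have e4 : z ^ (2 * q) * z⁻¹ ^ (2 * q) = 1 := by
        rw [← mul_pow, mul_inv_cancel₀ hz, one_pow]
      linear_combination F.coeff q * e3 + F.coeff (2 * q) * e4
    have hXRP : Polynomial.X * (R - P) = 0 := by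
      apply Polynomial.funext
      intro z
      rw [Polynomial.eval_mul, Polynomial.eval_X, Polynomial.eval_sub, Polynomial.eval_zero]
      by_cases hz : z = 0
      · rw [hz, zero_mul]
      · rw [hRP z hz, sub_self, mul_zero]
    have hRP' : R = P := by
      rcases mul_eq_zero.1 hXRP with h | h
      · exact absurd h Polynomial.X_ne_zero
      · exact sub_eq_zero.1 h
    have h := hR 0
    rw [hRP', hP] at h
    have e : (-A + (0 : ℂ) • B + (0 : ℂ) ^ 2 • -A') = -A := by simp
    rw [e, hA] at h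
    have h2q : 2 * q ≠ 0 := by omega
    simpa [hq0.ne'] using h
  refine ⟨F.coeff q, fun z hz => ?_⟩
  have e : B - z • A - z⁻¹ • A' = z⁻¹ • (-A' + z • B + z ^ 2 • -A) := by
    rw [smul_add, smul_add, smul_smul, smul_smul, inv_mul_cancel₀ hz, one_smul]
    have e1 : z⁻¹ * z ^ 2 = z := by field_simp
    rw [e1, smul_neg, smul_neg]
    abel
  rw [e, Matrix.det_smul, ← hF, hexp, hq, hf0, hf2]
  have e3 : z⁻¹ ^ q * z ^ q = 1 := by rw [← mul_pow, inv_mul_cancel₀ hz, one_pow]
  have e4 : z⁻¹ ^ q * z ^ (2 * q) = z ^ q := by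
    rw [two_mul, pow_add, ← mul_assoc, e3, one_mul]
  linear_combination F.coeff q * e3 - e4

end AMO75
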