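import Pool.Agent.AMO75.WinC

/-!
# [AMO75-WINB] localization in a window (abstract form)

Proof. Let `f = Rs v E u`, `u_k = on (N (k-1) + 1) (N k) u` (`= θ_k u` with the indicator function `θ_k` of the window). By `Rs_mul`
`Rs v E u_k n = θ_k n * f n + boundary terms`: the boundary terms are `- u (N k + 1)` at `n = N k`, `u (N k)` at `n = N k + 1`, `- u (N (k-1))` at
`n = N (k-1) + 1`, `u (N (k-1) + 1)` at `n = N (k-1)` (four different points by `hN`). So with `B_k = ‖u (N k)‖² + ‖u (N k + 1)‖² = nm (on (N k) (N k + 1) u) ^ 2`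
`nm (Rs v E u_k) ^ 2 ≤ 2 nm (on (N (k-1) + 1) (N k) f) ^ 2 + 2 (B_k + B_{k-1})`. By `hdec`
`B_k ≤ 2 (1/4)^K nm (on (N k - L) (N k + 1 + L) u) ^ 2 + (32 / η²) nm (on (N k - L) (N k + 1 + L) f) ^ 2`.
Sum over `k` in the finite set `s` of `sum_part` for `u` (`sum_disj` for the windows and for the intervals `[N k - L, N k + 1 + L]`, which are pairwise
disjoint by `hN`; the same for the index `k - 1`):
`∑_{k ∈ s} nm (Rs v E u_k) ^ 2 ≤ 2 nm f ^ 2 + 4 (2 (1/4)^K nm u ^ 2 + (32 / η²) nm f ^ 2) ≤ (2 ε² + 8 (1/4)^K + 128 ε² / η²) nm u ^ 2`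
`< 25 (1/4)^K nm u ^ 2 = 25 (1/4)^K ∑_{k ∈ s} nm u_k ^ 2`
as `0 ≤ ε ≤ η (1/2)^K / 20`. Hence for some `k ∈ s`: `nm (Rs v E u_k) ^ 2 < 25 (1/4)^K nm u_k ^ 2`, so `u_k ≠ 0`.
-/

set_option autoImplicit false

open Real

namespace AMO75

theorem WinB_on_in {a b n : ℤ} (u : ℤ → ℂ) (h1 : a ≤ n) (h2 : n ≤ b) : on a b u n = u n :=
  if_pos ⟨h1, h2⟩

theorem WinB_on_out {a b n : ℤ} (u : ℤ → ℂ) (h : n < a ∨ b < n) : on a b u n = 0 :=
  if_neg (by omega)

theorem WinB_pair (a : ℤ) (u : ℤ → ℂ) :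
    nm (on a (a + 1) u) ^ 2 = ‖u a‖ ^ 2 + ‖u (a + 1)‖ ^ 2 := by
  have h := nm_sq_eq_sum ({a, a + 1} : Finset ℤ) (on a (a + 1) u) (fun n hn => by
    apply WinB_on_out
    simp only [Finset.mem_insert, Finset.mem_singleton, not_or] at hn
    omega)
  rw [h, Finset.sum_pair (by omega), WinB_on_in u le_rfl (by omega), WinB_on_in u (by omega) le_rfl]

theorem WinB_sq_add (x y : ℂ) : ‖x + y‖ ^ 2 ≤ 2 * ‖x‖ ^ 2 + 2 * ‖y‖ ^ 2 := by
  have h := norm_add_le x y
  have h0 := norm_nonneg (x + y)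
  have h3 : ‖x + y‖ ^ 2 ≤ (‖x‖ + ‖y‖) ^ 2 := pow_le_pow_left₀ h0 h 2
  nlinarith [sq_nonneg (‖x‖ - ‖y‖)]

/-- the residual of a restricted function -/
theorem WinB_point (v : ℤ → ℝ) (E : ℝ) (u : ℤ → ℂ) (a b : ℤ) (hab : a < b) (n : ℤ) :
    ‖Rs v E (on a b u) n‖ ^ 2 ≤ 2 * ‖on a b (Rs v E u) n‖ ^ 2
      + (2 * (if n = a - 1 then ‖u a‖ ^ 2 else 0) + 2 * (if n = a then ‖u (a - 1)‖ ^ 2 else 0)
      + 2 * (if n = b then ‖u (b + 1)‖ ^ 2 else 0) + 2 * (if n = b + 1 then ‖u b‖ ^ 2 else 0)) := by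
  have hc : n < a - 1 ∨ n = a - 1 ∨ n = a ∨ (a < n ∧ n < b) ∨ n = b ∨ n = b + 1 ∨ b + 1 < n := by
    omega
  have hnn : ∀ (P : Prop) [Decidable P] (x : ℂ), 0 ≤ (if P then ‖x‖ ^ 2 else 0) := by
    intro P _ x
    split_ifs <;> positivity
  rcases hc with h | h | h | h | h | h | h
  · have e : Rs v E (on a b u) n = 0 := by
      simp only [Rs]
      rw [WinB_on_out u (by omega), WinB_on_out u (by omega), WinB_on_out u (by omega)]
      ring
    rw [e, norm_zero]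
    have h1 := hnn (n = a - 1) (u a)
    have h2 := hnn (n = a) (u (a - 1))
    have h3 := hnn (n = b) (u (b + 1))
    have h4 := hnn (n = b + 1) (u b)
    have h5 := sq_nonneg ‖on a b (Rs v E u) n‖
    have h6 : (0 : ℝ) ^ 2 = 0 := by norm_num
    rw [h6]
    linarith
  · subst h
    have e : Rs v E (on a b u) (a - 1) = u a := by
      simp only [Rs]
      rw [show a - 1 + 1 = a by ring, WinB_on_in u le_rfl hab.le, WinB_on_out u (by omega),
        WinB_on_out u (by omega)]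
      ring
    rw [e, if_pos rfl, if_neg (by omega), if_neg (by omega), if_neg (by omega)]
    nlinarith [sq_nonneg ‖u a‖, sq_nonneg ‖on a b (Rs v E u) (a - 1)‖]
  · subst h
    have e : Rs v E (on n b u) n = on n b (Rs v E u) n + -u (n - 1) := by
      rw [WinB_on_in (Rs v E u) le_rfl hab.le]
      simp only [Rs]
      rw [WinB_on_in u (by omega) (by omega), WinB_on_out u (by omega), WinB_on_in u le_rfl hab.le]
      ring
    rw [e, if_neg (by omega), if_pos rfl, if_neg (by omega), if_neg (by omega)]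
    have := WinB_sq_add (on n b (Rs v E u) n) (-u (n - 1))
    rw [norm_neg] at this
    linarith
  · obtain ⟨h1, h2⟩ := h
    have e : Rs v E (on a b u) n = on a b (Rs v E u) n := by
      rw [WinB_on_in (Rs v E u) h1.le h2.le]
      simp only [Rs]
      rw [WinB_on_in u (by omega) (by omega), WinB_on_in u (by omega) (by omega),
        WinB_on_in u h1.le h2.le]
    rw [e, if_neg (by omega), if_neg (by omega), if_neg (by omega), if_neg (by omega)]
    nlinarith [sq_nonneg ‖on a b (Rs v E u) n‖]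
  · subst h
    have e : Rs v E (on a n u) n = on a n (Rs v E u) n + -u (n + 1) := by
      rw [WinB_on_in (Rs v E u) hab.le le_rfl]
      simp only [Rs]
      rw [WinB_on_out u (by omega), WinB_on_in u (by omega) (by omega), WinB_on_in u hab.le le_rfl]
      ring
    rw [e, if_neg (by omega), if_neg (by omega), if_pos rfl, if_neg (by omega)]
    have := WinB_sq_add (on a n (Rs v E u) n) (-u (n + 1))
    rw [norm_neg] at this
    linarith
  · subst h
    have e : Rs v E (on a b u) (b + 1) = u b := by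
      simp only [Rs]
      rw [show b + 1 - 1 = b by ring, WinB_on_in u hab.le le_rfl, WinB_on_out u (by omega),
        WinB_on_out u (by omega)]
      ring
    rw [e, if_neg (by omega), if_neg (by omega), if_neg (by omega), if_pos rfl]
    nlinarith [sq_nonneg ‖u b‖, sq_nonneg ‖on a b (Rs v E u) (b + 1)‖]
  · have e : Rs v E (on a b u) n = 0 := by
      simp only [Rs]
      rw [WinB_on_out u (by omega), WinB_on_out u (by omega), WinB_on_out u (by omega)]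
      ring
    rw [e, norm_zero]
    have h1 := hnn (n = a - 1) (u a)
    have h2 := hnn (n = a) (u (a - 1))
    have h3 := hnn (n = b) (u (b + 1))
    have h4 := hnn (n = b + 1) (u b)
    have h5 := sq_nonneg ‖on a b (Rs v E u) n‖
    have h6 : (0 : ℝ) ^ 2 = 0 := by norm_num
    rw [h6]
    linarith

theorem WinB_window (v : ℤ → ℝ) (E : ℝ) (u : ℤ → ℂ) (a b : ℤ) (hab : a < b) :
    nm (Rs v E (on a b u)) ^ 2 ≤ 2 * nm (on a b (Rs v E u)) ^ 2
      + (2 * nm (on (a - 1) a u) ^ 2 + 2 * nm (on b (b + 1) u) ^ 2) := by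
  have h1 := nm_sq_eq_sum (Finset.Icc (a - 1) (b + 1)) (Rs v E (on a b u)) (fun n hn => by
    rw [Finset.mem_Icc] at hn
    simp only [Rs]
    rw [WinB_on_out u (by omega), WinB_on_out u (by omega), WinB_on_out u (by omega)]
    ring)
  have h2 := nm_sq_eq_sum (Finset.Icc (a - 1) (b + 1)) (on a b (Rs v E u)) (fun n hn => by
    rw [Finset.mem_Icc] at hn
    exact WinB_on_out _ (by omega))
  have h3 : nm (on (a - 1) a u) ^ 2 = ‖u (a - 1)‖ ^ 2 + ‖u a‖ ^ 2 := by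
    have := WinB_pair (a - 1) u
    rwa [show a - 1 + 1 = a by ring] at this
  have h4 := WinB_pair b u
  rw [h1, h2, h3, h4]
  calc ∑ n ∈ Finset.Icc (a - 1) (b + 1), ‖Rs v E (on a b u) n‖ ^ 2
      ≤ ∑ n ∈ Finset.Icc (a - 1) (b + 1), (2 * ‖on a b (Rs v E u) n‖ ^ 2
      + (2 * (if n = a - 1 then ‖u a‖ ^ 2 else 0) + 2 * (if n = a then ‖u (a - 1)‖ ^ 2 else 0)
      + 2 * (if n = b then ‖u (b + 1)‖ ^ 2 else 0) + 2 * (if n = b + 1 then ‖u b‖ ^ 2 else 0))) :=
        Finset.sum_le_sum fun n _ => WinB_point v E u a b hab n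
    _ = _ := by
      rw [Finset.sum_add_distrib, Finset.sum_add_distrib, Finset.sum_add_distrib,
        Finset.sum_add_distrib]
      simp only [← Finset.mul_sum]
      rw [Finset.sum_ite_eq' (Finset.Icc (a - 1) (b + 1)) (a - 1) (fun _ => ‖u a‖ ^ 2),
        Finset.sum_ite_eq' (Finset.Icc (a - 1) (b + 1)) a (fun _ => ‖u (a - 1)‖ ^ 2),
        Finset.sum_ite_eq' (Finset.Icc (a - 1) (b + 1)) b (fun _ => ‖u (b + 1)‖ ^ 2),
        Finset.sum_ite_eq' (Finset.Icc (a - 1) (b + 1)) (b + 1) (fun _ => ‖u b‖ ^ 2)]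
      rw [if_pos (Finset.mem_Icc.2 (by omega)), if_pos (Finset.mem_Icc.2 (by omega)),
        if_pos (Finset.mem_Icc.2 (by omega)), if_pos (Finset.mem_Icc.2 (by omega))]
      ring

theorem win_abs (v : ℤ → ℝ) (E η : ℝ) (hη : 0 < η) (hη1 : η ≤ 1) (N : ℤ → ℤ) (L K : ℕ)
    (hN : ∀ k, N k + 2 * L + 1 < N (k + 1)) (u : ℤ → ℂ) (hu : FS u) (hu0 : u ≠ 0)
    (hdec : ∀ k, nm (on (N k) (N k + 1) u) ≤ (1 / 2) ^ K * nm (on (N k - L) (N k + 1 + L) u)
      + 4 / η * nm (on (N k - L) (N k + 1 + L) (Rs v E u)))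
    (ε : ℝ) (hε : nm (Rs v E u) ≤ ε * nm u) (hε1 : ε ≤ η * (1 / 2) ^ K / 20) :
    ∃ k, on (N (k - 1) + 1) (N k) u ≠ 0 ∧
      nm (Rs v E (on (N (k - 1) + 1) (N k) u)) ≤ 5 * (1 / 2) ^ K * nm (on (N (k - 1) + 1) (N k) u) := by
  have hN' : ∀ k, N (k - 1) + 2 * L + 1 < N k := fun k => by
    have := hN (k - 1)
    rwa [sub_add_cancel] at this
  obtain ⟨s, hs0, hs⟩ := sum_part N (fun k => by have := hN k; omega) u hu
  have hf : FS (Rs v E u) := hu.Rs v E
  have hupos : 0 < nm u := nm_pos hu hu0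
  set f := Rs v E u with hfdef
  set Q : ℝ := (1 / 2) ^ K with hQ
  have hQ0 : 0 < Q := by rw [hQ]; positivity
  -- squares of the decay estimate
  have hdec2 : ∀ k, nm (on (N k) (N k + 1) u) ^ 2 ≤
      2 * Q ^ 2 * nm (on (N k - L) (N k + 1 + L) u) ^ 2
      + 32 / η ^ 2 * nm (on (N k - L) (N k + 1 + L) f) ^ 2 := by
    intro k
    have h := hdec k
    have h0 := nm_nonneg (on (N k) (N k + 1) u)
    set x := Q * nm (on (N k - L) (N k + 1 + L) u)
    set y := 4 / η * nm (on (N k - L) (N k + 1 + L) f) with hy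
    have h2 : nm (on (N k) (N k + 1) u) ^ 2 ≤ (x + y) ^ 2 := pow_le_pow_left₀ h0 h 2
    have h3 : 2 * Q ^ 2 * nm (on (N k - L) (N k + 1 + L) u) ^ 2 = 2 * x ^ 2 := by ring
    have h4 : 32 / η ^ 2 * nm (on (N k - L) (N k + 1 + L) f) ^ 2 = 2 * y ^ 2 := by
      rw [hy]
      field_simp
      ring
    rw [h3, h4]
    nlinarith [sq_nonneg (x - y)]
  have hwin : ∀ k, nm (Rs v E (on (N (k - 1) + 1) (N k) u)) ^ 2 ≤
      2 * nm (on (N (k - 1) + 1) (N k) f) ^ 2
      + (2 * nm (on (N (k - 1)) (N (k - 1) + 1) u) ^ 2 + 2 * nm (on (N k) (N k + 1) u) ^ 2) := by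
    intro k
    have h := WinB_window v E u (N (k - 1) + 1) (N k) (by have := hN' k; omega)
    rwa [show N (k - 1) + 1 - 1 = N (k - 1) by ring] at h
  have hall : ∀ k, nm (Rs v E (on (N (k - 1) + 1) (N k) u)) ^ 2 ≤
      2 * nm (on (N (k - 1) + 1) (N k) f) ^ 2
      + (2 * (2 * Q ^ 2 * nm (on (N (k - 1) - L) (N (k - 1) + 1 + L) u) ^ 2
          + 32 / η ^ 2 * nm (on (N (k - 1) - L) (N (k - 1) + 1 + L) f) ^ 2)
        + 2 * (2 * Q ^ 2 * nm (on (N k - L) (N k + 1 + L) u) ^ 2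
          + 32 / η ^ 2 * nm (on (N k - L) (N k + 1 + L) f) ^ 2)) := by
    intro k
    have h1 := hwin k
    have h2 := hdec2 k
    have h3 := hdec2 (k - 1)
    linarith
  have s1 : ∑ k ∈ s, nm (on (N (k - 1) + 1) (N k) f) ^ 2 ≤ nm f ^ 2 :=
    sum_disj (fun k => N (k - 1) + 1) (fun k => N k)
      (fun k => by show N k < N (k + 1 - 1) + 1; rw [add_sub_cancel_right]; omega)
      (fun k => by have := hN' k; show N (k - 1) + 1 ≤ N k; omega) f hf s
  have s2 : ∀ w : ℤ → ℂ, FS w →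
      ∑ k ∈ s, nm (on (N k - L) (N k + 1 + L) w) ^ 2 ≤ nm w ^ 2 := fun w hw =>
    sum_disj (fun k => N k - L) (fun k => N k + 1 + L)
      (fun k => by have := hN k; show N k + 1 + L < N (k + 1) - L; omega)
      (fun k => by show N k - L ≤ N k + 1 + L; omega) w hw s
  have s3 : ∀ w : ℤ → ℂ, FS w →
      ∑ k ∈ s, nm (on (N (k - 1) - L) (N (k - 1) + 1 + L) w) ^ 2 ≤ nm w ^ 2 := fun w hw =>
    sum_disj (fun k => N (k - 1) - L) (fun k => N (k - 1) + 1 + L)
      (fun k => by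
        have := hN' k
        show N (k - 1) + 1 + L < N (k + 1 - 1) - L
        rw [add_sub_cancel_right]
        omega)
      (fun k => by show N (k - 1) - L ≤ N (k - 1) + 1 + L; omega) w hw s
  have htot : ∑ k ∈ s, nm (Rs v E (on (N (k - 1) + 1) (N k) u)) ^ 2 ≤
      2 * nm f ^ 2 + (2 * (2 * Q ^ 2 * nm u ^ 2 + 32 / η ^ 2 * nm f ^ 2)
        + 2 * (2 * Q ^ 2 * nm u ^ 2 + 32 / η ^ 2 * nm f ^ 2)) := by
    refine (Finset.sum_le_sum fun k _ => hall k).trans ?_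
    simp only [Finset.sum_add_distrib, ← Finset.mul_sum]
    have e1 := s2 u hu
    have e2 := s2 f hf
    have e3 := s3 u hu
    have e4 := s3 f hf
    have hη2 : 0 ≤ 32 / η ^ 2 := by positivity
    have hQ2 : 0 ≤ 2 * Q ^ 2 := by positivity
    have m1 := mul_le_mul_of_nonneg_left e1 hQ2
    have m2 := mul_le_mul_of_nonneg_left e2 hη2
    have m3 := mul_le_mul_of_nonneg_left e3 hQ2
    have m4 := mul_le_mul_of_nonneg_left e4 hη2
    linarith
  -- the residual is small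
  have hfs : nm f ^ 2 ≤ η ^ 2 * Q ^ 2 / 400 * nm u ^ 2 := by
    have h1 : nm f ≤ η * Q / 20 * nm u := hε.trans (mul_le_mul_of_nonneg_right hε1 hupos.le)
    have h2 := pow_le_pow_left₀ (nm_nonneg f) h1 2
    calc nm f ^ 2 ≤ (η * Q / 20 * nm u) ^ 2 := h2
      _ = η ^ 2 * Q ^ 2 / 400 * nm u ^ 2 := by ring
  have hlt : ∑ k ∈ s, nm (Rs v E (on (N (k - 1) + 1) (N k) u)) ^ 2 <
      ∑ k ∈ s, 25 * Q ^ 2 * nm (on (N (k - 1) + 1) (N k) u) ^ 2 := by
    rw [← Finset.mul_sum, ← hs]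
    refine htot.trans_lt ?_
    have hη2 : 0 < η ^ 2 := by positivity
    have hη21 : η ^ 2 ≤ 1 := pow_le_one₀ hη.le hη1
    have e1 : 32 / η ^ 2 * nm f ^ 2 ≤ 32 / η ^ 2 * (η ^ 2 * Q ^ 2 / 400 * nm u ^ 2) :=
      mul_le_mul_of_nonneg_left hfs (by positivity)
    have e2 : 32 / η ^ 2 * (η ^ 2 * Q ^ 2 / 400 * nm u ^ 2) = 32 / 400 * (Q ^ 2 * nm u ^ 2) := by
      field_simp
    have hQu : 0 < Q ^ 2 * nm u ^ 2 := by positivity
    have e3 : η ^ 2 * Q ^ 2 / 400 * nm u ^ 2 ≤ 1 / 400 * (Q ^ 2 * nm u ^ 2) := by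
      have := mul_le_mul_of_nonneg_right hη21 hQu.le
      linarith
    nlinarith
  obtain ⟨k, _, hk⟩ := Finset.exists_lt_of_sum_lt hlt
  refine ⟨k, ?_, ?_⟩
  · intro h0
    rw [h0] at hk
    have hz : nm (0 : ℤ → ℂ) = 0 := nm_zero
    rw [hz] at hk
    have := sq_nonneg (nm (Rs v E (0 : ℤ → ℂ)))
    linarith
  · refine nm_le_of_sq_le (mul_nonneg (by positivity) (nm_nonneg _)) ?_
    refine hk.le.trans (le_of_eq ?_)
    ring

end AMO75
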