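import Pool.Agent.AMO75.Nrm

/-!
# [AMO75-WINC] sums over windows

`N` is strictly increasing, so the intervals `[N (k-1) + 1, N k]` are a partition of `ℤ` (every `n` is in exactly one of them; `N k → ± ∞`).
`sum_part`: the support of `u` is finite, so only finitely many windows meet it (e.g. `s = Finset.Icc (-B) B`, or the image of the support under the map
`n ↦` the index of its window); `nm_sq_eq_sum` on a large interval or on the support (`hu.toFinset`), `Finset.sum_fiberwise_of_maps_to`.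
`sum_disj`: the intervals `[A k, B k]` are pairwise disjoint.
-/

set_option autoImplicit false

open Real

namespace AMO75

namespace WinC

/-- inner sum when the intervals containing a point are unique -/
lemma inner_le (A B : ℤ → ℤ) (u : ℤ → ℂ) (s : Finset ℤ) (n : ℤ)
    (hun : ∀ k l, (A k ≤ n ∧ n ≤ B k) → (A l ≤ n ∧ n ≤ B l) → k = l) :
    ∑ k ∈ s, ‖on (A k) (B k) u n‖ ^ 2 ≤ ‖u n‖ ^ 2 := by
  by_cases h : ∃ k ∈ s, A k ≤ n ∧ n ≤ B k
  · obtain ⟨k, hk, hk'⟩ := h
    rw [Finset.sum_eq_single k]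
    · unfold on
      rw [if_pos hk']
    · intro l _ hlk
      unfold on
      rw [if_neg (fun hl => hlk (hun l k hl hk'))]
      simp
    · intro h0
      exact absurd hk h0
  · push Not at h
    rw [Finset.sum_eq_zero]
    · positivity
    · intro k hk
      unfold on
      rw [if_neg (fun hl => absurd hl.2 (not_le.2 (h k hk hl.1)))]
      simp

lemma inner_eq (A B : ℤ → ℤ) (u : ℤ → ℂ) (s : Finset ℤ) (n : ℤ)
    (hun : ∀ k l, (A k ≤ n ∧ n ≤ B k) → (A l ≤ n ∧ n ≤ B l) → k = l)
    (h : ∃ k ∈ s, A k ≤ n ∧ n ≤ B k) :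
    ∑ k ∈ s, ‖on (A k) (B k) u n‖ ^ 2 = ‖u n‖ ^ 2 := by
  obtain ⟨k, hk, hk'⟩ := h
  rw [Finset.sum_eq_single k]
  · unfold on
    rw [if_pos hk']
  · intro l _ hlk
    unfold on
    rw [if_neg (fun hl => hlk (hun l k hl hk'))]
    simp
  · intro h0
    exact absurd hk h0

lemma nm_on (a b : ℤ) (u : ℤ → ℂ) (hu : FS u) :
    nm (on a b u) ^ 2 = ∑ n ∈ hu.toFinset, ‖on a b u n‖ ^ 2 := by
  apply nm_sq_eq_sum
  intro n hn
  have h0 : u n = 0 := by
    by_contra h1
    exact hn (hu.mem_toFinset.2 h1)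
  unfold on
  rw [h0, ite_self]

lemma nm_self (u : ℤ → ℂ) (hu : FS u) : nm u ^ 2 = ∑ n ∈ hu.toFinset, ‖u n‖ ^ 2 := by
  apply nm_sq_eq_sum
  intro n hn
  by_contra h1
  exact hn (hu.mem_toFinset.2 h1)

lemma lt_of_lt (A B : ℤ → ℤ) (h : ∀ k, B k < A (k + 1)) (hAB : ∀ k, A k ≤ B k) (k l : ℤ)
    (hkl : k < l) : B k < A l := by
  have hmono : StrictMono A := by
    apply strictMono_int_of_lt_succ
    intro k
    exact lt_of_le_of_lt (hAB k) (h k)
  exact lt_of_lt_of_le (h k) (hmono.monotone (by omega))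

lemma uniq (A B : ℤ → ℤ) (h : ∀ k, B k < A (k + 1)) (hAB : ∀ k, A k ≤ B k) (n k l : ℤ)
    (hk : A k ≤ n ∧ n ≤ B k) (hl : A l ≤ n ∧ n ≤ B l) : k = l := by
  rcases lt_trichotomy k l with h1 | h1 | h1
  · have := lt_of_lt A B h hAB k l h1
    omega
  · exact h1
  · have := lt_of_lt A B h hAB l k h1
    omega

lemma exists_index (N : ℤ → ℤ) (hN : ∀ k, N k < N (k + 1)) (n : ℤ) :
    ∃ k, N (k - 1) + 1 ≤ n ∧ n ≤ N k := by
  have hmono : StrictMono N := strictMono_int_of_lt_succ hN
  have hup : ∀ j : ℕ, N 0 + j ≤ N j := by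
    intro j
    induction j with
    | zero => simp
    | succ j ih =>
      have := hN j
      push_cast
      omega
  have hdown : ∀ j : ℕ, N (-j) ≤ N 0 - j := by
    intro j
    induction j with
    | zero => simp
    | succ j ih =>
      have h1 := hN (-(j : ℤ) - 1)
      have h2 : -(j : ℤ) - 1 + 1 = -j := by ring
      rw [h2] at h1
      have h3 : -((j + 1 : ℕ) : ℤ) = -(j : ℤ) - 1 := by push_cast; ring
      rw [h3]
      push_cast
      omega
  obtain ⟨k, hk, hk'⟩ := Int.exists_least_of_bdd (P := fun k => n ≤ N k)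
    ⟨-((N 0 - n).toNat + 1 : ℕ), by
      intro k hk
      by_contra hcon
      push Not at hcon
      have h1 := hmono hcon
      have h2 := hdown ((N 0 - n).toNat + 1)
      push_cast at h1 h2
      have h3 := Int.self_le_toNat (N 0 - n)
      change n ≤ N k at hk
      omega⟩
    ⟨((n - N 0).toNat : ℕ), by
      have h2 := hup (n - N 0).toNat
      have h3 := Int.self_le_toNat (n - N 0)
      change n ≤ N _
      omega⟩
  refine ⟨k, ?_, hk⟩
  by_contra hcon
  have := hk' (k - 1) (by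
    change n ≤ N (k - 1)
    omega)
  omega

end WinC

theorem sum_part (N : ℤ → ℤ) (hN : ∀ k, N k < N (k + 1)) (u : ℤ → ℂ) (hu : FS u) :
    ∃ s : Finset ℤ, (∀ k ∉ s, on (N (k - 1) + 1) (N k) u = 0) ∧
      nm u ^ 2 = ∑ k ∈ s, nm (on (N (k - 1) + 1) (N k) u) ^ 2 := by
  classical
  choose f hf using WinC.exists_index N hN
  have hun : ∀ n k l, (N (k - 1) + 1 ≤ n ∧ n ≤ N k) → (N (l - 1) + 1 ≤ n ∧ n ≤ N l) → k = l :=
    fun n k l hk hl => WinC.uniq (fun k => N (k - 1) + 1) N
      (fun k => by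
        have h1 : k + 1 - 1 = k := by ring
        simp only [h1]
        omega)
      (fun k => by
        have h1 := hN (k - 1)
        have h2 : k - 1 + 1 = k := by ring
        rw [h2] at h1
        change N (k - 1) + 1 ≤ N k
        omega) n k l hk hl
  refine ⟨hu.toFinset.image f, ?_, ?_⟩
  · intro k hk
    funext n
    unfold on
    split_ifs with h
    · by_contra h0
      apply hk
      rw [Finset.mem_image]
      exact ⟨n, hu.mem_toFinset.2 h0, hun n _ _ (hf n) h⟩
    · rfl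
  · rw [WinC.nm_self u hu]
    simp only [WinC.nm_on _ _ u hu]
    rw [Finset.sum_comm]
    apply Finset.sum_congr rfl
    intro n hn
    symm
    exact WinC.inner_eq (fun k => N (k - 1) + 1) N u _ n (hun n)
      ⟨f n, Finset.mem_image_of_mem f hn, hf n⟩

theorem sum_disj (A B : ℤ → ℤ) (h : ∀ k, B k < A (k + 1)) (hAB : ∀ k, A k ≤ B k) (u : ℤ → ℂ) (hu : FS u)
    (s : Finset ℤ) : ∑ k ∈ s, nm (on (A k) (B k) u) ^ 2 ≤ nm u ^ 2 := by
  rw [WinC.nm_self u hu]
  simp only [WinC.nm_on _ _ u hu]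
  rw [Finset.sum_comm]
  apply Finset.sum_le_sum
  intro n _
  exact WinC.inner_le A B u s n (WinC.uniq A B h hAB n)

end AMO75
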