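import Pool.Agent.AMO75.Decay
import Pool.Agent.AMO75.WinB

/-!
# [AMO75-WINDOW] an approximate eigenfunction can be localized in a window between two barriers (assembly)

Write `v = lin (p/q + d) ω = vp p q (n ↦ ω + n d)` (`lin_eq_vp`), `x n = ω + n d`.
For `k : ℤ` let `N k = ⌊((k + σ) / q - ω) / d⌋` be the largest integer with `x (N k) ≤ (k + σ) / q`. On `[N k - K l, N k + 1 + K l]`
`|x n - (k + σ) / q| ≤ w` by `hK`; `decay`; `win_abs` with `L = K l`.
-/

set_option autoImplicit false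

open Real

namespace AMO75

theorem window (p : ℤ) (q : ℕ) (hq : 0 < q) (σ w η E d ω : ℝ) (hη : 0 < η) (hη1 : η ≤ 1) (hd0 : 0 < d)
    (hd : d ≤ η ^ 2 / 10000) (hw : w ≤ 1 / (4 * q)) (hB : HB p q σ w η E) (l : ℕ) (hl : 16 / η ≤ l) (K : ℕ)
    (hK : (K * l + 2) * d ≤ w) (u : ℤ → ℂ) (hu : FS u) (hu0 : u ≠ 0) (ε : ℝ)
    (hε : nm (Rs (lin ((p : ℝ) / q + d) ω) E u) ≤ ε * nm u) (hε1 : ε ≤ η * (1 / 2) ^ K / 20) :
    ∃ (k : ℤ) (u' : ℤ → ℂ), u' ≠ 0 ∧
      (∀ n, u' n ≠ 0 → (k - 1 + σ) / q < ω + n * d ∧ ω + n * d ≤ (k + σ) / q) ∧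
      nm (Rs (lin ((p : ℝ) / q + d) ω) E u') ≤ 5 * (1 / 2) ^ K * nm u' := by
  have hq0 : (0 : ℝ) < q := by exact_mod_cast hq
  obtain ⟨N, hNdef⟩ : ∃ N : ℤ → ℤ, N = fun k : ℤ => ⌊((k + σ) / q - ω) / d⌋ := ⟨_, rfl⟩
  have hN1 : ∀ k, ω + N k * d ≤ (k + σ) / q := by
    intro k
    have h1 : ((N k : ℤ) : ℝ) ≤ ((k + σ) / q - ω) / d := by
      rw [hNdef]
      exact Int.floor_le _
    rw [le_div_iff₀ hd0] at h1
    linarith
  have hN2 : ∀ k, (k + σ) / q < ω + (N k + 1) * d := by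
    intro k
    have h1 : ((k + σ) / q - ω) / d < ((N k : ℤ) : ℝ) + 1 := by
      rw [hNdef]
      exact Int.lt_floor_add_one _
    rw [div_lt_iff₀ hd0] at h1
    linarith
  have hKl0 : (0 : ℝ) ≤ (K : ℝ) * l := by positivity
  have hNN : ∀ k, N k + 2 * (K * l : ℕ) + 1 < N (k + 1) := by
    intro k
    have h1 := hN1 k
    have h2 := hN2 (k + 1)
    have h3 : (((k + 1 : ℤ) : ℝ) + σ) / q = (k + σ) / q + 1 / q := by
      push_cast
      ring
    rw [h3] at h2
    have h4 : 4 * w ≤ 1 / q := by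
      have : 1 / (4 * q : ℝ) = (1 / q) / 4 := by
        field_simp
      linarith
    have h5 : ((N k + 2 * (K * l : ℕ) + 1 : ℤ) : ℝ) * d < (N (k + 1) : ℝ) * d := by
      push_cast
      nlinarith
    exact_mod_cast lt_of_mul_lt_mul_right h5 hd0.le
  have hdec : ∀ k, nm (on (N k) (N k + 1) u) ≤ (1 / 2) ^ K * nm (on (N k - (K * l : ℕ)) (N k + 1 + (K * l : ℕ)) u)
      + 4 / η * nm (on (N k - (K * l : ℕ)) (N k + 1 + (K * l : ℕ)) (Rs (lin ((p : ℝ) / q + d) ω) E u)) := by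
    intro k
    have h1 := hN1 k
    have h2 := hN2 k
    have hdc := decay p q σ w η E d hη hη1 hd0 hd hB l hl (fun n => ω + n * d)
      (N k - (K * l : ℕ)) (N k + 1 + (K * l : ℕ)) (by
        intro n _ _
        have : ω + ((n + 1 : ℤ) : ℝ) * d - (ω + n * d) = d := by
          push_cast
          ring
        show |ω + ((n + 1 : ℤ) : ℝ) * d - (ω + n * d)| ≤ d
        rw [this, abs_of_pos hd0]) (by
        intro n hn1 hn2
        refine ⟨k, ?_⟩
        show |ω + n * d - (k + σ) / q| ≤ w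
        have h3 : ((N k : ℝ) - K * l) ≤ n := by exact_mod_cast hn1
        have h4 : (n : ℝ) ≤ N k + 1 + K * l := by exact_mod_cast hn2
        have h5 : ((N k : ℝ) - K * l) * d ≤ n * d := mul_le_mul_of_nonneg_right h3 hd0.le
        have h6 : (n : ℝ) * d ≤ (N k + 1 + K * l) * d := mul_le_mul_of_nonneg_right h4 hd0.le
        rw [abs_le]
        constructor
        · nlinarith
        · nlinarith) (lin ((p : ℝ) / q + d) ω) (by
        intro n _ _
        rw [lin_eq_vp]) u K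
    have e1 : N k - ((K * l : ℕ) : ℤ) + K * l = N k := by
      push_cast
      ring
    have e2 : N k + 1 + ((K * l : ℕ) : ℤ) - K * l = N k + 1 := by
      push_cast
      ring
    rw [e1, e2] at hdc
    exact hdc
  obtain ⟨k, hk1, hk2⟩ := win_abs (lin ((p : ℝ) / q + d) ω) E η hη hη1 N (K * l) K hNN u hu hu0 hdec ε hε hε1
  refine ⟨k, _, hk1, ?_, hk2⟩
  intro n hn
  have hn' : N (k - 1) + 1 ≤ n ∧ n ≤ N k := by
    by_contra hcon
    apply hn
    unfold on
    rw [if_neg hcon]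
  have h1 := hN1 k
  have h2 := hN2 (k - 1)
  have h3 : ((N (k - 1) : ℝ) + 1) ≤ n := by exact_mod_cast hn'.1
  have h4 : (n : ℝ) ≤ N k := by exact_mod_cast hn'.2
  have h5 : ((N (k - 1) : ℝ) + 1) * d ≤ n * d := mul_le_mul_of_nonneg_right h3 hd0.le
  have h6 : (n : ℝ) * d ≤ N k * d := mul_le_mul_of_nonneg_right h4 hd0.le
  push_cast at h2
  constructor
  · linarith
  · linarith

end AMO75
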